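import Pool.Agent.MP_9181f8_al.N.BtEig

namespace Pool.Agent.N9181

open scoped commutatorElement

section

variable {V : Type} [AddCommGroup V] [Module K V]

theorem xapplow_zero (S : Module.End K V) (c d : K) (hS : ∀ v, S (S v) = d • v)
    (hcd : c * c ≠ d) : ed S c = 0 := by
  have : S.eigenspace c = ⊥ := by
    rw [Submodule.eq_bot_iff]
    intro v hv
    rw [Module.End.mem_eigenspace_iff] at hv
    have h1 := hS v
    rw [hv, map_smul, hv, smul_smul] at h1
    have h2 : (c * c - d) • v = 0 := by rw [sub_smul, h1, sub_self]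
    rcases smul_eq_zero.1 h2 with h | h
    · exact absurd (sub_eq_zero.1 h) hcd
    · exact h
  unfold ed
  rw [this, finrank_bot]

theorem xapplow_full (S : Module.End K V) (c : K) (hS : ∀ v, S v = c • v) :
    ed S c = Module.finrank K V := by
  have : S.eigenspace c = ⊤ := by
    rw [Submodule.eq_top_iff']
    intro v
    rw [Module.End.mem_eigenspace_iff]
    exact hS v
  unfold ed
  rw [this, finrank_top]

theorem xapplow_congr (S T : Module.End K V) (a c : K) (ha : a ≠ 0) (hS : ∀ v, S v = a • T v) :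
    ed S (a * c) = ed T c := by
  have : S.eigenspace (a * c) = T.eigenspace c := by
    ext v
    rw [Module.End.mem_eigenspace_iff, Module.End.mem_eigenspace_iff, hS, mul_smul]
    exact (smul_right_injective V ha).eq_iff
  unfold ed
  rw [this]

theorem xapplow_split [Module.Finite K V] (T : Module.End K V) (hT : ∀ v, T (T v) = -v) :
    ed T 5 + ed T 8 = Module.finrank K V := by
  unfold ed
  apply Submodule.finrank_add_eq_of_isCompl
  constructor
  · rw [Submodule.disjoint_def]
    intro v h5 h8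
    rw [Module.End.mem_eigenspace_iff] at h5 h8
    have h2 : ((5 : K) - 8) • v = 0 := by rw [sub_smul, ← h5, ← h8, sub_self]
    rcases smul_eq_zero.1 h2 with h | h
    · exact absurd h (by decide)
    · exact h
  · rw [codisjoint_iff, Submodule.eq_top_iff']
    intro v
    have e25 : (5 : K) * 5 = -1 := by decide
    have e40 : (8 : K) * 5 = 1 := by decide
    have e8 : (8 : K) = -5 := by decide
    have e10 : (4 : K) * (5 + 5) = 1 := by decide
    refine Submodule.mem_sup.2 ⟨(4 : K) • (T v + (5 : K) • v), ?_,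
      (4 : K) • ((5 : K) • v - T v), ?_, ?_⟩
    · apply Submodule.smul_mem
      rw [Module.End.mem_eigenspace_iff, map_add, hT, map_smul, smul_add, smul_smul, e25,
        neg_one_smul, add_comm]
    · apply Submodule.smul_mem
      rw [Module.End.mem_eigenspace_iff, map_sub, hT, map_smul, smul_sub, smul_smul, e40,
        one_smul, e8, neg_smul]
      abel
    · rw [← smul_add]
      have : T v + (5 : K) • v + ((5 : K) • v - T v) = ((5 : K) + 5) • v := by
        rw [add_smul]; abel
      rw [this, smul_smul, e10, one_smul]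

theorem xapplow_pow3 (i : ℕ) : (3 : K) ^ i = 3 ^ (i % 3) := by
  have h3 : (3 : K) ^ 3 = 1 := by decide
  conv_lhs => rw [← Nat.div_add_mod i 3, pow_add, pow_mul, h3, one_pow, one_mul]

theorem xapplow_scal {H : Type} [Group H] (ρ : Representation K H V) (z : H)
    (hz : ∀ v, ρ z v = (3 : K) • v) (i : ℕ) (v : V) : ρ (z ^ i) v = (3 : K) ^ i • v := by
  induction i generalizing v with
  | zero => simp
  | succ i ih => rw [pow_succ, map_mul, Module.End.mul_apply, hz, ih, smul_smul, pow_succ]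

theorem xapplow_prod {H : Type} [Group H] (ρ : Representation K H V) (z y : H)
    (hz : ∀ v, ρ z v = (3 : K) • v) (i : ℕ) (v : V) :
    ρ ((y * z) ^ i) v = (3 : K) ^ i • ((ρ y) ^ i) v := by
  induction i generalizing v with
  | zero => simp
  | succ i ih =>
    rw [pow_succ, map_mul, Module.End.mul_apply, ih, map_mul, Module.End.mul_apply, hz,
      map_smul, map_smul, smul_smul, pow_succ, pow_succ, Module.End.mul_apply]

theorem xapplow_odd (T : Module.End K V) (hT : T * T = -1) (i : ℕ) (hi : Odd i) (v : V) :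
    (T ^ i) ((T ^ i) v) = -v := by
  rw [← Module.End.mul_apply, ← pow_add, ← two_mul, pow_mul, pow_two, hT, hi.neg_one_pow]
  simp

theorem xapplow_seven (T : Module.End K V) (hT : T * T = -1) (j : ℕ) (hj : j % 4 = 3) :
    T ^ j = -T := by
  have h4 : T ^ 4 = 1 := by
    have : T ^ 4 = (T * T) * (T * T) := by simp [pow_succ, mul_assoc]
    rw [this, hT]; simp
  have h3 : T ^ 3 = -T := by
    have : T ^ 3 = (T * T) * T := by simp [pow_succ]
    rw [this, hT]; simp
  rw [← Nat.div_add_mod j 4, pow_add, pow_mul, h4, one_pow, one_mul, hj, h3]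

theorem xapplow_dvd {H : Type} [Group H] [Finite H] (x : H) (p k : ℕ) (hp : p.Prime)
    (h1 : x ^ p ^ k ≠ 1) (h2 : x ^ p ^ (k + 1) = 1) : p ^ (k + 1) ∣ Nat.card H := by
  have := Fact.mk hp
  rw [← orderOf_eq_prime_pow h1 h2]
  exact orderOf_dvd_natCard x

end

theorem xapplow_m {V : Type} [AddCommGroup V] [Module K V] [Module.Finite K V]
    {H : Type} [Group H] [Finite H] (h13 : ¬ 13 ∣ Nat.card H) (ρ : Representation K H V)
    (hV : ∃ v : V, v ≠ 0) (hinj : Function.Injective ρ) (z : H)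
    (hz : ∀ v, ρ z v = (3 : K) • v) (N m : ℕ) (hNM : NM H N m) (hU : HU ρ N m) :
    3 ∣ N ∧ m % 3 = 2 := by
  obtain ⟨v0, hv0⟩ := hV
  have hz3 : z ^ 3 ^ (0 + 1) = 1 := by
    apply hinj
    ext v
    have h3 : (3 : K) ^ 3 ^ (0 + 1) = 1 := by decide
    rw [xapplow_scal ρ z hz, h3, map_one]
    simp
  have hz1 : z ^ 3 ^ 0 ≠ 1 := by
    intro h
    have h1 := hz v0
    rw [pow_zero, pow_one] at h
    rw [h, map_one, Module.End.one_apply] at h1
    have h2 : ((3 : K) - 1) • v0 = 0 := by rw [sub_smul, ← h1, one_smul, sub_self]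
    rcases smul_eq_zero.1 h2 with h | h
    · exact absurd h (by decide)
    · exact hv0 h
  have h3N : 3 ∣ N := by
    have := xapplow_dvd z 3 0 (by norm_num) hz1 hz3
    exact dvd_trans (by simpa using this) hNM.1
  refine ⟨h3N, ?_⟩
  have hm0 : m % 3 ≠ 0 := by
    intro h
    have h1 : 3 ∣ Nat.gcd m N := Nat.dvd_gcd (Nat.dvd_of_mod_eq_zero h) h3N
    rw [hNM.2.2] at h1
    omega
  have hm1 : m % 3 ≠ 1 := by
    intro h
    obtain ⟨j, hj, hj2⟩ := exists_j 3 N 2 h3N hNM.2.1 (by norm_num)
    have hj3 : j % 3 = 2 := hj2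
    have hjm : (j * m) % 3 = 2 := by rw [Nat.mul_mod, hj3, h]
    have key := ed_of_U h13 ρ N m hU z j hj 3
    have z2 : ∀ i, i % 3 = 2 → ed (ρ (z ^ i)) 3 = 0 := by
      intro i hi
      apply xapplow_zero _ 3 (9 * 9)
      · intro v
        have h9 : (3 : K) ^ 2 = 9 := by decide
        rw [xapplow_scal ρ z hz, xapplow_scal ρ z hz, xapplow_pow3, hi, h9, smul_smul]
      · decide
    have z1 : ed (ρ (z ^ m)) 3 = Module.finrank K V := by
      apply xapplow_full
      intro v
      rw [xapplow_scal ρ z hz, xapplow_pow3, h, pow_one]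
    rw [z2 j hj3, z2 _ hjm, z1, xapplow_full _ 3 hz] at key
    have hpos : 0 < Module.finrank K V := Module.finrank_pos_iff_exists_ne_zero.2 ⟨v0, hv0⟩
    omega
  omega

theorem xapplow_bal {V : Type} [AddCommGroup V] [Module K V] [Module.Finite K V]
    {H : Type} [Group H] [Finite H] (h13 : ¬ 13 ∣ Nat.card H) (ρ : Representation K H V)
    (hV : ∃ v : V, v ≠ 0) (hinj : Function.Injective ρ) (z : H)
    (hz : ∀ v, ρ z v = (3 : K) • v) (N m : ℕ) (hNM : NM H N m) (hU : HU ρ N m)
    (y : H) (hy : ρ (y * y) = -1) : Module.finrank K V = 2 * ed (ρ y) 5 := by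
  obtain ⟨h3N, hm3⟩ := xapplow_m h13 ρ hV hinj z hz N m hNM hU
  obtain ⟨v0, hv0⟩ := hV
  have hT : ρ y * ρ y = -1 := by rw [← map_mul, hy]
  have hy4 : y ^ 2 ^ (1 + 1) = 1 := by
    apply hinj
    have : y ^ 2 ^ (1 + 1) = (y * y) * (y * y) := by simp [pow_succ, mul_assoc]
    rw [this, map_mul, hy, map_one]
    simp
  have hy2 : y ^ 2 ^ 1 ≠ 1 := by
    intro h
    rw [pow_one, pow_two] at h
    rw [h, map_one] at hy
    have h1 : v0 = -v0 := by simpa using congrArg (fun f : Module.End K V => f v0) hy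
    have h2 : ((1 : K) + 1) • v0 = 0 := by
      rw [add_smul, one_smul]
      exact add_eq_zero_iff_eq_neg.2 h1
    rcases smul_eq_zero.1 h2 with h | h
    · exact absurd h (by decide)
    · exact hv0 h
  have h4N : 4 ∣ N := by
    have := xapplow_dvd y 2 1 (by norm_num) hy2 hy4
    exact dvd_trans (by simpa using this) hNM.1
  have h12 : 12 ∣ N := by omega
  have hmo : m % 2 = 1 := by
    by_contra h
    have h1 : 2 ∣ Nat.gcd m N := Nat.dvd_gcd (by omega) (by omega)
    rw [hNM.2.2] at h1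
    omega
  obtain ⟨j, hj, hj7⟩ := exists_j 12 N 7 h12 hNM.2.1 (by norm_num)
  have hj12 : j % 12 = 7 := hj7
  have key := ed_of_U h13 ρ N m hU (y * z) j hj 2
  have z2 : ∀ i, i % 3 = 2 → i % 2 = 1 → ed (ρ ((y * z) ^ i)) 2 = 0 := by
    intro i hi ho
    apply xapplow_zero _ 2 (-(9 * 9))
    · intro v
      have h9 : (3 : K) ^ 2 = 9 := by decide
      rw [xapplow_prod ρ z y hz, xapplow_prod ρ z y hz, xapplow_pow3, hi, h9, map_smul,
        xapplow_odd _ hT i (Nat.odd_iff.2 ho), smul_smul, smul_neg, neg_smul]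
    · decide
  have hj3 : j % 3 = 1 := by omega
  have hj2 : j % 2 = 1 := by omega
  have hjm3 : (j * m) % 3 = 2 := by rw [Nat.mul_mod, hj3, hm3]
  have hjm2 : (j * m) % 2 = 1 := by rw [Nat.mul_mod, hj2, hmo]
  have e5 : ed (ρ (y * z)) 2 = ed (ρ y) 5 := by
    have h2 : (2 : K) = 3 * 5 := by decide
    rw [h2]
    apply xapplow_congr _ _ _ _ (by decide)
    intro v
    rw [map_mul, Module.End.mul_apply, hz, map_smul]
  have e8 : ed (ρ ((y * z) ^ j)) 2 = ed (ρ y) 8 := by
    have h2 : (2 : K) = -3 * 8 := by decide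
    rw [h2]
    apply xapplow_congr _ _ _ _ (by decide)
    intro v
    rw [xapplow_prod ρ z y hz, xapplow_pow3, hj3, pow_one, xapplow_seven _ hT j (by omega)]
    simp
  rw [z2 _ hjm3 hjm2, z2 _ hm3 hmo, e5, e8] at key
  have hs := xapplow_split (ρ y) (fun v => by
    rw [← Module.End.mul_apply, hT]; simp)
  omega

theorem xapplow_sq {V : Type} [AddCommGroup V] [Module K V]
    {H : Type} [Group H] (ρ : Representation K H V) (hF : HFree ρ) (y : H) (v : V) (hv : v ≠ 0)
    (hy : ρ y v = (5 : K) • v) : ρ (y * y) = -1 := by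
  have e25 : (5 : K) * 5 = -1 := by decide
  have h2 : ρ (y * y) v = -v := by
    rw [map_mul, Module.End.mul_apply, hy, map_smul, hy, smul_smul, e25, neg_one_smul]
  have h4 : ρ ((y * y) * (y * y)) = 1 := by
    apply hF _ v hv
    rw [map_mul, Module.End.mul_apply, h2, map_neg, h2, neg_neg]
  have hne : ρ (y * y) ≠ 1 := by
    intro h
    rw [h, Module.End.one_apply] at h2
    have h3 : ((1 : K) + 1) • v = 0 := by
      rw [add_smul, one_smul]
      exact add_eq_zero_iff_eq_neg.2 h2
    rcases smul_eq_zero.1 h3 with h | h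
    · exact absurd h (by decide)
    · exact hv h
  ext w
  have hw : ρ (y * y) (ρ (y * y) w + w) = ρ (y * y) w + w := by
    rw [map_add, ← Module.End.mul_apply, ← map_mul, h4, Module.End.one_apply, add_comm]
  by_contra hc
  apply hne
  apply hF _ _ _ hw
  intro h0
  apply hc
  simpa using add_eq_zero_iff_eq_neg.1 h0

theorem appLow {V : Type} [AddCommGroup V] [Module K V] [Module.Finite K V]
    {H : Type} [Group H] [Finite H] (h13 : ¬ 13 ∣ Nat.card H) (ρ : Representation K H V) (hV : ∃ v : V, v ≠ 0) (hinj : Function.Injective ρ)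
    (hF : HFree ρ) (hz : Scal ρ) (N m : ℕ) (hNM : NM H N m) (hU : HU ρ N m) (hE : HEP ρ 5) :
    ∃ k : ℕ, 0 < k ∧ Module.finrank K V = 2 * k ∧
      13 ^ k + 1 ≤ Nat.card {y : H // ρ (y * y) = -1} := by
  classical
  obtain ⟨z, hz⟩ := hz
  have hbal := xapplow_bal h13 ρ hV hinj z hz N m hNM hU
  obtain ⟨v0, hv0⟩ := hV
  obtain ⟨y0, hy0⟩ := hE v0
  have hk := hbal y0 (xapplow_sq ρ hF y0 v0 hv0 hy0)
  have hpos : 0 < Module.finrank K V := Module.finrank_pos_iff_exists_ne_zero.2 ⟨v0, hv0⟩
  set k := ed (ρ y0) 5 with hkdef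
  have hkpos : 0 < k := by omega
  refine ⟨k, hkpos, hk, ?_⟩
  have : Finite V := (card_sub (⊤ : Submodule K V)).1
  have := Fintype.ofFinite V
  have := Fintype.ofFinite {y : H // ρ (y * y) = -1}
  have hcV : Fintype.card V = 13 ^ (2 * k) := by
    have := (card_sub (⊤ : Submodule K V)).2
    rw [finrank_top, hk, Nat.card_congr (Submodule.topEquiv.toEquiv), Nat.card_eq_fintype_card]
      at this
    exact this
  let E : {y : H // ρ (y * y) = -1} → Finset V := fun y =>
    (Finset.univ.filter (fun v => v ∈ Module.End.eigenspace (ρ y.1) 5)).erase 0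
  have hE1 : ∀ y, (E y).card = 13 ^ k - 1 := by
    intro y
    have h1 := (card_sub (Module.End.eigenspace (ρ y.1) 5)).2
    have h2 : Module.finrank K (Module.End.eigenspace (ρ y.1) 5) = k := by
      have := hbal y.1 y.2
      unfold ed at this
      omega
    rw [h2, Nat.card_eq_fintype_card, Fintype.card_subtype] at h1
    rw [Finset.card_erase_of_mem (by simp), h1]
  have hcov : (Finset.univ : Finset V).erase 0 ⊆ Finset.univ.biUnion E := by
    intro v hv
    have hv0 : v ≠ 0 := (Finset.mem_erase.1 hv).1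
    obtain ⟨y, hy⟩ := hE v
    refine Finset.mem_biUnion.2 ⟨⟨y, xapplow_sq ρ hF y v hv0 hy⟩, Finset.mem_univ _, ?_⟩
    refine Finset.mem_erase.2 ⟨hv0, Finset.mem_filter.2 ⟨Finset.mem_univ _, ?_⟩⟩
    exact Module.End.mem_eigenspace_iff.2 hy
  have hle := (Finset.card_le_card hcov).trans Finset.card_biUnion_le
  rw [Finset.card_erase_of_mem (Finset.mem_univ _), Finset.card_univ, hcV,
    Finset.sum_congr rfl (fun y _ => hE1 y), Finset.sum_const, Finset.card_univ, smul_eq_mul]
    at hle
  rw [Nat.card_eq_fintype_card]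
  have h1 : 1 < 13 ^ k := Nat.one_lt_pow hkpos.ne' (by norm_num)
  obtain ⟨a, ha⟩ : ∃ a, 13 ^ k = a + 1 := ⟨13 ^ k - 1, by omega⟩
  have ha0 : 0 < a := by omega
  rw [two_mul, pow_add, ha] at hle
  rw [ha]
  have h2 : (a + 1) * (a + 1) - 1 = (a + 1 + 1) * a := by
    have : (a + 1) * (a + 1) = (a + 1 + 1) * a + 1 := by ring
    omega
  rw [h2, Nat.add_sub_cancel] at hle
  exact Nat.le_of_mul_le_mul_right hle ha0

end Pool.Agent.N9181
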