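import Pool.Agent.MP_9181f8_al.N.IsoA

namespace Pool.Agent.N9181

open scoped commutatorElement

section

variable {U Z : Type} [CommGroup U] [CommGroup Z]

/-- the elements killed by `m` -/
abbrev xisobK (U : Type) [CommGroup U] (m : ℕ) : Subgroup U := (powMonoidHom m : U →* U).ker

theorem xisob_mem {m : ℕ} {x : U} : x ∈ xisobK U m ↔ x ^ m = 1 := Iff.rfl

theorem xisob_one {G : Type} [Group G] {m n : ℕ} (h : m.Coprime n) {x : G} (h1 : x ^ m = 1)
    (h2 : x ^ n = 1) : x = 1 := by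
  rw [← orderOf_eq_one_iff, ← Nat.dvd_one, ← h]
  exact Nat.dvd_gcd (orderOf_dvd_of_pow_eq_one h1) (orderOf_dvd_of_pow_eq_one h2)

theorem xisob_prime [Finite U] {m q : ℕ} (hq : q.Prime) (h : q ∣ Nat.card (xisobK U m)) :
    q ∣ m := by
  have := Fact.mk hq
  obtain ⟨x, hx⟩ := exists_prime_orderOf_dvd_card' q h
  rw [← hx, orderOf_dvd_iff_pow_eq_one]
  exact Subtype.ext x.2

theorem xisob_split [Finite U] {m n : ℕ} (h : m.Coprime n) (hc : Nat.card U = m * n) :
    Nat.card (xisobK U m) = m ∧ Nat.card (xisobK U n) = n ∧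
      ∀ x : U, ∃ y ∈ xisobK U m, ∃ z ∈ xisobK U n, y * z = x := by
  have h0 : ∀ x : U, x ^ (m * n) = 1 := fun x => hc ▸ pow_card_eq_one'
  let f : U → xisobK U m × xisobK U n := fun x =>
    (⟨x ^ n, xisob_mem.mpr (by rw [← pow_mul, mul_comm, h0])⟩,
      ⟨x ^ m, xisob_mem.mpr (by rw [← pow_mul, h0])⟩)
  let g : xisobK U m × xisobK U n → U := fun x => x.1 * x.2
  have hf : Function.Injective f := fun x y e => by
    have e1 : x ^ n = y ^ n := congrArg (fun t => (t.1 : U)) e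
    have e2 : x ^ m = y ^ m := congrArg (fun t => (t.2 : U)) e
    rw [← div_eq_one]
    exact xisob_one h (by rw [div_pow, e2, div_self']) (by rw [div_pow, e1, div_self'])
  have hg : Function.Injective g := fun x y e => by
    have e0 : (x.1 : U) * x.2 = y.1 * y.2 := e
    have e1 : (x.1 : U) / y.1 = y.2 / x.2 := by rw [div_eq_div_iff_mul_eq_mul, e0, mul_comm]
    have e2 : (x.1 : U) / y.1 = 1 := xisob_one h (div_mem x.1.2 y.1.2)
      (e1 ▸ div_mem y.2.2 x.2.2 : (x.1 : U) / y.1 ∈ xisobK U n)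
    exact Prod.ext (Subtype.ext (div_eq_one.mp e2)) (Subtype.ext (div_eq_one.mp (e1 ▸ e2)).symm)
  have hp : Nat.card (xisobK U m × xisobK U n) = Nat.card U :=
    le_antisymm (Nat.card_le_card_of_injective g hg) (Nat.card_le_card_of_injective f hf)
  have hs : Function.Surjective g := (hg.bijective_of_nat_card_le hp.ge).2
  rw [Nat.card_prod, hc] at hp
  have c1 : (Nat.card (xisobK U m)).Coprime n := Nat.coprime_of_dvd fun q hq a b =>
    hq.one_lt.ne' (Nat.eq_one_of_dvd_coprimes h (xisob_prime hq a) b)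
  have c2 : (Nat.card (xisobK U n)).Coprime m := Nat.coprime_of_dvd fun q hq a b =>
    hq.one_lt.ne' (Nat.eq_one_of_dvd_coprimes h b (xisob_prime hq a))
  have d1 : Nat.card (xisobK U m) ∣ m := c1.dvd_of_dvd_mul_right ⟨_, hp.symm⟩
  have d2 : m ∣ Nat.card (xisobK U m) := c2.symm.dvd_of_dvd_mul_right ⟨_, hp⟩
  have e1 := Nat.dvd_antisymm d1 d2
  have hm : 0 < m := e1 ▸ Nat.card_pos
  refine ⟨e1, Nat.eq_of_mul_eq_mul_left hm (by rw [← hp, e1]), fun x => ?_⟩
  obtain ⟨y, hy⟩ := hs x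
  exact ⟨y.1, y.1.2, y.2, y.2.2, hy⟩

/-- the restricted pairing -/
def xisobB (B : U →* U →* Z) (m : ℕ) : xisobK U m →* xisobK U m →* Z :=
  (B.comp (xisobK U m).subtype).compl₂ (xisobK U m).subtype

theorem xisob_symp (B : U →* U →* Z) (hB : Symp B) {m n : ℕ} (h : m.Coprime n)
    (hd : ∀ x : U, ∃ y ∈ xisobK U m, ∃ z ∈ xisobK U n, y * z = x) : Symp (xisobB B m) := by
  refine ⟨fun x => hB.1 x, fun x hx => Subtype.ext (hB.2 x fun w => ?_)⟩
  obtain ⟨y, hy, z, hz, rfl⟩ := hd w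
  have h1 : B x y = 1 := hx ⟨y, hy⟩
  have h2 : B x z = 1 := xisob_one h
    (by rw [← MonoidHom.pow_apply, ← map_pow, xisob_mem.mp x.2, map_one, MonoidHom.one_apply])
    (by rw [← map_pow, xisob_mem.mp hz, map_one])
  rw [map_mul, h1, h2, one_mul]

theorem xisob_map {m : ℕ} (s : MulAut U) (x : xisobK U m) : s x ∈ xisobK U m :=
  xisob_mem.mpr (by rw [← map_pow, xisob_mem.mp x.2, map_one])

/-- the restricted isometry -/
def xisobR (B : U →* U →* Z) (m : ℕ) (s : Iso B) : Iso (xisobB B m) :=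
  ⟨{ toFun := fun x => ⟨s.1 x, xisob_map _ x⟩
     invFun := fun x => ⟨s.1⁻¹ x, xisob_map _ x⟩
     left_inv := fun x => Subtype.ext (s.1.symm_apply_apply x)
     right_inv := fun x => Subtype.ext (s.1.apply_symm_apply x)
     map_mul' := fun x y => Subtype.ext (map_mul s.1 (x : U) y) }, fun x y => s.2 x y⟩

theorem xisob_le [Finite U] (B : U →* U →* Z) {m n : ℕ}
    (hd : ∀ x : U, ∃ y ∈ xisobK U m, ∃ z ∈ xisobK U n, y * z = x) :
    Nat.card (Iso B) ≤ Nat.card (Iso (xisobB B m)) * Nat.card (Iso (xisobB B n)) := by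
  rw [← Nat.card_prod]
  refine Nat.card_le_card_of_injective (fun s => (xisobR B m s, xisobR B n s)) fun s t e => ?_
  refine Subtype.ext (MulEquiv.ext fun x => ?_)
  obtain ⟨y, hy, z, hz, rfl⟩ := hd x
  have e1 : s.1 y = t.1 y := congrArg (fun r => (r.1.1 ⟨y, hy⟩ : U)) e
  have e2 : s.1 z = t.1 z := congrArg (fun r => (r.2.1 ⟨z, hz⟩ : U)) e
  rw [map_mul, map_mul, e1, e2]

theorem xisob_half [Finite U] (B : U →* U →* Z) (h3 : 3 ∣ Nat.card U) :
    2 * Nat.card {s : Iso B // s ^ 3 = 1} ≤ Nat.card (Iso B) := by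
  let ν : Iso B := ⟨MulEquiv.inv U, fun x y => by
    show B x⁻¹ y⁻¹ = B x y
    rw [map_inv, map_inv, MonoidHom.inv_apply, inv_inv]⟩
  have hc : ∀ s : Iso B, Commute s ν := fun s =>
    Subtype.ext (MulEquiv.ext fun x => map_inv s.1 x)
  have h2 : ν * ν = 1 := Subtype.ext (MulEquiv.ext fun x => inv_inv x)
  have h1 : ν ≠ 1 := fun e => by
    have := Fact.mk Nat.prime_three
    obtain ⟨x, hx⟩ := exists_prime_orderOf_dvd_card' 3 h3
    have e1 : x⁻¹ = x := congrArg (fun r : Iso B => r.1 x) e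
    have e2 : orderOf x ∣ 2 := orderOf_dvd_of_pow_eq_one (by
      rw [sq]; nth_rewrite 1 [← e1]; exact inv_mul_cancel x)
    rw [hx] at e2
    omega
  have h4 : ∀ s t : {s : Iso B // s ^ 3 = 1}, s.1 ≠ t.1 * ν := fun s t e => by
    have e1 := s.2
    rw [e, (hc _).mul_pow, t.2, one_mul, pow_succ, sq, h2, one_mul] at e1
    exact h1 e1
  rw [two_mul, ← Nat.card_sum]
  refine Nat.card_le_card_of_injective (Sum.elim (fun s => s.1) fun s => s.1 * ν) ?_
  rintro (s | s) (t | t) e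
  · exact congrArg _ (Subtype.ext e)
  · exact absurd e (h4 s t)
  · exact absurd e.symm (h4 t s)
  · exact congrArg _ (Subtype.ext (mul_right_cancel e))

end

theorem iso_bound {U Z : Type} [CommGroup U] [Finite U] [CommGroup Z] [Finite Z] [IsCyclic Z]
    (B : U →* U →* Z) (hB : Symp B) (e : ℕ) (he : Nat.card U = e ^ 2) :
    IB e (Nat.card (Iso B)) ∧
      (3 ∣ e → 2 * Nat.card {s : Iso B // s ^ 3 = 1} ≤ Nat.card (Iso B)) := by
  refine ⟨⟨he ▸ iso_chain B hB 2 le_rfl fun q hq _ => hq.two_le, ?_⟩,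
    fun h => xisob_half B (he ▸ h.trans (dvd_pow_self e two_ne_zero))⟩
  have h0 : e ≠ 0 := by
    rintro rfl
    exact Nat.card_pos.ne' he
  have hc : ((3 ^ e.factorization 3) ^ 2).Coprime ((e / 3 ^ e.factorization 3) ^ 2) :=
    ((Nat.coprime_ordCompl Nat.prime_three h0).pow_left _).pow 2 2
  obtain ⟨h1, h2, h3⟩ := xisob_split (U := U) hc
    (by rw [he, ← mul_pow, Nat.ordProj_mul_ordCompl_eq_self])
  have h4 : ∀ x : U, ∃ y ∈ xisobK U ((e / 3 ^ e.factorization 3) ^ 2),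
      ∃ z ∈ xisobK U ((3 ^ e.factorization 3) ^ 2), y * z = x := fun x => by
    obtain ⟨y, hy, z, hz, h⟩ := h3 x
    exact ⟨z, hz, y, hy, by rw [mul_comm, h]⟩
  refine (xisob_le B h3).trans (Nat.mul_le_mul ?_ ?_)
  · refine (iso_chain _ (xisob_symp B hB hc h3) 3 (by norm_num) fun q hq hd => ?_).trans_eq
      (by rw [h1])
    rw [h1] at hd
    exact ((Nat.prime_dvd_prime_iff_eq hq Nat.prime_three).mp
      (hq.dvd_of_dvd_pow (hq.dvd_of_dvd_pow hd))).ge
  · exact (iso_chain _ (xisob_symp B hB hc.symm h4) 2 le_rfl fun q hq _ => hq.two_le).trans_eq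
      (by rw [h2])

end Pool.Agent.N9181
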