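import Pool.Agent.MP_9181f8_al.N.SDPair
import Pool.Agent.MP_9181f8_al.N.IsoB

namespace Pool.Agent.N9181

open scoped commutatorElement

theorem xcount_three {H : Type} [Group H] [Finite H] (A : Subgroup H) (hA : IsCyclic A) (c : H)
    (s : Finset H) (hs : ∀ d ∈ s, c⁻¹ * d ∈ A ∧ (c⁻¹ * d) ^ 3 = 1) : s.card ≤ 3 := by
  classical
  have := Fintype.ofFinite A
  refine le_trans ?_ (IsCyclic.card_pow_eq_one_le (α := A) (n := 3) (by norm_num))
  refine Finset.card_le_card_of_injOn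
    (fun d => if h : c⁻¹ * d ∈ A then (⟨c⁻¹ * d, h⟩ : A) else 1) (fun d hd => ?_) ?_
  · have h := hs d hd
    simp only [Finset.coe_filter, Finset.mem_univ, true_and, Set.mem_ofPred_eq, dif_pos h.1]
    exact Subtype.ext h.2
  · intro d hd d' hd' h
    simp only [dif_pos (hs d hd).1, dif_pos (hs d' hd').1, Subtype.mk.injEq] at h
    exact mul_left_cancel h

theorem xcount_fib {H T U : Type} [Group H] [Finite H] [Group T] [Finite T] [Group U] [Finite U]
    (A F C : Subgroup H) (hA : IsCyclic A) (π : F →* U) (hπ : ∀ x : F, π x = 1 ↔ (x : H) ∈ A)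
    (κ : C →* T) (hκ : ∀ c, κ c = 1 ↔ (c : H) ∈ F) (P : H → Prop) (Q : T → Prop)
    (hPQ : ∀ c : C, P c → Q (κ c))
    (h3 : ∀ c ∈ C, P c → ∀ x ∈ A, P (c * x) → x ^ 3 = 1) :
    Nat.card {c : H // c ∈ C ∧ P c} ≤ 3 * Nat.card U * Nat.card {s : T // Q s} := by
  classical
  have := Fintype.ofFinite H
  have := Fintype.ofFinite T
  have := Fintype.ofFinite U
  rw [Nat.card_eq_fintype_card, Nat.card_eq_fintype_card, Nat.card_eq_fintype_card,
    Fintype.card_subtype, Fintype.card_subtype]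
  refine Finset.card_le_mul_card_image_of_maps_to
    (f := fun c => if h : c ∈ C then κ ⟨c, h⟩ else 1) (fun c hc => ?_) _ fun s _ => ?_
  · obtain ⟨h1, h2⟩ := (Finset.mem_filter.1 hc).2
    simp only [dif_pos h1, Finset.mem_filter, Finset.mem_univ, true_and]
    exact hPQ ⟨c, h1⟩ h2
  set S := Finset.filter (fun a => (if h : a ∈ C then κ ⟨a, h⟩ else 1) = s)
    (Finset.univ.filter fun c : H => c ∈ C ∧ P c) with hS
  have hm : ∀ c ∈ S, ∃ h : c ∈ C, P c ∧ κ ⟨c, h⟩ = s := fun c hc => by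
    obtain ⟨h0, h3⟩ := Finset.mem_filter.1 hc
    obtain ⟨h1, h2⟩ := (Finset.mem_filter.1 h0).2
    exact ⟨h1, h2, by rwa [dif_pos h1] at h3⟩
  rcases S.eq_empty_or_nonempty with h | ⟨c, hc⟩
  · simp [h]
  have hF : ∀ d ∈ S, c⁻¹ * d ∈ F := fun d hd => by
    obtain ⟨h1, -, h2⟩ := hm c hc
    obtain ⟨h3, -, h4⟩ := hm d hd
    exact (hκ ((⟨c, h1⟩ : C)⁻¹ * ⟨d, h3⟩)).1 (by rw [map_mul, map_inv, h2, h4, inv_mul_cancel])
  refine Finset.card_le_mul_card_image_of_maps_to (t := Finset.univ)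
    (f := fun d => if h : c⁻¹ * d ∈ F then π ⟨c⁻¹ * d, h⟩ else 1)
    (fun _ _ => Finset.mem_univ _) _ fun u _ => ?_
  rcases (S.filter fun d => (if h : c⁻¹ * d ∈ F then π ⟨c⁻¹ * d, h⟩ else 1) = u).eq_empty_or_nonempty
    with h | ⟨d, hd⟩
  · simp [h]
  refine xcount_three A hA d _ fun d' hd' => ?_
  obtain ⟨h1, h2⟩ := Finset.mem_filter.1 hd
  obtain ⟨h4, h5⟩ := Finset.mem_filter.1 hd'
  rw [dif_pos (hF d h1)] at h2
  rw [dif_pos (hF d' h4)] at h5
  have hA' : d⁻¹ * d' ∈ A := by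
    have := (hπ ((⟨c⁻¹ * d, hF d h1⟩ : F)⁻¹ * ⟨c⁻¹ * d', hF d' h4⟩)).1
      (by rw [map_mul, map_inv, h2, h5, inv_mul_cancel])
    simpa [mul_assoc] using this
  obtain ⟨h6, h7, -⟩ := hm d h1
  obtain ⟨-, h8, -⟩ := hm d' h4
  exact ⟨hA', h3 d h6 h7 _ hA' (by simpa using h8)⟩

theorem xcount_idx {H : Type} [Group H] [Finite H] (A : Subgroup H) [A.Normal]
    (hA : IsCyclic A) :
    (Subgroup.centralizer (A : Set H)).index ∣ Nat.totient (Nat.card A) := by
  have h : (MulAut.conjNormal : H →* MulAut A).ker = Subgroup.centralizer (A : Set H) := by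
    ext c
    rw [MonoidHom.mem_ker, Subgroup.mem_centralizer_iff]
    constructor
    · intro h a ha
      have := congrArg (fun s : MulAut A => (s ⟨a, ha⟩ : H)) h
      simp only [MulAut.conjNormal_apply, MulAut.one_apply] at this
      exact (mul_inv_eq_iff_eq_mul.1 this).symm
    · intro h
      ext a
      simp only [MulAut.conjNormal_apply, MulAut.one_apply]
      rw [← h a a.2, mul_inv_cancel_right]
  rw [← h, Subgroup.index_ker, ← IsCyclic.card_mulAut]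
  exact Subgroup.card_subgroup_dvd_card _

theorem xcount_cube {H : Type} [Group H] [Finite H] (A : Subgroup H) (h9 : ¬ 9 ∣ Nat.card A)
    (x : H) (hx : x ∈ A) (a : ℕ) (h : x ^ (3 ^ a) = 1) : x ^ 3 = 1 := by
  obtain ⟨b, -, hb⟩ := (Nat.dvd_prime_pow Nat.prime_three).1 (orderOf_dvd_of_pow_eq_one h)
  have h1 : orderOf x ∣ Nat.card A := Subgroup.orderOf_dvd_natCard A hx
  apply orderOf_dvd_iff_pow_eq_one.1
  rw [hb] at h1 ⊢
  by_cases h2 : 2 ≤ b
  · exact absurd ((pow_dvd_pow 3 h2).trans h1) h9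
  · exact (pow_dvd_pow 3 (by omega : b ≤ 1)).trans (by norm_num)

theorem sd_count {H : Type} [Group H] [Finite H] (A F : Subgroup H) (hS : SD A F) :
    ∃ e I M : ℕ, 0 < e ∧ A.relIndex F = e ^ 2 ∧ IB e I ∧ M ≤ I ∧ (3 ∣ e → 2 * M ≤ I) ∧
      Nat.card {c : H // c ∈ Subgroup.centralizer (A : Set H) ∧ c ^ 3 = 1} ≤ 3 * e ^ 2 * M ∧
      (¬ 9 ∣ Nat.card A →
        Nat.card {c : H // c ∈ Subgroup.centralizer (A : Set H) ∧ ∃ a : ℕ, c ^ (3 ^ a) = 1}
          ≤ 3 * e ^ 2 * I) ∧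
      (Subgroup.centralizer (A : Set H)).index ∣ Nat.totient (Nat.card A) ∧
      (∀ p : ℕ, p.Prime → p ∣ e → p ∣ Nat.card A) ∧
      Nat.card H ≤ Nat.card A * Nat.totient (Nat.card A) * e ^ 2 * I := by
  obtain ⟨U, Z, _, _, _, _, _, π, ζ, B, κ, -, hπ, -, -, hB, -, hU, -, -, hκ⟩ := sd_pair A F hS
  obtain ⟨e, he, hr, hp⟩ := pd_sq A F hS.toPD
  have := hS.nA
  have : Finite (MulAut U) := inferInstance
  rw [hr] at hU
  obtain ⟨hI, hM⟩ := iso_bound B hB e hU
  have hcm : ∀ c ∈ Subgroup.centralizer (A : Set H), ∀ x ∈ A, Commute c x := fun c hc x hx =>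
    (Subgroup.mem_centralizer_iff.1 hc x hx).symm
  have hi := xcount_idx A hS.cyc
  refine ⟨e, Nat.card (Iso B), Nat.card {s : Iso B // s ^ 3 = 1}, he, hr, hI,
    Finite.card_subtype_le _, hM, ?_, fun h9 => ?_, hi, hp, ?_⟩
  · rw [← hU]
    refine xcount_fib A F _ hS.cyc π hπ κ hκ (fun c => c ^ 3 = 1) (fun s => s ^ 3 = 1)
      (fun c hc => ?_) fun c hc h1 x hx h2 => ?_
    · rw [← map_pow, show c ^ 3 = 1 from Subtype.ext hc, map_one]
    · rwa [(hcm c hc x hx).mul_pow, h1, one_mul] at h2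
  · rw [← hU]
    refine (xcount_fib A F _ hS.cyc π hπ κ hκ (fun c => ∃ a : ℕ, c ^ (3 ^ a) = 1) (fun _ => True)
      (fun _ _ => trivial) ?_).trans (Nat.mul_le_mul_left _ (Finite.card_subtype_le _))
    rintro c hc ⟨a, ha⟩ x hx ⟨b, hb⟩
    refine xcount_cube A h9 x hx (a + b) ?_
    have h1 : (c * x) ^ 3 ^ (a + b) = 1 := by rw [pow_add, mul_comm (3 ^ a), pow_mul, hb, one_pow]
    rwa [(hcm c hc x hx).mul_pow, pow_add, pow_mul c, ha, one_pow, one_mul, ← pow_add] at h1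
  · have h1 : Nat.card κ.ker ≤ Nat.card F :=
      Nat.card_le_card_of_injective (fun c => ⟨c.1.1, (hκ c.1).1 c.2⟩) fun c d h =>
        Subtype.ext (Subtype.ext (congrArg (fun x : F => (x : H)) h))
    have h2 : Nat.card F = Nat.card A * e ^ 2 := by
      rw [← hr, ← Subgroup.card_mul_index (A.subgroupOf F),
        Nat.card_congr (Subgroup.subgroupOfEquivOfLe hS.le).toEquiv]
      rfl
    have h3 : κ.ker.index ≤ Nat.card (Iso B) := by
      rw [Subgroup.index_ker]; exact Finite.card_subtype_le _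
    have h4 := Nat.le_of_dvd (Nat.totient_pos.2 Nat.card_pos) hi
    rw [← Subgroup.card_mul_index (Subgroup.centralizer (A : Set H)),
      ← Subgroup.card_mul_index κ.ker]
    calc _ ≤ Nat.card A * e ^ 2 * Nat.card (Iso B) * Nat.totient (Nat.card A) := by
          rw [← h2]; gcongr
      _ = _ := by ring

end Pool.Agent.N9181
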