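import Pool.Agent.MP_9181f8_al.N.Basic

namespace Pool.Agent.N9181

open scoped commutatorElement

theorem xind_surj {V : Type} [AddCommGroup V] [Module K V] [Module.Finite K V]
    (W : Submodule K V) (f : Module.End K V) (hf : ∀ v, f v = 0 → v = 0)
    (hW : ∀ w ∈ W, f w ∈ W) : ∀ w ∈ W, ∃ w' ∈ W, f w' = w := by
  intro w hw
  have hinj : Function.Injective (f.restrict hW) := by
    rw [injective_iff_map_eq_zero]
    intro u hu
    apply Subtype.ext
    apply hf
    have := congrArg Subtype.val hu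
    simpa using this
  have hsurj := (LinearMap.injective_iff_surjective).mp hinj
  obtain ⟨u, hu⟩ := hsurj ⟨w, hw⟩
  refine ⟨u, u.2, ?_⟩
  have := congrArg Subtype.val hu
  simpa using this

theorem xind_mul {V : Type} [AddCommGroup V] [Module K V]
    {H : Type} [Group H] (ρ : Representation K H V) (a b : H) (v : V) :
    ρ (a * b) v = ρ a (ρ b v) := by
  rw [map_mul]; rfl

theorem xind_inj {V : Type} [AddCommGroup V] [Module K V]
    {H : Type} [Group H] (ρ : Representation K H V) (a : H) (v : V) (h : ρ a v = 0) : v = 0 := by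
  have : ρ a⁻¹ (ρ a v) = v := by
    rw [← xind_mul, inv_mul_cancel, map_one]; rfl
  rw [← this, h, map_zero]

theorem xind_sub {V : Type} [AddCommGroup V] [Module K V]
    {H : Type} [Group H] (ρ : Representation K H V) (A : Subgroup H) (hA : FreeOn ρ A)
    (a b : H) (ha : a ∈ A) (hb : b ∈ A) (hab : a ≠ b) (v : V) (h : (ρ a - ρ b) v = 0) :
    v = 0 := by
  by_contra hv
  have h1 : ρ a v = ρ b v := by
    rw [LinearMap.sub_apply, sub_eq_zero] at h; exact h
  have h2 : ρ (b⁻¹ * a) v = v := by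
    rw [xind_mul, h1, ← xind_mul, inv_mul_cancel, map_one]; rfl
  have h3 := hA _ (A.mul_mem (A.inv_mem hb) ha) v hv h2
  exact hab (inv_mul_eq_one.mp h3).symm

theorem ind {V : Type} [AddCommGroup V] [Module K V] [Module.Finite K V]
    {H : Type} [Group H] (ρ : Representation K H V) (A Y : Subgroup H) (hA : FreeOn ρ A)
    (hAc : ∀ a ∈ A, ∀ b ∈ A, a * b = b * a) (hY : ∀ y ∈ Y, ∀ a ∈ A, y * a = a * y)
    (W : Submodule K V) (hWA : ∀ a ∈ A, ∀ w ∈ W, ρ a w ∈ W) (hWY : ∀ y ∈ Y, ∀ w ∈ W, ρ y w ∈ W)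
    {ι : Type} (s : Finset ι) (g : ι → H) (hWg : ∀ i ∈ s, ∀ w ∈ W, ρ (g i) w ∈ W)
    (hg : ∀ i ∈ s, ∀ y ∈ Y, ⁅y, g i⁆ ∈ A)
    (hd : ∀ i ∈ s, ∀ j ∈ s, i ≠ j → ∃ y ∈ Y, ⁅y, g i⁆ ≠ ⁅y, g j⁆)
    (c : ι → Module.End K V) (hcY : ∀ i ∈ s, ∀ y ∈ Y, c i * ρ y = ρ y * c i)
    (hcA : ∀ i ∈ s, ∀ a ∈ A, c i * ρ a = ρ a * c i)
    (hs : ∀ w ∈ W, ∑ i ∈ s, c i (ρ (g i) w) = 0) : ∀ i ∈ s, ∀ w ∈ W, c i w = 0 := by
  classical
  induction s using Finset.induction_on generalizing c with
  | empty => intro i hi; simp at hi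
  | insert j t hj ih =>
    have hjs : j ∈ insert j t := Finset.mem_insert_self j t
    have hsub : ∀ i ∈ t, i ∈ insert j t := fun i hi => Finset.mem_insert_of_mem hi
    have ht : ∀ i ∈ t, ∀ w ∈ W, c i w = 0 := by
      intro i0 hi0
      have hne : i0 ≠ j := fun h => hj (h ▸ hi0)
      obtain ⟨y, hy, hyne⟩ := hd i0 (hsub i0 hi0) j hjs hne
      have hcomm : ∀ (u : H), (∀ a ∈ A, u * a = a * u) → ∀ i ∈ t, c i * ρ u = ρ u * c i →
          (c i * (ρ ⁅y, g i⁆ - ρ ⁅y, g j⁆)) * ρ u = ρ u * (c i * (ρ ⁅y, g i⁆ - ρ ⁅y, g j⁆)) := by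
        intro u hu i hi hc
        have e1 : ρ ⁅y, g i⁆ * ρ u = ρ u * ρ ⁅y, g i⁆ := by
          rw [← map_mul, ← map_mul, hu _ (hg i (hsub i hi) y hy)]
        have e2 : ρ ⁅y, g j⁆ * ρ u = ρ u * ρ ⁅y, g j⁆ := by
          rw [← map_mul, ← map_mul, hu _ (hg j hjs y hy)]
        rw [mul_assoc, sub_mul, e1, e2, ← mul_sub, ← mul_assoc, hc, mul_assoc]
      have key := ih (fun i hi => hWg i (hsub i hi)) (fun i hi => hg i (hsub i hi))
        (fun i hi k hk => hd i (hsub i hi) k (hsub k hk))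
        (fun i => c i * (ρ ⁅y, g i⁆ - ρ ⁅y, g j⁆))
        (fun i hi u hu => hcomm u (hY u hu) i hi (hcY i (hsub i hi) u hu))
        (fun i hi u hu => hcomm u (hAc u hu) i hi (hcA i (hsub i hi) u hu))
        (by
          intro w hw
          have r1 := congrArg (ρ y) (hs (ρ y⁻¹ w) (hWY _ (Y.inv_mem hy) w hw))
          have r2 := congrArg (ρ ⁅y, g j⁆) (hs w hw)
          rw [map_sum, map_zero] at r1 r2
          have r1' : ∑ i ∈ insert j t, c i (ρ ⁅y, g i⁆ (ρ (g i) w)) = 0 := by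
            rw [← r1]
            refine Finset.sum_congr rfl fun i hi => ?_
            have e := LinearMap.congr_fun (hcY i hi y hy) (ρ (g i) (ρ y⁻¹ w))
            simp only [Module.End.mul_apply] at e
            rw [← e, ← xind_mul, ← xind_mul, ← xind_mul]
            congr 3
            rw [commutatorElement_def]; group
          have r2' : ∑ i ∈ insert j t, c i (ρ ⁅y, g j⁆ (ρ (g i) w)) = 0 := by
            rw [← r2]
            refine Finset.sum_congr rfl fun i hi => ?_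
            have e := LinearMap.congr_fun (hcA i hi _ (hg j hjs y hy)) (ρ (g i) w)
            simpa only [Module.End.mul_apply] using e
          have r3 : ∑ i ∈ insert j t, (c i * (ρ ⁅y, g i⁆ - ρ ⁅y, g j⁆)) (ρ (g i) w) = 0 := by
            have : ∀ i ∈ insert j t, (c i * (ρ ⁅y, g i⁆ - ρ ⁅y, g j⁆)) (ρ (g i) w) =
                c i (ρ ⁅y, g i⁆ (ρ (g i) w)) - c i (ρ ⁅y, g j⁆ (ρ (g i) w)) := by
              intro i _
              rw [Module.End.mul_apply, LinearMap.sub_apply, map_sub]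
            rw [Finset.sum_congr rfl this, Finset.sum_sub_distrib, r1', r2', sub_zero]
          rw [Finset.sum_insert hj, sub_self, mul_zero, LinearMap.zero_apply, zero_add] at r3
          exact r3)
      intro w hw
      obtain ⟨w', hw', rfl⟩ := xind_surj W (ρ ⁅y, g i0⁆ - ρ ⁅y, g j⁆)
        (xind_sub ρ A hA _ _ (hg i0 (hsub i0 hi0) y hy) (hg j hjs y hy) hyne)
        (fun u hu => by
          rw [LinearMap.sub_apply]
          exact W.sub_mem (hWA _ (hg i0 (hsub i0 hi0) y hy) u hu) (hWA _ (hg j hjs y hy) u hu))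
        w hw
      exact key i0 hi0 w' hw'
    intro i hi
    rcases Finset.mem_insert.mp hi with rfl | hi
    · intro w hw
      obtain ⟨w', hw', rfl⟩ := xind_surj W (ρ (g i)) (xind_inj ρ _) (hWg i hjs) w hw
      have r := hs w' hw'
      rw [Finset.sum_insert hj, Finset.sum_eq_zero (fun k hk =>
        ht k hk _ (hWg k (hsub k hk) w' hw')), add_zero] at r
      exact r
    · exact ht i hi

theorem mov {V : Type} [AddCommGroup V] [Module K V] [Module.Finite K V]
    {H : Type} [Group H] [Finite H] (ρ : Representation K H V) (A : Subgroup H) (hc : IsCyclic A) (hA : FreeOn ρ A) (x : H) (a : ℕ)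
    (hx : x ^ (3 ^ a) = 1) (hn : x ∈ Subgroup.normalizer (A : Set H))
    (hnc : x ∉ Subgroup.centralizer (A : Set H)) (hf : ∀ v, ρ x v = v → v = 0) :
    ∀ v, ρ (x ^ 3) v = v → v = 0 := by
  classical
  have hAc : ∀ u ∈ A, ∀ v ∈ A, u * v = v * u := by
    intro u hu v hv
    obtain ⟨z, hz⟩ := hc.exists_generator
    obtain ⟨m, hm⟩ := Subgroup.mem_zpowers_iff.mp (hz ⟨u, hu⟩)
    obtain ⟨n, hn'⟩ := Subgroup.mem_zpowers_iff.mp (hz ⟨v, hv⟩)
    have e1 : u = (z : H) ^ m := by
      have := congrArg Subtype.val hm; simpa using this.symm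
    have e2 : v = (z : H) ^ n := by
      have := congrArg Subtype.val hn'; simpa using this.symm
    rw [e1, e2, ← zpow_add, ← zpow_add, add_comm]
  have hex : ∃ r : ℕ, x ^ (3 ^ r) ∈ Subgroup.centralizer (A : Set H) :=
    ⟨a, by rw [hx]; exact Subgroup.one_mem _⟩
  obtain ⟨r, hr, hmin⟩ : ∃ r : ℕ, x ^ (3 ^ r) ∈ Subgroup.centralizer (A : Set H) ∧
      ∀ s < r, x ^ (3 ^ s) ∉ Subgroup.centralizer (A : Set H) :=
    ⟨Nat.find hex, Nat.find_spec hex, fun s hs => Nat.find_min hex hs⟩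
  have hr0 : r ≠ 0 := by
    rintro rfl
    apply hnc
    simpa using hr
  have hno : ∀ d : ℕ, 0 < d → d < 3 ^ r → x ^ d ∉ Subgroup.centralizer (A : Set H) := by
    intro d hd0 hd hmem
    obtain ⟨s, hs, hs'⟩ := (Nat.dvd_prime_pow Nat.prime_three).mp (Nat.gcd_dvd_right d (3 ^ r))
    have hlt : s < r := by
      have h1 : Nat.gcd d (3 ^ r) ≤ d := Nat.gcd_le_left _ hd0
      rw [hs'] at h1
      exact (Nat.pow_lt_pow_iff_right (by norm_num : 1 < 3)).mp (lt_of_le_of_lt h1 hd)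
    apply hmin s hlt
    rw [← hs']
    have e : x ^ (Nat.gcd d (3 ^ r)) =
        (x ^ d) ^ (Nat.gcdA d (3 ^ r)) * (x ^ (3 ^ r)) ^ (Nat.gcdB d (3 ^ r)) := by
      rw [← zpow_natCast x (Nat.gcd d (3 ^ r)), Nat.gcd_eq_gcd_ab, zpow_add, zpow_mul, zpow_mul,
        zpow_natCast, zpow_natCast]
    rw [e]
    exact Subgroup.mul_mem _ (Subgroup.zpow_mem _ hmem _) (Subgroup.zpow_mem _ hr _)
  let W : Submodule K V := LinearMap.ker (ρ (x ^ (3 ^ r)) - 1)
  have hWm : ∀ w, w ∈ W ↔ ρ (x ^ (3 ^ r)) w = w := by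
    intro w
    simp only [W, LinearMap.mem_ker, LinearMap.sub_apply, Module.End.one_apply, sub_eq_zero]
  have hWu : ∀ u : H, u * x ^ (3 ^ r) = x ^ (3 ^ r) * u → ∀ w ∈ W, ρ u w ∈ W := by
    intro u hu w hw
    rw [hWm] at hw ⊢
    rw [← xind_mul, ← hu, xind_mul, hw]
  have hWA : ∀ u ∈ A, ∀ w ∈ W, ρ u w ∈ W := fun u hu =>
    hWu u (Subgroup.mem_centralizer_iff.mp hr u hu)
  have hlt : ∀ k l : ℕ, l < k → k < 3 ^ r → ∃ y ∈ A, ⁅y, x ^ k⁆ ≠ ⁅y, x ^ l⁆ := by
    intro k l hlk hk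
    by_contra hcon
    push Not at hcon
    apply hno (k - l) (by omega) (by omega)
    rw [Subgroup.mem_centralizer_iff]
    intro y hy
    have e := hcon y⁻¹ (A.inv_mem hy)
    rw [commutatorElement_def, commutatorElement_def, inv_inv] at e
    have ek : x ^ k = x ^ l * x ^ (k - l) := by rw [← pow_add]; congr 1; omega
    rw [ek] at e
    have e2 : x ^ (k - l) * y * (x ^ (k - l))⁻¹ = y := by
      have e3 : x ^ (k - l) * y * (x ^ (k - l))⁻¹ =
          (x ^ l)⁻¹ * y * (y⁻¹ * (x ^ l * x ^ (k - l)) * y * (x ^ l * x ^ (k - l))⁻¹) * x ^ l := by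
        group
      rw [e3, e]; group
    calc y * x ^ (k - l) = (x ^ (k - l) * y * (x ^ (k - l))⁻¹) * x ^ (k - l) := by rw [e2]
      _ = x ^ (k - l) * y := by group
  have key := ind ρ A A hA hAc hAc W hWA hWA (Finset.range (3 ^ r)) (fun k => x ^ k)
    (fun k _ => hWu _ (by rw [← pow_add, ← pow_add, add_comm]))
    (fun k _ y hy => by
      have h1 : x ^ k ∈ Subgroup.normalizer (A : Set H) := Subgroup.pow_mem _ hn k
      have h2 := (Subgroup.mem_normalizer_iff.mp h1 y⁻¹).mp (A.inv_mem hy)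
      have e : ⁅y, x ^ k⁆ = y * (x ^ k * y⁻¹ * (x ^ k)⁻¹) := by
        rw [commutatorElement_def]; group
      rw [e]
      exact A.mul_mem hy h2)
    (fun k hk l hl hkl => by
      rcases lt_or_gt_of_ne hkl with h | h
      · obtain ⟨y, hy, hne⟩ := hlt l k h (Finset.mem_range.mp hl)
        exact ⟨y, hy, hne.symm⟩
      · exact hlt k l h (Finset.mem_range.mp hk))
    (fun _ => 1) (fun _ _ _ _ => by simp) (fun _ _ _ _ => by simp)
    (fun w hw => by
      apply hf
      simp only [Module.End.one_apply]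
      rw [map_sum]
      have h1 := Finset.sum_range_succ (fun k => ρ (x ^ k) w) (3 ^ r)
      have h2 := Finset.sum_range_succ' (fun k => ρ (x ^ k) w) (3 ^ r)
      rw [h1, (hWm w).mp hw, pow_zero, map_one, Module.End.one_apply] at h2
      rw [add_right_cancel h2]
      refine Finset.sum_congr rfl fun k _ => ?_
      rw [← xind_mul, ← pow_succ'])
  intro v hv
  have hv' : ∀ n : ℕ, ρ ((x ^ 3) ^ n) v = v := by
    intro n
    induction n with
    | zero => simp
    | succ n ih => rw [pow_succ, xind_mul, hv, ih]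
  have hvW : v ∈ W := by
    rw [hWm]
    obtain ⟨r', rfl⟩ := Nat.exists_eq_succ_of_ne_zero hr0
    rw [pow_succ', pow_mul]
    exact hv' _
  have := key 0 (Finset.mem_range.mpr (by positivity)) v hvW
  simpa using this

theorem freeCyc {V : Type} [AddCommGroup V] [Module K V] [Module.Finite K V]
    {H : Type} [Group H] [Finite H] (ρ : Representation K H V) (A : Subgroup H) (hA : FreeOn ρ A) (hV : ∃ v : V, v ≠ 0)
    (hAc : ∀ a ∈ A, ∀ b ∈ A, a * b = b * a) : IsCyclic A := by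
  classical
  obtain ⟨X, ⟨hX0, hXA⟩, hXmin⟩ := (wellFounded_lt (α := Submodule K V)).has_min
    {X | X ≠ ⊥ ∧ ∀ h ∈ A, ∀ w ∈ X, ρ h w ∈ X}
    ⟨⊤, by
      obtain ⟨v, hv⟩ := hV
      refine ⟨fun h => hv ?_, fun _ _ _ _ => Submodule.mem_top⟩
      have : v ∈ (⊤ : Submodule K V) := Submodule.mem_top
      rw [h] at this
      simpa using this⟩
  obtain ⟨σ, hσ⟩ := exists_res ρ A X hXA
  obtain ⟨v0, hv0, hv0'⟩ := Submodule.exists_mem_ne_zero_of_ne_bot hX0
  let C : Subring (Module.End K X) := Subring.centralizer (Set.range σ)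
  have hC : ∀ f ∈ C, f ≠ 0 → ∀ w, f w = 0 → w = 0 := by
    intro f hfC hf0 w hw
    by_contra hw0
    have hle : (LinearMap.ker f).map X.subtype ≤ X := Submodule.map_subtype_le _ _
    have hlt : (LinearMap.ker f).map X.subtype < X := by
      refine lt_of_le_of_ne hle fun heq => hf0 ?_
      ext u
      have hu : (u : V) ∈ (LinearMap.ker f).map X.subtype := by rw [heq]; exact u.2
      obtain ⟨u', hu', e⟩ := hu
      have : u' = u := Subtype.ext e
      rw [this] at hu'
      have h3 : f u = 0 := hu'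
      simp [h3]
    refine hXmin _ ⟨?_, ?_⟩ hlt
    · intro hb
      have : (w : V) ∈ (LinearMap.ker f).map X.subtype := ⟨w, hw, rfl⟩
      rw [hb] at this
      exact hw0 (Subtype.ext (by simpa using this))
    · rintro h hh _ ⟨u, hu, rfl⟩
      refine ⟨σ ⟨h, hh⟩ u, ?_, hσ _ _⟩
      have e := Subring.mem_centralizer_iff.mp hfC (σ ⟨h, hh⟩) ⟨_, rfl⟩
      have e2 := LinearMap.congr_fun e u
      have h3 : f u = 0 := hu
      simp only [Module.End.mul_apply, h3, map_zero] at e2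
      exact e2.symm
  have hnt : Nontrivial X := ⟨⟨⟨v0, hv0⟩, 0, fun h => hv0' (congrArg Subtype.val h)⟩⟩
  have hnz : NoZeroDivisors C := ⟨fun {f g} hfg => by
    by_cases hf0 : (f : Module.End K X) = 0
    · left; exact Subtype.ext hf0
    · right
      apply Subtype.ext
      ext u
      have e : (f : Module.End K X) * g = 0 := congrArg Subtype.val hfg
      have e2 := LinearMap.congr_fun e u
      have := hC f f.2 hf0 _ e2
      simp [this]⟩
  have hdom : IsDomain C := NoZeroDivisors.to_isDomain C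
  have hσC : ∀ u : A, σ u ∈ C := by
    intro u
    rw [Subring.mem_centralizer_iff]
    rintro _ ⟨u', rfl⟩
    rw [← map_mul, ← map_mul]
    congr 1
    exact Subtype.ext (hAc _ u'.2 _ u.2)
  have hσZ : ∀ u : A, (⟨σ u, hσC u⟩ : C) ∈ Subring.center C := by
    intro u
    rw [Subring.mem_center_iff]
    intro f
    apply Subtype.ext
    exact (Subring.mem_centralizer_iff.mp f.2 (σ u) ⟨_, rfl⟩).symm
  let φ : A →* Subring.center C :=
    { toFun := fun u => ⟨⟨σ u, hσC u⟩, hσZ u⟩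
      map_one' := Subtype.ext (Subtype.ext (map_one σ))
      map_mul' := fun u u' => Subtype.ext (Subtype.ext (map_mul σ u u')) }
  refine isCyclic_of_injective_ringHom φ ?_
  rw [injective_iff_map_eq_one]
  intro u hu
  have e : σ u = 1 := congrArg Subtype.val (congrArg Subtype.val hu)
  have e2 := hσ u ⟨v0, hv0⟩
  rw [e] at e2
  exact Subtype.ext (hA u u.2 v0 hv0' e2.symm)

end Pool.Agent.N9181
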