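import Pool.Agent.MP_9181f8_al.N.SDPair
import Pool.Agent.MP_9181f8_al.N.Ind

namespace Pool.Agent.N9181

open scoped commutatorElement

theorem xfreeu_cyc {C : Type} [Group C] [Finite C] [IsCyclic C] {p : ℕ} (hp : p.Prime) {z w : C}
    (hz : z ^ p = 1) (hz1 : z ≠ 1) (hw : w ^ p = 1) : w ∈ Subgroup.zpowers z := by
  let _ := IsCyclic.commGroup (α := C)
  have := Fact.mk hp
  have h1 : Subgroup.zpowers z ≤ (powMonoidHom p : C →* C).ker := by
    rw [Subgroup.zpowers_le]; exact hz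
  have h2 : Nat.card (powMonoidHom p : C →* C).ker ≤ Nat.card (Subgroup.zpowers z) := by
    rw [IsCyclic.card_powMonoidHom_ker, Nat.card_zpowers, orderOf_eq_prime hz hz1]
    exact Nat.gcd_le_right _ hp.pos
  rw [Subgroup.eq_of_le_of_card_ge h1 h2]
  exact hw

theorem xfreeu_pow {G : Type} [Group G] {x y c : G} (hc : ∀ g, c * g = g * c)
    (h : y * x = c * (x * y)) (n : ℕ) : (x * y) ^ n = c ^ n.choose 2 * (x ^ n * y ^ n) := by
  have hk : ∀ (k : ℕ) (g : G), g * c ^ k = c ^ k * g := fun k g =>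
    ((Commute.pow_left (hc g) k).eq).symm
  have h1 : ∀ n : ℕ, y ^ n * x = c ^ n * (x * y ^ n) := by
    intro n
    induction n with
    | zero => simp
    | succ n IH =>
      rw [pow_succ' y, mul_assoc, IH, ← mul_assoc y, hk, mul_assoc, ← mul_assoc y, h, pow_succ c]
      simp only [mul_assoc]
  induction n with
  | zero => simp
  | succ n IH =>
    rw [pow_succ, IH, Nat.choose_succ_succ' n 1, Nat.choose_one_right, add_comm n, pow_add,
      pow_succ x, pow_succ y]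
    simp only [mul_assoc]
    rw [← mul_assoc (y ^ n), h1, mul_assoc, ← mul_assoc (x ^ n), hk]
    simp only [mul_assoc]

theorem xfreeu_key {G U Z : Type} [Group G] [Finite G] [CommGroup U] [Finite U] [CommGroup Z]
    [Finite Z] [IsCyclic Z] (π : G →* U) (ι : Z →* G) (B : U →* U →* Z)
    (hs : Function.Surjective π) (hk : ∀ x, π x = 1 ↔ ∃ z, ι z = x) (hi : Function.Injective ι)
    (hcen : ∀ z x, ι z * x = x * ι z) (hB : Symp B) (hc : ∀ x y, ι (B (π x) (π y)) = ⁅x, y⁆)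
    (hcyc : ∀ S : Subgroup G, (∀ a ∈ S, ∀ b ∈ S, a * b = b * a) → IsCyclic S)
    {p : ℕ} (hp : p.Prime) (hpU : p ∣ Nat.card U) : p = 2 ∧ ¬ 4 ∣ Nat.card Z := by
  have := Fact.mk hp
  by_contra hcon
  obtain ⟨u, hu⟩ := exists_prime_orderOf_dvd_card' p hpU
  have hup : u ^ p = 1 := hu ▸ pow_orderOf_eq_one u
  obtain ⟨v, hv⟩ : ∃ v, B u v ≠ 1 := by
    by_contra h
    have := hB.2 u fun y => by simpa using fun h' => h ⟨y, h'⟩
    rw [this, orderOf_one] at hu
    exact hp.one_lt.ne hu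
  have hcp : B u v ^ p = 1 := by
    rw [← MonoidHom.pow_apply, ← map_pow, hup, map_one, MonoidHom.one_apply]
  have hπι : ∀ z, π (ι z) = 1 := fun z => (hk _).2 ⟨z, rfl⟩
  have K1 : ∀ w : G, w ^ p = 1 → π w = 1 := by
    intro w hw
    have := Subgroup.isMulCommutative_closure (k := {w, ι (B u v)}) (by
      rintro a (rfl | rfl) b (rfl | rfl)
      exacts [rfl, (hcen _ _).symm, hcen _ _, rfl])
    have := hcyc (Subgroup.closure {w, ι (B u v)}) fun a ha b hb =>
      setLike_mul_comm ha hb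
    obtain ⟨k, hk'⟩ := xfreeu_cyc (C := Subgroup.closure {w, ι (B u v)}) hp
      (z := ⟨ι (B u v), Subgroup.subset_closure (by simp)⟩)
      (w := ⟨w, Subgroup.subset_closure (by simp)⟩)
      (Subtype.ext (by simp [← map_pow, hcp]))
      (fun h => hv (hi (by simpa using congrArg Subtype.val h))) (Subtype.ext (by simpa using hw))
    have h3 : ι (B u v) ^ k = w := congrArg Subtype.val hk'
    rw [← h3, map_zpow, hπι, one_zpow]
  have K2 : ∀ (w : G) (h : Z), w ^ p = ι (h ^ p) → π w = 1 := by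
    intro w h hw
    have h1 := K1 (w * ι h⁻¹) (by
      rw [Commute.mul_pow (hcen _ _).symm, hw, ← map_pow, ← map_mul, inv_pow, mul_inv_cancel,
        map_one])
    rwa [map_mul, hπι, mul_one] at h1
  obtain ⟨m, hm⟩ : p ∣ orderOf v := by
    rw [← orderOf_eq_prime hcp hv, orderOf_dvd_iff_pow_eq_one, ← map_pow, pow_orderOf_eq_one,
      map_one]
  have hm0 : 0 < m := Nat.pos_of_ne_zero fun h => by
    rw [h, mul_zero] at hm; exact (orderOf_pos v).ne' hm
  have hv1 : v ^ m ≠ 1 := pow_ne_one_of_lt_orderOf hm0.ne' (by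
    rw [hm]; exact lt_mul_of_one_lt_left hm0 hp.one_lt)
  obtain ⟨x, hx⟩ := hs u
  obtain ⟨y, hy⟩ := hs (v ^ m)
  obtain ⟨g, hg⟩ := IsCyclic.exists_generator (α := Z)
  obtain ⟨a, ha⟩ := (hk (x ^ p)).1 (by rw [map_pow, hx, hup])
  obtain ⟨b, hb⟩ := (hk (y ^ p)).1 (by
    rw [map_pow, hy, ← pow_mul, mul_comm, ← hm, pow_orderOf_eq_one])
  obtain ⟨i, rfl⟩ := hg a
  obtain ⟨j, rfl⟩ := hg b
  simp only at ha hb
  have hj : ¬ (p : ℤ) ∣ j := by
    rintro ⟨k, rfl⟩
    exact hv1 (hy ▸ K2 y (g ^ k) (by rw [← hb, ← zpow_natCast, ← zpow_mul, mul_comm]))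
  obtain ⟨s, t, hst⟩ := (Nat.prime_iff_prime_int.1 hp).irreducible.coprime_iff_not_dvd.2 hj
  set y' := y ^ (-(i * t))
  set c := B (π y') (π x)
  obtain ⟨h, hh⟩ : ∃ h : Z, c ^ p.choose 2 = h ^ p := by
    rcases hp.eq_two_or_odd' with rfl | ⟨r, hr⟩
    · obtain ⟨n, hn⟩ : 4 ∣ Nat.card Z := by
        by_contra h4; exact hcon ⟨rfl, h4⟩
      have ho : orderOf g = 4 * n := by rw [orderOf_eq_card_of_forall_mem_zpowers hg, hn]
      have hn0 : 0 < n := Nat.pos_of_ne_zero fun h => by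
        rw [h, mul_zero] at ho; exact (orderOf_pos g).ne' ho
      obtain ⟨k, hk'⟩ := xfreeu_cyc hp (z := g ^ (2 * n)) (w := c)
        (by rw [← pow_mul, ← orderOf_dvd_iff_pow_eq_one, ho]; exact ⟨1, by ring⟩)
        (pow_ne_one_of_lt_orderOf (by omega) (by omega))
        (by rw [← map_pow, hx, hup, map_one])
      refine ⟨(g ^ n) ^ k, ?_⟩
      simp only at hk'
      rw [Nat.choose_self, pow_one, ← hk', mul_comm, pow_mul, ← zpow_natCast (g ^ n), ← zpow_mul,
        mul_comm, zpow_mul, zpow_natCast]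
    · refine ⟨c ^ r, ?_⟩
      rw [← pow_mul, Nat.choose_two_right, hr, Nat.add_sub_cancel, mul_left_comm,
        Nat.mul_div_cancel_left _ two_pos, mul_comm]
  have h1 := K2 (x * y') (h * g ^ (i * s)) (by
    rw [xfreeu_pow (c := ι c) (hcen c) (by rw [hc, commutatorElement_def]; group), ← ha,
      ← zpow_natCast y', ← zpow_mul, mul_comm (-(i * t)), zpow_mul, zpow_natCast, ← hb,
      ← map_pow, ← map_zpow ι _ (-(i * t)), ← map_mul, ← map_mul, hh, mul_pow, ← zpow_mul,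
      ← zpow_add, ← zpow_natCast (g ^ (i * s)), ← zpow_mul]
    congr 3
    linear_combination (-i) * hst)
  rw [map_mul, map_zpow, hx, hy, mul_eq_one_iff_eq_inv] at h1
  refine hv ?_
  rw [h1, map_inv, map_zpow, map_pow, MonoidHom.inv_apply, MonoidHom.zpow_apply,
    MonoidHom.pow_apply, hB.1, one_pow, one_zpow, inv_one]

theorem xfreeu_core {G U Z : Type} [Group G] [Finite G] [CommGroup U] [Finite U] [CommGroup Z]
    [Finite Z] [IsCyclic Z] (π : G →* U) (ι : Z →* G) (B : U →* U →* Z)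
    (hs : Function.Surjective π) (hk : ∀ x, π x = 1 ↔ ∃ z, ι z = x) (hi : Function.Injective ι)
    (hcen : ∀ z x, ι z * x = x * ι z) (hB : Symp B) (hc : ∀ x y, ι (B (π x) (π y)) = ⁅x, y⁆)
    (hcyc : ∀ S : Subgroup G, (∀ a ∈ S, ∀ b ∈ S, a * b = b * a) → IsCyclic S) :
    Nat.card U = 1 ∨ (Nat.card U = 4 ∧ ¬ 4 ∣ Nat.card Z) := by
  by_cases h1 : Nat.card U = 1
  · exact Or.inl h1
  have key := fun (p : ℕ) (hp : p.Prime) (h : p ∣ Nat.card U) =>
    xfreeu_key π ι B hs hk hi hcen hB hc hcyc hp h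
  obtain ⟨p, hp, hpU⟩ := Nat.exists_prime_and_dvd h1
  have h4 := (key p hp hpU).2
  refine Or.inr ⟨?_, h4⟩
  have h2 : ∀ u : U, u ^ 2 = 1 := fun u => hB.2 _ fun y => by
    have e1 : orderOf (B u y) ∣ Nat.card U := by
      rw [orderOf_dvd_iff_pow_eq_one, ← map_pow, pow_card_eq_one', map_one]
    have e2 := Nat.eq_prime_pow_of_unique_prime_dvd (p := 2) (orderOf_pos (B u y)).ne'
      fun hd h => (key _ hd (h.trans e1)).1
    generalize (orderOf (B u y)).primeFactorsList.length = k at e2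
    rw [map_pow, MonoidHom.pow_apply, ← orderOf_dvd_iff_pow_eq_one, e2]
    rcases Nat.lt_or_ge k 2 with h | h
    · simpa using Nat.pow_dvd_pow 2 (by omega : k ≤ 1)
    · exact absurd ((Nat.pow_dvd_pow 2 h).trans (e2 ▸ orderOf_dvd_natCard _)) h4
  obtain ⟨S, hS⟩ := exists_lagr B hB
  have h3 := card_perp B hB S
  obtain ⟨g, hg⟩ := (Subgroup.isCyclic_iff_exists_zpowers_eq_top _).1 (hcyc (S.comap π)
    fun a ha b hb => by
      rw [← commutatorElement_eq_one_iff_mul_comm, ← hc]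
      have : π b ∈ perp B S := hS.symm ▸ hb
      rw [this _ ha, map_one])
  have h5 : Nat.card S ∣ 2 := by
    rw [← Subgroup.map_comap_eq_self_of_surjective hs S, ← hg, MonoidHom.map_zpowers,
      Nat.card_zpowers, orderOf_dvd_iff_pow_eq_one]
    exact h2 _
  rw [hS] at h3
  rcases (Nat.dvd_prime Nat.prime_two).1 h5 with h | h
  · rw [h] at h3; exact absurd h3.symm h1
  · rw [← h3, h]

theorem freeU {V : Type} [AddCommGroup V] [Module K V] [Module.Finite K V]
    {H : Type} [Group H] [Finite H] (ρ : Representation K H V) (hV : ∃ v : V, v ≠ 0) (A F : Subgroup H) (hP : PD A F) (hF : FreeOn ρ F) :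
    A.relIndex F = 1 ∨ (A.relIndex F = 4 ∧ ¬ 4 ∣ Nat.card A) := by
  obtain ⟨U, Z, _, _, _, _, _, π, ζ, B, h1, h2, h3, h4, h5, h6, h7, h8⟩ := pd_pair A F hP
  have hA : ∀ z, ζ z ∈ A := fun z => (h4 _).2 ⟨z, rfl⟩
  rw [← h7, ← h8]
  refine xfreeu_core π (ζ.codRestrict F fun z => hP.le (hA z)) B h1 (fun x => ?_)
    (fun a b h => h3 (congrArg Subtype.val h)) (fun z x => Subtype.ext (hP.cen _ (hA z) _ x.2)) h5
    (fun x y => Subtype.ext (h6 x y)) fun S hS => ?_
  · rw [h2, h4]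
    exact ⟨fun ⟨z, hz⟩ => ⟨z, Subtype.ext hz⟩, fun ⟨z, hz⟩ => ⟨z, congrArg Subtype.val hz⟩⟩
  · exact freeCyc (ρ.comp F.subtype) S (fun a _ v hv h => Subtype.ext (hF a a.2 v hv h)) hV hS

end Pool.Agent.N9181
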