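import Pool.Agent.MP_9181f8_al.N.Basic

namespace Pool.Agent.N9181

open scoped commutatorElement

theorem xnuma_odd (m : ℕ) : Odd m →
    m ≤ Nat.totient m ^ 2 ∧ (m ≠ 1 → m ≠ 3 → 2 * m ≤ Nat.totient m ^ 2) := by
  induction m using Nat.recOnPosPrimePosCoprime with
  | prime_pow p n hp hn =>
    intro hodd
    obtain ⟨k, rfl⟩ : ∃ k, n = k + 1 := ⟨n - 1, by omega⟩
    have hp2 : p ≠ 2 := by
      rintro rfl
      have h1 : Even (2 ^ (k + 1)) := by
        rw [pow_succ]
        exact Even.mul_left even_two _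
      exact (Nat.not_even_iff_odd.mpr hodd) h1
    have h2 := hp.two_le
    rw [Nat.totient_prime_pow_succ hp]
    have hX : 1 ≤ p ^ k := Nat.one_le_pow _ _ (by omega)
    obtain ⟨q, rfl⟩ : ∃ q, p = q + 1 := ⟨p - 1, by omega⟩
    rw [Nat.add_sub_cancel, pow_succ]
    have hq4 : q + 1 ≠ 4 := by
      intro h
      rw [h] at hp
      exact absurd hp (by decide)
    by_cases hq : q = 2
    · subst hq
      rcases Nat.eq_zero_or_pos k with rfl | hk
      · simp
      · have h3 : 3 ≤ (2 + 1) ^ k := by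
          calc 3 = (2 + 1) ^ 1 := by norm_num
            _ ≤ (2 + 1) ^ k := Nat.pow_le_pow_right (by norm_num) hk
        generalize (2 + 1) ^ k = X at *
        constructor
        · nlinarith
        · intro _ _
          nlinarith
    · have hq4' : 4 ≤ q := by omega
      generalize (q + 1) ^ k = X at *
      have h5 : 2 * (q + 1) ≤ q * q := by nlinarith
      have h6 : X ≤ X * X := Nat.le_mul_self X
      have h7 : 2 * (X * (q + 1)) ≤ (X * q) ^ 2 := by
        calc 2 * (X * (q + 1)) = X * (2 * (q + 1)) := by ring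
          _ ≤ (X * X) * (q * q) := Nat.mul_le_mul h6 h5
          _ = (X * q) ^ 2 := by ring
      exact ⟨by omega, fun _ _ => h7⟩
  | zero =>
    intro h
    exact absurd h (by decide)
  | one =>
    intro _
    simp
  | coprime a b ha hb hab iha ihb =>
    intro hodd
    obtain ⟨h1, h2⟩ := Nat.odd_mul.mp hodd
    obtain ⟨a1, a2⟩ := iha h1
    obtain ⟨b1, b2⟩ := ihb h2
    rw [Nat.totient_mul hab, mul_pow]
    have key : 2 * (a * b) ≤ Nat.totient a ^ 2 * Nat.totient b ^ 2 := by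
      by_cases h3 : a = 3
      · have hb3 : b ≠ 3 := by
          rintro rfl
          rw [h3] at hab
          exact absurd hab (by decide)
        calc 2 * (a * b) = a * (2 * b) := by ring
          _ ≤ _ := Nat.mul_le_mul a1 (b2 (by omega) hb3)
      · calc 2 * (a * b) = (2 * a) * b := by ring
          _ ≤ _ := Nat.mul_le_mul (a2 (by omega) h3) b1
    exact ⟨by omega, fun _ _ => key⟩

theorem le_totient_sq (r : ℕ) (h2 : r ≠ 2) (h6 : r ≠ 6) : r ≤ Nat.totient r ^ 2 := by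
  rcases Nat.eq_zero_or_pos r with rfl | hr
  · simp
  obtain ⟨k, m, hm, rfl⟩ := Nat.exists_eq_two_pow_mul_odd hr.ne'
  obtain ⟨a1, a2⟩ := xnuma_odd m hm
  have hc : Nat.Coprime (2 ^ k) m :=
    Nat.Coprime.pow_left k ((Nat.coprime_two_left).mpr hm)
  rw [Nat.totient_mul hc, mul_pow]
  rcases k with _ | k
  · simpa using a1
  rw [Nat.totient_prime_pow_succ Nat.prime_two]
  rcases k with _ | k
  · have h1 : m ≠ 1 := by
      rintro rfl
      exact h2 (by norm_num)
    have h3 : m ≠ 3 := by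
      rintro rfl
      exact h6 (by norm_num)
    simpa using a2 h1 h3
  · refine Nat.mul_le_mul ?_ a1
    have hX : 1 ≤ 2 ^ k := Nat.one_le_two_pow
    rw [pow_succ, pow_succ, pow_succ]
    generalize 2 ^ k = X at *
    nlinarith

theorem ch_le (u l : ℕ) (h : u ≤ 2 ^ l) : ch 2 u ≤ 2 ^ (l * (l + 1) / 2) := by
  induction l generalizing u with
  | zero =>
    rw [ch_eq 2 le_rfl, if_pos (by simpa using h)]
    exact Nat.one_le_two_pow
  | succ l ih =>
    rw [ch_eq 2 le_rfl]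
    split_ifs with hu
    · exact Nat.one_le_two_pow
    · have h1 : u / 2 ≤ 2 ^ l := by
        rw [pow_succ] at h
        omega
      have h2 : (l + 1) * (l + 1 + 1) / 2 = (l + 1) + l * (l + 1) / 2 := by
        have : (l + 1) * (l + 1 + 1) = l * (l + 1) + 2 * (l + 1) := by ring
        rw [this]
        omega
      rw [h2, pow_add]
      exact Nat.mul_le_mul h (ih _ h1)

theorem xnuma_four (m : ℕ) (hm : 3 ≤ m) : 32 * m ^ 4 ≤ 3 * 13 ^ m := by
  induction m, hm using Nat.le_induction with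
  | base => norm_num
  | succ m hm ih =>
    have h1 : m + 1 ≤ 2 * m := by omega
    have h2 : 3 * (m + 1) ≤ 4 * m := by omega
    have h3 : (3 * (m + 1)) ^ 4 ≤ (4 * m) ^ 4 := Nat.pow_le_pow_left h2 4
    rw [mul_pow, mul_pow] at h3
    rw [pow_succ 13]
    generalize (m + 1) ^ 4 = A at *
    generalize m ^ 4 = B at *
    generalize 13 ^ m = C at *
    omega

theorem num5 (n u N : ℕ) (hn : 0 < n) (hu : u ≤ n ^ 2) (hN : 3 * N ≤ 2 * (u * (u - 1))) :
    N * (13 ^ (n / 2) - 1) < 13 ^ n - 1 := by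
  have h0 : u * (u - 1) ≤ n ^ 2 * (n ^ 2 - 1) := Nat.mul_le_mul hu (by omega)
  by_cases h5 : n ≤ 4
  · interval_cases n <;> norm_num at h0 ⊢ <;> omega
  · have hm : 3 ≤ n - n / 2 := by omega
    have h1 := xnuma_four _ hm
    have h2 : n ≤ 2 * (n - n / 2) := by omega
    have h3 : n ^ 4 ≤ (2 * (n - n / 2)) ^ 4 := Nat.pow_le_pow_left h2 4
    have h4 : n ^ 2 * (n ^ 2 - 1) ≤ n ^ 4 := by
      calc n ^ 2 * (n ^ 2 - 1) ≤ n ^ 2 * n ^ 2 := Nat.mul_le_mul_left _ (by omega)
        _ = n ^ 4 := by ring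
    rw [mul_pow] at h3
    have h6 : N ≤ 13 ^ (n - n / 2) := by
      generalize (n - n / 2) ^ 4 = A at *
      generalize 13 ^ (n - n / 2) = C at *
      omega
    have h7 : 13 ^ n = 13 ^ (n - n / 2) * 13 ^ (n / 2) := by
      rw [← pow_add]
      congr 1
      omega
    have h8 : 13 ^ 1 ≤ 13 ^ (n - n / 2) := Nat.pow_le_pow_right (by norm_num) (by omega)
    have h9 : 1 ≤ 13 ^ (n / 2) := Nat.one_le_pow _ _ (by norm_num)
    rw [h7]
    generalize 13 ^ (n - n / 2) = B at *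
    generalize 13 ^ (n / 2) = A at *
    obtain ⟨A, rfl⟩ : ∃ A', A = A' + 1 := ⟨A - 1, by omega⟩
    rw [Nat.add_sub_cancel]
    have h10 : N * A ≤ B * A := Nat.mul_le_mul_right _ h6
    have h11 : B * (A + 1) = B * A + B := by ring
    omega

theorem num6 (k r : ℕ) (hk : 2 ≤ k) (h6 : 6 ∣ r) :
    (Nat.totient r ≤ 4 * k → r * Nat.totient r ≤ 3 * 13 ^ k) ∧
      (¬ 4 ∣ r → Nat.totient r ≤ 2 * k → 32 * (r * Nat.totient r) ≤ 3 * 13 ^ k) := by
  have hk2 : 13 ^ 2 ≤ 13 ^ k := Nat.pow_le_pow_right (by norm_num) hk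
  by_cases hr : r = 6
  · subst hr
    have h1 : Nat.totient 6 = 2 := by decide
    rw [h1]
    constructor
    · intro _
      omega
    · intro _ _
      omega
  have h1 := le_totient_sq r (by omega) hr
  generalize Nat.totient r = f at *
  constructor
  · intro h
    by_cases h2 : k = 2
    · subst h2
      have h3 : f ^ 2 ≤ 8 ^ 2 := Nat.pow_le_pow_left h 2
      have h4 : r ≤ 60 := by omega
      have h5 : r * f ≤ 60 * 8 := Nat.mul_le_mul h4 h
      omega
    · have h3 := xnuma_four k (by omega)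
      have h4 : f ^ 2 ≤ (4 * k) ^ 2 := Nat.pow_le_pow_left h 2
      have h5 : r * f ≤ (4 * k) ^ 2 * (4 * k) := Nat.mul_le_mul (h1.trans h4) h
      have h7 : k ^ 3 * 2 ≤ k ^ 3 * k := Nat.mul_le_mul_left _ hk
      have h8 : (4 * k) ^ 2 * (4 * k) = 32 * (k ^ 3 * 2) := by ring
      have h9 : k ^ 4 = k ^ 3 * k := by ring
      omega
  · intro h4 h
    have h5 : f ^ 2 ≤ (2 * k) ^ 2 := Nat.pow_le_pow_left h 2
    by_cases h2 : k = 2
    · subst h2
      omega
    by_cases h3 : k = 3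
    · subst h3
      have h7 : r ≤ 30 := by omega
      have h8 : r * f ≤ 30 * 6 := Nat.mul_le_mul h7 h
      omega
    have h7 : r * f ≤ (2 * k) ^ 2 * (2 * k) := Nat.mul_le_mul (h1.trans h5) h
    obtain ⟨j, rfl⟩ : ∃ j, k = j + 1 := ⟨k - 1, by omega⟩
    have h8 := xnuma_four j (by omega)
    have h9 : 3 * (j + 1) ≤ 4 * j := by omega
    have h10 : (3 * (j + 1)) ^ 3 ≤ (4 * j) ^ 3 := Nat.pow_le_pow_left h9 3
    have h11 : j ^ 3 * 3 ≤ j ^ 3 * j := Nat.mul_le_mul_left _ (by omega)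
    have h12 : j ^ 4 = j ^ 3 * j := by ring
    have h13 : (2 * (j + 1)) ^ 2 * (2 * (j + 1)) = 8 * (j + 1) ^ 3 := by ring
    rw [mul_pow, mul_pow] at h10
    rw [pow_succ 13]
    rw [h13] at h7
    rw [h12] at h8
    generalize (j + 1) ^ 3 = A at *
    generalize j ^ 3 * j = D at *
    generalize j ^ 3 = B at *
    generalize 13 ^ j = C at *
    omega

theorem num7 (r : ℕ) (h3 : ¬ 3 ∣ r) (hr : Nat.totient (3 * r) ≤ 4) : r = 1 ∨ r = 2 ∨ r = 4 := by
  by_cases h2 : r = 2
  · exact Or.inr (Or.inl h2)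
  have h1 := le_totient_sq (3 * r) (by omega) (by omega)
  have h4 : Nat.totient (3 * r) ^ 2 ≤ 4 ^ 2 := Nat.pow_le_pow_left hr 2
  have h5 : r ≠ 5 := by
    rintro rfl
    exact absurd hr (by decide)
  omega

theorem num8 (r : ℕ) (hr : 0 < r) (h3 : 3 ∣ r) (h6 : Nat.totient r < 6) :
    ¬ 9 ∣ r ∧ ¬ 3 ∣ Nat.totient r := by
  have hp : 0 < Nat.totient r := Nat.totient_pos.mpr hr
  have h2 : Nat.totient 3 ∣ Nat.totient r := Nat.totient_dvd_of_dvd h3
  have e3 : Nat.totient 3 = 2 := by decide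
  rw [e3] at h2
  constructor
  · intro h9
    have h1 : Nat.totient 9 ∣ Nat.totient r := Nat.totient_dvd_of_dvd h9
    have e9 : Nat.totient 9 = 6 := by decide
    rw [e9] at h1
    omega
  · omega

end Pool.Agent.N9181
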