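import Pool.Agent.MP_9181f8_al.N.SDPair

namespace Pool.Agent.N9181

open scoped commutatorElement

theorem exists_min {G : Type} [Group G] [Finite G] [Group.IsSolvable G] (D : Subgroup G) (hD : D.Normal)
    (hne : D ≠ ⊥) :
    ∃ (B : Subgroup G) (p : ℕ), B.Normal ∧ B ≤ D ∧ B ≠ ⊥ ∧ p.Prime ∧
      (∀ a ∈ B, ∀ b ∈ B, a * b = b * a) ∧ (∀ a ∈ B, a ^ p = 1) ∧
      ∀ B' : Subgroup G, B'.Normal → B' ≤ B → B' = ⊥ ∨ B' = B := by
  obtain ⟨B, hB⟩ := exists_minimal_of_wellFoundedLT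
    (fun B : Subgroup G => B.Normal ∧ B ≤ D ∧ B ≠ ⊥) ⟨D, hD, le_rfl, hne⟩
  obtain ⟨hn, hle, h0⟩ := hB.prop
  have hmin : ∀ B' : Subgroup G, B'.Normal → B' ≤ B → B' = ⊥ ∨ B' = B := fun B' h1 h2 =>
    or_iff_not_imp_left.2 fun h3 => le_antisymm h2 (hB.le_of_le ⟨h1, h2.trans hle, h3⟩ h2)
  have hlt := Group.IsSolvable.commutator_lt_of_ne_bot h0
  have hc : ∀ a ∈ B, ∀ b ∈ B, a * b = b * a := fun a ha b hb =>
    Subgroup.commutator_eq_bot_iff_le_centralizer.1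
      ((hmin _ inferInstance hlt.le).resolve_right hlt.ne) hb a ha
  obtain ⟨p, hp, hd⟩ := Nat.exists_prime_and_dvd (mt Subgroup.card_eq_one.1 h0)
  have := Fact.mk hp
  obtain ⟨x, hx⟩ := exists_prime_orderOf_dvd_card' p hd
  let B' : Subgroup G :=
    { carrier := {a | a ∈ B ∧ a ^ p = 1}
      one_mem' := ⟨B.one_mem, one_pow _⟩
      mul_mem' := fun {a b} ha hb => ⟨B.mul_mem ha.1 hb.1, by
        rw [Commute.mul_pow (hc a ha.1 b hb.1), ha.2, hb.2, one_mul]⟩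
      inv_mem' := fun {a} ha => ⟨B.inv_mem ha.1, by rw [inv_pow, ha.2, inv_one]⟩ }
  have h1 : B'.Normal := ⟨fun a ha g => ⟨hn.conj_mem a ha.1 g, by
    rw [conj_pow, ha.2, mul_one, mul_inv_cancel]⟩⟩
  have h2 : B' ≠ ⊥ := fun e => by
    have h3 : (x : G) ∈ B' := ⟨x.2, by rw [← hx, ← Subgroup.coe_pow, pow_orderOf_eq_one]; rfl⟩
    rw [e, Subgroup.mem_bot, OneMemClass.coe_eq_one] at h3
    rw [h3, orderOf_one] at hx
    exact hp.one_lt.ne hx
  have h3 : B' = B := (hmin B' h1 fun _ ha => ha.1).resolve_left h2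
  exact ⟨B, p, hn, hle, h0, hp, hc, fun a ha => (h3.ge ha).2, hmin⟩

theorem xstruct_comm {H : Type} [Group H] (A : Subgroup H) [A.Normal] (x y : H) :
    ⁅x, y⁆ ∈ A ↔ Commute (QuotientGroup.mk' A x) (QuotientGroup.mk' A y) := by
  rw [← commutatorElement_eq_one_iff_commute, ← map_commutatorElement, ← MonoidHom.mem_ker,
    QuotientGroup.ker_mk']

/-- the centraliser of the maximal subgroup `F` lies in `A` -/
theorem xstruct_cent {H : Type} [Group H] [Finite H] [Group.IsSolvable H] {A F : Subgroup H}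
    [A.Normal] [hn : F.Normal] (hP : PD A F)
    (hm : ∀ F' : Subgroup H, F'.Normal → F ≤ F' → F' ≤ Subgroup.centralizer (A : Set H) →
      (∀ x ∈ F', ∀ y ∈ F', ⁅x, y⁆ ∈ A) → F' ≤ F) :
    Subgroup.centralizer (F : Set H) ≤ A := by
  by_contra hne
  have hs := QuotientGroup.mk'_surjective A
  obtain ⟨B, -, hB, hle, h0, -, hc, -, -⟩ := exists_min
    ((Subgroup.centralizer (F : Set H)).map (QuotientGroup.mk' A))
    (Subgroup.Normal.map inferInstance _ hs) fun e =>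
      hne (by rwa [Subgroup.map_eq_bot_iff, QuotientGroup.ker_mk'] at e)
  have hA : A ≤ Subgroup.centralizer (F : Set H) := fun a ha x hx => (hP.cen a ha x hx).symm
  have hM : B.comap (QuotientGroup.mk' A) ≤ Subgroup.centralizer (F : Set H) := by
    refine (Subgroup.comap_mono hle).trans ?_
    rw [Subgroup.comap_map_eq, QuotientGroup.ker_mk']
    exact sup_le le_rfl hA
  have h1 : F ⊔ B.comap (QuotientGroup.mk' A) ≤ F := by
    refine hm _ inferInstance le_sup_left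
      (sup_le (fun x hx a ha => hP.cen a ha x hx) fun x hx a ha => hM hx a (hP.le ha))
      fun x hx y hy => ?_
    obtain ⟨f, hf, m, hm, rfl⟩ := Subgroup.mem_sup_of_normal_left.1 hx
    obtain ⟨f', hf', m', hm', rfl⟩ := Subgroup.mem_sup_of_normal_left.1 hy
    rw [xstruct_comm, map_mul, map_mul]
    have e : ∀ f ∈ F, ∀ m ∈ B.comap (QuotientGroup.mk' A),
        Commute (QuotientGroup.mk' A f) (QuotientGroup.mk' A m) := fun f hf m hm =>
      Commute.map (hM hm f hf) _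
    exact (((xstruct_comm A _ _).1 (hP.comm f hf f' hf')).mul_right (e f hf m' hm')).mul_left
      ((e f' hf' m hm).symm.mul_right (hc _ hm _ hm'))
  refine h0 (eq_bot_iff.2 fun b hb => ?_)
  obtain ⟨m, rfl⟩ := hs b
  exact (QuotientGroup.eq_one_iff m).2
    (hP.nd m (h1 (Subgroup.mem_sup_right hb)) fun y hy => (hM hb y hy).symm)

theorem xstruct_ff {H : Type} [Group H] [Finite H] {A F : Subgroup H} (hP : PD A F)
    {c : H} (hc : c ∈ Subgroup.centralizer (A : Set H)) (h : ∀ y ∈ F, ⁅c, y⁆ ∈ A) :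
    ∃ x ∈ F, x⁻¹ * c ∈ Subgroup.centralizer (F : Set H) := by
  obtain ⟨U, Z, _, _, _, _, _, π, ζ, B, hπ, hk, hζ, hr, hB, hcm, -, -⟩ := pd_pair A F hP
  choose g hg using fun y : F => (hr _).1 (h y y.2)
  let φ : F →* Z := MonoidHom.mk' g fun y y' => hζ (by
    rw [map_mul, hg, hg, hg]
    have e := hP.cen _ (h y' y'.2) y y.2
    calc ⁅c, ((y * y' : F) : H)⁆ = ⁅c, (y : H)⁆ * (y * ⁅c, (y' : H)⁆) * (y : H)⁻¹ := by
          simp only [Subgroup.coe_mul, commutatorElement_def]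
          group
      _ = _ := by rw [← e]; group)
  have hker : π.ker ≤ φ.ker := fun y hy => hζ (by
    rw [map_one]
    exact (hg y).trans (commutatorElement_eq_one_iff_mul_comm.2 (hc y ((hk y).1 hy)).symm))
  obtain ⟨u, hu⟩ := symp_hom B hB (π.liftOfSurjective hπ ⟨φ, hker⟩)
  obtain ⟨x, rfl⟩ := hπ u
  refine ⟨x, x.2, fun y hy => ?_⟩
  have e : ⁅c, y⁆ = ⁅(x : H), y⁆ := by
    rw [← hcm x ⟨y, hy⟩, ← hu, MonoidHom.liftOfRightInverse_comp_apply]
    exact (hg ⟨y, hy⟩).symm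
  simp only [commutatorElement_def, mul_left_inj] at e
  calc y * ((x : H)⁻¹ * c) = (x : H)⁻¹ * (x * y * (x : H)⁻¹) * c := by group
    _ = _ := by rw [← e]; group

theorem exists_sd {H : Type} [Group H] [Finite H] [Group.IsSolvable H]
    (h : ∀ B : Subgroup H, B.Normal → (∀ a ∈ B, ∀ b ∈ B, a * b = b * a) → IsCyclic B) :
    ∃ A F : Subgroup H, SD A F := by
  obtain ⟨A, hA⟩ := exists_maximal_of_wellFoundedGT
    (fun A : Subgroup H => A.Normal ∧ ∀ a ∈ A, ∀ b ∈ A, a * b = b * a)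
    ⟨⊥, inferInstance, fun a ha b _ => by rw [Subgroup.mem_bot.1 ha, one_mul, mul_one]⟩
  obtain ⟨hn, hc⟩ := hA.prop
  obtain ⟨F, hF⟩ := exists_maximal_of_wellFoundedGT
    (fun F : Subgroup H => F.Normal ∧ A ≤ F ∧ F ≤ Subgroup.centralizer (A : Set H) ∧
      ∀ x ∈ F, ∀ y ∈ F, ⁅x, y⁆ ∈ A)
    ⟨A, hn, le_rfl, fun x hx a ha => hc a ha x hx, fun x hx y hy =>
      A.mul_mem (A.mul_mem (A.mul_mem hx hy) (A.inv_mem hx)) (A.inv_mem hy)⟩
  obtain ⟨hFn, hle, hcen, hcm⟩ := hF.prop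
  have hP : PD A F := ⟨h A hn hc, hle, fun a ha x hx => hcen hx a ha, hcm, fun x hx hx' =>
    hA.le_of_ge (y := F ⊓ Subgroup.centralizer (F : Set H))
      ⟨inferInstance, fun a ha b hb => hb.2 a ha.1⟩
      (fun a ha => ⟨hle ha, fun y hy => (hcen hy a ha).symm⟩) ⟨hx, fun y hy => (hx' y hy).symm⟩⟩
  have hC := xstruct_cent hP fun F' h1 h2 h3 h4 => hF.le_of_ge ⟨h1, hle.trans h2, h3, h4⟩ h2
  refine ⟨A, F, hP, hn, hFn, fun c hc hy => ?_⟩
  obtain ⟨x, hx, hx'⟩ := xstruct_ff hP hc hy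
  simpa using F.mul_mem hx (hle (hC hx'))

end Pool.Agent.N9181
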