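import Pool.Agent.MP_9181f8_al.N.Dim
import Pool.Agent.MP_9181f8_al.N.Count
import Pool.Agent.MP_9181f8_al.N.FreeU
import Pool.Agent.MP_9181f8_al.N.NumA
import Pool.Agent.MP_9181f8_al.N.Struct

namespace Pool.Agent.N9181

open scoped commutatorElement

theorem xappup_tri {H : Type} [Group H] [Finite H] {n z : H} (hn : ∀ g, Commute n g)
    (hn2 : n * n = 1) (hz : ∀ g, Commute z g) (hz3 : orderOf z = 3)
    (h2 : ∀ t : H, t * t = 1 → t = 1 ∨ t = n) (h3 : ∀ s : H, s ^ 3 = 1 → ∀ g, Commute s g)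
    (h4 : ∀ w : H, Nat.totient (orderOf w) ≤ 4) {y y' : H} (hy : y * y = n) (hy' : y' * y' = n) :
    y' = y ∨ y' = n * y ∨ y * y' = n * (y' * y) := by
  have hi : ∀ x : H, x * x = n → x⁻¹ = n * x := fun x hx => by
    rw [inv_eq_iff_mul_eq_one, ← mul_assoc, ← (hn x).eq, mul_assoc, hx, hn2]
  have hw : y * (y * y'⁻¹) * y⁻¹ = (y * y'⁻¹)⁻¹ := by
    rw [← mul_assoc y, hy, mul_inv_rev, inv_inv, hi y' hy', ← mul_assoc n, hn2, one_mul]
  generalize hw0 : y * y'⁻¹ = w at hw
  have h5 : ¬ 3 ∣ orderOf w := by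
    rintro ⟨c, hc⟩
    have h6 : (w ^ c) ^ 3 = 1 := by rw [← pow_mul, mul_comm, ← hc, pow_orderOf_eq_one]
    have h7 : w ^ c = (w ^ c)⁻¹ := by
      rw [← inv_pow, ← hw, conj_pow, ← (h3 _ h6 y).eq, mul_inv_cancel_right]
    have h8 : w ^ c = 1 := by
      rw [pow_succ, pow_two] at h6
      rw [eq_inv_iff_mul_eq_one] at h7
      rwa [h7, one_mul] at h6
    have h9 := orderOf_pos w
    have h10 := Nat.le_of_dvd (by omega) (orderOf_dvd_of_pow_eq_one h8)
    omega
  have h6 := h4 (z * w)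
  rw [(hz w).orderOf_mul_eq_mul_orderOf_of_coprime
    (by rw [hz3]; exact (Nat.Prime.coprime_iff_not_dvd Nat.prime_three).2 h5), hz3] at h6
  have h7 : w * w * (w * w) = 1 := by
    have h8 : orderOf w ∣ 4 := by rcases num7 _ h5 h6 with h | h | h <;> rw [h] <;> norm_num
    have := orderOf_dvd_iff_pow_eq_one.1 h8
    rwa [pow_succ, pow_succ, pow_two, mul_assoc] at this
  rcases h2 _ h7 with h | h
  · rcases h2 _ h with h | h
    · exact Or.inl (mul_inv_eq_one.1 (hw0.trans h)).symm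
    · refine Or.inr (Or.inl ?_)
      rw [mul_inv_eq_iff_eq_mul.1 (hw0.trans h), ← mul_assoc, hn2, one_mul]
  · refine Or.inr (Or.inr ?_)
    have h8 : w = n * (y * y') := by
      rw [← hw0, hi y' hy', ← mul_assoc, ← (hn y).eq, mul_assoc]
    have h9 : w⁻¹ = n * (y' * y) := by
      rw [← hw0, mul_inv_rev, inv_inv, hi y hy, ← mul_assoc, ← (hn y').eq, mul_assoc]
    rw [← h9, hi w h, h8, ← mul_assoc, hn2, one_mul]

theorem xappup_six {H : Type} [Group H] {n : H} (hn : ∀ g, Commute n g)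
    (hn2 : n * n = 1) (hn1 : n ≠ 1)
    (ht : ∀ y y' : H, y * y = n → y' * y' = n → y' = y ∨ y' = n * y ∨ y * y' = n * (y' * y))
    {y₁ : H} (h₁ : y₁ * y₁ = n) :
    ∃ y₂ : H, ∀ y, y * y = n →
      y ∈ ({y₁, n * y₁, y₂, n * y₂, y₁ * y₂, n * (y₁ * y₂)} : Set H) := by
  by_cases h : ∃ y₂, y₂ * y₂ = n ∧ y₁ * y₂ = n * (y₂ * y₁)
  · obtain ⟨y₂, h₂, h₃⟩ := h
    refine ⟨y₂, fun y hy => ?_⟩
    simp only [Set.mem_insert_iff, Set.mem_singleton_iff]
    have h4 : y₁ * y₂ * (y₁ * y₂) = n := by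
      nth_rw 1 [h₃]
      rw [mul_assoc n, mul_assoc y₂, ← mul_assoc y₁, h₁, ← mul_assoc y₂, ← (hn y₂).eq,
        mul_assoc n, h₂, hn2, mul_one]
    rcases ht y₁ y h₁ hy with h5 | h5 | h5
    · exact Or.inl h5
    · exact Or.inr (Or.inl h5)
    rcases ht y₂ y h₂ hy with h6 | h6 | h6
    · exact Or.inr (Or.inr (Or.inl h6))
    · exact Or.inr (Or.inr (Or.inr (Or.inl h6)))
    rcases ht (y₁ * y₂) y h4 hy with h7 | h7 | h7
    · exact Or.inr (Or.inr (Or.inr (Or.inr (Or.inl h7))))
    · exact Or.inr (Or.inr (Or.inr (Or.inr (Or.inr h7))))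
    exfalso
    have h8 : y₁ * y₂ * y = y * (y₁ * y₂) := by
      rw [mul_assoc, h6, ← mul_assoc, ← (hn y₁).eq, mul_assoc, ← mul_assoc y₁, h5, mul_assoc n,
        ← mul_assoc n, hn2, one_mul, mul_assoc]
    rw [h8] at h7
    exact hn1 (right_eq_mul.1 h7)
  · refine ⟨1, fun y hy => ?_⟩
    simp only [Set.mem_insert_iff, Set.mem_singleton_iff]
    rcases ht y₁ y h₁ hy with h5 | h5 | h5
    · exact Or.inl h5
    · exact Or.inr (Or.inl h5)
    · exact absurd ⟨y, hy, h5⟩ h

theorem xappup_three {H : Type} [Group H] [Finite H] {n z : H} (hn2 : n * n = 1)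
    (hz : ∀ g, Commute z g) (hz3 : orderOf z = 3) :
    3 * Nat.card {y : H // y * y = n} ≤ Nat.card H := by
  have key : ∀ (y : {y : H // y * y = n}) (c : Subgroup.zpowers z), (y.1 * c.1) ^ 9 = y.1 := by
    rintro ⟨y, hy⟩ ⟨_, i, rfl⟩
    have h1 : y ^ 9 = y := by
      rw [show y ^ 9 = y * y * (y * y) * (y * y * (y * y)) * y by
        simp only [pow_succ, pow_zero, one_mul, mul_assoc], hy, hn2, one_mul, one_mul]
    have h2 : z ^ 9 = 1 := orderOf_dvd_iff_pow_eq_one.1 (by rw [hz3]; norm_num)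
    have h3 : (z ^ i) ^ 9 = 1 := by
      rw [← zpow_natCast, ← zpow_mul, mul_comm, zpow_mul, zpow_natCast, h2, one_zpow]
    simp only
    rw [((hz y).zpow_left i).symm.mul_pow, h1, h3, mul_one]
  have := Nat.card_le_card_of_injective
    (fun p : {y : H // y * y = n} × Subgroup.zpowers z => p.1.1 * p.2.1) fun p q h => by
      have h1 : p.1 = q.1 :=
        Subtype.ext (by rw [← key p.1 p.2, ← key q.1 q.2]; exact congrArg (· ^ 9) h)
      refine Prod.ext h1 (Subtype.ext ?_)
      simp only [h1] at h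
      exact mul_left_cancel h
  rwa [Nat.card_prod, Nat.card_zpowers, hz3, mul_comm] at this

theorem appUp {V : Type} [AddCommGroup V] [Module K V] [Module.Finite K V]
    {H : Type} [Group H] [Finite H] [Group.IsSolvable H] (h13 : ¬ 13 ∣ Nat.card H) (ρ : Representation K H V) (hinj : Function.Injective ρ)
    (hF : HFree ρ) (hz : Scal ρ) (N m : ℕ) (hNM : NM H N m) (hU : HU ρ N m) (k : ℕ) (hk : 0 < k)
    (hn : Module.finrank K V = 2 * k) : Nat.card {y : H // ρ (y * y) = -1} ≤ 13 ^ k := by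
  have hV : ∃ v : V, v ≠ 0 := by
    have : Nontrivial V := Module.nontrivial_of_finrank_pos (R := K) (by omega)
    exact exists_ne 0
  have hfree : ∀ (a : H) (v : V), v ≠ 0 → ρ a v = v → a = 1 := fun a v hv h =>
    hinj ((hF a v hv h).trans (map_one ρ).symm)
  have hfr : ∀ A : Subgroup H, FreeOn ρ A := fun A a _ => hfree a
  have heq : ∀ (a b : H) (v : V), v ≠ 0 → ρ a v = ρ b v → a = b := fun a b v hv h => by
    refine (inv_mul_eq_one.1 (hfree (b⁻¹ * a) v hv ?_)).symm
    rw [map_mul, Module.End.mul_apply, h, ← Module.End.mul_apply, ← map_mul, inv_mul_cancel,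
      map_one, Module.End.one_apply]
  obtain ⟨z, hz⟩ := hz
  obtain ⟨v, hv⟩ := id hV
  have hzc : ∀ g, Commute z g := fun g => heq _ _ v hv (by
    rw [map_mul, map_mul, Module.End.mul_apply, Module.End.mul_apply, hz, hz, map_smul])
  have hz3 : orderOf z = 3 := by
    have : Fact (Nat.Prime 3) := ⟨Nat.prime_three⟩
    refine orderOf_eq_prime (hfree _ v hv ?_) fun h => ?_
    · rw [pow_succ, pow_two, map_mul, map_mul, Module.End.mul_apply, Module.End.mul_apply, hz, hz,
        hz, smul_smul, smul_smul, show (3 : K) * 3 * 3 = 1 by decide, one_smul]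
    · have h1 := hz v
      rw [h, map_one, Module.End.one_apply] at h1
      have h2 : ((3 : K) - 1) • v = 0 := by rw [sub_smul, one_smul, ← h1, sub_self]
      exact hv ((smul_eq_zero.1 h2).resolve_left (by decide))
  rcases isEmpty_or_nonempty {y : H // ρ (y * y) = -1} with h | ⟨y₁, h₁⟩
  · rw [Nat.card_of_isEmpty]
    exact Nat.zero_le _
  obtain ⟨n, hn0⟩ : ∃ n, y₁ * y₁ = n := ⟨_, rfl⟩
  rw [hn0] at h₁
  have hS : Nat.card {y : H // ρ (y * y) = -1} = Nat.card {y : H // y * y = n} :=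
    Nat.card_congr (Equiv.subtypeEquivRight fun y => by rw [← h₁, hinj.eq_iff])
  have hnc : ∀ g, Commute n g := fun g => hinj (by
    rw [map_mul, map_mul, h₁, neg_one_mul, mul_neg_one])
  have hn2 : n * n = 1 := hinj (by rw [map_mul, h₁, map_one, neg_mul_neg, one_mul])
  have hn1 : n ≠ 1 := fun h => by
    have h1 := LinearMap.congr_fun h₁ v
    rw [h, map_one, LinearMap.neg_apply, Module.End.one_apply] at h1
    have h2 : (2 : K) • v = 0 := by rw [two_smul]; exact add_eq_zero_iff_eq_neg.2 h1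
    exact hv ((smul_eq_zero.1 h2).resolve_left (by decide))
  rw [hS]
  rcases (show k = 1 ∨ 2 ≤ k by omega) with rfl | hk2
  · have h2 : ∀ t : H, t * t = 1 → t = 1 ∨ t = n := fun t ht => by
      by_cases h : v + ρ t v = 0
      · refine Or.inr (heq _ _ v hv ?_)
        rw [h₁, LinearMap.neg_apply, Module.End.one_apply]
        exact eq_neg_of_add_eq_zero_right h
      · refine Or.inl (hfree t _ h ?_)
        rw [map_add, ← Module.End.mul_apply, ← map_mul, ht, map_one, Module.End.one_apply,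
          add_comm]
    have h3 : ∀ s : H, s ^ 3 = 1 → ∀ g, Commute s g := fun s hs g => by
      by_cases h : ρ s v - (9 : K) • v = 0
      · rw [heq s (z * z) v hv (by
          rw [map_mul, Module.End.mul_apply, hz, hz, smul_smul, sub_eq_zero.1 h]; rfl)]
        exact (hzc g).mul_left (hzc g)
      by_cases h' : ρ s (ρ s v - (9 : K) • v) - (3 : K) • (ρ s v - (9 : K) • v) = 0
      · rw [heq s z _ h (by rw [hz, sub_eq_zero.1 h'])]
        exact hzc g
      have e : ρ s (ρ s (ρ s v)) = v := by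
        rw [← Module.End.mul_apply, ← Module.End.mul_apply, ← map_mul, ← map_mul, ← pow_two,
          ← pow_succ, hs, map_one, Module.End.one_apply]
      rw [hfree s _ h' (by
        simp only [map_sub, map_smul, e]
        match_scalars <;> decide)]
      exact Commute.one_left g
    have h4 : ∀ w : H, Nat.totient (orderOf w) ≤ 4 := fun w => by
      have hc : ∀ a ∈ Subgroup.zpowers w, ∀ x ∈ Subgroup.zpowers w, a * x = x * a := by
        rintro _ ⟨i, rfl⟩ _ ⟨j, rfl⟩
        exact (Commute.refl w).zpow_zpow i j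
      have := dim2 h13 ρ hV N m hNM hU (Subgroup.zpowers w) (Subgroup.zpowers w)
        ⟨inferInstance, le_rfl, hc, fun x hx y hy => by
          rw [commutatorElement_eq_one_iff_mul_comm.2 (hc x hx y hy)]; exact one_mem _,
          fun x hx _ => hx⟩ (hfr _) 1 (by rw [Subgroup.relIndex_self, one_pow])
      rwa [Nat.card_zpowers, mul_one, hn] at this
    obtain ⟨y₂, h5⟩ := xappup_six hnc hn2 hn1
      (fun y y' => xappup_tri hnc hn2 hzc hz3 h2 h3 h4) hn0
    refine (Set.ncard_le_ncard (s := {y : H | y * y = n}) h5).trans ?_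
    refine le_trans ?_ (show 0 + 1 + 1 + 1 + 1 + 1 + 1 ≤ 13 ^ 1 by norm_num)
    iterate 5 refine (Set.ncard_insert_le _ _).trans (Nat.succ_le_succ ?_)
    simp
  · obtain ⟨A, F, hA⟩ := exists_sd (H := H) fun B _ hB => freeCyc ρ B (hfr B) hV hB
    obtain ⟨e, I, M, he, hi, hI, -, -, -, -, -, -, hc⟩ := sd_count A F hA
    have hd := dim2 h13 ρ hV N m hNM hU A F hA.toPD (hfr A) e hi
    have hcen : ∀ c : H, (∀ g, Commute c g) → orderOf c ∣ Nat.card A := fun c h => by
      refine Subgroup.orderOf_dvd_natCard A (hA.nd c (hA.ff c (fun g _ => (h g).symm) fun y _ => ?_)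
        fun y _ => h y)
      rw [commutatorElement_eq_one_iff_mul_comm.2 (h y)]
      exact one_mem _
    have h6 : 6 ∣ Nat.card A := by
      have h2 := hcen n hnc
      have h3 := hcen z hzc
      rw [orderOf_eq_prime (p := 2) ((pow_two n).trans hn2) hn1] at h2
      rw [hz3] at h3
      omega
    have h7 := xappup_three hn2 hzc hz3
    obtain ⟨h8, h9⟩ := num6 k _ hk2 h6
    have hI1 := hI.1
    rcases freeU ρ hV A F hA.toPD (hfr F) with h | ⟨h, h'⟩
    · obtain rfl : e = 1 := by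
        rw [hi] at h
        exact (Nat.pow_eq_one.1 h).resolve_right (by norm_num)
      have h10 := h8 (by omega)
      have h11 := Nat.mul_le_mul_left (Nat.card A * Nat.totient (Nat.card A) * 1 ^ 2)
        (hI1.trans (show ch 2 (1 ^ 2) ≤ 1 by decide))
      omega
    · obtain rfl : e = 2 := by
        rw [hi] at h
        exact Nat.pow_left_injective (n := 2) (by norm_num) h
      have h10 := h9 h' (by omega)
      have h11 := Nat.mul_le_mul_left (Nat.card A * Nat.totient (Nat.card A) * 2 ^ 2)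
        (hI1.trans (show ch 2 (2 ^ 2) ≤ 8 by decide))
      omega

end Pool.Agent.N9181
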