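import Pool.Agent.MP_9181f8_al.N.BtIdem

namespace Pool.Agent.N9181

open scoped commutatorElement

open Polynomial in
theorem xbteig_e0 (g P : K[X]) (hP : P.Separable) :
    ∃ e s t : K[X], P ∣ e * e - e ∧ P ∣ g * e ∧ 1 - e = s * g + t * P := by
  classical
  obtain ⟨d', hd'⟩ := EuclideanDomain.gcd_dvd_right g P
  obtain ⟨g', hg'⟩ := EuclideanDomain.gcd_dvd_left g P
  have hab := EuclideanDomain.gcd_eq_gcd_ab g P
  generalize EuclideanDomain.gcd g P = d at hd' hg' hab
  have hc : IsCoprime d d' := Polynomial.Separable.isCoprime (hd' ▸ hP)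
  obtain ⟨u, w, huw⟩ := hc
  refine ⟨w * d', u * EuclideanDomain.gcdA g P, u * EuclideanDomain.gcdB g P, ⟨-(u * w), ?_⟩,
    ⟨g' * w, ?_⟩, ?_⟩
  · linear_combination (w * d') * huw + (u * w) * hd'
  · linear_combination (w * d') * hg' - (g' * w) * hd'
  · linear_combination u * hab - huw

theorem xbteig_nil (M : ℕ) (x : RM M) (hx : red M x = 0) : IsNilpotent x := by
  obtain ⟨y, rfl⟩ := ZMod.natCast_zmod_surjective x
  rw [map_natCast, ZMod.natCast_eq_zero_iff] at hx
  refine ⟨M + 1, ?_⟩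
  rw [← Nat.cast_pow, ZMod.natCast_eq_zero_iff]
  exact pow_dvd_pow_of_dvd hx _

open Polynomial in
theorem xbteig_liftidem (N : ℕ) (hN : 0 < N) (M : ℕ) (e0 : K[X])
    (h0 : (X ^ N - 1 : K[X]) ∣ e0 * e0 - e0) :
    ∃ e : (RM M)[X], (X ^ N - 1 : (RM M)[X]) ∣ e * e - e ∧
      (X ^ N - 1 : K[X]) ∣ e.map (red M) - e0 ∧ e.natDegree < N := by
  have hm : (X ^ N - 1 : (RM M)[X]).map (red M) = X ^ N - 1 := by simp
  let f := AdjoinRoot.map (red M) (X ^ N - 1) (X ^ N - 1) (hm ▸ dvd_rfl)
  have hf : ∀ p : (RM M)[X], f (AdjoinRoot.mk _ p) = AdjoinRoot.mk _ (p.map (red M)) := by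
    intro p
    have : f.comp (AdjoinRoot.mk _) = (AdjoinRoot.mk _).comp (mapRingHom (red M)) := by
      refine Polynomial.ringHom_ext (fun r => ?_) ?_
      · simp [f]
      · simp [f]
    exact DFunLike.congr_fun this p
  have hs : Function.Surjective (Polynomial.map (red M)) := map_surjective _ (red_surj M)
  have hk : ∀ x ∈ RingHom.ker f, IsNilpotent x := by
    intro x hx
    obtain ⟨p, rfl⟩ := AdjoinRoot.mk_surjective x
    rw [RingHom.mem_ker, hf, AdjoinRoot.mk_eq_zero] at hx
    obtain ⟨q, hq⟩ := hx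
    obtain ⟨q, rfl⟩ := hs q
    have h1 : AdjoinRoot.mk (X ^ N - 1 : (RM M)[X]) p
        = AdjoinRoot.mk _ (p - (X ^ N - 1) * q) := by
      rw [AdjoinRoot.mk_eq_mk]
      exact ⟨q, by ring⟩
    rw [h1]
    refine IsNilpotent.map ?_ _
    rw [Polynomial.isNilpotent_iff]
    intro i
    apply xbteig_nil
    rw [← coeff_map, Polynomial.map_sub, Polynomial.map_mul, hm, hq, sub_self, coeff_zero]
  obtain ⟨e1, rfl⟩ := hs e0
  obtain ⟨e', he', hfe⟩ := exists_isIdempotentElem_eq_of_ker_isNilpotent f hk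
    (AdjoinRoot.mk _ (e1.map (red M))) ⟨_, hf e1⟩
    (by rw [IsIdempotentElem, ← map_mul, AdjoinRoot.mk_eq_mk]; exact h0)
  obtain ⟨e2, rfl⟩ := AdjoinRoot.mk_surjective e'
  have : Nontrivial (RM M) := (red M).domain_nontrivial
  have hmon : (X ^ N - 1 : (RM M)[X]).Monic := by
    simpa using monic_X_pow_sub_C (1 : RM M) hN.ne'
  have hdeg : (X ^ N - 1 : (RM M)[X]).natDegree = N := by
    simpa using natDegree_X_pow_sub_C (n := N) (r := (1 : RM M))
  have h2 : AdjoinRoot.mk (X ^ N - 1 : (RM M)[X]) (e2 %ₘ (X ^ N - 1)) = AdjoinRoot.mk _ e2 := by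
    rw [AdjoinRoot.mk_eq_mk]
    exact ⟨-(e2 /ₘ (X ^ N - 1)), by
      linear_combination modByMonic_add_div e2 (X ^ N - 1 : (RM M)[X])⟩
  refine ⟨e2 %ₘ (X ^ N - 1), ?_, ?_, ?_⟩
  · rw [← AdjoinRoot.mk_eq_mk, map_mul, h2]
    exact he'
  · rw [← AdjoinRoot.mk_eq_mk, ← hf, h2, hfe]
  · have hne : (X ^ N - 1 : (RM M)[X]) ≠ 1 := by
      intro h
      rw [h, natDegree_one] at hdeg
      omega
    have := natDegree_modByMonic_lt e2 hmon hne
    rwa [hdeg] at this

theorem xbteig_lift {V : Type} [AddCommGroup V] [Module K V] [Module.Finite K V]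
    (a : Module.End K V) (N : ℕ) (hN : ¬ 13 ∣ N) (ha : a ^ N = 1) (M : ℕ) :
    ∃ (n : ℕ) (b : Module.Basis (Fin n) K V) (A : Matrix (Fin n) (Fin n) (RM M)),
      A ^ N = 1 ∧ (∀ k, (A ^ k).map (red M) = LinearMap.toMatrix b b (a ^ k)) ∧
        ∀ k, bt (a ^ k) M = (A ^ k).trace := by
  obtain ⟨n, b, A, N', hN', hA, hAa, -⟩ := isBt_bt a N hN ha M
  have hk : ∀ k, (A ^ k).map (red M) = LinearMap.toMatrix b b (a ^ k) := by
    intro k
    rw [← LinearMap.toMatrix_pow, ← hAa]
    exact map_pow (red M).mapMatrix A k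
  have h1 : (A ^ N) ^ (13 ^ M) = 1 := pow_of_red M _ (by rw [hk, ha, LinearMap.toMatrix_one])
  have h2 : (A ^ N) ^ N' = 1 := by rw [← pow_mul, mul_comm, pow_mul, hA, one_pow]
  have hc : Nat.Coprime (13 ^ M) N' :=
    Nat.Coprime.pow_left _ ((Nat.Prime.coprime_iff_not_dvd fact13.out).2 hN')
  have h3 : A ^ N = 1 := by
    have := pow_gcd_eq_one.2 ⟨h1, h2⟩
    rwa [hc, pow_one] at this
  refine ⟨n, b, A, h3, hk, fun k => ?_⟩
  refine isBt_unique (a ^ k) M _ _ (isBt_bt (a ^ k) N hN ?_ M) ⟨n, b, A ^ k, N, hN, ?_, hk k, rfl⟩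
  · rw [← pow_mul, mul_comm, pow_mul, ha, one_pow]
  · rw [← pow_mul, mul_comm, pow_mul, h3, one_pow]

theorem xbteig_core {V : Type} [AddCommGroup V] [Module K V] [Module.Finite K V]
    (a : Module.End K V) (N : ℕ) (hN : ¬ 13 ∣ N) (ha : a ^ N = 1) (M : ℕ) (c : ℕ → RM M)
    (W : Submodule K V)
    (hi : ∀ (n : ℕ) (A : Matrix (Fin n) (Fin n) (RM M)), A ^ N = 1 →
      (∑ k ∈ Finset.range N, c k • A ^ k) * (∑ k ∈ Finset.range N, c k • A ^ k) =
        ∑ k ∈ Finset.range N, c k • A ^ k)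
    (hW : ∀ v, v ∈ W ↔ (∑ k ∈ Finset.range N, red M (c k) • a ^ k) v = v) :
    (Module.finrank K W : RM M) = ∑ k ∈ Finset.range N, c k * bt (a ^ k) M := by
  obtain ⟨n, b, A, hA, hk, hb⟩ := xbteig_lift a N hN ha M
  rw [← trace_idem b _ M _ (hi n A hA) ?_ W hW, Matrix.trace_sum]
  · refine Finset.sum_congr rfl fun k _ => ?_
    rw [Matrix.trace_smul, hb, smul_eq_mul]
  · rw [map_sum]
    refine (map_sum (red M).mapMatrix _ _).trans (Finset.sum_congr rfl fun k _ => ?_)
    rw [(LinearMap.toMatrix b b).map_smul, ← hk]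
    ext i j
    simp

theorem xbteig_geom {R B : Type} [CommRing R] [Ring B] [Algebra R B] (x : B) (c : R) (N : ℕ)
    (hx : x ^ N = 1) (hc : c ^ N = 1) :
    x * ∑ k ∈ Finset.range N, c ^ (N - k) • x ^ k
      = c • ∑ k ∈ Finset.range N, c ^ (N - k) • x ^ k := by
  have h1 := Finset.sum_range_succ (fun k => c ^ (N + 1 - k) • x ^ k) N
  have h2 := Finset.sum_range_succ' (fun k => c ^ (N + 1 - k) • x ^ k) N
  rw [h1] at h2
  simp only [Nat.add_sub_cancel_left, pow_one, hx, Nat.sub_zero, pow_zero, pow_succ c N, hc,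
    one_mul, add_left_inj, Nat.add_sub_add_right] at h2
  rw [Finset.mul_sum, Finset.smul_sum]
  calc _ = ∑ k ∈ Finset.range N, c ^ (N - k) • x ^ (k + 1) :=
        Finset.sum_congr rfl fun k _ => by rw [mul_smul_comm, ← pow_succ']
    _ = _ := h2.symm
    _ = _ := Finset.sum_congr rfl fun k hk => by
        have := Finset.mem_range.1 hk
        rw [smul_smul, ← pow_succ', show N + 1 - k = N - k + 1 by omega]

theorem xbteig_pow {R B : Type} [CommRing R] [Ring B] [Algebra R B] (x S : B) (c : R)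
    (h : x * S = c • S) (k : ℕ) : x ^ k * S = c ^ k • S := by
  induction k with
  | zero => simp
  | succ k ih => rw [pow_succ, mul_assoc, h, mul_smul_comm, ih, smul_smul, pow_succ']

theorem xbteig_ed {V : Type} [AddCommGroup V] [Module K V] (a : Module.End K V) (c : K) :
    ed a c = Module.finrank K
      (LinearMap.ker (Polynomial.aeval a (Polynomial.X - Polynomial.C c))) := by
  have : Polynomial.aeval a (Polynomial.X - Polynomial.C c) = a - c • 1 := by
    rw [map_sub, Polynomial.aeval_X, Polynomial.aeval_C, Algebra.algebraMap_eq_smul_one]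
  rw [this, ed, Module.End.eigenspace_def]

theorem bt_eig {V : Type} [AddCommGroup V] [Module K V] [Module.Finite K V]
    (a : Module.End K V) (N : ℕ) (hN : ¬ 13 ∣ N) (ha : a ^ N = 1) (M : ℕ) (c : RM M)
    (hc : c ^ N = 1) :
    ∑ k ∈ Finset.range N, c ^ (N - k) * bt (a ^ k) M = (N : RM M) * (ed a (red M c) : RM M) := by
  have hu : IsUnit (N : RM M) := red_unit M _ (by
    rw [map_natCast, Ne, ZMod.natCast_eq_zero_iff]; exact hN)
  obtain ⟨u, hu⟩ := hu.exists_left_inv
  have hc' : red M c ^ N = 1 := by rw [← map_pow, hc, map_one]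
  have hu' : red M u * (N : K) = 1 := by
    rw [← map_natCast (red M), ← map_mul, hu, map_one]
  have h := xbteig_core a N hN ha M (fun k => u * c ^ (N - k)) (a.eigenspace (red M c)) ?_ ?_
  · rw [ed, h, Finset.mul_sum]
    refine Finset.sum_congr rfl fun k _ => ?_
    rw [← mul_assoc, ← mul_assoc, mul_comm _ u, hu, one_mul]
  · intro n A hA
    have h1 := xbteig_geom A c N hA hc
    simp only [mul_smul, ← Finset.smul_sum]
    generalize hS : ∑ k ∈ Finset.range N, c ^ (N - k) • A ^ k = S at h1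
    have h2 : S * S = (N : RM M) • S := by
      nth_rewrite 1 [← hS]
      rw [Finset.sum_mul, Finset.sum_congr rfl (g := fun _ => S), Finset.sum_const,
        Finset.card_range, Nat.cast_smul_eq_nsmul]
      intro k hk
      rw [smul_mul_assoc, xbteig_pow A S c h1, smul_smul, ← pow_add,
        Nat.sub_add_cancel (Finset.mem_range.1 hk).le, hc, one_smul]
    rw [smul_mul_smul_comm, h2, smul_smul, mul_assoc, hu, mul_one]
  · intro v
    have h1 := xbteig_geom a (red M c) N ha hc'
    simp only [map_mul, map_pow, mul_smul, ← Finset.smul_sum]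
    rw [Module.End.mem_eigenspace_iff]
    constructor
    · intro hv
      have hk : ∀ k, (a ^ k) v = red M c ^ k • v := by
        intro k
        induction k with
        | zero => simp
        | succ k ih =>
          rw [pow_succ', Module.End.mul_apply, ih, map_smul, hv, smul_smul, ← pow_succ]
      rw [LinearMap.smul_apply, LinearMap.sum_apply, Finset.sum_congr rfl (g := fun _ => v),
        Finset.sum_const, Finset.card_range, ← Nat.cast_smul_eq_nsmul K, smul_smul, hu', one_smul]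
      intro k hk'
      rw [LinearMap.smul_apply, hk, smul_smul, ← pow_add,
        Nat.sub_add_cancel (Finset.mem_range.1 hk').le, hc', one_smul]
    · intro hv
      generalize ∑ k ∈ Finset.range N, red M c ^ (N - k) • a ^ k = S at h1 hv
      have h2 : a (S v) = red M c • S v := LinearMap.congr_fun h1 v
      rw [LinearMap.smul_apply] at hv
      rw [← hv, map_smul, h2, smul_comm]

theorem bt_ker (g : Polynomial K) (N : ℕ) (hN : ¬ 13 ∣ N) (M : ℕ) :
    ∃ c : ℕ → RM M, ∀ (V : Type) [AddCommGroup V] [Module K V] [Module.Finite K V]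
      (a : Module.End K V), a ^ N = 1 →
      (Module.finrank K (LinearMap.ker (Polynomial.aeval a g)) : RM M) =
        ∑ k ∈ Finset.range N, c k * bt (a ^ k) M := by
  have hN0 : 0 < N := Nat.pos_of_ne_zero (by rintro rfl; exact hN (dvd_zero _))
  have hsep : (Polynomial.X ^ N - 1 : Polynomial K).Separable :=
    Polynomial.X_pow_sub_one_separable_iff.2 (by rw [Ne, ZMod.natCast_eq_zero_iff]; exact hN)
  obtain ⟨e0, s, t, h0, ⟨q1, h1⟩, h2⟩ := xbteig_e0 g _ hsep
  obtain ⟨e, ⟨q2, he⟩, ⟨q3, hee⟩, hd⟩ := xbteig_liftidem N hN0 M e0 h0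
  refine ⟨e.coeff, fun V _ _ _ a ha => xbteig_core a N hN ha M _ _ ?_ ?_⟩
  · intro n A hA
    rw [← Polynomial.aeval_eq_sum_range' hd, ← map_mul, ← sub_eq_zero, ← map_sub, he, map_mul,
      map_sub, map_pow, Polynomial.aeval_X, hA, map_one, sub_self, zero_mul]
  · intro v
    have hP : Polynomial.aeval a (Polynomial.X ^ N - 1 : Polynomial K) = 0 := by
      rw [map_sub, map_pow, Polynomial.aeval_X, ha, map_one, sub_self]
    have h3 : ∑ k ∈ Finset.range N, red M (e.coeff k) • a ^ k = Polynomial.aeval a e0 := by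
      have h4 := Polynomial.aeval_eq_sum_range'
        (lt_of_le_of_lt (Polynomial.natDegree_map_le (f := red M)) hd) a
      simp only [Polynomial.coeff_map] at h4
      rw [← h4, ← sub_eq_zero, ← map_sub, hee, map_mul, hP, zero_mul]
    rw [h3, LinearMap.mem_ker]
    constructor
    · intro hv
      have h4 := LinearMap.congr_fun (congrArg (Polynomial.aeval a) h2) v
      rw [map_sub, map_one, map_add, map_mul, map_mul, hP, mul_zero, add_zero,
        Module.End.mul_apply, hv, map_zero, LinearMap.sub_apply, Module.End.one_apply,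
        sub_eq_zero] at h4
      exact h4.symm
    · intro hv
      have h4 := LinearMap.congr_fun (congrArg (Polynomial.aeval a) h1) v
      rwa [map_mul, map_mul, hP, zero_mul, Module.End.mul_apply, hv, LinearMap.zero_apply] at h4

theorem ker_of_U {V : Type} [AddCommGroup V] [Module K V] [Module.Finite K V]
    {H : Type} [Group H] [Finite H] (h13 : ¬ 13 ∣ Nat.card H) (ρ : Representation K H V) (N m : ℕ) (hU : HU ρ N m) (h : H) (j : ℕ)
    (hj : j.Coprime N) (g : Polynomial K) :
    Module.finrank K (LinearMap.ker (Polynomial.aeval (ρ (h ^ j)) g)) +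
      Module.finrank K (LinearMap.ker (Polynomial.aeval (ρ (h ^ (j * m))) g)) =
    Module.finrank K (LinearMap.ker (Polynomial.aeval (ρ h) g)) +
      Module.finrank K (LinearMap.ker (Polynomial.aeval (ρ (h ^ m)) g)) := by
  refine eq_of_cast _ _ fun M => ?_
  obtain ⟨c, hc⟩ := bt_ker g (Nat.card H) h13 M
  have h1 : ∀ x : H, (ρ x) ^ Nat.card H = 1 := fun x => by
    rw [← map_pow, pow_card_eq_one', map_one]
  rw [Nat.cast_add, Nat.cast_add, hc V _ (h1 _), hc V _ (h1 _), hc V _ (h1 _), hc V _ (h1 _),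
    ← Finset.sum_add_distrib, ← Finset.sum_add_distrib]
  refine Finset.sum_congr rfl fun k _ => ?_
  rw [← mul_add, ← mul_add, ← map_pow, ← map_pow, ← map_pow, ← map_pow, pow_right_comm h j k,
    pow_right_comm h (j * m) k, pow_right_comm h m k, hU (h ^ k) j hj M]

theorem ed_of_U {V : Type} [AddCommGroup V] [Module K V] [Module.Finite K V]
    {H : Type} [Group H] [Finite H] (h13 : ¬ 13 ∣ Nat.card H) (ρ : Representation K H V) (N m : ℕ) (hU : HU ρ N m) (h : H) (j : ℕ)
    (hj : j.Coprime N) (c : K) :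
    ed (ρ (h ^ j)) c + ed (ρ (h ^ (j * m))) c = ed (ρ h) c + ed (ρ (h ^ m)) c := by
  simp only [xbteig_ed]
  exact ker_of_U h13 ρ N m hU h j hj _

theorem bal_of_realOp {V : Type} [AddCommGroup V] [Module K V] [Module.Finite K V]
    {H : Type} [Group H] (ρ : Representation K H V) (hc : Cop ρ) (h : H) (hr : ∀ k : ℕ, RealOp ρ (h ^ k)) :
    ed (ρ h) 3 = ed (ρ h) 9 := by
  obtain ⟨N, hN, h1⟩ := hc h
  have h2 : (ρ h⁻¹) ^ N = 1 := by
    rw [← map_pow] at h1
    rw [← map_pow, inv_pow, ← mul_one (ρ _)]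
    nth_rewrite 1 [← h1]
    rw [← map_mul, inv_mul_cancel, map_one]
  have h3 : ed (ρ h) 3 = ed (ρ h⁻¹) 3 := by
    simp only [xbteig_ed]
    refine eq_of_cast _ _ fun M => ?_
    obtain ⟨c, hc⟩ := bt_ker (Polynomial.X - Polynomial.C 3) N hN M
    rw [hc V _ h1, hc V _ h2]
    refine Finset.sum_congr rfl fun k _ => ?_
    rw [← map_pow, ← map_pow, inv_pow, hr k M]
  have h39 : (3 : K) * 9 = 1 := by decide
  have h93 : (9 : K) * 3 = 1 := by decide
  have h4 : Module.End.eigenspace (ρ h⁻¹) 3 = Module.End.eigenspace (ρ h) 9 := by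
    ext v
    rw [Module.End.mem_eigenspace_iff, Module.End.mem_eigenspace_iff]
    constructor
    · intro hv
      have h5 := congrArg (ρ h) hv
      rw [← Module.End.mul_apply, ← map_mul, mul_inv_cancel, map_one, Module.End.one_apply,
        map_smul] at h5
      nth_rewrite 2 [h5]
      rw [smul_smul, h93, one_smul]
    · intro hv
      have h5 := congrArg (ρ h⁻¹) hv
      rw [← Module.End.mul_apply, ← map_mul, inv_mul_cancel, map_one, Module.End.one_apply,
        map_smul] at h5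
      nth_rewrite 2 [h5]
      rw [smul_smul, h39, one_smul]
  rw [h3, ed, ed, h4]

theorem hbal_of_hreal {V : Type} [AddCommGroup V] [Module K V] [Module.Finite K V]
    {H : Type} [Group H] (ρ : Representation K H V) (hc : Cop ρ) (hr : HReal ρ) : HBal ρ := by
  intro h v hv h1
  refine bal_of_realOp ρ hc h fun k => hr _ v hv ?_
  induction k with
  | zero => rw [pow_zero, map_one, Module.End.one_apply]
  | succ k ih => rw [pow_succ, map_mul, Module.End.mul_apply, h1, ih]

end Pool.Agent.N9181
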