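import Pool.Agent.MP_9181f8_al.N.BtTL
import Pool.Agent.MP_9181f8_al.N.BtEig

namespace Pool.Agent.N9181

open scoped commutatorElement

section

variable {V : Type} [AddCommGroup V] [Module K V] [Module.Finite K V] {H : Type} [Group H]

theorem xbtuse_mem {J : Subgroup H} {a : H} (ha : a ∈ Subgroup.normalizer (J : Set H)) {y : H}
    (hy : y ∈ J) (k : ℕ) : (a ^ k)⁻¹ * (a * y) ^ k ∈ J := by
  induction k with
  | zero => simp
  | succ k ih =>
    have e : (a ^ (k + 1))⁻¹ * (a * y) ^ (k + 1) = a⁻¹ * ((a ^ k)⁻¹ * (a * y) ^ k) * a * y := by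
      rw [pow_succ, pow_succ]
      group
    rw [e]
    exact mul_mem ((Subgroup.mem_normalizer_iff''.1 ha _).1 ih) hy

theorem xbtuse_sum {A : Type} [AddCommMonoid A] {J : Subgroup H} [Fintype J] (g : H → A)
    (a : H) (f : J → H) (h1 : ∀ y, a⁻¹ * f y ∈ J) (h2 : Function.Injective f) :
    ∑ y : J, g (f y) = ∑ y : J, g (a * y) := by
  refine Fintype.sum_bijective (fun y => (⟨a⁻¹ * f y, h1 y⟩ : J))
    (Finite.injective_iff_bijective.1 fun y y' e => h2 ?_) _ _ fun y => by simp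
  exact mul_left_cancel (congrArg Subtype.val e)

theorem xbtuse_unit (M : ℕ) {n : ℕ} (h : ¬ 13 ∣ n) : IsUnit (n : RM M) :=
  red_unit M _ (by rw [map_natCast]; exact fun e => h ((ZMod.natCast_eq_zero_iff n 13).1 e))

theorem xbtuse_TL [Finite H] (h13 : ¬ 13 ∣ Nat.card H) (ρ : Representation K H V)
    {J : Subgroup H} [Fintype J] {a : H} (ha : a ∈ Subgroup.normalizer (J : Set H))
    {W : Submodule K V} (hW : IsFix ρ J W) (s : Module.End K W)
    (hs : ∀ w : W, (s w : V) = ρ a w) (M : ℕ) :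
    (Nat.card J : RM M) * bt s M = ∑ y : J, bt (ρ (a * y)) M := by
  have h : ∀ v ∈ W, ρ a v ∈ W := fun v hv => hs ⟨v, hv⟩ ▸ (s ⟨v, hv⟩).2
  have e : s = (ρ a).restrict h := LinearMap.ext fun w => Subtype.ext (hs w)
  rw [e, bt_TL h13 ρ J a ha W hW h M, finsum_eq_sum_of_fintype]

theorem xbtuse_pow [Finite H] (h13 : ¬ 13 ∣ Nat.card H) (ρ : Representation K H V)
    {J : Subgroup H} [Fintype J] {a : H} (ha : a ∈ Subgroup.normalizer (J : Set H))
    {W : Submodule K V} (hW : IsFix ρ J W) (k : ℕ) (s : Module.End K W)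
    (hs : ∀ w : W, (s w : V) = ρ (a ^ k) w) {q : ℕ} (hq : ∀ y ∈ J, (a * y) ^ q = 1)
    (hk : k.Coprime q) (h0 : q ≠ 0) (M : ℕ) :
    (Nat.card J : RM M) * bt s M = ∑ y : J, bt (ρ ((a * y) ^ k)) M := by
  rw [xbtuse_TL h13 ρ (pow_mem ha k) hW s hs M]
  refine (xbtuse_sum (fun x => bt (ρ x) M) _ _ (fun y => xbtuse_mem ha y.2 k) fun y y' e => ?_).symm
  have h1 : ∀ y : J, ∀ l, k * l ≡ 1 [MOD q] → ((a * y) ^ k) ^ l = a * y := fun y l hl => by
    rw [← pow_mul, pow_eq_pow_mod _ (hq y y.2), hl, ← pow_eq_pow_mod _ (hq y y.2), pow_one]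
  obtain ⟨l, -, hl⟩ := Nat.exists_mul_mod_eq_of_coprime 1 hk h0
  refine Subtype.ext (mul_left_cancel (a := a) ?_)
  rw [← h1 y l hl, ← h1 y' l hl]
  exact congrArg (· ^ l) e

theorem xbtuse_c (M : ℕ) : ∃ c : RM M, c ^ 3 = 1 ∧ red M c = 3 := by
  refine ⟨3 ^ 13 ^ M, ?_, by rw [map_pow, map_ofNat, ZMod.pow_card_pow]⟩
  have h := dvd_sub_pow_of_dvd_sub (R := RM M) (p := 13) (a := 3 ^ 3) (b := 1)
    ⟨2, by norm_num⟩ M
  rw [← Nat.cast_pow, ZMod.natCast_self, zero_dvd_iff, one_pow, sub_eq_zero] at h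
  rw [pow_right_comm, h]

end

theorem inherit {V : Type} [AddCommGroup V] [Module K V] [Module.Finite K V]
    {H : Type} [Group H] [Finite H] (h13 : ¬ 13 ∣ Nat.card H) (ρ : Representation K H V) (N m : ℕ) (hNM : NM H N m) (J H1 : Subgroup H)
    (hle : H1 ≤ Subgroup.normalizer (J : Set H)) (W : Submodule K V) (hW : IsFix ρ J W)
    (σ : Representation K H1 W) (hσ : ∀ (h : H1) (w : W), (σ h w : V) = ρ h w) :
    (HReal ρ → HReal σ) ∧ (HU ρ N m → HU σ N m) := by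
  have := Fintype.ofFinite J
  have hu := fun M => xbtuse_unit M fun h => h13 (h.trans (Subgroup.card_subgroup_dvd_card J))
  refine ⟨fun hR h w hw e M => (hu M).mul_left_cancel ?_, fun hU h j hj M =>
    (hu M).mul_left_cancel ?_⟩
  · rw [xbtuse_TL h13 ρ (hle h.2) hW _ (hσ h), xbtuse_TL h13 ρ (hle h⁻¹.2) hW _ (hσ h⁻¹),
      ← xbtuse_sum (fun x => bt (ρ x) M) (h⁻¹ : H1) (fun y : J => ((h : H) * y)⁻¹)
        (fun y => by
          have := (Subgroup.mem_normalizer_iff.1 (hle h.2) _).1 (inv_mem y.2)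
          simpa [mul_assoc] using this)
        fun y y' e => Subtype.ext (mul_left_cancel (inv_injective e))]
    refine Finset.sum_congr rfl fun y _ => hR _ w (fun e => hw (Subtype.ext e)) ?_ M
    rw [map_mul, Module.End.mul_apply, (hW w).1 w.2 y y.2, ← hσ, e]
  · have key : ∀ k : ℕ, k.Coprime N → (Nat.card J : RM M) * bt (σ (h ^ k)) M =
        ∑ y : J, bt (ρ (((h : H) * y) ^ k)) M := fun k hk =>
      xbtuse_pow h13 ρ (hle h.2) hW k _ (hσ (h ^ k)) (fun y _ => pow_card_eq_one')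
        (hk.coprime_dvd_right hNM.1) Nat.card_pos.ne' M
    rw [mul_add, mul_add, key j hj, key _ (hj.mul_left hNM.2.2), key m hNM.2.2,
      xbtuse_TL h13 ρ (hle h.2) hW _ (hσ h), ← Finset.sum_add_distrib, ← Finset.sum_add_distrib]
    exact Finset.sum_congr rfl fun y _ => hU _ j hj M

theorem exists_unbal {V : Type} [AddCommGroup V] [Module K V] [Module.Finite K V]
    {H : Type} [Group H] [Finite H] (h13 : ¬ 13 ∣ Nat.card H) (ρ : Representation K H V) (T : Subgroup H) (hT : IsPGroup 3 T) (b : H)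
    (hb : b ∈ Subgroup.normalizer (T : Set H)) (hb3 : b ^ 3 ∈ T) (W : Submodule K V)
    (hW : IsFix ρ T W) (hne : edOn W (ρ b) 3 ≠ edOn W (ρ b) 9) :
    ∃ y ∈ T, (∃ a : ℕ, (b * y) ^ (3 ^ a) = 1) ∧ ed (ρ (b * y)) 3 ≠ ed (ρ (b * y)) 9 := by
  have := Fintype.ofFinite T
  have := Fact.mk Nat.prime_three
  obtain ⟨t, ht⟩ := hT.exists_card_eq
  have hq : ∀ y ∈ T, (b * y) ^ 3 ^ (t + 1) = 1 := fun y hy => by
    have h1 : (b * y) ^ 3 ∈ T := by simpa using mul_mem hb3 (xbtuse_mem hb hy 3)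
    rw [pow_succ', pow_mul, ← ht]
    exact congrArg Subtype.val (pow_card_eq_one' (x := (⟨_, h1⟩ : T)))
  have hq13 : ¬ 13 ∣ 3 ^ (t + 1) := fun h => by
    have := (Nat.Prime.dvd_of_dvd_pow fact13.out h)
    omega
  by_contra hc
  push Not at hc
  have hbW : ∀ v ∈ W, ρ b v ∈ W := fun v hv => (hW _).2 fun y hy => by
    have h1 := (hW v).1 hv _ ((Subgroup.mem_normalizer_iff''.1 hb y).1 hy)
    rw [← Module.End.mul_apply, ← map_mul, show y * b = b * (b⁻¹ * y * b) by group, map_mul,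
      Module.End.mul_apply, h1]
  have hs : ∀ (k : ℕ) (w : W), ((((ρ b).restrict hbW) ^ k) w : V) = ρ (b ^ k) w := fun k w => by
    rw [Module.End.pow_restrict, map_pow]
    rfl
  have hs1 : ((ρ b).restrict hbW) ^ 3 ^ (t + 1) = 1 := LinearMap.ext fun w => Subtype.ext (by
    have h1 := hq 1 (one_mem T)
    rw [mul_one] at h1
    rw [hs, h1, map_one]
    rfl)
  rw [← ed_res W _ ((ρ b).restrict hbW) fun _ => rfl,
    ← ed_res W _ ((ρ b).restrict hbW) fun _ => rfl] at hne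
  generalize (ρ b).restrict hbW = s at hs hs1 hne
  refine hne (eq_of_cast _ _ fun M => ?_)
  obtain ⟨c, c1, c2⟩ := xbtuse_c M
  have c3 : red M (c ^ 2) = 9 := by rw [map_pow, c2]; norm_num
  have c4 : c ^ 3 ^ (t + 1) = 1 := by rw [pow_succ' 3, pow_mul, c1, one_pow]
  have c5 : (c ^ 2) ^ 3 ^ (t + 1) = 1 := by rw [pow_right_comm, c4, one_pow]
  have key : ∀ {U : Type} [AddCommGroup U] [Module K U] [Module.Finite K U] (a : Module.End K U),
      a ^ 3 ^ (t + 1) = 1 → ∑ k ∈ Finset.range (3 ^ (t + 1)),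
        (c ^ (3 ^ (t + 1) - k) - (c ^ 2) ^ (3 ^ (t + 1) - k)) * bt (a ^ k) M =
        ((3 ^ (t + 1) : ℕ) : RM M) * (ed a 3 - ed a 9) := fun a ha => by
    simp only [sub_mul, Finset.sum_sub_distrib]
    rw [bt_eig a _ hq13 ha M c c4, bt_eig a _ hq13 ha M _ c5, c2, c3, mul_sub]
  have h1 : (Nat.card T : RM M) * (((3 ^ (t + 1) : ℕ) : RM M) * (ed s 3 - ed s 9)) =
      ∑ y : T, ((3 ^ (t + 1) : ℕ) : RM M) * (ed (ρ (b * y)) 3 - ed (ρ (b * y)) 9) := by
    rw [← key s hs1, Finset.mul_sum, Finset.sum_congr rfl fun (y : T) _ =>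
      (key (ρ (b * y)) (by rw [← map_pow, hq y y.2, map_one])).symm, Finset.sum_comm]
    refine Finset.sum_congr rfl fun k hk => ?_
    rw [← Finset.mul_sum, mul_left_comm]
    by_cases h3 : 3 ∣ k
    · obtain ⟨l, hl⟩ := Nat.dvd_sub (dvd_pow_self 3 (Nat.succ_ne_zero t)) h3
      rw [hl, pow_right_comm, pow_mul, c1, one_pow, one_pow, sub_self, zero_mul, zero_mul]
    · rw [xbtuse_pow h13 ρ hb hW k _ (hs k) hq
        ((Nat.Coprime.symm ((Nat.Prime.coprime_iff_not_dvd Nat.prime_three).2 h3)).pow_right _)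
        (by positivity)]
      simp only [map_pow]
  rw [Finset.sum_eq_zero fun y _ => by rw [hc y y.2 ⟨_, hq y y.2⟩, sub_self, mul_zero],
    (xbtuse_unit M fun h => h13 (h.trans (Subgroup.card_subgroup_dvd_card T))).mul_right_eq_zero,
    (xbtuse_unit M hq13).mul_right_eq_zero] at h1
  exact sub_eq_zero.1 h1

end Pool.Agent.N9181
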