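import Pool.Agent.MP_9181f8_al.N.M0
import Pool.Agent.MP_9181f8_al.N.AppLow
import Pool.Agent.MP_9181f8_al.N.AppUp
import Pool.Agent.MP_9181f8_al.N.BtUse

namespace Pool.Agent.N9181

open scoped commutatorElement

/-- the stabiliser of a vector -/
def xatomStab {V : Type} [AddCommGroup V] [Module K V] {H : Type} [Group H]
    (ρ : Representation K H V) (v : V) : Subgroup H where
  carrier := {h | ρ h v = v}
  one_mem' := by simp
  mul_mem' := fun {a b} ha hb => by
    simp only [Set.mem_ofPred_eq] at ha hb ⊢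
    rw [map_mul, Module.End.mul_apply, hb, ha]
  inv_mem' := fun {a} ha => by
    simp only [Set.mem_ofPred_eq] at ha ⊢
    have h1 : ρ a⁻¹ (ρ a v) = v := by
      rw [← Module.End.mul_apply, ← map_mul, inv_mul_cancel, map_one, Module.End.one_apply]
    rwa [ha] at h1

theorem xatom_mem {V : Type} [AddCommGroup V] [Module K V] {H : Type} [Group H]
    (ρ : Representation K H V) (v : V) (h : H) : h ∈ xatomStab ρ v ↔ ρ h v = v := Iff.rfl

/-- the fixed space of a subgroup -/
def xatomFix {V : Type} [AddCommGroup V] [Module K V] {H : Type} [Group H]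
    (ρ : Representation K H V) (J : Subgroup H) : Submodule K V where
  carrier := {v | ∀ y ∈ J, ρ y v = v}
  zero_mem' := fun y _ => map_zero _
  add_mem' := fun {a b} ha hb y hy => by rw [map_add, ha y hy, hb y hy]
  smul_mem' := fun c v hv y hy => by rw [map_smul, hv y hy]

theorem xatom_fix {V : Type} [AddCommGroup V] [Module K V] {H : Type} [Group H]
    (ρ : Representation K H V) (J : Subgroup H) (v : V) :
    v ∈ xatomFix ρ J ↔ ∀ y ∈ J, ρ y v = v := Iff.rfl

theorem xatom_inj {V : Type} [AddCommGroup V] [Module K V] {H : Type} [Group H]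
    (ρ : Representation K H V) (h : H) (v w : V) (e : ρ h v = ρ h w) : v = w := by
  have h1 : ∀ u, ρ h⁻¹ (ρ h u) = u := fun u => by
    rw [← Module.End.mul_apply, ← map_mul, inv_mul_cancel, map_one, Module.End.one_apply]
  rw [← h1 v, e, h1 w]

theorem xatom_norm {V : Type} [AddCommGroup V] [Module K V] {H : Type} [Group H]
    (ρ : Representation K H V) (w : V) (h : H) (l : K) (hl : l ≠ 0) (e : ρ h w = l • w) :
    h ∈ Subgroup.normalizer (xatomStab ρ w : Set H) := by
  have h1 : ρ h⁻¹ w = l⁻¹ • w := by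
    apply xatom_inj ρ h
    rw [← Module.End.mul_apply, ← map_mul, mul_inv_cancel, map_one, Module.End.one_apply,
      map_smul, e, smul_smul, inv_mul_cancel₀ hl, one_smul]
  rw [Subgroup.mem_normalizer_iff]
  intro y
  rw [xatom_mem, xatom_mem, map_mul, map_mul, Module.End.mul_apply, Module.End.mul_apply, h1,
    map_smul, map_smul]
  constructor
  · intro hy
    rw [hy, e, smul_smul, inv_mul_cancel₀ hl, one_smul]
  · intro hy
    apply xatom_inj ρ h
    rw [e]
    have h2 := congrArg (fun u => l • u) hy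
    simp only [smul_smul, mul_inv_cancel₀ hl, one_smul] at h2
    exact h2

theorem app {V : Type} [AddCommGroup V] [Module K V] [Module.Finite K V]
    {H : Type} [Group H] [Finite H] [Group.IsSolvable H] (h13 : ¬ 13 ∣ Nat.card H) (ρ : Representation K H V) (hV : ∃ v : V, v ≠ 0) (hF : HFree ρ)
    (N m : ℕ) (hNM : NM H N m) (hU : HU ρ N m) (hE : ∀ c : K, c ≠ 0 → HEP ρ c) : False := by
  obtain ⟨H', _, _, π, ρ', hs, hinj, hπ, hd, -⟩ := exists_faithful ρ
  have : Group.IsSolvable H' := Group.isSolvable_of_surjective hs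
  have h13' : ¬ 13 ∣ Nat.card H' := fun h => h13 (h.trans hd)
  have hF' : HFree ρ' := by
    intro h v hv hh
    obtain ⟨g, rfl⟩ := hs h
    rw [hπ] at hh ⊢
    exact hF g v hv hh
  have hNM' : NM H' N m := ⟨hd.trans hNM.1, hNM.2⟩
  have hU' : HU ρ' N m := by
    intro h j hj M
    obtain ⟨g, rfl⟩ := hs h
    rw [← map_pow π, ← map_pow π, ← map_pow π, hπ, hπ, hπ, hπ]
    exact hU g j hj M
  have hE' : ∀ c : K, c ≠ 0 → HEP ρ' c := by
    intro c hc v
    obtain ⟨h, hh⟩ := hE c hc v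
    exact ⟨π h, by rw [hπ, hh]⟩
  have hz : Scal ρ' :=
    m0 h13' ρ' hV (fun h _ v _ hv hh => hF' h v hv hh) (hE' 3 (by decide))
  obtain ⟨k, hk, hn, hlow⟩ := appLow h13' ρ' hV hinj hF' hz N m hNM' hU' (hE' 5 (by decide))
  have hup := appUp h13' ρ' hinj hF' hz N m hNM' hU' k hk hn
  omega

theorem atom12 {V : Type} [AddCommGroup V] [Module K V] [Module.Finite K V]
    {H : Type} [Group H] [Finite H] [Group.IsSolvable H] (h13 : ¬ 13 ∣ Nat.card H) (ρ : Representation K H V) (N m : ℕ) (hNM : NM H N m) (hU : HU ρ N m) (c : H)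
    (hc : ∀ g, g * c = c * g)
    (hE : ∀ v, ρ c v = v → ∀ l : K, l ≠ 0 → ∃ h, ρ h v = l • v) : ∀ v, ρ c v = v → v = 0 := by
  intro v hv
  by_contra hv0
  have : Finite V := (card_sub (⊤ : Submodule K V)).1
  obtain ⟨v0, ⟨hv00, hv0c⟩, hmax⟩ := Set.exists_max_image {u : V | u ≠ 0 ∧ ρ c u = u}
    (fun u => Nat.card (xatomStab ρ u)) (Set.toFinite _) ⟨v, hv0, hv⟩
  have hcJ : c ∈ xatomStab ρ v0 := hv0c
  have hst : ∀ w ∈ xatomFix ρ (xatomStab ρ v0), w ≠ 0 → xatomStab ρ v0 = xatomStab ρ w := by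
    intro w hw hw0
    exact Subgroup.eq_of_le_of_card_ge (fun y hy => hw y hy) (hmax w ⟨hw0, hw c hcJ⟩)
  have hinv : ∀ h ∈ Subgroup.normalizer (xatomStab ρ v0 : Set H),
      ∀ w ∈ xatomFix ρ (xatomStab ρ v0), ρ h w ∈ xatomFix ρ (xatomStab ρ v0) := by
    intro h hh w hw y hy
    have h1 : h⁻¹ * y * h ∈ xatomStab ρ v0 := by
      rw [Subgroup.mem_normalizer_iff] at hh
      apply (hh _).2
      have : h * (h⁻¹ * y * h) * h⁻¹ = y := by group
      rw [this]
      exact hy
    have h2 : y * h = h * (h⁻¹ * y * h) := by group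
    rw [← Module.End.mul_apply, ← map_mul, h2, map_mul, Module.End.mul_apply, hw _ h1]
  obtain ⟨σ, hσ⟩ := exists_res ρ _ _ hinv
  have hd : Nat.card (Subgroup.normalizer (xatomStab ρ v0 : Set H)) ∣ Nat.card H :=
    Subgroup.card_subgroup_dvd_card _
  have hU' := (inherit h13 ρ N m hNM (xatomStab ρ v0) _ le_rfl _ (xatom_fix ρ _) σ hσ).2 hU
  refine app (fun h => h13 (h.trans hd)) σ ⟨⟨v0, fun y hy => hy⟩, ?_⟩ ?_ N m
    ⟨hd.trans hNM.1, hNM.2⟩ hU' ?_
  · intro h0
    exact hv00 (congrArg Subtype.val h0)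
  · intro h w hw0 hh
    have hw0' : (w : V) ≠ 0 := fun h0 => hw0 (Subtype.ext h0)
    have h1 : (h : H) ∈ xatomStab ρ v0 := by
      apply (hst w w.2 hw0').ge
      rw [xatom_mem, ← hσ, hh]
    ext u
    rw [hσ, Module.End.one_apply]
    exact u.2 _ h1
  · intro l hl w
    by_cases hw0 : (w : V) = 0
    · refine ⟨1, ?_⟩
      have : w = 0 := Subtype.ext hw0
      rw [this, map_zero, smul_zero]
    · obtain ⟨h, hh⟩ := hE w (w.2 c hcJ) l hl
      have h1 := xatom_norm ρ w h l hl hh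
      rw [← hst w w.2 hw0] at h1
      refine ⟨⟨h, h1⟩, Subtype.ext ?_⟩
      rw [hσ]
      exact hh

end Pool.Agent.N9181
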