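import Pool.Agent.MP_9181f8_al.N.SDPair

namespace Pool.Agent.N9181

open scoped commutatorElement

theorem xexe_cop {G : Type} [Group G] (z : G) (a n : ℕ) (h3 : ¬ 3 ∣ n) (h1 : z ^ (3 ^ a) = 1)
    (h2 : z ^ n = 1) : z = 1 := by
  have hc : (3 ^ a).Coprime n :=
    Nat.Coprime.pow_left a ((Nat.Prime.coprime_iff_not_dvd Nat.prime_three).2 h3)
  have := pow_gcd_eq_one.2 ⟨h1, h2⟩
  rwa [hc.gcd_eq_one, pow_one] at this

theorem xexe_avg {U Z : Type} [CommGroup U] [Finite U] [CommGroup Z] (B : U →* U →* Z)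
    (hB : Symp B) (h3 : ¬ 3 ∣ Nat.card U) (t : MulAut U) (ht : t ∈ Iso B) (a : ℕ)
    (ha : t ^ (3 ^ a) = 1) (u : U) (hu : t u = u) (h : ∀ y, t y = y → B u y = 1) : u = 1 := by
  refine hB.2 u fun y => xexe_cop _ a _ h3 ?_ (by rw [← map_pow, pow_card_eq_one', map_one])
  have hk : ∀ k : ℕ, B u ((t ^ k) y) = B u y := by
    intro k
    induction k with
    | zero => rfl
    | succ k ih =>
      rw [pow_succ', MulAut.mul_apply, ← ih]
      conv_lhs => rw [← hu]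
      exact ht _ _
  have h1 : t (∏ k ∈ Finset.range (3 ^ a), (t ^ k) y) = ∏ k ∈ Finset.range (3 ^ a), (t ^ k) y := by
    have e1 := Finset.prod_range_succ (fun k => (t ^ k) y) (3 ^ a)
    have e2 := Finset.prod_range_succ' (fun k => (t ^ k) y) (3 ^ a)
    rw [e1, ha, pow_zero] at e2
    rw [map_prod]
    refine (Finset.prod_congr rfl fun k _ => ?_).trans (mul_right_cancel e2).symm
    rw [pow_succ', MulAut.mul_apply]
  have h2 := h _ h1
  rw [map_prod, Finset.prod_congr rfl fun k _ => hk k, Finset.prod_const, Finset.card_range] at h2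
  exact h2

theorem xexe_lin {U Z : Type} [CommGroup U] [Finite U] [CommGroup Z] (B : U →* U →* Z)
    (hB : Symp B) (h3 : ¬ 3 ∣ Nat.card U) (s : MulAut U) (hs : s ∈ Iso B) (a : ℕ)
    (ha : s ^ (3 ^ a) = 1) (hne : s ≠ 1) :
    ∃ (W : Subgroup U) (r : ℕ), 1 ≤ r ∧ (∃ v ∈ W, v ≠ 1) ∧ (∀ u ∈ W, s u ∈ W) ∧
      (∀ u ∈ W, (s ^ (3 ^ r)) u = u) ∧
      (∀ u ∈ W, ∀ k : ℕ, ¬ 3 ^ r ∣ k → (s ^ k) u = u → u = 1) ∧
      ∀ u ∈ W, (∀ y ∈ W, B u y = 1) → u = 1 := by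
  classical
  have hs' : ∀ x y, B (s x) (s y) = B x y := hs
  have hex : ∃ r : ℕ, ∃ u, (s ^ (3 ^ r)) u = u ∧ s u ≠ u := by
    refine ⟨a, ?_⟩
    by_contra hc
    refine hne (MulEquiv.ext fun u => ?_)
    by_contra h
    exact hc ⟨u, by rw [ha]; rfl, h⟩
  obtain ⟨u0, hu0, hu1⟩ := Nat.find_spec hex
  have hmin : ∀ j < Nat.find hex, ∀ u, (s ^ (3 ^ j)) u = u → s u = u := by
    intro j hj u hu
    by_contra h
    exact Nat.find_min hex hj ⟨u, hu, h⟩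
  generalize Nat.find hex = r at hu0 hmin
  have hcomm : ∀ u, (s ^ (3 ^ r)) (s u) = s ((s ^ (3 ^ r)) u) := by
    intro u
    rw [← MulAut.mul_apply, ← MulAut.mul_apply, ← pow_succ, ← pow_succ']
  let W : Subgroup U :=
    { carrier := {u | (s ^ (3 ^ r)) u = u ∧ ∀ y, s y = y → B u y = 1}
      one_mem' := ⟨map_one _, fun y _ => by rw [map_one]; rfl⟩
      mul_mem' := fun {b c} hb hc => ⟨by rw [map_mul, hb.1, hc.1], fun y hy => by
        rw [map_mul, MonoidHom.mul_apply, hb.2 y hy, hc.2 y hy, one_mul]⟩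
      inv_mem' := fun {b} hb => ⟨by rw [map_inv, hb.1], fun y hy => by
        rw [map_inv, MonoidHom.inv_apply, hb.2 y hy, inv_one]⟩ }
  have hW : ∀ u, u ∈ W ↔ (s ^ (3 ^ r)) u = u ∧ ∀ y, s y = y → B u y = 1 := fun u => Iff.rfl
  have hd : ∀ y, (s ^ (3 ^ r)) y = y → s y * y⁻¹ ∈ W := by
    intro y hy
    refine (hW _).2 ⟨by rw [map_mul, map_inv, hcomm, hy], fun z hz => ?_⟩
    rw [map_mul, map_inv, MonoidHom.mul_apply, MonoidHom.inv_apply]
    have := hs' y z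
    rw [hz] at this
    rw [this, mul_inv_cancel]
  have hfix : ∀ u ∈ W, s u = u → u = 1 := fun u hu h =>
    xexe_avg B hB h3 s hs a ha u h ((hW u).1 hu).2
  refine ⟨W, r, ?_, ⟨_, hd u0 hu0, fun h => hu1 (mul_inv_eq_one.1 h)⟩, ?_,
    fun u hu => ((hW u).1 hu).1, ?_, ?_⟩
  · rcases Nat.eq_zero_or_pos r with h | h
    · subst h
      rw [pow_zero, pow_one] at hu0
      exact absurd hu0 hu1
    · exact h
  · intro u hu
    obtain ⟨h1, h2⟩ := (hW u).1 hu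
    refine (hW _).2 ⟨by rw [hcomm, h1], fun y hy => ?_⟩
    have := hs' u y
    rw [hy] at this
    rw [this, h2 y hy]
  · intro u hu k hk h
    have h1 : MulAction.period s u ∣ k := MulAction.pow_smul_eq_iff_period_dvd.1 h
    have h2 : MulAction.period s u ∣ 3 ^ a :=
      MulAction.pow_smul_eq_iff_period_dvd.1 (by rw [ha, one_smul])
    obtain ⟨j, -, hj⟩ := (Nat.dvd_prime_pow Nat.prime_three).1 h2
    have h4 : j < r := by
      by_contra hc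
      exact hk ((pow_dvd_pow 3 (not_lt.1 hc)).trans (hj ▸ h1))
    refine hfix u hu (hmin j h4 u ?_)
    exact (MulAction.pow_smul_eq_iff_period_dvd (m := s) (a := u)).2 (hj ▸ dvd_rfl)
  · intro u hu h
    refine hfix u hu (mul_inv_eq_one.1 ?_)
    have hq : (s ^ (3 ^ r)) ^ (3 ^ a) = 1 := by rw [← pow_mul, mul_comm, pow_mul, ha, one_pow]
    refine xexe_avg B hB h3 (s ^ (3 ^ r)) ((Iso B).pow_mem hs _) a hq _
      ((hW _).1 (hd u ((hW u).1 hu).1)).1 fun y hy => ?_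
    obtain ⟨z, rfl⟩ := s.surjective y
    rw [hcomm] at hy
    have h1 := h _ (hd z (s.injective hy))
    rw [map_mul, map_inv, mul_inv_eq_one] at h1
    rw [map_mul, map_inv, MonoidHom.mul_apply, MonoidHom.inv_apply, hs', h1, mul_inv_cancel]

theorem exists_E {H : Type} [Group H] [Finite H] (A F : Subgroup H) (hS : SD A F) (h3 : ¬ 3 ∣ A.relIndex F) (x : H)
    (a : ℕ) (hx : x ^ (3 ^ a) = 1) (hxA : x ∈ Subgroup.centralizer (A : Set H)) (hxF : x ∉ F) :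
    ∃ (E : Subgroup H) (r : ℕ), PD A E ∧ A ≠ E ∧ x ∈ Subgroup.normalizer (E : Set H) ∧ 1 ≤ r ∧
      (∀ f ∈ E, x ^ (3 ^ r) * f = f * x ^ (3 ^ r)) ∧
      ∀ f ∈ E, ∀ k : ℕ, ¬ 3 ^ r ∣ k → ⁅x ^ k, f⁆ ∈ A → f ∈ A := by
  obtain ⟨U, Z, _, _, _, _, _, π, ζ, B, κ, hπ, hker, hζ, -, hB, hcm, hcard, -, hκ, hκ1⟩ :=
    sd_pair A F hS
  rw [← hcard] at h3
  let c : Subgroup.centralizer (A : Set H) := ⟨x, hxA⟩
  have hc : c ^ (3 ^ a) = 1 := Subtype.ext hx
  obtain ⟨W, r, hr, ⟨v, hv, hv1⟩, hinv, hfix, hk, hnd⟩ :=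
    xexe_lin B hB h3 (κ c : MulAut U) (κ c).2 a
      (by rw [← Subgroup.coe_pow, ← map_pow, hc, map_one]; rfl)
      (fun h => hxF ((hκ1 c).1 (Subtype.ext h)))
  have hconj : ∀ (k : ℕ) (f : F), ((κ c : MulAut U) ^ k) (π f) =
      π ⟨x ^ k * f * (x ^ k)⁻¹, hS.nF.conj_mem _ f.2 _⟩ := by
    intro k f
    rw [← Subgroup.coe_pow, ← map_pow]
    exact hκ (c ^ k) f _ rfl
  have hiff : ∀ (k : ℕ) (f : F), ((κ c : MulAut U) ^ k) (π f) = π f ↔ ⁅x ^ k, (f : H)⁆ ∈ A := by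
    intro k f
    rw [hconj, ← mul_inv_eq_one, ← map_inv, ← map_mul, hker]
    exact Iff.rfl
  let E : Subgroup H := (W.comap π).map F.subtype
  have hE : ∀ f, f ∈ E ↔ ∃ hf : f ∈ F, π ⟨f, hf⟩ ∈ W := by
    intro f
    constructor
    · rintro ⟨g, hg, rfl⟩
      exact ⟨g.2, hg⟩
    · rintro ⟨hf, h⟩
      exact ⟨⟨f, hf⟩, h, rfl⟩
  have hEF : ∀ f ∈ E, f ∈ F := fun f hf => ((hE f).1 hf).1
  refine ⟨E, r, ⟨hS.cyc, fun b hb => (hE b).2 ⟨hS.le hb, ?_⟩,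
    fun b hb f hf => hS.cen b hb f (hEF f hf),
    fun f hf g hg => hS.comm f (hEF f hf) g (hEF g hg), ?_⟩, ?_, ?_, hr, ?_, ?_⟩
  · rw [(hker ⟨b, hS.le hb⟩).2 hb]
    exact W.one_mem
  · intro f hf h
    obtain ⟨hf1, hf2⟩ := (hE f).1 hf
    refine (hker ⟨f, hf1⟩).1 (hnd _ hf2 fun y hy => hζ ?_)
    obtain ⟨g, rfl⟩ := hπ y
    rw [hcm, map_one, commutatorElement_eq_one_iff_mul_comm]
    exact h g ((hE g).2 ⟨g.2, hy⟩)
  · intro h
    obtain ⟨g, rfl⟩ := hπ v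
    exact hv1 ((hker g).2 (h ▸ (hE g).2 ⟨g.2, hv⟩))
  · refine Subgroup.mem_normalizer_fintype fun f hf => ?_
    obtain ⟨hf1, hf2⟩ := (hE f).1 hf
    refine (hE _).2 ⟨hS.nF.conj_mem _ hf1 _, ?_⟩
    rw [← hκ c ⟨f, hf1⟩ _ rfl]
    exact hinv _ hf2
  · intro f hf
    obtain ⟨hf1, hf2⟩ := (hE f).1 hf
    have h1 : ⁅x ^ (3 ^ r), f⁆ ∈ A := (hiff _ ⟨f, hf1⟩).1 (hfix _ hf2)
    have hy : ∀ b ∈ A, Commute b (x ^ (3 ^ r)) := fun b hb =>
      Commute.pow_right (Subgroup.mem_centralizer_iff.1 hxA b hb) _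
    have hya : (x ^ (3 ^ r)) ^ (3 ^ a) = 1 := by rw [← pow_mul, mul_comm, pow_mul, hx, one_pow]
    generalize x ^ (3 ^ r) = y at h1 hy hya
    rw [← commutatorElement_eq_one_iff_mul_comm]
    have e0 : y * f * y⁻¹ = ⁅y, f⁆ * f := by rw [commutatorElement_def]; group
    have hcf : Commute ⁅y, f⁆ f := hS.cen _ h1 f hf1
    have hcy := hy _ h1
    generalize ⁅y, f⁆ = d at e0 hcf hcy h1
    refine xexe_cop d a _ h3 ?_ ?_
    · have : ∀ n : ℕ, y ^ n * f = d ^ n * f * y ^ n := by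
        intro n
        induction n with
        | zero => simp
        | succ n ih =>
          have e1 : y * f = d * f * y := by rw [← e0]; group
          rw [pow_succ', mul_assoc, ih, ← mul_assoc, ← mul_assoc, ← (hcy.pow_left n).eq,
            mul_assoc (d ^ n), e1, pow_succ]
          group
      have h2 := this (3 ^ a)
      rw [hya, one_mul, mul_one] at h2
      exact mul_eq_right.1 h2.symm
    · have h2 : f ^ Nat.card U ∈ A := by
        refine (hker (⟨f, hf1⟩ ^ Nat.card U)).1 ?_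
        rw [map_pow, pow_card_eq_one']
      have h4 : y * f ^ Nat.card U * y⁻¹ = d ^ Nat.card U * f ^ Nat.card U := by
        rw [← conj_pow, e0, hcf.mul_pow]
      rw [← (hy _ h2).eq, mul_inv_cancel_right] at h4
      exact mul_eq_right.1 h4.symm
  · intro f hf k hk1 h
    obtain ⟨hf1, hf2⟩ := (hE f).1 hf
    exact (hker ⟨f, hf1⟩).1 (hk _ hf2 k hk1 ((hiff k ⟨f, hf1⟩).2 h))

end Pool.Agent.N9181
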