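import Pool.Agent.MP_9181f8_al.N.Basic

namespace Pool.Agent.N9181

open scoped commutatorElement
open TensorProduct

theorem xbasech_ker {V : Type} [AddCommGroup V] [Module K V] [Module.Finite K V]
    (L : Type) [Field L] [Algebra K L] (f : Module.End K V) :
    Module.finrank L (LinearMap.ker (f.baseChange L)) = Module.finrank K (LinearMap.ker f) := by
  have hex : Function.Exact (LinearMap.ker f).subtype f := LinearMap.exact_subtype_ker_map f
  have hex2 : Function.Exact (((LinearMap.ker f).subtype).baseChange L) (f.baseChange L) := by
    have := Module.Flat.lTensor_exact L hex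
    simpa [LinearMap.baseChange_eq_ltensor] using this
  have hinj : Function.Injective (((LinearMap.ker f).subtype).baseChange L) := by
    have := Module.Flat.lTensor_preserves_injective_linearMap (M := L) (LinearMap.ker f).subtype
      (Submodule.injective_subtype _)
    rw [LinearMap.baseChange_eq_ltensor]
    exact this
  rw [hex2.linearMap_ker_eq, LinearMap.finrank_range_of_inj hinj, Module.finrank_baseChange]

theorem xbasech_aeval {V : Type} [AddCommGroup V] [Module K V]
    (L : Type) [Field L] [Algebra K L] (f : Module.End K V) (g : Polynomial K) :
    Polynomial.aeval (f.baseChange L : Module.End L (L ⊗[K] V)) (g.map (algebraMap K L)) =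
      (Polynomial.aeval f g : Module.End K V).baseChange L := by
  rw [Polynomial.aeval_map_algebraMap]
  exact Polynomial.aeval_algHom_apply (Module.End.baseChangeHom K L V) f g

theorem exists_bc {V : Type} [AddCommGroup V] [Module K V] [Module.Finite K V]
    {H : Type} [Group H] (ρ : Representation K H V) (L : Type) [Field L] [Algebra K L] :
    ∃ (M : Type) (_ : AddCommGroup M) (_ : Module L M) (_ : Module.Finite L M)
      (τ : Representation L H M), Module.finrank L M = Module.finrank K V ∧
      (∀ (h : H) (g : Polynomial K),
        Module.finrank L (LinearMap.ker (Polynomial.aeval (τ h) (g.map (algebraMap K L)))) =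
          Module.finrank K (LinearMap.ker (Polynomial.aeval (ρ h) g))) ∧
      (∀ (h : H) (c : K), Module.finrank L (Module.End.eigenspace (τ h) (algebraMap K L c)) =
        ed (ρ h) c) ∧
      ∀ h : H, LinearMap.charpoly (τ h) = (LinearMap.charpoly (ρ h)).map (algebraMap K L) := by
  let τ : Representation L H (L ⊗[K] V) :=
    { toFun := fun h => (ρ h).baseChange L
      map_one' := by rw [map_one]; exact LinearMap.baseChange_one K V
      map_mul' := fun a b => by rw [map_mul]; exact LinearMap.baseChange_mul _ _ }
  have hτ : ∀ h, τ h = (ρ h).baseChange L := fun _ => rfl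
  have hk : ∀ (h : H) (g : Polynomial K),
      Module.finrank L (LinearMap.ker (Polynomial.aeval (τ h) (g.map (algebraMap K L)))) =
        Module.finrank K (LinearMap.ker (Polynomial.aeval (ρ h) g)) := by
    intro h g
    rw [hτ, xbasech_aeval, xbasech_ker]
  refine ⟨L ⊗[K] V, inferInstance, inferInstance, inferInstance, τ,
    Module.finrank_baseChange, hk, ?_, ?_⟩
  · intro h c
    have h1 := hk h (Polynomial.X - Polynomial.C c)
    rw [Polynomial.map_sub, Polynomial.map_X, Polynomial.map_C, map_sub, map_sub,
      Polynomial.aeval_X, Polynomial.aeval_X, Polynomial.aeval_C, Polynomial.aeval_C] at h1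
    rw [Algebra.algebraMap_eq_smul_one (A := Module.End L (L ⊗[K] V)),
      Algebra.algebraMap_eq_smul_one (A := Module.End K V)] at h1
    rw [ed, Module.End.eigenspace_def, Module.End.eigenspace_def]
    exact h1
  · intro h
    rw [hτ]
    exact LinearMap.charpoly_baseChange _ _

end Pool.Agent.N9181
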