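import Pool.Agent.MP_9181f8_al.N.HhsK
import Pool.Agent.MP_9181f8_al.N.BaseCh

namespace Pool.Agent.N9181

open scoped commutatorElement

theorem xhhs_res {L : Type} [Field L] {M : Type} [AddCommGroup M] [Module L M]
    (W : Submodule L M) (a : Module.End L M) (s : Module.End L W)
    (hs : ∀ w : W, (s w : M) = a w) (c : L) :
    Module.finrank L (s.eigenspace c) =
      Module.finrank L (W ⊓ a.eigenspace c : Submodule L M) := by
  rw [← Submodule.finrank_map_subtype_eq W (s.eigenspace c)]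
  have : (s.eigenspace c).map W.subtype = W ⊓ a.eigenspace c := by
    ext v
    simp only [Submodule.mem_map, Module.End.mem_eigenspace_iff, Submodule.mem_inf,
      Submodule.coe_subtype]
    constructor
    · rintro ⟨w, hw, rfl⟩
      refine ⟨w.2, ?_⟩
      rw [← hs, hw]; rfl
    · rintro ⟨hv, hv'⟩
      refine ⟨⟨v, hv⟩, ?_, rfl⟩
      apply Subtype.ext
      rw [hs]; exact hv'
  rw [this]

theorem xhhs_add {L : Type} [Field L] {M : Type} [AddCommGroup M] [Module L M]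
    [Module.Finite L M] (X Y : Submodule L M) (hXY : IsCompl X Y) (a : Module.End L M)
    (hX : ∀ v ∈ X, a v ∈ X) (hY : ∀ v ∈ Y, a v ∈ Y) (c : L) :
    Module.finrank L (a.eigenspace c) =
      Module.finrank L (X ⊓ a.eigenspace c : Submodule L M) +
        Module.finrank L (Y ⊓ a.eigenspace c : Submodule L M) := by
  have h1 : (X ⊓ a.eigenspace c) ⊔ (Y ⊓ a.eigenspace c) = a.eigenspace c := by
    apply le_antisymm (sup_le inf_le_right inf_le_right)
    intro v hv
    have hv' : v ∈ X ⊔ Y := by rw [hXY.sup_eq_top]; trivial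
    obtain ⟨x, hx, y, hy, rfl⟩ := Submodule.mem_sup.mp hv'
    rw [Module.End.mem_eigenspace_iff, map_add, smul_add] at hv
    have e : a x - c • x = -(a y - c • y) := by
      rw [neg_sub, sub_eq_sub_iff_add_eq_add, hv, add_comm]
    have hx1 : a x - c • x ∈ X := X.sub_mem (hX x hx) (X.smul_mem c hx)
    have hy1 : a x - c • x ∈ Y := by
      rw [e]; exact Y.neg_mem (Y.sub_mem (hY y hy) (Y.smul_mem c hy))
    have h0 : a x - c • x = 0 := (Submodule.disjoint_def.mp hXY.disjoint) _ hx1 hy1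
    have h0' : a y - c • y = 0 := by rw [h0] at e; exact neg_eq_zero.mp e.symm
    exact Submodule.add_mem_sup
      ⟨hx, Module.End.mem_eigenspace_iff.mpr (sub_eq_zero.mp h0)⟩
      ⟨hy, Module.End.mem_eigenspace_iff.mpr (sub_eq_zero.mp h0')⟩
  have h2 : (X ⊓ a.eigenspace c) ⊓ (Y ⊓ a.eigenspace c) = ⊥ :=
    eq_bot_iff.mpr ((inf_le_inf inf_le_left inf_le_left).trans hXY.inf_eq_bot.le)
  have h3 := Submodule.finrank_sup_add_finrank_inf_eq (X ⊓ a.eigenspace c) (Y ⊓ a.eigenspace c)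
  rw [h1, h2, finrank_bot, add_zero] at h3
  exact h3

theorem xhhs_min {L : Type} [Field L] {M : Type} [AddCommGroup M] [Module L M]
    [Module.Finite L M] {H : Type} [Group H] (ρ : Representation L H M) (hM : ∃ v : M, v ≠ 0) :
    ∃ X : Submodule L M, (∀ h, ∀ w ∈ X, ρ h w ∈ X) ∧ X ≠ ⊥ ∧
      ∀ Y : Submodule L M, (∀ h, ∀ w ∈ Y, ρ h w ∈ Y) → Y ≤ X → Y = ⊥ ∨ Y = X := by
  classical
  have hex : ∃ n : ℕ, ∃ X : Submodule L M, (∀ h, ∀ w ∈ X, ρ h w ∈ X) ∧ X ≠ ⊥ ∧
      Module.finrank L X = n := by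
    refine ⟨_, ⊤, fun _ _ _ => trivial, ?_, rfl⟩
    obtain ⟨v, hv⟩ := hM
    exact (Submodule.ne_bot_iff _).mpr ⟨v, trivial, hv⟩
  obtain ⟨X, hX, hX0, hXn⟩ := Nat.find_spec hex
  refine ⟨X, hX, hX0, fun Y hY hYX => ?_⟩
  by_cases hY0 : Y = ⊥
  · exact Or.inl hY0
  · right
    have := Nat.find_min' hex ⟨Y, hY, hY0, rfl⟩
    exact Submodule.eq_of_le_of_finrank_le hYX (by rw [hXn]; exact this)

theorem xhhs_ind {L : Type} [Field L] [IsAlgClosed L] [CharP L 13]
    {H : Type} [Group H] [Finite H] (h13 : ¬ 13 ∣ Nat.card H)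
    (A E : Subgroup H) (hP : PD A E) (hne : A ≠ E) (x : H)
    (hgen : ∀ h : H, ∃ f ∈ E, ∃ k : ℕ, h = f * x ^ k)
    (hxA : x ∈ Subgroup.centralizer (A : Set H)) (hxE : x ∈ Subgroup.normalizer (E : Set H))
    (r : ℕ) (hfp : ∀ f ∈ E, ∀ k : ℕ, ¬ 3 ^ r ∣ k → ⁅x ^ k, f⁆ ∈ A → f ∈ A)
    (ω : L) (hω : ω ^ 3 = 1) (n : ℕ) :
    ∀ (M : Type) [AddCommGroup M] [Module L M] [Module.Finite L M] (ρ : Representation L H M),
      Module.finrank L M = n → (∀ a ∈ A, ∀ v, v ≠ 0 → ρ a v = v → a = 1) →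
      (∀ v, ρ (x ^ (3 ^ r)) v = v) → (∀ v, ρ x v = v → v = 0) →
      Module.finrank L (Module.End.eigenspace (ρ x) ω) =
        Module.finrank L (Module.End.eigenspace (ρ x) (ω ^ 2)) := by
  induction n using Nat.strong_induction_on with
  | _ n ih =>
    intro M _ _ _ ρ hn hA hq hf
    by_cases hM : ∃ v : M, v ≠ 0
    swap
    · push Not at hM
      have : ∀ S : Submodule L M, S = ⊥ := fun S =>
        (Submodule.eq_bot_iff _).mpr fun v _ => hM v
      rw [this (Module.End.eigenspace (ρ x) ω), this (Module.End.eigenspace (ρ x) (ω ^ 2))]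
    obtain ⟨X, hX, hX0, hmin⟩ := xhhs_min ρ hM
    have hc : (Nat.card H : L) ≠ 0 := fun h => h13 ((CharP.cast_eq_zero_iff L 13 _).mp h)
    obtain ⟨Y, hY, hXY⟩ := exists_compl hc ρ X hX
    let σ : Representation L H X := ρ.subrepresentation X fun g w hw => hX g w hw
    let τ : Representation L H Y := ρ.subrepresentation Y fun g w hw => hY g w hw
    have hσ : ∀ h (w : X), (σ h w : M) = ρ h w := fun _ _ => rfl
    have hτ : ∀ h (w : Y), (τ h w : M) = ρ h w := fun _ _ => rfl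
    rw [xhhs_add X Y hXY (ρ x) (hX x) (hY x) ω, xhhs_add X Y hXY (ρ x) (hX x) (hY x) (ω ^ 2),
      ← xhhs_res X (ρ x) (σ x) (hσ x), ← xhhs_res X (ρ x) (σ x) (hσ x),
      ← xhhs_res Y (ρ x) (τ x) (hτ x), ← xhhs_res Y (ρ x) (τ x) (hτ x)]
    congr 1
    · refine hhsK h13 σ ?_ ?_ A E hP hne x hgen hxA hxE ?_ r ?_ hfp ?_ ω hω
      · obtain ⟨v, hv, hv0⟩ := (Submodule.ne_bot_iff _).mp hX0
        exact ⟨⟨v, hv⟩, fun h => hv0 (congrArg Subtype.val h)⟩
      · intro W hW
        have := hmin (W.map X.subtype) (by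
          rintro h _ ⟨w, hw, rfl⟩
          exact ⟨σ h w, hW h w hw, hσ h w⟩) (Submodule.map_subtype_le _ _)
        rcases this with h | h
        · left
          exact (Submodule.map_injective_of_injective X.subtype_injective)
            (by rw [h, Submodule.map_bot])
        · right
          exact (Submodule.map_injective_of_injective X.subtype_injective)
            (by rw [h, Submodule.map_subtype_top])
      · intro a ha v hv hav
        exact hA a ha v (fun h => hv (Subtype.ext h)) (by rw [← hσ, hav])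
      · rw [← map_pow]
        ext v
        rw [hσ, hq]; rfl
      · intro v hv
        exact Subtype.ext (hf v (by rw [← hσ, hv]))
    · have hlt : Module.finrank L Y < n := by
        rw [← hn]
        apply Submodule.finrank_lt
        rintro rfl
        exact hX0 (by simpa using hXY.inf_eq_bot)
      refine ih _ hlt Y τ rfl ?_ ?_ ?_
      · intro a ha v hv hav
        exact hA a ha v (fun h => hv (Subtype.ext h)) (by rw [← hτ, hav])
      · intro v
        apply Subtype.ext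
        rw [hτ, hq]
      · intro v hv
        exact Subtype.ext (hf v (by rw [← hτ, hv]))

/-- the subgroup generated by `E` and an element normalising it -/
def xhhsSub {H : Type} [Group H] (E : Subgroup H) (x : H)
    (hxE : x ∈ Subgroup.normalizer (E : Set H)) : Subgroup H where
  carrier := {h | ∃ f ∈ E, ∃ y ∈ Subgroup.zpowers x, h = f * y}
  one_mem' := ⟨1, E.one_mem, 1, one_mem _, by simp⟩
  mul_mem' := by
    rintro _ _ ⟨f, hf, y, hy, rfl⟩ ⟨g, hg, z, hz, rfl⟩
    have hy' := Subgroup.zpowers_le.mpr hxE hy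
    exact ⟨f * (y * g * y⁻¹), E.mul_mem hf ((Subgroup.mem_normalizer_iff.mp hy' g).mp hg),
      y * z, mul_mem hy hz, by group⟩
  inv_mem' := by
    rintro _ ⟨f, hf, y, hy, rfl⟩
    have hy' := Subgroup.zpowers_le.mpr hxE hy
    exact ⟨y⁻¹ * f⁻¹ * y, (Subgroup.mem_normalizer_iff''.mp hy' _).mp (E.inv_mem hf),
      y⁻¹, inv_mem hy, by group⟩

theorem xhhs_pd {H : Type} [Group H] (A E H1 : Subgroup H) (hP : PD A E) (hE : E ≤ H1) :
    PD (A.subgroupOf H1) (E.subgroupOf H1) where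
  cyc := by
    have := hP.cyc
    exact isCyclic_of_surjective (Subgroup.subgroupOfEquivOfLe (hP.le.trans hE)).symm
      (Subgroup.subgroupOfEquivOfLe (hP.le.trans hE)).symm.surjective
  le := fun _ ha => hP.le ha
  cen := fun a ha y hy => Subtype.ext (hP.cen a ha y hy)
  comm := fun y hy z hz => hP.comm y hy z hz
  nd := fun y hy h => hP.nd y hy fun z hz =>
    congrArg Subtype.val (h ⟨z, hE hz⟩ hz)

theorem xhhs_pow (c : K) (hc : c ^ 3 = 1) (r : ℕ) (hr : 1 ≤ r) : c ^ (3 ^ r) = 1 := by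
  obtain ⟨s, rfl⟩ := Nat.exists_eq_add_of_le hr
  rw [pow_add, pow_one, pow_mul, hc, one_pow]

theorem hhs {V : Type} [AddCommGroup V] [Module K V] [Module.Finite K V]
    {H : Type} [Group H] [Finite H] (h13 : ¬ 13 ∣ Nat.card H) (ρ : Representation K H V) (A E : Subgroup H) (hP : PD A E) (hne : A ≠ E) (x : H)
    (hxA : x ∈ Subgroup.centralizer (A : Set H)) (hxE : x ∈ Subgroup.normalizer (E : Set H))
    (hA : FreeOn ρ A) (r : ℕ) (hc : ∀ f ∈ E, x ^ (3 ^ r) * f = f * x ^ (3 ^ r)) (hr : 1 ≤ r)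
    (hfp : ∀ f ∈ E, ∀ k : ℕ, ¬ 3 ^ r ∣ k → ⁅x ^ k, f⁆ ∈ A → f ∈ A)
    (hf : ∀ v, ρ x v = v → v = 0) : ed (ρ x) 3 = ed (ρ x) 9 := by
  let H1 := xhhsSub E x hxE
  have hE : E ≤ H1 := fun f hf => ⟨f, hf, 1, one_mem _, by simp⟩
  have hx : x ∈ H1 := ⟨1, E.one_mem, x, Subgroup.mem_zpowers x, by simp⟩
  let W : Submodule K V := Module.End.eigenspace (ρ (x ^ (3 ^ r))) 1
  have hWm : ∀ v, v ∈ W ↔ ρ (x ^ (3 ^ r)) v = v := fun v => by
    rw [Module.End.mem_eigenspace_iff, one_smul]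
  have hcomm : ∀ h ∈ H1, x ^ (3 ^ r) * h = h * x ^ (3 ^ r) := by
    rintro _ ⟨f, hf, _, ⟨k, rfl⟩, rfl⟩
    have : Commute (x ^ (3 ^ r)) (x ^ k) := ((Commute.refl x).pow_left _).zpow_right k
    rw [← mul_assoc, hc f hf, mul_assoc, mul_assoc, this.eq]
  have hW : ∀ h ∈ H1, ∀ w ∈ W, ρ h w ∈ W := by
    intro h hh w hw
    rw [hWm] at hw ⊢
    rw [← Module.End.mul_apply, ← map_mul, hcomm h hh, map_mul, Module.End.mul_apply, hw]
  obtain ⟨σ, hσ⟩ := exists_res ρ H1 W hW
  have hed : ∀ c : K, c ^ 3 = 1 → ed (ρ x) c = ed (σ ⟨x, hx⟩) c := by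
    intro c hc3
    rw [ed_res W (ρ x) (σ ⟨x, hx⟩) (hσ ⟨x, hx⟩) c, edOn, ed, inf_eq_right.mpr]
    intro v hv
    by_cases hv0 : v = 0
    · rw [hv0]; exact W.zero_mem
    rw [hWm, map_pow, Module.End.HasEigenvector.pow_apply ⟨hv, hv0⟩, xhhs_pow c hc3 r hr,
      one_smul]
  rw [hed 3 (by decide), hed 9 (by decide)]
  let L := AlgebraicClosure K
  obtain ⟨M, _, _, _, τ, hrk, -, heig, -⟩ := exists_bc σ L
  have hz : ∀ h : H1, (∀ w, σ h w = w → w = 0) → ∀ v, τ h v = v → v = 0 := by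
    intro h hh v hv
    have h1 := heig h 1
    have h2 : Module.End.eigenspace (σ h) 1 = ⊥ :=
      (Submodule.eq_bot_iff _).mpr fun w hw =>
        hh w (by rwa [Module.End.mem_eigenspace_iff, one_smul] at hw)
    rw [map_one, ed, h2, finrank_bot, Submodule.finrank_eq_zero] at h1
    exact (Submodule.eq_bot_iff _).mp h1 v (by rwa [Module.End.mem_eigenspace_iff, one_smul])
  have h13' : ¬ 13 ∣ Nat.card H1 := fun h => h13 (h.trans (Subgroup.card_subgroup_dvd_card H1))
  have key := xhhs_ind (L := L) h13' (A.subgroupOf H1) (E.subgroupOf H1) (xhhs_pd A E H1 hP hE)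
    ?_ ⟨x, hx⟩ ?_ ?_ ?_ r ?_ (algebraMap K L 3) ?_ _ M τ rfl ?_ ?_ ?_
  · rw [← map_pow, heig, heig] at key
    rw [key]
    congr 1
  · intro h
    apply hne
    apply le_antisymm hP.le
    intro f hf
    have : (⟨f, hE hf⟩ : H1) ∈ A.subgroupOf H1 := by rw [h]; exact hf
    exact this
  · rintro ⟨_, f, hf, y, hy, rfl⟩
    obtain ⟨k, rfl⟩ := mem_powers_iff_mem_zpowers.mpr hy
    exact ⟨⟨f, hE hf⟩, hf, k, rfl⟩
  · rw [Subgroup.mem_centralizer_iff]
    intro a ha
    exact Subtype.ext (Subgroup.mem_centralizer_iff.mp hxA a ha)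
  · rw [Subgroup.mem_normalizer_iff]
    intro h
    exact Subgroup.mem_normalizer_iff.mp hxE h
  · intro f hf k hk h
    exact hfp f hf k hk h
  · rw [← map_pow, show (3 : K) ^ 3 = 1 by decide, map_one]
  · intro a ha v hv hav
    by_contra h1
    refine hv (hz a (fun w hw => ?_) v hav)
    by_contra hw0
    exact h1 (Subtype.ext (hA a ha w (fun h => hw0 (Subtype.ext h)) (by rw [← hσ, hw])))
  · intro v
    have h1 := heig (⟨x, hx⟩ ^ (3 ^ r)) 1
    have h2 : Module.End.eigenspace (σ (⟨x, hx⟩ ^ (3 ^ r))) 1 = ⊤ := by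
      rw [eq_top_iff]
      intro w _
      rw [Module.End.mem_eigenspace_iff, one_smul]
      apply Subtype.ext
      rw [hσ]
      exact (hWm w).mp w.2
    rw [map_one, ed, h2, finrank_top, ← hrk] at h1
    have h3 := Submodule.eq_top_of_finrank_eq h1
    have : v ∈ Module.End.eigenspace (τ (⟨x, hx⟩ ^ (3 ^ r))) 1 := by rw [h3]; trivial
    rwa [Module.End.mem_eigenspace_iff, one_smul] at this
  · refine hz _ fun w hw => Subtype.ext (hf w ?_)
    have := hσ ⟨x, hx⟩ w
    rw [hw] at this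
    exact this.symm

end Pool.Agent.N9181
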