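import Pool.Agent.MP_9181f8_al.N.Scal3
import Pool.Agent.MP_9181f8_al.N.Ind
import Pool.Agent.MP_9181f8_al.N.Hhs
import Pool.Agent.MP_9181f8_al.N.ExE

namespace Pool.Agent.N9181

open scoped commutatorElement

theorem xbasea1_cube {V : Type} [AddCommGroup V] [Module K V]
    {H : Type} [Group H] (ρ : Representation K H V) (x : H) (c : K) (hc : c ^ 3 = 1) (v : V)
    (hv : ρ x v = c • v) : ρ (x ^ 3) v = v := by
  have h : ρ (x ^ 3) v = ρ x (ρ x (ρ x v)) := by
    rw [map_pow]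
    rfl
  rw [h, hv, map_smul, hv, map_smul, map_smul, hv, smul_smul, smul_smul]
  have : c * c * c = 1 := by rw [← hc]; ring
  rw [this, one_smul]

theorem baseA1 {V : Type} [AddCommGroup V] [Module K V] [Module.Finite K V]
    {H : Type} [Group H] [Finite H] (h13 : ¬ 13 ∣ Nat.card H) (ρ : Representation K H V) (hinj : Function.Injective ρ) (hirr : Irr ρ) (A F : Subgroup H) (hS : SD A F)
    (hbal : HBal ρ) (h3 : ¬ 3 ∣ A.relIndex F) (x : H) (a : ℕ) (hx : x ^ (3 ^ a) = 1)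
    (hne : ed (ρ x) 3 ≠ ed (ρ x) 9) : Scal ρ := by
  have hfree : FreeOn ρ A := freeOn_of_irr ρ hinj hirr A hS.nA hS.cyc
  have hf : ∀ v, ρ x v = v → v = 0 := by
    intro v hv
    by_contra h0
    exact hne (hbal x v h0 hv)
  have hv3 : ∃ v : V, v ≠ 0 ∧ ρ (x ^ 3) v = v := by
    have hpos : 0 < ed (ρ x) 3 ∨ 0 < ed (ρ x) 9 := by omega
    rcases hpos with h | h
    · rw [← edOn_top, edOn_pos] at h
      obtain ⟨w, -, hw0, hw⟩ := h
      exact ⟨w, hw0, xbasea1_cube ρ x 3 (by decide) w hw⟩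
    · rw [← edOn_top, edOn_pos] at h
      obtain ⟨w, -, hw0, hw⟩ := h
      exact ⟨w, hw0, xbasea1_cube ρ x 9 (by decide) w hw⟩
  obtain ⟨v, hv0, hv⟩ := hv3
  have hxA : x ∈ Subgroup.centralizer (A : Set H) := by
    by_contra hnc
    have hn : x ∈ Subgroup.normalizer (A : Set H) := by
      have := hS.nA
      rw [Subgroup.normalizer_eq_top]
      trivial
    exact hv0 (mov ρ A hS.cyc hfree x a hx hn hnc hf v hv)
  have hxF : x ∈ F := by
    by_contra hxF
    obtain ⟨E, r, hP, hAE, hxE, hr, hc, hfp⟩ := exists_E A F hS h3 x a hx hxA hxF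
    exact hne (hhs h13 ρ A E hP hAE x hxA hxE hfree r hc hr hfp hf)
  have hxmem : x ∈ A := by
    have := hS.nA
    have h1 : x ^ (A.relIndex F) ∈ A := A.pow_relIndex_mem hxF
    have h2 : (A.relIndex F).Coprime (orderOf x) := by
      have h4 : (A.relIndex F).Coprime (3 ^ a) :=
        Nat.Coprime.pow_right a ((Nat.Prime.coprime_iff_not_dvd Nat.prime_three).2 h3).symm
      exact Nat.Coprime.coprime_dvd_right (orderOf_dvd_of_pow_eq_one hx) h4
    obtain ⟨m, hm⟩ := exists_pow_eq_self_of_coprime h2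
    rw [← hm]
    exact A.pow_mem h1 m
  have hx3 : x ^ 3 = 1 := hfree _ (A.pow_mem hxmem 3) v hv0 hv
  have hx1 : x ≠ 1 := by
    intro h
    apply hv0
    apply hf
    rw [h, map_one]
    rfl
  rcases scal_of_three ρ hinj hirr A hS.nA hS.cyc x hxmem hx1 hx3 with h | h
  · exact h
  · exact absurd h.1 hne

end Pool.Agent.N9181
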