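import Pool.Agent.MP_9181f8_al.N.DimK
import Pool.Agent.MP_9181f8_al.N.BaseCh
import Pool.Agent.MP_9181f8_al.N.BtEig

namespace Pool.Agent.N9181

open scoped commutatorElement

theorem xdim_free {V : Type} [AddCommGroup V] [Module K V] [Module.Finite K V]
    {H : Type} [Group H] (ρ : Representation K H V) (A : Subgroup H) (hA : FreeOn ρ A)
    {L : Type} [Field L] [Algebra K L] {M : Type} [AddCommGroup M] [Module L M]
    [Module.Finite L M] (τ : Representation L H M)
    (h1 : ∀ (h : H) (c : K), Module.finrank L (Module.End.eigenspace (τ h) (algebraMap K L c)) =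
        ed (ρ h) c) :
    ∀ a ∈ A, ∀ v, v ≠ 0 → τ a v = v → a = 1 := by
  intro a ha v hv hav
  by_contra hne
  have hb : Module.End.eigenspace (ρ a) (1 : K) = ⊥ := by
    rw [eq_bot_iff]
    intro w hw
    rw [Module.End.mem_eigenspace_iff, one_smul] at hw
    by_contra hw0
    exact hne (hA a ha w hw0 hw)
  have h2 := h1 a 1
  rw [map_one, ed, hb, finrank_bot, Submodule.finrank_eq_zero] at h2
  have hm : v ∈ Module.End.eigenspace (τ a) (1 : L) := by
    rw [Module.End.mem_eigenspace_iff, one_smul]
    exact hav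
  rw [h2] at hm
  exact hv hm

theorem xdim_pd {H : Type} [Group H] (A F : Subgroup H) (hP : PD A F) :
    PD (A.subgroupOf F) ⊤ := by
  refine ⟨?_, le_top, ?_, ?_, ?_⟩
  · have := hP.cyc
    exact isCyclic_of_surjective (Subgroup.subgroupOfEquivOfLe hP.le).symm
      (Subgroup.subgroupOfEquivOfLe hP.le).symm.surjective
  · intro a ha x _
    exact Subtype.ext (hP.cen a ha x x.2)
  · intro x _ y _
    exact hP.comm x x.2 y y.2
  · intro x _ hx
    refine hP.nd x x.2 fun y hy => ?_
    exact congrArg Subtype.val (hx ⟨y, hy⟩ trivial)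

theorem xdim_count {L : Type} [Field L] {M : Type} [AddCommGroup M] [Module L M]
    [Module.Finite L M] [DecidableEq L] (T : Module.End L M) (e : ℕ)
    (he : ∀ y, T.HasEigenvalue y → e ≤ Module.finrank L (T.eigenspace y)) :
    T.charpoly.roots.toFinset.card * e ≤ Module.finrank L M := by
  have hne : T.charpoly ≠ 0 := (LinearMap.charpoly_monic T).ne_zero
  have h1 : T.charpoly.roots.toFinset.card * e ≤
      ∑ y ∈ T.charpoly.roots.toFinset, T.charpoly.roots.count y := by
    rw [← smul_eq_mul]
    refine Finset.card_nsmul_le_sum _ _ _ fun y hy => ?_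
    rw [Multiset.mem_toFinset, Polynomial.mem_roots hne,
      ← Module.End.hasEigenvalue_iff_isRoot_charpoly] at hy
    rw [Polynomial.count_roots]
    exact (he y hy).trans (LinearMap.finrank_eigenspace_le T y)
  rw [Multiset.toFinset_sum_count_eq] at h1
  refine h1.trans ((Polynomial.card_roots' _).trans ?_)
  rw [LinearMap.charpoly_natDegree]

theorem xdim_dvd {V : Type} [AddCommGroup V] [Module K V] [Module.Finite K V]
    (T : Module.End K V) (g : Polynomial K) (hg : Irreducible g)
    (hk : 0 < Module.finrank K (LinearMap.ker (Polynomial.aeval T g))) : g ∣ T.charpoly := by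
  by_contra hn
  obtain ⟨u, w, huw⟩ := (hg.coprime_iff_not_dvd).2 hn
  have h1 := congrArg (Polynomial.aeval T) huw
  rw [map_add, map_mul, map_mul, LinearMap.aeval_self_charpoly, mul_zero, add_zero, map_one] at h1
  have hb : LinearMap.ker (Polynomial.aeval T g) = ⊥ := by
    rw [eq_bot_iff]
    intro v hv
    rw [LinearMap.mem_ker] at hv
    have h2 := congrArg (fun f : Module.End K V => f v) h1
    simp only [Module.End.mul_apply, hv, map_zero, Module.End.one_apply] at h2
    exact h2.symm
  rw [hb, finrank_bot] at hk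
  exact lt_irrefl _ hk

theorem dim1 {V : Type} [AddCommGroup V] [Module K V] [Module.Finite K V]
    {H : Type} [Group H] [Finite H] (h13 : ¬ 13 ∣ Nat.card H) (ρ : Representation K H V) (A F : Subgroup H) (hP : PD A F) (hA : FreeOn ρ A)
    (W : Submodule K V) (hW : ∀ f ∈ F, ∀ w ∈ W, ρ f w ∈ W) (e : ℕ)
    (he : A.relIndex F = e ^ 2) : e ∣ Module.finrank K W := by
  obtain ⟨σ, hσ⟩ := exists_res ρ F W hW
  have hA' : FreeOn σ (A.subgroupOf F) := by
    intro a ha v hv hav
    have h1 : ρ a v = v := by rw [← hσ, hav]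
    exact Subtype.ext (hA a ha v (fun h => hv (Subtype.ext h)) h1)
  have h13' : ¬ 13 ∣ Nat.card F := fun h => h13 (h.trans (Subgroup.card_subgroup_dvd_card F))
  obtain ⟨M, _, _, _, τ, hd, -, h1, -⟩ := exists_bc σ (AlgebraicClosure K)
  have h2 := dimK h13' τ (A.subgroupOf F) ⊤ (xdim_pd A F hP) (xdim_free σ _ hA' τ h1) ⊤
    (fun _ _ _ _ => trivial) e (by rw [Subgroup.relIndex_top_right]; exact he)
  rwa [finrank_top, hd] at h2

theorem dim2 {V : Type} [AddCommGroup V] [Module K V] [Module.Finite K V]
    {H : Type} [Group H] [Finite H] (h13 : ¬ 13 ∣ Nat.card H) (ρ : Representation K H V) (hV : ∃ v : V, v ≠ 0) (N m : ℕ) (hNM : NM H N m)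
    (hU : HU ρ N m) (A F : Subgroup H) (hP : PD A F) (hA : FreeOn ρ A) (e : ℕ)
    (he : A.relIndex F = e ^ 2) : Nat.totient (Nat.card A) * e ≤ 2 * Module.finrank K V := by
  classical
  obtain ⟨M, _, _, _, τ, hd, hk, h1, hc⟩ := exists_bc ρ (AlgebraicClosure K)
  have hfree := xdim_free ρ A hA τ h1
  have hcy := hP.cyc
  obtain ⟨a0, ha0⟩ := IsCyclic.exists_ofOrder_eq_natCard (α := A)
  have hord : orderOf (a0 : H) = Nat.card A := by rw [← ha0, Subgroup.orderOf_coe]
  obtain ⟨a, haA⟩ := a0
  replace hord : orderOf a = Nat.card A := hord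
  clear ha0
  set r := Nat.card A with hr
  have hr0 : 0 < r := Nat.card_pos
  have : NeZero r := ⟨hr0.ne'⟩
  have hrN : r ∣ N := (Subgroup.card_subgroup_dvd_card A).trans hNM.1
  -- powers of eigenvectors
  have hpow : ∀ (y : AlgebraicClosure K) (v : M), τ a v = y • v → ∀ k : ℕ,
      τ (a ^ k) v = y ^ k • v := by
    intro y v hv k
    induction k with
    | zero => simp
    | succ k ih =>
      rw [pow_succ, map_mul, Module.End.mul_apply, hv, map_smul, ih, smul_smul, pow_succ']
  -- counting eigenvalues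
  have hcount := xdim_count (τ a) e (by
    intro y hy
    have hinv : ∀ f ∈ F, ∀ w ∈ Module.End.eigenspace (τ a) y,
        τ f w ∈ Module.End.eigenspace (τ a) y := by
      intro f hf w hw
      rw [Module.End.mem_eigenspace_iff] at hw ⊢
      rw [← Module.End.mul_apply, ← map_mul, hP.cen a haA f hf, map_mul, Module.End.mul_apply,
        hw, map_smul]
    refine Nat.le_of_dvd ?_ (dimK h13 τ A F hP hfree _ hinv e he)
    rw [Nat.pos_iff_ne_zero]
    intro h0
    rw [Submodule.finrank_eq_zero] at h0
    exact hy h0)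
  have hMpos : 0 < Module.finrank (AlgebraicClosure K) M := by
    rw [hd]
    obtain ⟨v, hv⟩ := hV
    exact Module.finrank_pos_iff_exists_ne_zero.2 ⟨v, hv⟩
  have : Nontrivial M := Module.finrank_pos_iff.1 hMpos
  obtain ⟨z, hz⟩ := Module.End.exists_eigenvalue (τ a)
  obtain ⟨v, hv⟩ := hz.exists_hasEigenvector
  have hv0 : v ≠ 0 := hv.2
  have hv1 : τ a v = z • v := hv.apply_eq_smul
  have hprim : IsPrimitiveRoot z r := by
    refine ⟨?_, fun l hl => ?_⟩
    · have h2 := hpow z v hv1 r
      rw [← hord, pow_orderOf_eq_one, map_one, Module.End.one_apply, hord] at h2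
      have h3 : (z ^ r - 1) • v = 0 := by rw [sub_smul, one_smul, ← h2, sub_self]
      exact sub_eq_zero.1 ((smul_eq_zero.1 h3).resolve_right hv0)
    · have h2 := hpow z v hv1 l
      rw [hl, one_smul] at h2
      rw [← hord]
      exact orderOf_dvd_of_pow_eq_one (hfree _ (A.pow_mem haA l) v hv0 h2)
  have hne : ∀ h : H, (LinearMap.charpoly (τ h)) ≠ 0 := fun h =>
    (LinearMap.charpoly_monic _).ne_zero
  set E := (LinearMap.charpoly (τ a)).roots.toFinset with hE
  have hsub : primitiveRoots r (AlgebraicClosure K) ⊆ E ∪ E.image (· ^ m) := by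
    intro x hx
    rw [mem_primitiveRoots hr0] at hx
    obtain ⟨i, -, hi, hxi⟩ := hprim.isPrimitiveRoot_iff.1 hx
    obtain ⟨j, hj, hji⟩ := exists_j r N i hrN hNM.2.1 hi
    have hxj : z ^ j = x := by
      rw [← hxi, pow_eq_pow_mod j hprim.pow_eq_one, pow_eq_pow_mod i hprim.pow_eq_one, hji]
    have hint : IsIntegral K x := Algebra.IsIntegral.isIntegral x
    have hirr := minpoly.irreducible hint
    have hroot : ∀ h : H,
        0 < Module.finrank K (LinearMap.ker (Polynomial.aeval (ρ h) (minpoly K x))) →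
        (LinearMap.charpoly (τ h)).IsRoot x := by
      intro h hh
      obtain ⟨u, hu⟩ := xdim_dvd (ρ h) _ hirr hh
      rw [hc, hu, Polynomial.IsRoot.def, Polynomial.eval_map_algebraMap, map_mul, minpoly.aeval,
        zero_mul]
    have hpos : 0 < Module.finrank K
        (LinearMap.ker (Polynomial.aeval (ρ (a ^ j)) (minpoly K x))) := by
      rw [← hk]
      refine Module.finrank_pos_iff_exists_ne_zero.2 ⟨⟨v, ?_⟩, fun h => hv0 (congrArg Subtype.val h)⟩
      have hev : Module.End.HasEigenvector (τ (a ^ j)) x v := by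
        refine ⟨?_, hv0⟩
        rw [Module.End.mem_eigenspace_iff, hpow z v hv1 j, hxj]
      rw [LinearMap.mem_ker, Module.End.aeval_apply_of_hasEigenvector hev,
        Polynomial.eval_map_algebraMap, minpoly.aeval, zero_smul]
    have hker := ker_of_U h13 ρ N m hU a j hj (minpoly K x)
    rw [Finset.mem_union]
    by_cases h0 : 0 < Module.finrank K (LinearMap.ker (Polynomial.aeval (ρ a) (minpoly K x)))
    · left
      rw [hE, Multiset.mem_toFinset, Polynomial.mem_roots (hne a)]
      exact hroot a h0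
    · right
      have h2 := hroot (a ^ m) (by omega)
      rw [← Module.End.mem_spectrum_iff_isRoot_charpoly, map_pow,
        spectrum.map_pow_of_nonempty ⟨z, Module.End.hasEigenvalue_iff_mem_spectrum.1 hz⟩] at h2
      obtain ⟨y, hy, hyx⟩ := h2
      rw [Finset.mem_image]
      refine ⟨y, ?_, hyx⟩
      rw [hE, Multiset.mem_toFinset, Polynomial.mem_roots (hne a)]
      exact (Module.End.mem_spectrum_iff_isRoot_charpoly _ _).1 hy
  have hcard : Nat.totient r ≤ 2 * E.card := by
    rw [← hprim.card_primitiveRoots]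
    refine (Finset.card_le_card hsub).trans ((Finset.card_union_le _ _).trans ?_)
    have := Finset.card_image_le (s := E) (f := (· ^ m))
    omega
  rw [hd] at hcount
  calc Nat.totient r * e ≤ 2 * E.card * e := Nat.mul_le_mul_right _ hcard
    _ = 2 * (E.card * e) := by ring
    _ ≤ 2 * Module.finrank K V := Nat.mul_le_mul_left _ hcount

end Pool.Agent.N9181
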