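import Pool.Agent.MP_9181f8_al.N.NumA

namespace Pool.Agent.N9181

open scoped commutatorElement

theorem xnumb_exp (k : ℕ) (hk : 6 ≤ k) : (k + 1) * (2 * k + 5) + 8 ≤ 2 * 2 ^ k := by
  induction k, hk using Nat.le_induction with
  | base => norm_num
  | succ k hk ih =>
    rw [pow_succ]
    nlinarith

theorem xnumb_big (e : ℕ) (he : 64 ≤ e) : 256 * (e ^ 2 * ch 2 (e ^ 2)) ≤ 4 ^ e := by
  obtain ⟨k, h1, h2⟩ : ∃ k, 2 ^ k ≤ e ∧ e < 2 ^ (k + 1) :=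
    ⟨Nat.log 2 e, Nat.pow_log_le_self 2 (by omega), Nat.lt_pow_succ_log_self (by norm_num) e⟩
  have hk : 6 ≤ k := by
    have h : 2 ^ 6 < 2 ^ (k + 1) := lt_of_le_of_lt he h2
    have := (Nat.pow_lt_pow_iff_right (by norm_num)).1 h
    omega
  have h3 : e ^ 2 ≤ 2 ^ (2 * (k + 1)) := by
    rw [mul_comm, pow_mul]
    exact Nat.pow_le_pow_left h2.le 2
  have h4 := ch_le _ _ h3
  rw [mul_assoc, Nat.mul_div_cancel_left _ two_pos] at h4
  have h5 := xnumb_exp k hk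
  calc 256 * (e ^ 2 * ch 2 (e ^ 2))
      ≤ 2 ^ 8 * (2 ^ (2 * (k + 1)) * 2 ^ ((k + 1) * (2 * (k + 1) + 1))) := by gcongr; norm_num
    _ = 2 ^ ((k + 1) * (2 * k + 5) + 8) := by
      rw [← pow_add, ← pow_add]
      congr 1
      ring
    _ ≤ 2 ^ (2 * e) := Nat.pow_le_pow_right two_pos (by omega)
    _ = 4 ^ e := by rw [pow_mul]; norm_num

theorem xnumb_a (e : ℕ) (he : 0 < e) : 216 * (e ^ 2 * ch 2 (e ^ 2)) < 2 * 169 ^ e := by
  rcases lt_or_ge e 64 with h | h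
  · revert he
    revert e
    decide +kernel
  · have h1 := xnumb_big e h
    have h2 : 4 ^ e ≤ 169 ^ e := Nat.pow_le_pow_left (by norm_num) e
    have h3 : 0 < 169 ^ e := by positivity
    omega

theorem xnumb_b (a : ℕ) (ha : 7 ≤ a) : 3 * ((3 * a) ^ 2 * ch 2 ((3 * a) ^ 2)) < 4 * 169 ^ a := by
  rcases lt_or_ge a 22 with h | h
  · revert ha
    revert a
    decide +kernel
  · have h1 := xnumb_big (3 * a) (by omega)
    have h2 : 4 ^ (3 * a) ≤ 169 ^ a := by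
      rw [pow_mul]
      exact Nat.pow_le_pow_left (by norm_num) a
    have h3 : 0 < 169 ^ a := by positivity
    omega

theorem xnumb_p (e : ℕ) (he : 0 < e) : 3 * 4 ^ e ≤ 13 ^ e := by
  induction e, he using Nat.le_induction with
  | base => norm_num
  | succ k hk ih =>
    rw [pow_succ, pow_succ]
    omega

theorem xnumb_c (e : ℕ) (he : 0 < e) (h3 : 3 ∣ e) (h6 : e ≠ 6) :
    3 * (e ^ 2 * ch 2 (e ^ 2)) + 2 ≤ 13 ^ e := by
  rcases lt_or_ge e 64 with h | h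
  · revert he h3 h6
    revert e
    decide +kernel
  · have h1 := xnumb_big e h
    have h2 := xnumb_p e he
    have h4 : 0 < 4 ^ e := by positivity
    omega

theorem xnumb_d (e : ℕ) (he : 0 < e) (h3 : 3 ∣ e) :
    192 * ((3 * e + 1) / 2) ^ 3 * (e ^ 2 * ch 2 (e ^ 2)) ≤ 2 * 13 ^ ((3 * e + 1) / 2) * e ^ 3 := by
  rcases lt_or_ge e 64 with h | h
  · revert he h3
    revert e
    decide +kernel
  · have h1 := xnumb_big e h
    have h2 := xnumb_p e he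
    have h4 : 13 ^ e ≤ 13 ^ ((3 * e + 1) / 2) := Nat.pow_le_pow_right (by norm_num) (by omega)
    have h5 : ((3 * e + 1) / 2) ^ 3 ≤ (2 * e) ^ 3 := Nat.pow_le_pow_left (by omega) 3
    calc 192 * ((3 * e + 1) / 2) ^ 3 * (e ^ 2 * ch 2 (e ^ 2))
        ≤ 192 * (2 * e) ^ 3 * (e ^ 2 * ch 2 (e ^ 2)) := by gcongr
      _ = 6 * (256 * (e ^ 2 * ch 2 (e ^ 2))) * e ^ 3 := by ring
      _ ≤ 2 * 13 ^ ((3 * e + 1) / 2) * e ^ 3 := Nat.mul_le_mul_right _ (by omega)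

theorem xnumb_cube (b a d : ℕ) (hb : 8 ≤ b) (ha : 0 < a) (h : a ≤ d) :
    d ^ 3 * b ^ a ≤ a ^ 3 * b ^ d := by
  induction d, h using Nat.le_induction with
  | base => exact le_rfl
  | succ k hk ih =>
    have h1 : (k + 1) ^ 3 ≤ (2 * k) ^ 3 := Nat.pow_le_pow_left (by omega) 3
    calc (k + 1) ^ 3 * b ^ a ≤ (2 * k) ^ 3 * b ^ a := by gcongr
      _ = 8 * (k ^ 3 * b ^ a) := by ring
      _ ≤ b * (a ^ 3 * b ^ k) := Nat.mul_le_mul hb ih
      _ = a ^ 3 * b ^ (k + 1) := by ring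

theorem xnumb_red (X s : ℕ) (hs : 0 < s) (h : X < 2 * (169 ^ s + 13 ^ s + 1)) :
    X * (13 ^ (3 * s / 3) - 1) < 2 * (13 ^ (3 * s) - 1) := by
  have h1 : 1 < 13 ^ s := Nat.one_lt_pow hs.ne' (by norm_num)
  have h2 : 169 ^ s = (13 ^ s) ^ 2 := by
    rw [← pow_mul, mul_comm, pow_mul]
    norm_num
  rw [Nat.mul_div_cancel_left _ (by norm_num), mul_comm 3 s, pow_mul]
  rw [h2] at h
  obtain ⟨y, hy⟩ := Nat.exists_eq_add_of_le h1.le
  rw [hy] at h h1 ⊢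
  have h3 : (1 + y) ^ 3 - 1 = ((1 + y) ^ 2 + (1 + y) + 1) * y :=
    Nat.sub_eq_of_eq_add (by ring)
  rw [h3, Nat.add_sub_cancel_left, ← mul_assoc]
  exact Nat.mul_lt_mul_of_pos_right h (by omega)

theorem xnumb_small (a I : ℕ) (ha : 0 < a) (h7 : a < 7) (hI : IB (3 * a) I) :
    3 * (3 * a) ^ 2 * I < 4 * (169 ^ a + 13 ^ a + 1) := by
  have h := hI.2
  rw [← Nat.primeFactorsList_count_eq] at h
  refine lt_of_le_of_lt (Nat.mul_le_mul_left _ h) ?_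
  clear h hI
  interval_cases a <;> simp only [Nat.reduceMul, Nat.primeFactorsList_ofNat] <;> decide +kernel

theorem xnumb_r (r : ℕ) (hr : 6 ≤ Nat.totient r) : r * Nat.totient r ≤ Nat.totient r ^ 3 := by
  have h := le_totient_sq r (by rintro rfl; revert hr; decide) (by rintro rfl; revert hr; decide)
  rw [pow_succ]
  exact Nat.mul_le_mul_right _ h

theorem num1 (n e I M : ℕ) (hn : 0 < n) (h3 : 3 ∣ n) (he : e ∣ n) (hI : IB e I) (hM : M ≤ I)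
    (hM3 : 3 ∣ e → 2 * M ≤ I) : 3 * e ^ 2 * M * (13 ^ (n / 3) - 1) < 2 * (13 ^ n - 1) := by
  obtain ⟨s, rfl⟩ := h3
  have hs : 0 < s := by omega
  have he0 : 0 < e := Nat.pos_of_dvd_of_pos he hn
  refine xnumb_red _ s hs ?_
  by_cases h : 3 ∣ e
  · obtain ⟨a, rfl⟩ := h
    have h1 : a ≤ s := by
      have := Nat.le_of_dvd hn he
      omega
    have h2 : 169 ^ a ≤ 169 ^ s := Nat.pow_le_pow_right (by norm_num) h1
    have h4 : 13 ^ a ≤ 13 ^ s := Nat.pow_le_pow_right (by norm_num) h1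
    have h5 := Nat.mul_le_mul_left (3 * (3 * a) ^ 2) (hM3 (dvd_mul_right 3 a))
    have h6 : 3 * (3 * a) ^ 2 * I < 4 * (169 ^ a + 13 ^ a + 1) := by
      rcases lt_or_ge a 7 with h7 | h7
      · exact xnumb_small a I (by omega) h7 hI
      · have h8 := xnumb_b a h7
        have h9 := Nat.mul_le_mul_left (3 * (3 * a) ^ 2) hI.1
        rw [← mul_assoc] at h8
        have h10 : 0 < 13 ^ a := by positivity
        omega
    rw [mul_left_comm] at h5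
    omega
  · have h1 : e ≤ s := Nat.le_of_dvd hs (Nat.Coprime.dvd_of_dvd_mul_left
      ((Nat.Prime.coprime_iff_not_dvd Nat.prime_three).2 h).symm he)
    have h2 : 169 ^ e ≤ 169 ^ s := Nat.pow_le_pow_right (by norm_num) h1
    have h4 := xnumb_a e he0
    have h5 := Nat.mul_le_mul_left (e ^ 2) (hM.trans hI.1)
    have h10 : 0 < 13 ^ s := by positivity
    rw [mul_assoc]
    omega

theorem num2 (n e I r : ℕ) (h3 : 3 ∣ n) (hr : 6 ≤ Nat.totient r) (he : 0 < e)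
    (hn : Nat.totient r * e ≤ 2 * n) (hI : IB e I) :
    r * Nat.totient r * e ^ 2 * I * (13 ^ (n / 3) - 1) < 2 * (13 ^ n - 1) := by
  obtain ⟨s, rfl⟩ := h3
  have h0 := xnumb_r r hr
  generalize Nat.totient r = f at *
  have h1 : e ≤ s := by nlinarith
  refine xnumb_red _ s (by omega) ?_
  have h2 := xnumb_cube 169 e s (by norm_num) he h1
  have h4 : (f * e) ^ 3 ≤ (6 * s) ^ 3 := Nat.pow_le_pow_left (by omega) 3
  have h5 : f ^ 3 * 169 ^ e ≤ 216 * 169 ^ s := by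
    refine Nat.le_of_mul_le_mul_left (?_ : e ^ 3 * _ ≤ e ^ 3 * _) (by positivity)
    calc e ^ 3 * (f ^ 3 * 169 ^ e) = (f * e) ^ 3 * 169 ^ e := by ring
      _ ≤ (6 * s) ^ 3 * 169 ^ e := by gcongr
      _ = 216 * (s ^ 3 * 169 ^ e) := by ring
      _ ≤ 216 * (e ^ 3 * 169 ^ s) := by gcongr
      _ = _ := by ring
  have h6 : f ^ 3 * (e ^ 2 * ch 2 (e ^ 2)) < 2 * 169 ^ s := by
    refine Nat.lt_of_mul_lt_mul_left (a := 169 ^ e) ?_
    calc 169 ^ e * (f ^ 3 * (e ^ 2 * ch 2 (e ^ 2)))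
        = f ^ 3 * 169 ^ e * (e ^ 2 * ch 2 (e ^ 2)) := by ring
      _ ≤ 216 * 169 ^ s * (e ^ 2 * ch 2 (e ^ 2)) := by gcongr
      _ = 169 ^ s * (216 * (e ^ 2 * ch 2 (e ^ 2))) := by ring
      _ < 169 ^ s * (2 * 169 ^ e) := Nat.mul_lt_mul_of_pos_left (xnumb_a e he) (by positivity)
      _ = _ := by ring
  have h7 := Nat.mul_le_mul h0 (Nat.mul_le_mul_left (e ^ 2) hI.1)
  have h10 : 0 < 13 ^ s := by positivity
  rw [mul_assoc (r * f)]
  omega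

theorem num3 (d e I : ℕ) (h3 : 3 ∣ e) (he : 0 < e) (hd : e ≤ d) (hI : IB e I) :
    3 * e ^ 2 * I + 2 ≤ 13 ^ d := by
  refine le_trans ?_ (Nat.pow_le_pow_right (by norm_num) hd)
  by_cases h6 : e = 6
  · subst h6
    have := xnumb_small 2 I (by norm_num) (by norm_num) hI
    omega
  · have h1 := xnumb_c e he h3 h6
    have h2 := Nat.mul_le_mul_left (e ^ 2) hI.1
    rw [mul_assoc]
    omega

theorem num4 (d e I r : ℕ) (h3 : 3 ∣ e) (he : 0 < e) (hr : 6 ≤ Nat.totient r)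
    (hd : Nat.totient r * e ≤ 4 * d) (hI : IB e I) :
    r * Nat.totient r * e ^ 2 * I + 2 ≤ 13 ^ d := by
  have h0 := xnumb_r r hr
  generalize Nat.totient r = f at *
  have h1 : 6 * e ≤ 4 * d := (Nat.mul_le_mul_right e hr).trans hd
  have h2 := xnumb_cube 13 ((3 * e + 1) / 2) d (by norm_num) (by omega) (by omega)
  have h4 : (f * e) ^ 3 ≤ (4 * d) ^ 3 := Nat.pow_le_pow_left hd 3
  have h5 := xnumb_d e he h3
  generalize (3 * e + 1) / 2 = c at h2 h5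
  have h6 : 3 * (f ^ 3 * (e ^ 2 * ch 2 (e ^ 2))) ≤ 2 * 13 ^ d := by
    refine Nat.le_of_mul_le_mul_left (?_ : 13 ^ c * e ^ 3 * _ ≤ 13 ^ c * e ^ 3 * _) (by positivity)
    calc 13 ^ c * e ^ 3 * (3 * (f ^ 3 * (e ^ 2 * ch 2 (e ^ 2))))
        = 3 * (f * e) ^ 3 * 13 ^ c * (e ^ 2 * ch 2 (e ^ 2)) := by ring
      _ ≤ 3 * (4 * d) ^ 3 * 13 ^ c * (e ^ 2 * ch 2 (e ^ 2)) := by gcongr
      _ = 192 * (d ^ 3 * 13 ^ c) * (e ^ 2 * ch 2 (e ^ 2)) := by ring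
      _ ≤ 192 * (c ^ 3 * 13 ^ d) * (e ^ 2 * ch 2 (e ^ 2)) := by gcongr
      _ = 13 ^ d * (192 * c ^ 3 * (e ^ 2 * ch 2 (e ^ 2))) := by ring
      _ ≤ 13 ^ d * (2 * 13 ^ c * e ^ 3) := by gcongr
      _ = _ := by ring
  have h7 := Nat.mul_le_mul h0 (Nat.mul_le_mul_left (e ^ 2) hI.1)
  have h8 : 13 ^ 1 ≤ 13 ^ d := Nat.pow_le_pow_right (by norm_num) (by omega)
  rw [mul_assoc (r * f)]
  omega

end Pool.Agent.N9181
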