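import Pool.Agent.MP_9181f8_al.N.Scal3
import Pool.Agent.MP_9181f8_al.N.Dim
import Pool.Agent.MP_9181f8_al.N.Count
import Pool.Agent.MP_9181f8_al.N.NumB

namespace Pool.Agent.N9181

open scoped commutatorElement

section
variable {V : Type} [AddCommGroup V] [Module K V] [Module.Finite K V]

open Module.End

omit [Module.Finite K V] in
theorem xbasea2_inv {s α : Module.End K V} (h : s * α = α * s) (c : K) :
    ∀ w ∈ s.eigenspace c, α w ∈ s.eigenspace c := fun w hw => by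
  rw [mem_eigenspace_iff] at hw ⊢
  rw [← Module.End.mul_apply, h, Module.End.mul_apply, hw, map_smul]

theorem xbasea2_split {s α : Module.End K V} (h : s * α = α * s) (h3 : α ^ 3 = 1)
    (h1 : ed α 1 = 0) (c : K) :
    ed s c = edOn (α.eigenspace 3) s c + edOn (α.eigenspace 9) s c := by
  have h2 := split3 (s.eigenspace c) α (xbasea2_inv h c) fun w _ => by rw [h3]; rfl
  have h4 : edOn (s.eigenspace c) α 1 ≤ ed α 1 := Submodule.finrank_mono inf_le_right
  rw [edOn, edOn, inf_comm (α.eigenspace 3), inf_comm (α.eigenspace 9)]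
  change Module.finrank K (s.eigenspace c) =
    edOn (s.eigenspace c) α 3 + edOn (s.eigenspace c) α 9
  omega

omit [Module.Finite K V] in
theorem xbasea2_mul {W : Submodule K V} {s b : Module.End K V} {l c c' : K} (hl : l ≠ 0)
    (hc : c' = l * c) (h : ∀ w ∈ W, b w = l • w) : edOn W (s * b) c' = edOn W s c := by
  have e : W ⊓ (s * b).eigenspace c' = W ⊓ s.eigenspace c := by
    ext w
    simp only [Submodule.mem_inf, mem_eigenspace_iff]
    refine and_congr_right fun hw => ?_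
    rw [Module.End.mul_apply, h w hw, map_smul, hc, mul_smul, smul_right_inj hl]
  rw [edOn, e, edOn]

theorem xbasea2_le {H : Type} [Group H] {ρ : Representation K H V} (hbal : HBal ρ) {a t : H}
    (ha3 : a ^ 3 = 1) (h1 : ed (ρ a) 1 = 0) (hta : t * a = a * t) {v₁ v₂ : V}
    (m₁ : v₁ ∈ Module.End.eigenspace (ρ a) 3) (m₂ : v₂ ∈ Module.End.eigenspace (ρ a) 9) (n₁ : v₁ ≠ 0) (n₂ : v₂ ≠ 0)
    (hv : ρ t (v₁ + v₂) = (3 : K) • (v₁ + v₂)) : 2 * ed (ρ t) 3 ≤ Module.finrank K V := by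
  have hc : ρ t * ρ a = ρ a * ρ t := by rw [← map_mul, hta, map_mul]
  have h3 : ρ a ^ 3 = 1 := by rw [← map_pow, ha3, map_one]
  have e₁ : ∀ w ∈ Module.End.eigenspace (ρ a) 3, ρ a w = (3 : K) • w := fun w => mem_eigenspace_iff.1
  have e₂ : ∀ w ∈ Module.End.eigenspace (ρ a) 9, ρ a w = (9 : K) • w := fun w => mem_eigenspace_iff.1
  have f₁ : ∀ w ∈ Module.End.eigenspace (ρ a) 3, (ρ a * ρ a) w = (9 : K) • w := fun w hw => by
    rw [Module.End.mul_apply, e₁ w hw, map_smul, e₁ w hw, smul_smul]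
    rfl
  have f₂ : ∀ w ∈ Module.End.eigenspace (ρ a) 9, (ρ a * ρ a) w = (3 : K) • w := fun w hw => by
    rw [Module.End.mul_apply, e₂ w hw, map_smul, e₂ w hw, smul_smul]
    rfl
  have g₀ : v₁ + v₂ ∈ Module.End.eigenspace (ρ t) 3 := mem_eigenspace_iff.2 hv
  have g₁ := xbasea2_inv hc 3 _ g₀
  rw [map_add, e₁ _ m₁, e₂ _ m₂] at g₁
  have g₂ : v₂ ∈ Module.End.eigenspace (ρ t) 3 := by
    have := sub_mem g₁ (Submodule.smul_mem _ (3 : K) g₀)
    rw [smul_add, add_sub_add_left_eq_sub, ← sub_smul] at this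
    exact (Submodule.smul_mem_iff _ (by decide)).1 this
  have g₃ : v₁ ∈ Module.End.eigenspace (ρ t) 3 := by simpa using sub_mem g₀ g₂
  rw [mem_eigenspace_iff] at g₂ g₃
  have b₁ := hbal (t * (a * a)) v₁ n₁ (by
    rw [map_mul, map_mul, Module.End.mul_apply, f₁ _ m₁, map_smul, g₃, smul_smul]
    exact one_smul K v₁)
  have b₂ := hbal (t * a) v₂ n₂ (by
    rw [map_mul, Module.End.mul_apply, e₂ _ m₂, map_smul, g₂, smul_smul]
    exact one_smul K v₂)
  have c₁ : ρ t * (ρ a * ρ a) * ρ a = ρ a * (ρ t * (ρ a * ρ a)) := by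
    rw [← mul_assoc (ρ a), ← hc]
    simp only [mul_assoc]
  have c₂ : ρ t * ρ a * ρ a = ρ a * (ρ t * ρ a) := by rw [← mul_assoc (ρ a), ← hc]
  rw [map_mul, map_mul, xbasea2_split c₁ h3 h1, xbasea2_split c₁ h3 h1,
    xbasea2_mul (c := 9) (by decide) (by decide) f₁, xbasea2_mul (c := 1) (by decide) (by decide) f₂,
    xbasea2_mul (c := 1) (by decide) (by decide) f₁,
    xbasea2_mul (c := 3) (by decide) (by decide) f₂] at b₁
  rw [map_mul, xbasea2_split c₂ h3 h1, xbasea2_split c₂ h3 h1,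
    xbasea2_mul (c := 1) (by decide) (by decide) e₁, xbasea2_mul (c := 9) (by decide) (by decide) e₂,
    xbasea2_mul (c := 3) (by decide) (by decide) e₁,
    xbasea2_mul (c := 1) (by decide) (by decide) e₂] at b₂
  have s₃ := xbasea2_split hc h3 h1 3
  have s₉ := xbasea2_split hc h3 h1 9
  have k := edOn_le ⊤ (ρ t)
  rw [edOn_top, edOn_top, edOn_top, finrank_top] at k
  omega

open Classical Finset in
theorem xbasea2_count {H : Type} [Group H] [Finite H] (ρ : Representation K H V)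
    {V₁ V₂ : Submodule K V} {d : ℕ} (h₁ : Module.finrank K V₁ = d) (h₂ : Module.finrank K V₂ = d)
    (hV : Module.finrank K V = 2 * d) (P : H → Prop) (hP : Nat.card {t // P t} + 2 ≤ 13 ^ d)
    (h : ∀ v, v ∉ V₁ → v ∉ V₂ → ∃ t, P t ∧ ρ t v = (3 : K) • v ∧ ed (ρ t) 3 ≤ d) : False := by
  have := (card_sub V₁).1
  have := Fintype.ofFinite V
  have := Fintype.ofFinite H
  have hc : ∀ W : Submodule K V, (univ.filter (· ∈ W)).card = 13 ^ Module.finrank K W :=
    fun W => by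
      rw [← (card_sub W).2]
      exact (Nat.subtype_card _ (by simp)).symm
  have hs : univ.filter (· ∈ (⊤ : Submodule K V)) ⊆ univ.filter (· ∈ V₁) ∪
      (univ.filter (· ∈ V₂)).erase 0 ∪ (univ.filter fun t => P t ∧ ed (ρ t) 3 ≤ d).biUnion
        fun t => univ.filter (· ∈ Module.End.eigenspace (ρ t) 3) := by
    intro v _
    by_cases a₁ : v ∈ V₁
    · simp [a₁]
    by_cases a₂ : v ∈ V₂
    · have : v ≠ 0 := fun e => a₁ (e ▸ zero_mem _)
      simp [a₂, this]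
    obtain ⟨t, b₁, b₂, b₃⟩ := h v a₁ a₂
    exact mem_union_right _ (mem_biUnion.2 ⟨t, by simp [b₁, b₃], by simp [b₂]⟩)
  have k₁ := (card_le_card hs).trans ((card_union_le _ _).trans (add_le_add (card_union_le _ _)
    (card_biUnion_le_card_mul _ _ (13 ^ d) fun t ht => by
      rw [hc]
      exact Nat.pow_le_pow_right (by norm_num) (mem_filter.1 ht).2.2)))
  have k₂ : (univ.filter fun t => P t ∧ ed (ρ t) 3 ≤ d).card ≤ Nat.card {t // P t} := by
    rw [Nat.subtype_card (univ.filter P) (by simp)]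
    exact card_le_card fun t ht => mem_filter.2 ⟨mem_univ _, (mem_filter.1 ht).2.1⟩
  rw [card_erase_of_mem (by simp), hc, hc, hc, finrank_top, h₁, h₂, hV, two_mul, pow_add] at k₁
  obtain ⟨x, hx⟩ : ∃ x, 13 ^ d = x + 2 := ⟨13 ^ d - 2, by omega⟩
  rw [hx] at k₁ hP
  have k₃ := Nat.mul_le_mul_right (x + 2) (k₂.trans (Nat.le_of_add_le_add_right hP))
  have k₄ : (x + 2) * (x + 2) = x * (x + 2) + 2 * (x + 2) := by ring
  omega

end

theorem baseA2 {V : Type} [AddCommGroup V] [Module K V] [Module.Finite K V]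
    {H : Type} [Group H] [Finite H] (h13 : ¬ 13 ∣ Nat.card H) (ρ : Representation K H V) (hinj : Function.Injective ρ) (hirr : Irr ρ) (A F : Subgroup H) (hS : SD A F)
    (hbal : HBal ρ) (N m : ℕ) (hNM : NM H N m) (hU : HU ρ N m) (hE : HEP ρ 3)
    (h3 : 3 ∣ A.relIndex F) : Scal ρ := by
  obtain ⟨e, I, M, he, hrel, hI, -, -, -, hc3, hidx, hpe, hH⟩ := sd_count A F hS
  have h3e : 3 ∣ e := Nat.prime_three.dvd_of_dvd_pow (hrel ▸ h3)
  have h3A := hpe 3 Nat.prime_three h3e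
  have : Fact (Nat.Prime 3) := ⟨Nat.prime_three⟩
  obtain ⟨a, ha⟩ := exists_prime_orderOf_dvd_card' 3 h3A
  have ha3 : (a : H) ^ 3 = 1 := by rw [← ha, ← Subgroup.coe_pow, pow_orderOf_eq_one]; rfl
  have ha1 : (a : H) ≠ 1 := fun h => by
    rw [OneMemClass.coe_eq_one.1 h, orderOf_one] at ha
    omega
  refine (scal_of_three ρ hinj hirr A hS.nA hS.cyc a a.2 ha1 ha3).resolve_right ?_
  rintro ⟨h39, hd, hV, h1, hcm⟩
  have hfree := freeOn_of_irr ρ hinj hirr A hS.nA hS.cyc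
  have hed : e ∣ ed (ρ a) 3 := dim1 h13 ρ A F hS.toPD hfree _ (fun f hf =>
    xbasea2_inv (by rw [← map_mul, hS.cen a a.2 f hf, map_mul]) 3) e hrel
  have htop : Module.End.eigenspace (ρ a) 3 ⊔ Module.End.eigenspace (ρ a) 9 = ⊤ := by
    have h4 := Submodule.finrank_sup_add_finrank_inf_eq (Module.End.eigenspace (ρ a) 3) (Module.End.eigenspace (ρ a) 9)
    have h5 : Module.End.eigenspace (ρ a) 3 ⊓ Module.End.eigenspace (ρ a) 9 = ⊥ := disjoint_iff.1
      ((Module.End.eigenspaces_iSupIndep (ρ a)).pairwiseDisjoint (by decide : (3 : K) ≠ 9))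
    rw [h5, finrank_bot] at h4
    refine Submodule.eq_top_of_finrank_eq ?_
    change _ + 0 = ed (ρ a) 3 + ed (ρ a) 9 at h4
    omega
  have key : ∀ v, v ∉ Module.End.eigenspace (ρ a) 3 → v ∉ Module.End.eigenspace (ρ a) 9 → ∃ t : H,
      (∃ b : ℕ, t ^ (3 ^ b) = 1) ∧ ρ t v = (3 : K) • v ∧ ed (ρ t) 3 ≤ ed (ρ a) 3 := by
    intro v n₁ n₂
    obtain ⟨t, b, ht, hv⟩ := ep3 ρ hE v
    obtain ⟨v₁, m₁, v₂, m₂, rfl⟩ := Submodule.mem_sup.1 (htop ▸ Submodule.mem_top (x := v))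
    have := xbasea2_le hbal ha3 h1 (hcm t b ht) m₁ m₂ (fun h => n₂ (by rwa [h, zero_add]))
      (fun h => n₁ (by rwa [h, add_zero])) hv
    exact ⟨t, ⟨b, ht⟩, hv, by omega⟩
  rcases lt_or_ge (Nat.totient (Nat.card A)) 6 with h6 | h6
  · obtain ⟨h9, hφ⟩ := num8 _ Nat.card_pos h3A h6
    refine xbasea2_count ρ rfl h39.symm hV _ ((Nat.add_le_add_right (hc3 h9) 2).trans
      (num3 _ e I h3e he (Nat.le_of_dvd hd hed) hI)) fun v n₁ n₂ => ?_
    obtain ⟨t, ⟨b, ht⟩, h4⟩ := key v n₁ n₂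
    refine ⟨t, ⟨?_, b, ht⟩, h4⟩
    have := hS.nA
    have h5 : (3 ^ b).Coprime (Subgroup.centralizer (A : Set H)).index :=
      Nat.Coprime.pow_left b ((Nat.Prime.coprime_iff_not_dvd Nat.prime_three).2
        fun h => hφ (h.trans hidx))
    rw [← QuotientGroup.eq_one_iff, ← pow_one (t : H ⧸ Subgroup.centralizer (A : Set H)), ← h5,
      pow_gcd_eq_one]
    exact ⟨by rw [← QuotientGroup.mk_pow, ht]; rfl, pow_card_eq_one'⟩
  · have h4 := dim2 h13 ρ hirr.1 N m hNM hU A F hS.toPD hfree e hrel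
    refine xbasea2_count ρ rfl h39.symm hV (fun _ => True) ((Nat.add_le_add_right
      ((Finite.card_subtype_le _).trans hH) 2).trans
        (num4 (ed (ρ a) 3) e I _ h3e he h6 (by omega) hI)) fun v n₁ n₂ => ?_
    obtain ⟨t, -, h5⟩ := key v n₁ n₂
    exact ⟨t, trivial, h5⟩

end Pool.Agent.N9181
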