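import Pool.Agent.MP_9181f8_al.N.Dim
import Pool.Agent.MP_9181f8_al.N.Count
import Pool.Agent.MP_9181f8_al.N.NumB

namespace Pool.Agent.N9181

open scoped commutatorElement

theorem xbaseb_pow {H : Type} [Group H] (a : ℕ) :
    ∀ h : H, h ^ (3 ^ a) = 1 → h ≠ 1 → ∃ k : ℕ, h ^ k ≠ 1 ∧ (h ^ k) ^ 3 = 1 := by
  induction a with
  | zero =>
    intro h h1 h2
    exact absurd (by simpa using h1) h2
  | succ a ih =>
    intro h h1 h2
    by_cases h3 : h ^ 3 = 1
    · exact ⟨1, by simpa using h2, by simpa using h3⟩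
    · obtain ⟨k, hk1, hk2⟩ := ih (h ^ 3) (by rw [← pow_mul, ← pow_succ', h1]) h3
      exact ⟨3 * k, by rw [pow_mul]; exact hk1, by rw [pow_mul]; exact hk2⟩

theorem xbaseb_fix {V : Type} [AddCommGroup V] [Module K V] {H : Type} [Group H]
    (ρ : Representation K H V) (h : H) (v : V) (hv : ρ h v = v) (k : ℕ) : ρ (h ^ k) v = v := by
  induction k with
  | zero => simp
  | succ k ih => rw [pow_succ, map_mul, Module.End.mul_apply, hv, ih]

theorem xbaseb_eig {V : Type} [AddCommGroup V] [Module K V] (a b : Module.End K V)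
    (h : ∀ v, b v = (9 : K) • a v) (c d : K) (hd : d = 9 * c) : ed b d = ed a c := by
  have : b.eigenspace d = a.eigenspace c := by
    ext v
    rw [Module.End.mem_eigenspace_iff, Module.End.mem_eigenspace_iff, h, hd, mul_smul]
    constructor
    · intro h1
      have h9 : (9 : K) ≠ 0 := by decide
      exact smul_right_injective V h9 h1
    · intro h1
      rw [h1]
  unfold ed
  rw [this]

theorem xbaseb_dim {V : Type} [AddCommGroup V] [Module K V] [Module.Finite K V]
    {H : Type} [Group H] (ρ : Representation K H V) (hinj : Function.Injective ρ)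
    (hbal : HBal ρ) (hz : Scal ρ) (s : H) (h1 : s ≠ 1) (h3 : s ^ 3 = 1) (v : V) (hv : v ≠ 0)
    (hs : ρ s v = v) : Module.finrank K V = 3 * ed (ρ s) 1 := by
  obtain ⟨z, hz⟩ := hz
  have e1 := split3 (⊤ : Submodule K V) (ρ s) (fun _ _ => trivial) (fun w _ => by
    rw [← map_pow, h3, map_one, Module.End.one_apply])
  rw [edOn_top, edOn_top, edOn_top, finrank_top] at e1
  have e2 := hbal s v hv hs
  have e3 : 0 < ed (ρ s) 3 := by
    by_contra hc
    have e4 : ed (ρ s) 1 = Module.finrank K V := by omega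
    have e5 : Module.End.eigenspace (ρ s) 1 = ⊤ := Submodule.eq_top_of_finrank_eq e4
    apply h1
    apply hinj
    rw [map_one]
    ext w
    have : w ∈ Module.End.eigenspace (ρ s) 1 := by rw [e5]; trivial
    rw [Module.End.mem_eigenspace_iff, one_smul] at this
    exact this
  rw [← edOn_top, edOn_pos] at e3
  obtain ⟨w, -, hw0, hw⟩ := e3
  have h9 : ∀ u, ρ (s * z * z) u = (9 : K) • ρ s u := by
    intro u
    rw [map_mul, map_mul, Module.End.mul_apply, Module.End.mul_apply, hz, hz, map_smul, map_smul,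
      smul_smul]
    norm_num
  have e6 := hbal (s * z * z) w hw0 (by
    rw [h9, hw, smul_smul]
    have : (9 : K) * 3 = 1 := by decide
    rw [this, one_smul])
  rw [xbaseb_eig _ _ h9 9 3 (by decide), xbaseb_eig _ _ h9 1 9 (by decide)] at e6
  omega

theorem xbaseb_count {V : Type} [AddCommGroup V] [Module K V] [Module.Finite K V]
    {H : Type} [Group H] [Finite H] (ρ : Representation K H V) (hinj : Function.Injective ρ)
    (hbal : HBal ρ) (hz : Scal ρ)
    (hall : ∀ v : V, v ≠ 0 → ∃ s : H, s ≠ 1 ∧ s ^ 3 = 1 ∧ ρ s v = v) (X : Set H)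
    (hX : ∀ s : H, s ≠ 1 → s ^ 3 = 1 → (∃ v : V, v ≠ 0 ∧ ρ s v = v) → s ∈ X) :
    2 * (13 ^ Module.finrank K V - 1) ≤ X.ncard * (13 ^ (Module.finrank K V / 3) - 1) := by
  classical
  obtain ⟨hfin, hcard⟩ := card_sub (⊤ : Submodule K V)
  have := Fintype.ofFinite V
  have := Fintype.ofFinite H
  rw [finrank_top] at hcard
  have hV : Fintype.card V = 13 ^ Module.finrank K V := by
    rw [← hcard, ← Nat.card_eq_fintype_card]
    exact (Nat.card_congr Submodule.topEquiv.toEquiv).symm
  set Y : Finset H :=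
    Finset.univ.filter (fun s => s ≠ 1 ∧ s ^ 3 = 1 ∧ ∃ v : V, v ≠ 0 ∧ ρ s v = v) with hY
  have hYX : Y.card ≤ X.ncard := by
    rw [← Set.ncard_coe_finset]
    refine Set.ncard_le_ncard (fun s hs => ?_) (Set.toFinite _)
    have := (Finset.mem_filter.1 (Finset.mem_coe.1 hs)).2
    exact hX s this.1 this.2.1 this.2.2
  have key := Finset.card_mul_le_card_mul (fun (v : V) (s : H) => ρ s v = v)
    (s := Finset.univ.erase (0 : V)) (t := Y) (m := 2)
    (n := 13 ^ (Module.finrank K V / 3) - 1) (fun v hv => by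
      have hv0 : v ≠ 0 := Finset.ne_of_mem_erase hv
      obtain ⟨s, hs1, hs3, hsv⟩ := hall v hv0
      have hs2 : s ^ 2 ≠ 1 := fun h => hs1 (by rw [pow_succ, h, one_mul] at hs3; exact hs3)
      have hne : s ≠ s ^ 2 := fun h => hs1 (by
        rw [pow_two] at h
        exact (left_eq_mul.1 h))
      have hsv2 := xbaseb_fix ρ s v hsv 2
      rw [← Finset.card_pair hne]
      refine Finset.card_le_card (fun t ht => ?_)
      rw [Finset.mem_bipartiteAbove, hY, Finset.mem_filter]
      rcases Finset.mem_insert.1 ht with rfl | ht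
      · exact ⟨⟨Finset.mem_univ _, hs1, hs3, v, hv0, hsv⟩, hsv⟩
      · rw [Finset.mem_singleton.1 ht]
        refine ⟨⟨Finset.mem_univ _, hs2, ?_, v, hv0, hsv2⟩, hsv2⟩
        rw [← pow_mul, mul_comm, pow_mul, hs3, one_pow])
    (fun s hs => by
      obtain ⟨hs1, hs3, v, hv0, hsv⟩ := (Finset.mem_filter.1 hs).2
      have hd := xbaseb_dim ρ hinj hbal hz s hs1 hs3 v hv0 hsv
      have hc := (card_sub (Module.End.eigenspace (ρ s) 1)).2
      have hd' : Module.finrank K V / 3 = Module.finrank K (Module.End.eigenspace (ρ s) 1) := by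
        unfold ed at hd
        omega
      rw [hd', ← hc]
      have e1 : (Finset.univ.erase (0 : V)).bipartiteBelow (fun (v : V) (s : H) => ρ s v = v) s =
          (Finset.univ.filter (fun u : V => u ∈ Module.End.eigenspace (ρ s) 1)).erase 0 := by
        ext u
        simp only [Finset.mem_bipartiteBelow, Finset.mem_erase, Finset.mem_univ, and_true,
          Finset.mem_filter, true_and, Module.End.mem_eigenspace_iff, one_smul]
      rw [e1, Finset.card_erase_of_mem (by simp), Nat.card_eq_fintype_card,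
        Fintype.card_subtype])
  rw [Finset.card_erase_of_mem (Finset.mem_univ _), Finset.card_univ, hV, mul_comm] at key
  exact key.trans (Nat.mul_le_mul_right _ hYX)

theorem baseB {V : Type} [AddCommGroup V] [Module K V] [Module.Finite K V]
    {H : Type} [Group H] [Finite H] (h13 : ¬ 13 ∣ Nat.card H) (ρ : Representation K H V) (hinj : Function.Injective ρ) (hirr : Irr ρ) (A F : Subgroup H) (hS : SD A F)
    (hbal : HBal ρ) (N m : ℕ) (hNM : NM H N m) (hU : HU ρ N m) (hz : Scal ρ) : ∃ v, Reg ρ v := by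
  by_contra hno
  have hall : ∀ v : V, v ≠ 0 → ∃ s : H, s ≠ 1 ∧ s ^ 3 = 1 ∧ ρ s v = v := by
    intro v hv
    by_contra hc
    refine hno ⟨v, hv, fun h a h1 h2 => ?_⟩
    by_contra h3
    have h4 : h ^ (3 ^ a) = 1 := hinj (by rw [map_pow, h1, map_one])
    have h5 : h ≠ 1 := fun e => h3 (by rw [e, map_one])
    obtain ⟨k, hk1, hk2⟩ := xbaseb_pow a h h4 h5
    exact hc ⟨h ^ k, hk1, hk2, xbaseb_fix ρ h v h2 k⟩
  obtain ⟨v0, hv0⟩ := hirr.1
  obtain ⟨s0, hs1, hs3, hsv⟩ := hall v0 hv0
  have h3n : 3 ∣ Module.finrank K V :=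
    ⟨_, xbaseb_dim ρ hinj hbal hz s0 hs1 hs3 v0 hv0 hsv⟩
  have : Nontrivial V := ⟨⟨v0, 0, hv0⟩⟩
  have hn : 0 < Module.finrank K V := Module.finrank_pos
  have hfree := freeOn_of_irr ρ hinj hirr A hS.nA hS.cyc
  obtain ⟨e, I, M, he, hrel, hI, hM, hM3, hc1, -, hidx, -, hcH⟩ := sd_count A F hS
  by_cases hcase : ∀ s : H, s ≠ 1 → s ^ 3 = 1 → (∃ v : V, v ≠ 0 ∧ ρ s v = v) →
      s ∈ Subgroup.centralizer (A : Set H)
  · have h1 := xbaseb_count ρ hinj hbal hz hall
      {c : H | c ∈ Subgroup.centralizer (A : Set H) ∧ c ^ 3 = 1}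
      (fun s a b c => ⟨hcase s a b c, b⟩)
    have h2 := dim1 h13 ρ A F hS.toPD hfree ⊤ (fun _ _ _ _ => trivial) e hrel
    rw [finrank_top] at h2
    have h3 := num1 _ e I M hn h3n h2 hI hM hM3
    have h4 : {c : H | c ∈ Subgroup.centralizer (A : Set H) ∧ c ^ 3 = 1}.ncard ≤
        3 * e ^ 2 * M := hc1
    exact absurd (h1.trans (Nat.mul_le_mul_right _ h4)) (not_le.2 h3)
  · obtain ⟨s, hs⟩ := not_forall.1 hcase
    have hs3' : s ^ 3 = 1 := by
      by_contra hh
      exact hs (fun _ b => absurd b hh)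
    have hsC : s ∉ Subgroup.centralizer (A : Set H) := fun hh => hs (fun _ _ _ => hh)
    have := hS.nA
    have : Fact (Nat.Prime 3) := ⟨by norm_num⟩
    have hi3 : 3 ∣ (Subgroup.centralizer (A : Set H)).index := by
      have o1 : orderOf (QuotientGroup.mk s : H ⧸ Subgroup.centralizer (A : Set H)) = 3 := by
        refine orderOf_eq_prime ?_ ?_
        · rw [← QuotientGroup.mk_pow, hs3', QuotientGroup.mk_one]
        · intro hh
          exact hsC ((QuotientGroup.eq_one_iff s).1 hh)
      rw [← o1]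
      exact orderOf_dvd_natCard _
    obtain ⟨z, hzz⟩ := id hz
    have hzc : ∀ g : H, g * z = z * g := by
      intro g
      apply hinj
      ext u
      rw [map_mul, map_mul, Module.End.mul_apply, Module.End.mul_apply, hzz, hzz, map_smul]
    have hzF : z ∈ F := hS.ff z (fun g _ => hzc g) (fun y _ => by
      rw [commutatorElement_eq_one_iff_mul_comm.2 (hzc y).symm]
      exact A.one_mem)
    have hzA : z ∈ A := hS.nd z hzF (fun y _ => (hzc y).symm)
    have hz3 : z ^ 3 = 1 := by
      apply hinj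
      ext u
      rw [pow_succ, pow_two, map_mul, map_mul, Module.End.mul_apply, Module.End.mul_apply, hzz,
        hzz, hzz, smul_smul, smul_smul, map_one, Module.End.one_apply]
      have : (3 : K) * 3 * 3 = 1 := by decide
      rw [this, one_smul]
    have hz1 : z ≠ 1 := by
      intro hh
      have h1 := hzz v0
      rw [hh, map_one, Module.End.one_apply] at h1
      have h2 : ((3 : K) - 1) • v0 = 0 := by rw [sub_smul, one_smul, ← h1, sub_self]
      rcases smul_eq_zero.1 h2 with h | h
      · exact absurd h (by decide)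
      · exact hv0 h
    have hA3 : 3 ∣ Nat.card A := by
      rw [← orderOf_eq_prime hz3 hz1]
      exact Subgroup.orderOf_dvd_natCard A hzA
    have h6 : 6 ≤ Nat.totient (Nat.card A) := by
      by_contra hh
      exact (num8 _ Nat.card_pos hA3 (not_le.1 hh)).2 (hi3.trans hidx)
    have h1 := xbaseb_count ρ hinj hbal hz hall Set.univ (fun _ _ _ _ => trivial)
    rw [Set.ncard_univ] at h1
    have h2 := num2 _ e I _ h3n h6 he
      (dim2 h13 ρ hirr.1 N m hNM hU A F hS.toPD hfree e hrel) hI
    exact absurd (h1.trans (Nat.mul_le_mul_right _ hcH)) (not_le.2 h2)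

end Pool.Agent.N9181
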