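import Pool.Agent.MP_9181f8_al.N.Defs

namespace Pool.Agent.N9181

open scoped commutatorElement

theorem exists_j (r N j0 : ℕ) (hr : r ∣ N) (hN : 0 < N) (hj : j0.Coprime r) :
    ∃ j : ℕ, j.Coprime N ∧ j ≡ j0 [MOD r] := by
  have : NeZero N := ⟨hN.ne'⟩
  obtain ⟨u, hu⟩ := ZMod.unitsMap_surjective hr (ZMod.unitOfCoprime j0 hj)
  refine ⟨(u : ZMod N).val, ZMod.val_coe_unit_coprime u, ?_⟩
  rw [← ZMod.natCast_eq_natCast_iff]
  have := congrArg (fun x : (ZMod r)ˣ => (x : ZMod r)) hu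
  simp only [ZMod.unitsMap_val, ZMod.coe_unitOfCoprime] at this
  rw [← this, ZMod.natCast_val]

theorem xbasic_exp (p n : ℕ) (hp : p.Prime) (hn : n ≠ 0) :
    ∃ e a n' : ℕ, n = p ^ a * n' ∧ ¬ p ∣ n' ∧ e ≡ 1 [MOD p ^ a] ∧ n' ∣ e ∧
      ∃ e' : ℕ, e' ≡ 1 [MOD n'] ∧ p ^ a ∣ e' := by
  obtain ⟨a, n', hn', h⟩ := Nat.exists_eq_pow_mul_and_not_dvd hn p hp.ne_one
  have hc : (p ^ a).Coprime n' := Nat.Coprime.pow_left a ((Nat.Prime.coprime_iff_not_dvd hp).2 hn')
  obtain ⟨e, he1, he2⟩ := Nat.chineseRemainder hc 1 0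
  obtain ⟨e', he1', he2'⟩ := Nat.chineseRemainder hc 0 1
  exact ⟨e, a, n', h, hn', he1, (Nat.modEq_zero_iff_dvd).1 he2, e', he2',
    (Nat.modEq_zero_iff_dvd).1 he1'⟩

theorem xbasic_pow {T : Type} [Monoid T] (x : T) (d e : ℕ) (hd : x ^ d = 1) (he : e ≡ 1 [MOD d]) :
    x ^ e = x := by
  rw [pow_eq_pow_of_modEq he hd, pow_one]

theorem p_part {G : Type} [Group G] [Finite G] (p : ℕ) (hp : p.Prime) (g : G) :
    ∃ e a : ℕ, (g ^ e) ^ (p ^ a) = 1 ∧ (∀ b : ℕ, p ^ b ∣ Nat.card G → e ≡ 1 [MOD p ^ b]) ∧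
      ∀ (T : Type) [Monoid T] (f : G →* T) (b : ℕ), (f g) ^ (p ^ b) = 1 → f (g ^ e) = f g := by
  obtain ⟨e, a, n', h, hn', he, hd, -⟩ := xbasic_exp p (Nat.card G) hp Nat.card_pos.ne'
  have key : ∀ b : ℕ, p ^ b ∣ Nat.card G → e ≡ 1 [MOD p ^ b] := by
    intro b hb
    rw [h] at hb
    exact he.of_dvd (Nat.Coprime.dvd_of_dvd_mul_right
      (Nat.Coprime.pow_left b ((Nat.Prime.coprime_iff_not_dvd hp).2 hn')) hb)
  refine ⟨e, a, ?_, key, ?_⟩
  · obtain ⟨k, rfl⟩ := hd
    rw [← pow_mul, show n' * k * p ^ a = (p ^ a * n') * k by ring, ← h, pow_mul, pow_card_eq_one',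
      one_pow]
  · intro T _ f b hb
    have h1 : (f g) ^ (Nat.card G) = 1 := by rw [← map_pow, pow_card_eq_one', map_one]
    have h2 := pow_gcd_eq_one.2 ⟨hb, h1⟩
    obtain ⟨c, -, hc⟩ := (Nat.dvd_prime_pow hp).1 (Nat.gcd_dvd_left (p ^ b) (Nat.card G))
    rw [map_pow]
    refine xbasic_pow _ _ _ h2 ?_
    have := Nat.gcd_dvd_right (p ^ b) (Nat.card G)
    rw [hc] at this ⊢
    exact key c this

theorem q_part {G : Type} [Group G] [Finite G] (p : ℕ) (hp : p.Prime) (g : G) :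
    ∃ e : ℕ, ¬ p ∣ orderOf (g ^ e) ∧ (∀ d : ℕ, d ∣ Nat.card G → ¬ p ∣ d → e ≡ 1 [MOD d]) ∧
      (∀ (T : Type) [Monoid T] (f : G →* T) (d : ℕ), ¬ p ∣ d → (f g) ^ d = 1 → f (g ^ e) = f g) ∧
      ∃ u : G, (∃ a : ℕ, u ^ (p ^ a) = 1) ∧ g = g ^ e * u ∧ ∃ k : ℕ, u = g ^ k := by
  obtain ⟨e0, a, n', h, hn', he0, hd0, e, he, hd⟩ :=
    xbasic_exp p (Nat.card G) hp Nat.card_pos.ne'
  have key : ∀ d : ℕ, d ∣ Nat.card G → ¬ p ∣ d → e ≡ 1 [MOD d] := by
    intro d hd hpd
    rw [h] at hd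
    exact he.of_dvd (Nat.Coprime.dvd_of_dvd_mul_left
      (Nat.Coprime.pow_right a ((Nat.Prime.coprime_iff_not_dvd hp).2 hpd).symm) hd)
  refine ⟨e, ?_, key, ?_, g ^ e0, ⟨a, ?_⟩, ?_, e0, rfl⟩
  · intro hh
    apply hn'
    refine hh.trans (orderOf_dvd_of_pow_eq_one ?_)
    obtain ⟨k, rfl⟩ := hd
    rw [← pow_mul, show p ^ a * k * n' = (p ^ a * n') * k by ring, ← h, pow_mul, pow_card_eq_one',
      one_pow]
  · intro T _ f d hpd hb
    have h1 : (f g) ^ (Nat.card G) = 1 := by rw [← map_pow, pow_card_eq_one', map_one]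
    have h2 := pow_gcd_eq_one.2 ⟨hb, h1⟩
    rw [map_pow]
    exact xbasic_pow _ _ _ h2 (key _ (Nat.gcd_dvd_right _ _)
      fun hh => hpd (hh.trans (Nat.gcd_dvd_left _ _)))
  · obtain ⟨k, rfl⟩ := hd0
    rw [← pow_mul, show n' * k * p ^ a = (p ^ a * n') * k by ring, ← h, pow_mul, pow_card_eq_one',
      one_pow]
  · rw [← pow_add]
    refine (xbasic_pow g (Nat.card G) _ pow_card_eq_one' ?_).symm
    rw [h]
    refine (Nat.modEq_and_modEq_iff_modEq_mul
      (Nat.Coprime.pow_left a ((Nat.Prime.coprime_iff_not_dvd hp).2 hn'))).1 ⟨?_, ?_⟩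
    · simpa using ((Nat.modEq_zero_iff_dvd).2 hd).add he0
    · simpa using he.add ((Nat.modEq_zero_iff_dvd).2 hd0)

theorem exists_faithful {V : Type} [AddCommGroup V] [Module K V] [Module.Finite K V]
    {H : Type} [Group H] [Finite H] (ρ : Representation K H V) :
    ∃ (H' : Type) (_ : Group H') (_ : Finite H') (π : H →* H') (ρ' : Representation K H' V),
      Function.Surjective π ∧ Function.Injective ρ' ∧ (∀ h, ρ' (π h) = ρ h) ∧
      Nat.card H' ∣ Nat.card H ∧
      ((∀ (h : H) (a : ℕ), h ^ (13 ^ a) = 1 → ρ h = 1) → ¬ 13 ∣ Nat.card H') := by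
  have hinj : Function.Injective (QuotientGroup.lift (MonoidHom.ker ρ) ρ le_rfl) := by
    rw [injective_iff_map_eq_one]
    intro x hx
    obtain ⟨g, rfl⟩ := QuotientGroup.mk_surjective x
    exact (QuotientGroup.eq_one_iff _).2 hx
  refine ⟨H ⧸ MonoidHom.ker ρ, inferInstance, inferInstance, QuotientGroup.mk' _,
    QuotientGroup.lift (MonoidHom.ker ρ) ρ le_rfl, QuotientGroup.mk'_surjective _, hinj,
    fun h => rfl, Subgroup.card_quotient_dvd_card _, ?_⟩
  intro h13 hd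
  obtain ⟨x, hx⟩ := exists_prime_orderOf_dvd_card' 13 hd
  obtain ⟨g, rfl⟩ := QuotientGroup.mk'_surjective _ x
  obtain ⟨e, a, h1, -, h3⟩ := p_part 13 (by norm_num) g
  have h4 := h3 _ (QuotientGroup.mk' (MonoidHom.ker ρ)) 1
    (by rw [pow_one]; exact orderOf_dvd_iff_pow_eq_one.1 hx.dvd)
  have h5 : QuotientGroup.mk' (MonoidHom.ker ρ) (g ^ e) = 1 :=
    (QuotientGroup.eq_one_iff _).2 (h13 _ a h1)
  rw [← h4, h5, orderOf_one] at hx
  omega

theorem exists_res {V : Type} [AddCommGroup V] [Module K V] [Module.Finite K V]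
    {H : Type} [Group H] (ρ : Representation K H V) (H1 : Subgroup H) (W : Submodule K V)
    (hW : ∀ h ∈ H1, ∀ w ∈ W, ρ h w ∈ W) :
    ∃ σ : Representation K H1 W, ∀ (h : H1) (w : W), (σ h w : V) = ρ h w :=
  ⟨Representation.subrepresentation (ρ.comp H1.subtype) W (fun g w hw => hW g g.2 w hw),
    fun _ _ => rfl⟩

theorem ed_res {V : Type} [AddCommGroup V] [Module K V] [Module.Finite K V]
    (W : Submodule K V) (a : Module.End K V) (s : Module.End K W)
    (hs : ∀ w : W, (s w : V) = a w) (c : K) : ed s c = edOn W a c := by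
  unfold ed edOn
  rw [← Submodule.finrank_map_subtype_eq]
  suffices h : Submodule.map W.subtype (s.eigenspace c) = W ⊓ a.eigenspace c by rw [h]
  ext v
  simp only [Submodule.mem_map, Module.End.mem_eigenspace_iff, Submodule.mem_inf,
    Submodule.subtype_apply]
  constructor
  · rintro ⟨w, hw, rfl⟩
    exact ⟨w.2, by rw [← hs, hw]; rfl⟩
  · rintro ⟨h1, h2⟩
    exact ⟨⟨v, h1⟩, Subtype.ext (by rw [hs]; exact h2), rfl⟩

theorem edOn_top {V : Type} [AddCommGroup V] [Module K V] [Module.Finite K V]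
    (a : Module.End K V) (c : K) : edOn ⊤ a c = ed a c := by
  unfold edOn ed
  rw [top_inf_eq]

theorem xbasic_sum {V : Type} [AddCommGroup V] [Module K V] [Module.Finite K V]
    (W : Submodule K V) (a : Module.End K V) :
    Module.finrank K ((W ⊓ a.eigenspace 1) ⊔ (W ⊓ a.eigenspace 3) ⊔ (W ⊓ a.eigenspace 9) :
      Submodule K V) = edOn W a 1 + edOn W a 3 + edOn W a 9 := by
  have h1 : (W ⊓ a.eigenspace 1) ⊓ (W ⊓ a.eigenspace 3) = ⊥ := by
    rw [eq_bot_iff]
    rintro v ⟨⟨-, h1⟩, -, h3⟩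
    have h1 := Module.End.mem_eigenspace_iff.1 h1
    have h3 := Module.End.mem_eigenspace_iff.1 h3
    have : ((1 : K) - 3) • v = 0 := by rw [sub_smul, ← h1, ← h3, sub_self]
    exact (smul_eq_zero.1 this).resolve_left (by decide)
  have h2 : ((W ⊓ a.eigenspace 1) ⊔ (W ⊓ a.eigenspace 3)) ⊓ (W ⊓ a.eigenspace 9) = ⊥ := by
    rw [eq_bot_iff]
    rintro v ⟨hv, -, h9⟩
    obtain ⟨x, ⟨-, h1⟩, y, ⟨-, h3⟩, rfl⟩ := Submodule.mem_sup.1 hv
    have h1 := Module.End.mem_eigenspace_iff.1 h1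
    have h3 := Module.End.mem_eigenspace_iff.1 h3
    have h9 := Module.End.mem_eigenspace_iff.1 h9
    have e1 : (1 : K) • x + (3 : K) • y = (9 : K) • (x + y) := by rw [← h1, ← h3, ← map_add, h9]
    have e2 : (1 : K) • x + (9 : K) • y = (81 : K) • (x + y) := by
      have := congrArg a e1
      rw [map_add, map_smul, map_smul, map_smul, h1, h3, h9, smul_smul, smul_smul,
        smul_smul] at this
      norm_num at this ⊢
      exact this
    have e3 : (48 : K) • (x + y) = 0 := by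
      linear_combination (norm := module) (4 : K) • e1 - (1 : K) • e2
    exact (smul_eq_zero.1 e3).resolve_left (by decide)
  have a1 := Submodule.finrank_sup_add_finrank_inf_eq (W ⊓ a.eigenspace 1) (W ⊓ a.eigenspace 3)
  have a2 := Submodule.finrank_sup_add_finrank_inf_eq
    ((W ⊓ a.eigenspace 1) ⊔ (W ⊓ a.eigenspace 3)) (W ⊓ a.eigenspace 9)
  rw [h1, finrank_bot] at a1
  rw [h2, finrank_bot] at a2
  unfold edOn
  omega

theorem edOn_le {V : Type} [AddCommGroup V] [Module K V] [Module.Finite K V]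
    (W : Submodule K V) (a : Module.End K V) :
    edOn W a 1 + edOn W a 3 + edOn W a 9 ≤ Module.finrank K W := by
  rw [← xbasic_sum]
  exact Submodule.finrank_mono (sup_le (sup_le inf_le_left inf_le_left) inf_le_left)

theorem split3 {V : Type} [AddCommGroup V] [Module K V] [Module.Finite K V]
    (W : Submodule K V) (a : Module.End K V) (hW : ∀ w ∈ W, a w ∈ W)
    (h3 : ∀ w ∈ W, (a ^ 3) w = w) :
    Module.finrank K W = edOn W a 1 + edOn W a 3 + edOn W a 9 := by
  refine le_antisymm ?_ (edOn_le W a)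
  rw [← xbasic_sum]
  refine Submodule.finrank_mono fun w hw => ?_
  have h3' : a (a (a w)) = w := h3 w hw
  have key : ∀ c : K, c ^ 3 = 1 →
      w + (c ^ 2) • a w + c • a (a w) ∈ W ⊓ a.eigenspace c := by
    intro c hc
    refine ⟨W.add_mem (W.add_mem hw (W.smul_mem _ (hW _ hw))) (W.smul_mem _ (hW _ (hW _ hw))),
      Module.End.mem_eigenspace_iff.2 ?_⟩
    rw [map_add, map_add, map_smul, map_smul, h3', smul_add, smul_add, smul_smul, smul_smul,
      show c * c ^ 2 = 1 by rw [← hc]; ring, one_smul, ← pow_two]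
    abel
  have e : w = (9 : K) • ((w + ((1 : K) ^ 2) • a w + (1 : K) • a (a w)) +
      (w + ((3 : K) ^ 2) • a w + (3 : K) • a (a w)) +
      (w + ((9 : K) ^ 2) • a w + (9 : K) • a (a w))) := by
    have z : (13 : K) = 0 := by decide
    linear_combination (norm := module)
      (-z) • ((2 : K) • w + (63 : K) • a w + (9 : K) • a (a w))
  rw [e]
  exact Submodule.smul_mem _ _ (Submodule.add_mem_sup (Submodule.add_mem_sup (key 1 (by decide))
    (key 3 (by decide))) (key 9 (by decide)))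

theorem edOn_pos {V : Type} [AddCommGroup V] [Module K V] [Module.Finite K V]
    (W : Submodule K V) (a : Module.End K V) (c : K) :
    0 < edOn W a c ↔ ∃ w ∈ W, w ≠ 0 ∧ a w = c • w := by
  unfold edOn
  rw [pos_iff_ne_zero, Ne, Submodule.finrank_eq_zero, ← Ne, Submodule.ne_bot_iff]
  constructor
  · rintro ⟨w, ⟨h1, h2⟩, h3⟩
    exact ⟨w, h1, h3, Module.End.mem_eigenspace_iff.1 h2⟩
  · rintro ⟨w, h1, h3, h2⟩
    exact ⟨w, ⟨h1, Module.End.mem_eigenspace_iff.2 h2⟩, h3⟩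

theorem card_sub {V : Type} [AddCommGroup V] [Module K V] [Module.Finite K V]
    (W : Submodule K V) : Finite V ∧ Nat.card W = 13 ^ Module.finrank K W := by
  refine ⟨Module.finite_of_finite K, ?_⟩
  rw [Module.natCard_eq_pow_finrank (K := K), Nat.card_zmod]

theorem ep3 {V : Type} [AddCommGroup V] [Module K V] [Module.Finite K V]
    {H : Type} [Group H] [Finite H] (ρ : Representation K H V) (hE : HEP ρ 3) (v : V) :
    ∃ (t : H) (a : ℕ), t ^ (3 ^ a) = 1 ∧ ρ t v = (3 : K) • v := by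
  by_cases hv : v = 0
  · exact ⟨1, 0, by simp, by simp [hv]⟩
  obtain ⟨h, hh⟩ := hE v
  have hk : ∀ k : ℕ, ρ (h ^ k) v = (3 : K) ^ k • v := by
    intro k
    induction k with
    | zero => simp
    | succ k ih => rw [pow_succ', map_mul, Module.End.mul_apply, ih, map_smul, hh, smul_smul, pow_succ]
  have h3 : 3 ^ 1 ∣ Nat.card H := by
    have := hk (Nat.card H)
    rw [pow_card_eq_one', map_one, Module.End.one_apply] at this
    have h1 : ((3 : K) ^ Nat.card H - 1) • v = 0 := by rw [sub_smul, ← this, one_smul, sub_self]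
    have h2 := sub_eq_zero.1 ((smul_eq_zero.1 h1).resolve_right hv)
    have h4 : orderOf (3 : K) = 3 := orderOf_eq_prime (by decide) (by decide)
    rw [pow_one, ← h4]
    exact orderOf_dvd_of_pow_eq_one h2
  obtain ⟨e, a, h1, h2, -⟩ := p_part 3 (by norm_num) h
  refine ⟨h ^ e, a, h1, ?_⟩
  rw [hk, xbasic_pow (3 : K) 3 e (by decide) (by simpa using h2 1 h3)]

theorem fix_of_pgroup {V : Type} [AddCommGroup V] [Module K V] [Module.Finite K V]
    {H : Type} [Group H] [Finite H] (ρ : Representation K H V) (S : Subgroup H)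
    (hS : IsPGroup 13 S) (hV : ∃ v : V, v ≠ 0) :
    ∃ v : V, v ≠ 0 ∧ ∀ s ∈ S, ρ s v = v := by
  have hfin : Finite V := Module.finite_of_finite K
  let _ : MulAction S V :=
    { smul := fun s v => ρ s v
      one_smul := fun v => by show ρ ((1 : S) : H) v = v; simp
      mul_smul := fun s t v => by show ρ ((s * t : S) : H) v = ρ s (ρ t v); simp }
  have hd : 13 ∣ Nat.card V := by
    rw [Module.natCard_eq_pow_finrank (K := K), Nat.card_zmod]
    obtain ⟨v, hv⟩ := hV
    have : Nontrivial V := ⟨v, 0, hv⟩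
    exact dvd_pow_self 13 Module.finrank_pos.ne'
  obtain ⟨b, hb, hne⟩ := hS.exists_fixed_point_of_prime_dvd_card_of_fixed_point V hd
    (a := 0) (fun s => show ρ s 0 = 0 from map_zero _)
  exact ⟨b, hne.symm, fun s hs => hb ⟨s, hs⟩⟩

theorem freeOn_of_irr {V : Type} [AddCommGroup V] [Module K V] [Module.Finite K V]
    {H : Type} [Group H] [Finite H] (ρ : Representation K H V) (hinj : Function.Injective ρ)
    (hirr : Irr ρ) (A : Subgroup H)
    (hA : A.Normal) (hc : IsCyclic A) : FreeOn ρ A := by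
  intro a ha v hv hav
  obtain ⟨g, hg⟩ := IsCyclic.exists_monoid_generator (α := A)
  have key : ∀ h : H, ∃ k : ℕ, h * a * h⁻¹ = a ^ k := by
    intro h
    obtain ⟨i, hi⟩ := hg ⟨a, ha⟩
    obtain ⟨k, hk⟩ := hg ⟨h * g * h⁻¹, hA.conj_mem _ g.2 h⟩
    have hi : (g : H) ^ i = a := congrArg Subtype.val hi
    have hk : (g : H) ^ k = h * g * h⁻¹ := congrArg Subtype.val hk
    exact ⟨k, by rw [← hi, ← conj_pow, ← hk, ← pow_mul, ← pow_mul, mul_comm]⟩
  rcases hirr.2 (LinearMap.ker (ρ a - 1)) (fun h w hw => by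
    obtain ⟨k, hk⟩ := key h⁻¹
    have hw : ρ a w = w := sub_eq_zero.1 hw
    have h1 : ρ (a ^ k) w = w := by
      rw [map_pow, Module.End.pow_apply]; exact Function.iterate_fixed hw k
    refine sub_eq_zero.2 ?_
    show ρ a (ρ h w) = ρ h w
    rw [← Module.End.mul_apply, ← map_mul, show a * h = h * a ^ k by rw [← hk]; group, map_mul,
      Module.End.mul_apply, h1]) with h | h
  · have hm : v ∈ LinearMap.ker (ρ a - 1) := sub_eq_zero.2 hav
    rw [h] at hm
    exact absurd hm hv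
  · exact hinj (by rw [map_one]; exact sub_eq_zero.1 (LinearMap.ker_eq_top.1 h))

theorem cop_of_card {V : Type} [AddCommGroup V] [Module K V] [Module.Finite K V]
    {H : Type} [Group H] [Finite H] (ρ : Representation K H V) (h13 : ¬ 13 ∣ Nat.card H) :
    Cop ρ := fun h => ⟨Nat.card H, h13, by rw [← map_pow, pow_card_eq_one', map_one]⟩

theorem xbasic_chF (p : ℕ) (hp : 2 ≤ p) : ∀ f g u : ℕ, u ≤ f → u ≤ g → chF p f u = chF p g u
  | 0, 0, _, _, _ => rfl
  | 0, g + 1, u, h, _ => by simp [chF, show u ≤ 1 by omega]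
  | f + 1, 0, u, _, h => by simp [chF, show u ≤ 1 by omega]
  | f + 1, g + 1, u, h1, h2 => by
    simp only [chF]
    split_ifs with h
    · rfl
    · have : u / p < u := Nat.div_lt_self (by omega) (by omega)
      rw [xbasic_chF p hp f g (u / p) (by omega) (by omega)]

theorem ch_eq (p : ℕ) (hp : 2 ≤ p) (u : ℕ) :
    ch p u = if u ≤ 1 then 1 else u * ch p (u / p) := by
  unfold ch
  cases u with
  | zero => rfl
  | succ u =>
    simp only [chF]
    split_ifs with h
    · rfl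
    · have : (u + 1) / p < u + 1 := Nat.div_lt_self (by omega) (by omega)
      rw [xbasic_chF p hp u _ ((u + 1) / p) (by omega) le_rfl]

theorem ch_mono (p : ℕ) (hp : 2 ≤ p) (u v : ℕ) (h : u ≤ v) : ch p u ≤ ch p v := by
  induction v using Nat.strong_induction_on generalizing u with
  | _ v ih =>
    rw [ch_eq p hp u, ch_eq p hp v]
    by_cases hv : v ≤ 1
    · rw [if_pos hv, if_pos (h.trans hv)]
    have hlt : v / p < v := Nat.div_lt_self (by omega) (by omega)
    rw [if_neg hv]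
    split_ifs with hu
    · have := ih _ hlt 0 (Nat.zero_le _)
      rw [ch_eq p hp 0, if_pos (by omega)] at this
      exact Nat.one_le_iff_ne_zero.2 (Nat.mul_ne_zero (by omega) (by omega))
    · exact Nat.mul_le_mul h (ih _ hlt _ (Nat.div_le_div_right h))

theorem exists_compl {L : Type} [Field L] {M : Type} [AddCommGroup M] [Module L M]
    {H : Type} [Group H] [Finite H] (hc : (Nat.card H : L) ≠ 0) (ρ : Representation L H M)
    (W : Submodule L M) (hW : ∀ h, ∀ w ∈ W, ρ h w ∈ W) :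
    ∃ W' : Submodule L M, (∀ h, ∀ w ∈ W', ρ h w ∈ W') ∧ IsCompl W W' := by
  have := Fintype.ofFinite H
  obtain ⟨p, hp⟩ := LinearMap.exists_leftInverse_of_injective W.subtype W.ker_subtype
  let q : M →ₗ[L] M :=
    (Nat.card H : L)⁻¹ • ∑ h : H, (ρ h) ∘ₗ W.subtype ∘ₗ p ∘ₗ (ρ h⁻¹)
  have hq : ∀ v, q v = (Nat.card H : L)⁻¹ • ∑ h : H, ρ h (p (ρ h⁻¹ v)) := fun v => by
    simp [q, LinearMap.sum_apply]
  have h1 : ∀ v, q v ∈ W := fun v => by
    rw [hq]
    exact W.smul_mem _ (W.sum_mem fun h _ => hW _ _ (p _).2)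
  have h2 : ∀ w ∈ W, q w = w := fun w hw => by
    have : ∀ h : H, ρ h (p (ρ h⁻¹ w)) = w := fun h => by
      have := LinearMap.congr_fun hp ⟨ρ h⁻¹ w, hW _ _ hw⟩
      simp only [LinearMap.comp_apply, Submodule.subtype_apply, LinearMap.id_apply] at this
      rw [this, ← Module.End.mul_apply, ← map_mul, mul_inv_cancel, map_one, Module.End.one_apply]
    rw [hq, Finset.sum_congr rfl fun h _ => this h, Finset.sum_const, Finset.card_univ,
      ← Nat.card_eq_fintype_card, ← Nat.cast_smul_eq_nsmul L, smul_smul, inv_mul_cancel₀ hc,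
      one_smul]
  have h3 : ∀ g v, q (ρ g v) = ρ g (q v) := fun g v => by
    rw [hq, hq, map_smul, map_sum]
    congr 1
    refine (Fintype.sum_equiv (Equiv.mulLeft g) _ _ fun h => ?_).symm
    simp only [Equiv.coe_mulLeft, map_mul, Module.End.mul_apply, mul_inv_rev]
    rw [← Module.End.mul_apply (ρ g⁻¹), ← map_mul, inv_mul_cancel, map_one, Module.End.one_apply]
  refine ⟨LinearMap.ker (q.codRestrict W h1), fun h w hw => ?_,
    LinearMap.isCompl_of_proj fun w => Subtype.ext (h2 w w.2)⟩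
  rw [LinearMap.ker_codRestrict, LinearMap.mem_ker] at hw ⊢
  rw [h3, hw, map_zero]

end Pool.Agent.N9181
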