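import Pool.Agent.MP_9181f8_al.N.Ind

namespace Pool.Agent.N9181

open scoped commutatorElement

section

variable {V : Type} [AddCommGroup V] [Module K V] {H : Type} [Group H]

theorem xblocks_ind {I : Type} (W : I → Submodule K V)
    (h : ∀ i j, i ≠ j → ∃ f : Module.End K V, (∀ k, ∀ w ∈ W k, f w ∈ W k) ∧ (∀ w ∈ W j, f w = 0) ∧
      ∀ w ∈ W i, f w = 0 → w = 0) : iSupIndep W := by
  classical
  rw [iSupIndep_iff_finsetSum_eq_zero_imp_eq_zero]
  intro s
  induction s using Finset.induction_on with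
  | empty => intro v _ _ i hi; exact absurd hi (Finset.notMem_empty i)
  | insert j s hj ih =>
    intro v hv h0
    rw [Finset.sum_insert hj] at h0
    have h1 : ∀ i ∈ s, v i = 0 := fun i hi => by
      obtain ⟨f, f1, f2, f3⟩ := h i j fun e => hj (e ▸ hi)
      refine f3 _ (hv i (Finset.mem_insert_of_mem hi)) (ih (fun k => f (v k))
        (fun k hk => f1 k _ (hv k (Finset.mem_insert_of_mem hk))) ?_ i hi)
      have h2 := congrArg f h0
      rwa [map_add, f2 _ (hv j (Finset.mem_insert_self j s)), zero_add, map_sum, map_zero] at h2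
    intro i hi
    rcases Finset.mem_insert.1 hi with rfl | hi
    · rwa [Finset.sum_eq_zero h1, add_zero] at h0
    · exact h1 i hi

theorem xblocks_top {ρ : Representation K H V} (hirr : Irr ρ) {I : Type} (W : I → Submodule K V)
    (h : ∀ g i, ∃ j, ∀ w ∈ W i, ρ g w ∈ W j) {i : I} (hi : W i ≠ ⊥) : iSup W = ⊤ := by
  refine (hirr.2 _ fun g => ?_).resolve_left fun e => hi (le_bot_iff.1 (e ▸ le_iSup W i))
  refine (iSup_le fun k w hw => ?_ : iSup W ≤ (iSup W).comap (ρ g))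
  obtain ⟨j, hj⟩ := h g k
  exact le_iSup W j (hj w hw)

theorem xblocks_irr {ρ : Representation K H V} (hirr : Irr ρ) {I : Type} [MulAction H I]
    {W : I → Submodule K V} (h : BD ρ I W) (i : I) (W' : Submodule K V) (h1 : W' ≤ W i)
    (h2 : ∀ g : H, g • i = i → ∀ w ∈ W', ρ g w ∈ W') : W' = ⊥ ∨ W' = W i := by
  refine (em _).imp_right fun h0 => eq_of_le_of_inf_le_of_le_sup h1
    ((iSupIndep_def.1 h.ind i).le_bot.trans bot_le) (le_top.trans ?_)
  rw [← xblocks_top hirr (fun g => W'.map (ρ g)) (i := 1) (fun g g' => ⟨g * g', ?_⟩)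
    (by rwa [map_one, Module.End.one_eq_id, Submodule.map_id])]
  · refine iSup_le fun g => ?_
    rintro _ ⟨w, hw, rfl⟩
    by_cases e : g • i = i
    · exact Submodule.mem_sup_left (h2 g e w hw)
    · exact Submodule.mem_sup_right (le_iSup₂_of_le (f := fun j (_ : j ≠ i) => W j) _ e le_rfl
        (h.map g i w (h1 hw)))
  · rintro _ ⟨w, hw, rfl⟩
    exact ⟨w, hw, by rw [map_mul, Module.End.mul_apply]⟩

/-- the fixed space -/
noncomputable def xblocksW (ρ : Representation K H V) (J : Subgroup H) : Submodule K V :=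
  Representation.invariants (ρ.comp J.subtype)

theorem xblocks_mem {ρ : Representation K H V} {J : Subgroup H} {v : V} :
    v ∈ xblocksW ρ J ↔ ∀ y ∈ J, ρ y v = v :=
  Subtype.forall

open Pointwise in
/-- conjugation of subgroups -/
abbrev xblocksA (H : Type) [Group H] : MulAction H (Subgroup H) :=
  MulAction.compHom _ (MulAut.conj (G := H))

theorem xblocks_conj {h y : H} {J : Subgroup H} :
    y ∈ (xblocksA H).smul h J ↔ h⁻¹ * y * h ∈ J :=
  Subgroup.mem_pointwise_smul_iff_inv_smul_mem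

theorem xblocks_map {ρ : Representation K H V} (h : H) {J : Subgroup H} {w : V}
    (hw : w ∈ xblocksW ρ J) : ρ h w ∈ xblocksW ρ ((xblocksA H).smul h J) :=
  xblocks_mem.2 fun y hy => by
    have h1 := congrArg (ρ h) (xblocks_mem.1 hw _ (xblocks_conj.1 hy))
    rwa [← Module.End.mul_apply, ← map_mul, mul_assoc, mul_inv_cancel_left, map_mul] at h1

theorem xblocks_max [Finite H] {ρ : Representation K H V} (hirr : Irr ρ) (B : Subgroup H) :
    ∃ J ≤ B, xblocksW ρ J ≠ ⊥ ∧ ∀ y ∈ B, ∀ v ∈ xblocksW ρ J, v ≠ 0 → ρ y v = v → y ∈ J := by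
  obtain ⟨v₀, hv₀⟩ := hirr.1
  obtain ⟨J, ⟨h1, h2⟩, h3⟩ := (Set.toFinite {J | J ≤ B ∧ xblocksW ρ J ≠ ⊥}).exists_maximal
    ⟨⊥, bot_le, (Submodule.ne_bot_iff _).2 ⟨v₀, xblocks_mem.2 fun y hy => by
      rw [Subgroup.mem_bot.1 hy, map_one, Module.End.one_apply], hv₀⟩⟩
  refine ⟨J, h1, h2, fun y hy v hv h0 e => ?_⟩
  let S : Subgroup H :=
    { carrier := {y | ρ y v = v}
      one_mem' := by simp
      mul_mem' := fun {a b} (ha : ρ a v = v) (hb : ρ b v = v) => show ρ (a * b) v = v by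
        rw [map_mul, Module.End.mul_apply, hb, ha]
      inv_mem' := fun {a} (ha : ρ a v = v) => show ρ a⁻¹ v = v by
        conv_lhs => rw [← ha, ← Module.End.mul_apply, ← map_mul, inv_mul_cancel, map_one,
          Module.End.one_apply] }
  exact h3 (y := B ⊓ S) ⟨inf_le_left, (Submodule.ne_bot_iff _).2
    ⟨v, xblocks_mem.2 fun _ hz => hz.2, h0⟩⟩ (le_inf h1 (xblocks_mem.1 hv)) ⟨hy, e⟩

end

theorem blocks {V : Type} [AddCommGroup V] [Module K V] [Module.Finite K V]
    {H : Type} [Group H] [Finite H] (ρ : Representation K H V) (hinj : Function.Injective ρ) (hirr : Irr ρ) (B : Subgroup H)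
    (hB : B.Normal) (hc : ∀ a ∈ B, ∀ b ∈ B, a * b = b * a) (hn : ¬ IsCyclic B) :
    ∃ (I : Type) (_ : Fintype I) (_ : MulAction H I) (W : I → Submodule K V)
      (J : I → Subgroup H), MulAction.IsPretransitive H I ∧ 1 < Fintype.card I ∧ BD ρ I W ∧
      (∀ i, IsFix ρ (J i) (W i)) ∧
      (∀ i, MulAction.stabilizer H i ≤ Subgroup.normalizer (J i : Set H)) ∧
      ∀ (i : I) (W' : Submodule K V), W' ≤ W i →
        (∀ h : H, h • i = i → ∀ w ∈ W', ρ h w ∈ W') → W' = ⊥ ∨ W' = W i := by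
  obtain ⟨J₀, h1, h2, h3⟩ := xblocks_max hirr B
  let _ := xblocksA H
  let _ := Fintype.ofFinite (MulAction.orbit H J₀)
  have hm : ∀ (h y : H) (J : Subgroup H), y ∈ h • J ↔ h⁻¹ * y * h ∈ J := fun _ _ _ => xblocks_conj
  have key : ∀ i : MulAction.orbit H J₀, i.1 ≤ B ∧ xblocksW ρ i.1 ≠ ⊥ ∧
      ∀ y ∈ B, ∀ v ∈ xblocksW ρ i.1, v ≠ 0 → ρ y v = v → y ∈ i.1 := by
    rintro ⟨_, h, rfl⟩
    have hi : ∀ (g : H) {v}, v ≠ 0 → ρ g v ≠ 0 := fun g v hv e => hv (by
      rw [← ρ.inv_self_apply g v, e, map_zero])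
    refine ⟨fun y hy => ?_, ?_, fun y hy v hv h0 e => ?_⟩
    · simpa [mul_assoc] using hB.conj_mem _ (h1 ((hm _ _ _).1 hy)) h
    · obtain ⟨v, hv, h0⟩ := (Submodule.ne_bot_iff _).1 h2
      exact (Submodule.ne_bot_iff _).2 ⟨_, xblocks_map h hv, hi h h0⟩
    · have h4 : ρ h⁻¹ v ∈ xblocksW ρ (h⁻¹ • h • J₀) := xblocks_map h⁻¹ hv
      rw [inv_smul_smul] at h4
      refine (hm _ _ _).2 (h3 _ (hB.conj_mem' y hy h) _ h4 (hi _ h0) ?_)
      rw [map_mul, map_mul, Module.End.mul_apply, Module.End.mul_apply, ρ.self_inv_apply, e]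
  have hle : ∀ i j : MulAction.orbit H J₀, j.1 ≤ i.1 → i = j := fun i j h => by
    obtain ⟨v, hv, h0⟩ := (Submodule.ne_bot_iff _).1 (key i).2.1
    exact Subtype.ext (le_antisymm (fun y hy => (key j).2.2 y ((key i).1 hy) v
      (xblocks_mem.2 fun z hz => xblocks_mem.1 hv z (h hz)) h0 (xblocks_mem.1 hv y hy)) h)
  have hBD : BD ρ (MulAction.orbit H J₀) fun i => xblocksW ρ i.1 := by
    refine ⟨fun h i w hw => xblocks_map h hw, xblocks_ind _ fun i j hij => ?_,
      xblocks_top hirr _ (fun g i => ⟨g • i, fun w hw => xblocks_map g hw⟩)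
        (key ⟨J₀, MulAction.mem_orbit_self J₀⟩).2.1, fun i => (key i).2.1⟩
    obtain ⟨y, hy, hy'⟩ := SetLike.not_le_iff_exists.1 fun h => hij (hle i j h)
    have hb := (key j).1 hy
    refine ⟨ρ y - 1, fun k w hw => sub_mem (xblocks_mem.2 fun z hz => ?_) hw,
      fun w hw => sub_eq_zero.2 (xblocks_mem.1 hw y hy), fun w hw e => by_contra fun h0 =>
        hy' ((key i).2.2 y hb w hw h0 (sub_eq_zero.1 e))⟩
    rw [← Module.End.mul_apply, ← map_mul, hc z ((key k).1 hz) y hb, map_mul,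
      Module.End.mul_apply, xblocks_mem.1 hw z hz]
  refine ⟨MulAction.orbit H J₀, inferInstance, inferInstance, fun i => xblocksW ρ i.1,
    fun i => i.1, inferInstance, ?_, hBD, fun i v => xblocks_mem, fun i h hh => ?_,
    xblocks_irr hirr hBD⟩
  · by_contra h
    have : Subsingleton (MulAction.orbit H J₀) :=
      Fintype.card_le_one_iff_subsingleton.1 (not_lt.1 h)
    have h4 : ⊤ ≤ xblocksW ρ J₀ := hBD.top.ge.trans (iSup_le fun i => by
      rw [Subsingleton.elim i ⟨J₀, MulAction.mem_orbit_self J₀⟩])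
    exact hn (freeCyc ρ B (fun a ha v h0 e => hinj ((LinearMap.ext fun w => xblocks_mem.1
      (h4 trivial) a (h3 a ha v (h4 trivial) h0 e)).trans (map_one ρ).symm)) hirr.1 hc)
  · refine Subgroup.mem_normalizer_iff''.2 fun y => ?_
    rw [← hm, show h • i.1 = i.1 from congrArg Subtype.val hh]

end Pool.Agent.N9181
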