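import Pool.Agent.MP_9181f8_al.N.Basic

namespace Pool.Agent.N9181

open scoped commutatorElement

theorem xbtbasic_unit (M : ℕ) (x : RM M) (hx : red M x ≠ 0) : IsUnit x := by
  have : NeZero (13 ^ (M + 1)) := ⟨by positivity⟩
  obtain ⟨k, rfl⟩ := ZMod.natCast_zmod_surjective x
  rw [ZMod.isUnit_iff_coprime]
  apply Nat.Coprime.pow_right
  rw [Nat.coprime_comm, Nat.Prime.coprime_iff_not_dvd fact13.out]
  intro h
  apply hx
  rw [map_natCast]
  exact (ZMod.natCast_eq_zero_iff k 13).2 h

theorem xbtbasic_surj (M : ℕ) : Function.Surjective (red M) :=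
  ZMod.ringHom_surjective _

theorem xbtbasic_lift {n : ℕ} (M : ℕ) (P : Matrix (Fin n) (Fin n) K) :
    ∃ Q : Matrix (Fin n) (Fin n) (RM M), Q.map (red M) = P := by
  refine ⟨fun i j => (xbtbasic_surj M (P i j)).choose, ?_⟩
  ext i j
  exact (xbtbasic_surj M (P i j)).choose_spec

theorem xbtbasic_ker (M : ℕ) (x : RM M) (hx : red M x = 0) : ∃ y : RM M, x = 13 * y := by
  have : NeZero (13 ^ (M + 1)) := ⟨by positivity⟩
  obtain ⟨k, rfl⟩ := ZMod.natCast_zmod_surjective x
  rw [map_natCast] at hx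
  obtain ⟨c, rfl⟩ := (ZMod.natCast_eq_zero_iff k 13).1 hx
  exact ⟨c, by push_cast; ring⟩

theorem xbtbasic_step {R S : Type} [CommRing R] [Ring S] [Algebra R S] (c : R) (B : S) (m : ℕ) :
    ∃ C : S, (1 + c • B) ^ m = 1 + ((m : R) * c) • B + (c * c) • C := by
  induction m with
  | zero => exact ⟨0, by simp⟩
  | succ m ih =>
    obtain ⟨C, hC⟩ := ih
    refine ⟨C + (m : R) • (B * B) + c • (C * B), ?_⟩
    rw [pow_succ, hC]
    simp only [add_mul, mul_add, one_mul, mul_one, smul_mul_assoc, mul_smul_comm, smul_add,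
      smul_smul, Nat.cast_succ, add_smul]
    have e1 : c * (↑m * c) = c * c * ↑m := by ring
    have e2 : c * (c * c) = c * c * c := by ring
    rw [e1, e2]
    abel

theorem xbtbasic_pow {n : ℕ} (M : ℕ) (A : Matrix (Fin n) (Fin n) (RM M))
    (hA : A.map (red M) = 1) : A ^ (13 ^ M) = 1 := by
  have h1 : ∀ i j, ∃ y : RM M, (A - 1) i j = 13 * y := by
    intro i j
    apply xbtbasic_ker
    have := congrFun (congrFun hA i) j
    rw [Matrix.map_apply] at this
    rw [Matrix.sub_apply, map_sub, this]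
    by_cases hij : i = j
    · subst hij; simp
    · simp [Matrix.one_apply_ne hij]
  choose B hB using h1
  have h0 : A = 1 + (13 : RM M) • Matrix.of B := by
    ext i j
    have := hB i j
    rw [Matrix.sub_apply] at this
    simp only [Matrix.add_apply, Matrix.smul_apply, Matrix.of_apply, smul_eq_mul]
    linear_combination this
  have key : ∀ k : ℕ, ∃ C : Matrix (Fin n) (Fin n) (RM M),
      A ^ (13 ^ k) = 1 + ((13 : RM M) ^ (k + 1)) • C := by
    intro k
    induction k with
    | zero => exact ⟨Matrix.of B, by simpa using h0⟩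
    | succ k ih =>
      obtain ⟨C, hC⟩ := ih
      obtain ⟨D, hD⟩ := xbtbasic_step ((13 : RM M) ^ (k + 1)) C 13
      refine ⟨C + ((13 : RM M) ^ k) • D, ?_⟩
      rw [pow_succ 13 k, pow_mul, hC, hD, smul_add, smul_smul, add_assoc]
      congr 2
      · congr 1
        push_cast
        ring
      · congr 1
        ring
  obtain ⟨C, hC⟩ := key M
  have hz : ((13 : RM M) ^ (M + 1)) = 0 := by
    have := ZMod.natCast_self (13 ^ (M + 1))
    exact_mod_cast this
  rw [hC, hz, zero_smul, add_zero]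

theorem xbtbasic_trace {n : ℕ} (M : ℕ) (A A' : Matrix (Fin n) (Fin n) (RM M)) (L : ℕ)
    (hL : ¬ 13 ∣ L) (hA : A ^ L = 1) (hA' : A' ^ L = 1) (P : Matrix (Fin n) (Fin n) K)
    (hP : P.det ≠ 0) (hc : A.map (red M) * P = P * A'.map (red M)) : A.trace = A'.trace := by
  obtain ⟨P0, hP0⟩ := xbtbasic_lift M P
  set Q : Matrix (Fin n) (Fin n) (RM M) := ∑ k ∈ Finset.range L, A ^ k * P0 * A' ^ (L - k)
    with hQ
  have h1 : A * Q = Q * A' := by
    have e1 : A * Q = ∑ k ∈ Finset.range L, A ^ (k + 1) * P0 * A' ^ (L + 1 - (k + 1)) := by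
      rw [hQ, Finset.mul_sum]
      refine Finset.sum_congr rfl fun k _ => ?_
      rw [Nat.add_sub_add_right, pow_succ' A]
      simp only [mul_assoc]
    have e2 : Q * A' = ∑ k ∈ Finset.range L, A ^ k * P0 * A' ^ (L + 1 - k) := by
      rw [hQ, Finset.sum_mul]
      refine Finset.sum_congr rfl fun k hk => ?_
      have : L + 1 - k = L - k + 1 := by
        have := Finset.mem_range.1 hk
        omega
      rw [this, pow_succ A', mul_assoc _ (A' ^ (L - k))]
    have e3 := Finset.sum_range_succ (fun k => A ^ k * P0 * A' ^ (L + 1 - k)) L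
    have e4 := Finset.sum_range_succ' (fun k => A ^ k * P0 * A' ^ (L + 1 - k)) L
    rw [e1, e2]
    have e5 : A ^ L * P0 * A' ^ (L + 1 - L) = A ^ 0 * P0 * A' ^ (L + 1 - 0) := by
      rw [hA, pow_zero, Nat.sub_zero, pow_succ A', hA', Nat.add_sub_cancel_left, pow_one,
        one_mul A']
    rw [e3, e5] at e4
    exact (add_right_cancel e4).symm
  have hm : ∀ k, (A.map (red M)) ^ k * P = P * (A'.map (red M)) ^ k := by
    intro k
    induction k with
    | zero => simp
    | succ k ih => rw [pow_succ', mul_assoc, ih, ← mul_assoc, hc, mul_assoc, ← pow_succ']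
  have hT : (A'.map (red M)) ^ L = 1 := by
    have := congrArg (red M).mapMatrix hA'
    rw [map_pow, map_one] at this
    exact this
  have h2 : (red M).mapMatrix Q = (L : K) • P := by
    rw [hQ, map_sum]
    have : ∀ k ∈ Finset.range L, (red M).mapMatrix (A ^ k * P0 * A' ^ (L - k)) = P := by
      intro k hk
      rw [map_mul, map_mul, map_pow, map_pow]
      simp only [RingHom.mapMatrix_apply]
      rw [hP0, hm, mul_assoc, ← pow_add, Nat.add_sub_cancel' (Finset.mem_range.1 hk).le, hT,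
        mul_one]
    rw [Finset.sum_congr rfl this, Finset.sum_const, Finset.card_range, Nat.cast_smul_eq_nsmul]
  have h3 : IsUnit Q.det := by
    apply xbtbasic_unit
    rw [RingHom.map_det, h2, Matrix.det_smul]
    refine mul_ne_zero (pow_ne_zero _ ?_) hP
    exact fun h => hL ((ZMod.natCast_eq_zero_iff L 13).1 h)
  have h4 : A = Q * A' * Q⁻¹ := by
    rw [← h1, mul_assoc, Matrix.mul_nonsing_inv _ h3, mul_one]
  rw [h4, Matrix.trace_mul_comm, ← mul_assoc, Matrix.nonsing_inv_mul _ h3, one_mul]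

theorem isBt_unique {V : Type} [AddCommGroup V] [Module K V] [Module.Finite K V]
    (a : Module.End K V) (M : ℕ) (x y : RM M) (hx : IsBt a M x) (hy : IsBt a M y) : x = y := by
  obtain ⟨n, b, A, N, hN, hA, hm, rfl⟩ := hx
  obtain ⟨n', b', A', N', hN', hA', hm', rfl⟩ := hy
  have hn : n = n' := by
    have h1 := Module.finrank_eq_card_basis b
    have h2 := Module.finrank_eq_card_basis b'
    rw [Fintype.card_fin] at h1 h2
    omega
  subst hn
  refine xbtbasic_trace M A A' (N * N') ?_ ?_ ?_ (LinearMap.toMatrix b' b LinearMap.id) ?_ ?_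
  · intro h
    rcases (Nat.Prime.dvd_mul fact13.out).1 h with h | h
    · exact hN h
    · exact hN' h
  · rw [pow_mul, hA, one_pow]
  · rw [mul_comm, pow_mul, hA', one_pow]
  · have : LinearMap.toMatrix b' b LinearMap.id * LinearMap.toMatrix b b' LinearMap.id
        = (1 : Matrix (Fin n) (Fin n) K) := by
      rw [← LinearMap.toMatrix_comp, LinearMap.id_comp, LinearMap.toMatrix_id]
    exact (Matrix.isUnit_det_of_right_inverse this).ne_zero
  · rw [hm, hm', ← LinearMap.toMatrix_comp, ← LinearMap.toMatrix_comp, LinearMap.id_comp,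
      LinearMap.comp_id]

theorem isBt_bt {V : Type} [AddCommGroup V] [Module K V] [Module.Finite K V]
    (a : Module.End K V) (N : ℕ) (hN : ¬ 13 ∣ N) (ha : a ^ N = 1) (M : ℕ) :
    IsBt a M (bt a M) := by
  apply Classical.epsilon_spec
  let b := Module.finBasis K V
  obtain ⟨A0, hA0⟩ := xbtbasic_lift M (LinearMap.toMatrix b b a)
  have hT : (LinearMap.toMatrix b b a) ^ N = 1 := by
    rw [LinearMap.toMatrix_pow, ha, LinearMap.toMatrix_one]
  have hmap : ∀ k : ℕ, (A0 ^ k).map (red M) = (LinearMap.toMatrix b b a) ^ k := by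
    intro k
    have := map_pow (red M).mapMatrix A0 k
    simp only [RingHom.mapMatrix_apply] at this
    rw [this, hA0]
  have hu : (A0 ^ N) ^ (13 ^ M) = 1 := xbtbasic_pow M _ (by rw [hmap, hT])
  have hco : Nat.Coprime N (13 ^ M) := by
    apply Nat.Coprime.pow_right
    rw [Nat.coprime_comm, Nat.Prime.coprime_iff_not_dvd fact13.out]
    exact hN
  obtain ⟨e, he1, he2⟩ := Nat.chineseRemainder hco 1 0
  obtain ⟨c, hc⟩ := (Nat.modEq_zero_iff_dvd).1 he2
  refine ⟨(A0 ^ e).trace, _, b, A0 ^ e, N, hN, ?_, ?_, rfl⟩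
  · have : e * N = N * 13 ^ M * c := by rw [hc]; ring
    rw [← pow_mul, this, pow_mul, pow_mul, hu, one_pow]
  · rw [hmap]
    have := pow_eq_pow_of_modEq he1 hT
    rwa [pow_one] at this

theorem xbtbasic_conj {V : Type} [AddCommGroup V] [Module K V]
    {V' : Type} [AddCommGroup V'] [Module K V'] (e : V ≃ₗ[K] V') (a : Module.End K V)
    (a' : Module.End K V') (h : ∀ v, e (a v) = a' (e v)) (M : ℕ) (x : RM M) (hx : IsBt a M x) :
    IsBt a' M x := by
  obtain ⟨n, b, A, N, hN, hA, hm, ht⟩ := hx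
  refine ⟨n, b.map e, A, N, hN, hA, ?_, ht⟩
  rw [hm]
  ext i j
  rw [LinearMap.toMatrix_apply, LinearMap.toMatrix_apply, Module.Basis.map_apply, ← h]
  simp

theorem bt_conj {V : Type} [AddCommGroup V] [Module K V] [Module.Finite K V]
    {V' : Type} [AddCommGroup V'] [Module K V'] (e : V ≃ₗ[K] V') (a : Module.End K V)
    (a' : Module.End K V') (h : ∀ v, e (a v) = a' (e v)) (M : ℕ) : bt a M = bt a' M := by
  have : IsBt a M = IsBt a' M := by
    funext x
    apply propext
    refine ⟨xbtbasic_conj e a a' h M x, xbtbasic_conj e.symm a' a ?_ M x⟩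
    intro v
    apply e.injective
    rw [h, e.apply_symm_apply, e.apply_symm_apply]
  unfold bt
  rw [this]

theorem bt_isConj {V : Type} [AddCommGroup V] [Module K V] [Module.Finite K V]
    {H : Type} [Group H] (ρ : Representation K H V) (g h : H) (hc : IsConj g h) (M : ℕ) :
    bt (ρ g) M = bt (ρ h) M := by
  obtain ⟨c, hc⟩ := isConj_iff.1 hc
  let e : V ≃ₗ[K] V := LinearEquiv.ofLinear (ρ c) (ρ c⁻¹)
    (by rw [← Module.End.mul_eq_comp, ← map_mul, mul_inv_cancel, map_one]; rfl)
    (by rw [← Module.End.mul_eq_comp, ← map_mul, inv_mul_cancel, map_one]; rfl)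
  refine bt_conj e _ _ ?_ M
  intro v
  show ρ c (ρ g v) = ρ h (ρ c v)
  rw [← Module.End.mul_apply, ← Module.End.mul_apply, ← map_mul, ← map_mul, ← hc]
  simp

theorem red_unit (M : ℕ) (x : RM M) (hx : red M x ≠ 0) : IsUnit x :=
  xbtbasic_unit M x hx

theorem red_surj (M : ℕ) : Function.Surjective (red M) :=
  xbtbasic_surj M

theorem pow_of_red {n : ℕ} (M : ℕ) (A : Matrix (Fin n) (Fin n) (RM M))
    (hA : A.map (red M) = 1) : A ^ (13 ^ M) = 1 :=
  xbtbasic_pow M A hA

theorem eq_of_cast (x y : ℕ) (h : ∀ M, (x : RM M) = (y : RM M)) : x = y := by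
  have h1 := (ZMod.natCast_eq_natCast_iff x y _).1 (h (x + y))
  have hlt : x + y < 13 ^ (x + y + 1) :=
    lt_trans (Nat.lt_succ_self _) (Nat.lt_pow_self (by norm_num))
  exact Nat.ModEq.eq_of_lt_of_lt h1 (by omega) (by omega)

end Pool.Agent.N9181
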