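import Pool.Agent.MP_9181f8_al.N.BtBasic

namespace Pool.Agent.N9181

open scoped commutatorElement

theorem xbtidem_lift {m n : ℕ} (M : ℕ) (B : Matrix (Fin m) (Fin n) K) :
    ∃ B0 : Matrix (Fin m) (Fin n) (RM M), B0.map (red M) = B := by
  refine ⟨fun i j => (red_surj M (B i j)).choose, ?_⟩
  ext i j
  exact (red_surj M (B i j)).choose_spec

theorem xbtidem_zero {n : ℕ} (M : ℕ) (D : Matrix (Fin n) (Fin n) (RM M)) (hD : D * D = D)
    (h0 : D.map (red M) = 0) : D = 0 := by
  have h1 : (1 - D).map (red M) = 1 := by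
    have : (red M).mapMatrix (1 - D) = 1 - (red M).mapMatrix D := by
      rw [map_sub, map_one]
    rw [RingHom.mapMatrix_apply, RingHom.mapMatrix_apply, h0, sub_zero] at this
    exact this
  have h2 := pow_of_red M (1 - D) h1
  have h3 : IsIdempotentElem (1 - D) := IsIdempotentElem.one_sub hD
  have h4 : 13 ^ M ≠ 0 := pow_ne_zero _ (by norm_num)
  rw [h3.pow_eq h4] at h2
  exact sub_eq_self.mp h2

theorem xbtidem_split {V : Type} [AddCommGroup V] [Module K V] [Module.Finite K V]
    {n : ℕ} (b : Module.Basis (Fin n) K V) (e : Module.End K V) (M : ℕ)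
    (E : Matrix (Fin n) (Fin n) (RM M)) (hE : E * E = E)
    (he : E.map (red M) = LinearMap.toMatrix b b e) (W : Submodule K V)
    (hW : ∀ v, v ∈ W ↔ e v = v) {d : ℕ} (c : Module.Basis (Fin d) K W) :
    ∃ (I : Matrix (Fin n) (Fin d) (RM M)) (P : Matrix (Fin d) (Fin n) (RM M))
      (q : V →ₗ[K] W), (∀ v, (q v : V) = e v) ∧ P * I = 1 ∧ I * P = E ∧
      I.map (red M) = LinearMap.toMatrix c b W.subtype ∧
      P.map (red M) = LinearMap.toMatrix b c q := by
  have hee : e * e = e := by
    apply (LinearMap.toMatrix b b).injective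
    rw [LinearMap.toMatrix_mul, ← he, ← Matrix.map_mul, hE]
  have hmem : ∀ v, e v ∈ W := fun v => by
    rw [hW]
    exact congrArg (fun f : Module.End K V => f v) hee
  let q : V →ₗ[K] W := LinearMap.codRestrict W e hmem
  have hq : ∀ v, (q v : V) = e v := fun v => rfl
  have hqi : q ∘ₗ W.subtype = LinearMap.id := by
    ext w
    exact (hW _).mp w.2
  have hiq : W.subtype ∘ₗ q = e := by
    ext v
    rfl
  have hei : e ∘ₗ W.subtype = W.subtype := by
    ext w
    exact (hW _).mp w.2
  have hqe : q ∘ₗ e = q := by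
    ext v
    exact congrArg (fun f : Module.End K V => f v) hee
  obtain ⟨i0, hi0⟩ := xbtidem_lift M (LinearMap.toMatrix c b W.subtype)
  obtain ⟨p0, hp0⟩ := xbtidem_lift M (LinearMap.toMatrix b c q)
  have hi1 : (E * i0).map (red M) = LinearMap.toMatrix c b W.subtype := by
    rw [Matrix.map_mul, he, hi0, ← LinearMap.toMatrix_comp, hei]
  have hp1 : (p0 * E).map (red M) = LinearMap.toMatrix b c q := by
    rw [Matrix.map_mul, he, hp0, ← LinearMap.toMatrix_comp, hqe]
  have hS : (p0 * E * (E * i0)).map (red M) = 1 := by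
    rw [Matrix.map_mul, hi1, hp1, ← LinearMap.toMatrix_comp, hqi, LinearMap.toMatrix_id]
  have hpow := pow_of_red M _ hS
  obtain ⟨k, hk⟩ : ∃ k, 13 ^ M = k + 1 :=
    Nat.exists_eq_succ_of_ne_zero (pow_ne_zero _ (by norm_num))
  rw [hk, pow_succ] at hpow
  set T := (p0 * E * (E * i0)) ^ k with hT
  have hTm : T.map (red M) = 1 := by
    have : (red M).mapMatrix T = ((red M).mapMatrix (p0 * E * (E * i0))) ^ k := by
      rw [hT, map_pow]
    rw [RingHom.mapMatrix_apply, RingHom.mapMatrix_apply, hS, one_pow] at this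
    exact this
  have hPI : T * (p0 * E) * (E * i0) = 1 := by
    rw [Matrix.mul_assoc]
    exact hpow
  have hP : (T * (p0 * E)).map (red M) = LinearMap.toMatrix b c q := by
    rw [Matrix.map_mul, hTm, hp1, Matrix.one_mul]
  have hEI : E * (E * i0) = E * i0 := by
    rw [← Matrix.mul_assoc, hE]
  have hPE : T * (p0 * E) * E = T * (p0 * E) := by
    rw [Matrix.mul_assoc, Matrix.mul_assoc, hE]
  refine ⟨E * i0, T * (p0 * E), q, hq, hPI, ?_, hi1, hP⟩
  generalize E * i0 = I at hPI hEI hi1
  generalize T * (p0 * E) = P at hPI hPE hP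
  have h1 : E * (I * P) = I * P := by rw [← Matrix.mul_assoc, hEI]
  have h2 : I * P * E = I * P := by rw [Matrix.mul_assoc, hPE]
  have h3 : I * P * (I * P) = I * P := by
    rw [Matrix.mul_assoc, ← Matrix.mul_assoc P, hPI, Matrix.one_mul]
  have hD : (E - I * P) * (E - I * P) = E - I * P := by
    rw [mul_sub, sub_mul, sub_mul, hE, h1, h2, h3]
    abel
  have h0 : (E - I * P).map (red M) = 0 := by
    have : (red M).mapMatrix (E - I * P) = (red M).mapMatrix E - (red M).mapMatrix (I * P) :=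
      map_sub _ _ _
    rw [RingHom.mapMatrix_apply, RingHom.mapMatrix_apply, RingHom.mapMatrix_apply] at this
    rw [this, Matrix.map_mul, hi1, hP, he, ← LinearMap.toMatrix_comp, hiq, sub_self]
  exact (sub_eq_zero.mp (xbtidem_zero M _ hD h0)).symm

theorem trace_mul_idem {V : Type} [AddCommGroup V] [Module K V] [Module.Finite K V]
    {n : ℕ} (b : Module.Basis (Fin n) K V) (a e : Module.End K V) (M : ℕ)
    (A E : Matrix (Fin n) (Fin n) (RM M)) (N : ℕ) (hN : ¬ 13 ∣ N) (hA : A ^ N = 1)
    (hE : E * E = E) (hAE : A * E = E * A) (ha : A.map (red M) = LinearMap.toMatrix b b a)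
    (he : E.map (red M) = LinearMap.toMatrix b b e) (W : Submodule K V)
    (hW : ∀ v, v ∈ W ↔ e v = v) (h : ∀ v ∈ W, a v ∈ W) :
    (A * E).trace = bt (a.restrict h) M := by
  let c := Module.finBasis K W
  obtain ⟨I, P, q, hq, hPI, hIP, hI, hP⟩ := xbtidem_split b e M E hE he W hW c
  have hAI : I * (P * A * I) = A * I := by
    rw [← Matrix.mul_assoc, ← Matrix.mul_assoc, hIP, ← hAE, ← hIP, Matrix.mul_assoc,
      Matrix.mul_assoc, hPI, Matrix.mul_one]
  have hpow : ∀ k : ℕ, (P * A * I) ^ k = P * A ^ k * I := by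
    intro k
    induction k with
    | zero => rw [pow_zero, pow_zero, Matrix.mul_one, hPI]
    | succ k ih =>
      rw [pow_succ (P * A * I), ih, Matrix.mul_assoc, hAI, pow_succ A]
      simp only [Matrix.mul_assoc]
  have hres : q ∘ₗ a ∘ₗ W.subtype = a.restrict h := by
    ext w
    rw [LinearMap.comp_apply, LinearMap.comp_apply, hq]
    exact (hW _).mp (h _ w.2)
  have hx : IsBt (a.restrict h) M (A * E).trace := by
    refine ⟨_, c, P * A * I, N, hN, ?_, ?_, ?_⟩
    · rw [hpow, hA, Matrix.mul_one, hPI]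
    · rw [Matrix.map_mul, Matrix.map_mul, hP, ha, hI, Matrix.mul_assoc,
        ← LinearMap.toMatrix_comp, ← LinearMap.toMatrix_comp, hres]
    · rw [Matrix.mul_assoc, Matrix.trace_mul_comm, ← hIP, Matrix.mul_assoc]
  exact isBt_unique _ M _ _ hx (Classical.epsilon_spec ⟨_, hx⟩)

theorem trace_idem {V : Type} [AddCommGroup V] [Module K V] [Module.Finite K V]
    {n : ℕ} (b : Module.Basis (Fin n) K V) (e : Module.End K V) (M : ℕ)
    (E : Matrix (Fin n) (Fin n) (RM M)) (hE : E * E = E)
    (he : E.map (red M) = LinearMap.toMatrix b b e) (W : Submodule K V)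
    (hW : ∀ v, v ∈ W ↔ e v = v) : E.trace = (Module.finrank K W : RM M) := by
  obtain ⟨I, P, q, -, hPI, hIP, -, -⟩ :=
    xbtidem_split b e M E hE he W hW (Module.finBasis K W)
  rw [← hIP, Matrix.trace_mul_comm, hPI, Matrix.trace_one, Fintype.card_fin]

end Pool.Agent.N9181
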