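import Pool.Agent.MP_9181f8_al.N.BtIdem

namespace Pool.Agent.N9181

open scoped commutatorElement

theorem xbttl_split {X H : Type} [Group X] [Finite X] [Group H] (π : X →* H)
    (hs : Function.Surjective π) (hk : IsPGroup 13 π.ker) (h13 : ¬ 13 ∣ Nat.card H) :
    ∃ s : H →* X, ∀ h, π (s h) = h := by
  obtain ⟨n, hn⟩ := hk.exists_card_eq
  have hi : π.ker.index = Nat.card H := by
    rw [Subgroup.index_ker, MonoidHom.range_eq_top.2 hs, Subgroup.card_top]
  obtain ⟨C, hC⟩ := Subgroup.exists_right_complement'_of_coprime (N := π.ker) (by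
    rw [hn, hi]
    exact Nat.Coprime.pow_left n ((Nat.Prime.coprime_iff_not_dvd fact13.out).2 h13))
  have hb : Function.Bijective (π.comp C.subtype) := by
    refine ⟨(injective_iff_map_eq_one _).2 fun c hc => Subtype.ext ?_, fun h => ?_⟩
    · exact Subgroup.disjoint_def.1 hC.disjoint hc c.2
    · obtain ⟨x, rfl⟩ := hs h
      obtain ⟨⟨k, c⟩, rfl⟩ := hC.2 x
      exact ⟨⟨c.1, c.2⟩, by simp [show π k.1 = 1 from k.2]⟩
  exact ⟨C.subtype.comp (MulEquiv.ofBijective _ hb).symm.toMonoidHom,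
    (MulEquiv.ofBijective _ hb).apply_symm_apply⟩

theorem xbttl_left {H T : Type} [Group H] [Semiring T] (τ : H →* T) (J : Subgroup H) [Fintype J]
    {z : H} (hz : z ∈ J) : τ z * ∑ y : J, τ y = ∑ y : J, τ y := by
  rw [Finset.mul_sum]
  exact Fintype.sum_equiv (Equiv.mulLeft (⟨z, hz⟩ : J)) _ _ fun y => (map_mul τ z y).symm

theorem xbttl_comm {H T : Type} [Group H] [Semiring T] (τ : H →* T) (J : Subgroup H) [Fintype J]
    {a : H} (ha : a ∈ Subgroup.normalizer (J : Set H)) :
    τ a * ∑ y : J, τ y = (∑ y : J, τ y) * τ a := by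
  rw [Finset.mul_sum, Finset.sum_mul]
  refine Fintype.sum_equiv (J.normalizerMonoidHom ⟨a, ha⟩).toEquiv _ _ fun y => ?_
  rw [← map_mul, ← map_mul]
  exact congrArg τ (inv_mul_cancel_right (a * y) a).symm

theorem exists_lift {V : Type} [AddCommGroup V] [Module K V] [Module.Finite K V]
    {H : Type} [Group H] [Finite H] (h13 : ¬ 13 ∣ Nat.card H) (ρ : Representation K H V) {n : ℕ} (b : Module.Basis (Fin n) K V) (M : ℕ) :
    ∃ τ : H →* Matrix (Fin n) (Fin n) (RM M),
      ∀ h, (τ h).map (red M) = LinearMap.toMatrix b b (ρ h) := by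
  let X : Subgroup (H × (Matrix (Fin n) (Fin n) (RM M))ˣ) := MonoidHom.eqLocus
    (((red M).mapMatrix.toMonoidHom.comp (Units.coeHom _)).comp (MonoidHom.snd _ _))
    (((LinearMap.toMatrixAlgEquiv b).toMulEquiv.toMonoidHom.comp ρ).comp (MonoidHom.fst _ _))
  have hX : ∀ x, x ∈ X ↔ x.2.1.map (red M) = LinearMap.toMatrix b b (ρ x.1) := fun _ => Iff.rfl
  refine (xbttl_split ((MonoidHom.fst _ _).comp X.subtype) (fun h => ?_) (fun x => ?_)
    h13).elim fun s hs => ?_
  rotate_right
  · refine ⟨((Units.coeHom _).comp (MonoidHom.snd _ _)).comp (X.subtype.comp s), fun h => ?_⟩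
    exact ((hX _).1 (s h).2).trans (congrArg (fun g => LinearMap.toMatrix b b (ρ g)) (hs h))
  · choose A hA using fun i j => red_surj M (LinearMap.toMatrix b b (ρ h) i j)
    have e : (Matrix.of A).map (red M) = LinearMap.toMatrix b b (ρ h) :=
      Matrix.ext fun i j => hA i j
    have u : IsUnit (Matrix.of A) := by
      refine (Matrix.isUnit_iff_isUnit_det _).2 (red_unit M _ ?_)
      rw [RingHom.map_det, RingHom.mapMatrix_apply, e, LinearMap.det_toMatrix]
      exact (((Group.isUnit h).map ρ).map LinearMap.det).ne_zero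
    exact ⟨⟨(h, u.unit), (hX _).2 e⟩, rfl⟩
  · have e1 : x.1.1.1 = 1 := x.2
    have e2 := (hX _).1 x.1.2
    rw [e1, map_one, LinearMap.toMatrix_one] at e2
    refine ⟨M, Subtype.ext (Subtype.ext (Prod.ext ?_ (Units.ext ?_)))⟩
    · change x.1.1.1 ^ 13 ^ M = 1
      rw [e1, one_pow]
    · exact (Units.val_pow_eq_pow_val _ _).trans (pow_of_red M _ e2)

theorem bt_TL {V : Type} [AddCommGroup V] [Module K V] [Module.Finite K V]
    {H : Type} [Group H] [Finite H] (h13 : ¬ 13 ∣ Nat.card H) (ρ : Representation K H V) (J : Subgroup H) (a : H)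
    (ha : a ∈ Subgroup.normalizer (J : Set H)) (W : Submodule K V) (hW : IsFix ρ J W)
    (h : ∀ v ∈ W, ρ a v ∈ W) (M : ℕ) :
    (Nat.card J : RM M) * bt ((ρ a).restrict h) M = ∑ᶠ y : J, bt (ρ (a * y)) M := by
  have := Fintype.ofFinite J
  obtain ⟨τ, hτ⟩ := exists_lift h13 ρ (Module.finBasis K V) M
  have hN : ∀ g, τ g ^ Nat.card H = 1 := fun g => by rw [← map_pow, pow_card_eq_one', map_one]
  have hb : ∀ g, bt (ρ g) M = (τ g).trace := fun g => isBt_unique _ M _ _
    (isBt_bt _ _ h13 (by rw [← map_pow, pow_card_eq_one', map_one]) M)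
    ⟨_, _, τ g, _, h13, hN g, hτ g, rfl⟩
  obtain ⟨u, hu⟩ := (red_unit M (Nat.card J) (by
    rw [map_natCast, Ne, ZMod.natCast_eq_zero_iff]
    exact fun e => h13 (e.trans J.card_subgroup_dvd_card))).exists_left_inv
  have hu' : red M u * Nat.card J = 1 := by simpa using congrArg (red M) hu
  have key := trace_mul_idem (Module.finBasis K V) (ρ a) (red M u • ∑ y : J, ρ y) M (τ a)
    (u • ∑ y : J, τ y) _ h13 (hN a) ?_ ?_ (hτ a) ?_ W (fun v => ⟨fun hv => ?_, fun hv => ?_⟩) h
  · rw [← key, finsum_eq_sum_of_fintype, Matrix.mul_smul, Matrix.trace_smul, smul_eq_mul,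
      ← mul_assoc, mul_comm _ u, hu, one_mul, Finset.mul_sum, Matrix.trace_sum]
    simp only [hb, map_mul τ]
  · rw [Matrix.smul_mul, Matrix.mul_smul, Finset.sum_mul,
      Finset.sum_congr rfl fun (y : J) _ => xbttl_left τ J y.2, Finset.sum_const,
      ← Nat.cast_smul_eq_nsmul (RM M), smul_smul u, Finset.card_univ, ← Nat.card_eq_fintype_card,
      smul_smul, mul_assoc, hu, mul_one]
  · rw [Matrix.smul_mul, Matrix.mul_smul, xbttl_comm τ J ha]
  · ext i j
    simp only [Matrix.map_apply, Matrix.smul_apply, Matrix.sum_apply, smul_eq_mul, map_mul,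
      map_sum, map_smul, ← hτ]
  · rw [LinearMap.smul_apply, LinearMap.sum_apply,
      Finset.sum_congr rfl fun (y : J) _ => (hW v).1 hv y y.2, Finset.sum_const,
      ← Nat.cast_smul_eq_nsmul K, smul_smul, Finset.card_univ, ← Nat.card_eq_fintype_card, hu',
      one_smul]
  · refine (hW v).2 fun y hy => ?_
    conv_lhs => rw [← hv]
    rw [← Module.End.mul_apply, mul_smul_comm, xbttl_left ρ J hy, hv]

end Pool.Agent.N9181
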