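import Pool.Agent.MP_9181f8_al.N.Fpf

namespace Pool.Agent.N9181

open scoped commutatorElement

theorem xcls2_ring {H R : Type} [Group H] [Ring R] (ρ : H →* R)
    (h : ∀ y, (ρ y - 1) * (ρ y - 1) = 0) (y w : H) :
    (ρ y - 1) * (ρ w - 1) + (ρ w - 1) * (ρ y - 1) = 0 ∧
      ρ ⁅y, w⁆ - 1 = (ρ y - 1) * (ρ w - 1) + (ρ y - 1) * (ρ w - 1) := by
  have hi : ∀ y, ρ y⁻¹ = 1 - (ρ y - 1) := fun y => by
    have e : ρ y⁻¹ * ρ y = 1 := by rw [← map_mul, inv_mul_cancel, map_one]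
    linear_combination (norm := noncomm_ring) ρ y⁻¹ * h y + e * (1 - (ρ y - 1))
  have h1 := h y
  have h2 := h w
  have h3 := h (y * w)
  rw [commutatorElement_def, map_mul, map_mul, map_mul, hi, hi]
  rw [map_mul] at h3
  obtain ⟨Y, hY⟩ : ∃ Y, ρ y = 1 + Y := ⟨ρ y - 1, by abel⟩
  obtain ⟨W, hW⟩ : ∃ W, ρ w = 1 + W := ⟨ρ w - 1, by abel⟩
  rw [hY, hW] at h3 ⊢
  rw [hY, add_sub_cancel_left] at h1
  rw [hW, add_sub_cancel_left] at h2
  simp only [add_sub_cancel_left]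
  have h4 : Y * W + W * Y + W * Y * W + Y * W * Y + Y * W * Y * W = 0 := by
    linear_combination (norm := noncomm_ring) h3 - h1 - h2 - h1 * W - Y * h2
  have h5 : Y * W * Y + Y * W * Y * W = 0 := by
    linear_combination (norm := noncomm_ring) Y * h4 - h1 * W - h1 * (W * Y) - h1 * (W * Y * W)
  have h6 : Y * W * Y * W = 0 := by
    linear_combination (norm := noncomm_ring) h5 * W - Y * W * Y * h2
  have h7 : W * Y * W = 0 := by
    linear_combination (norm := noncomm_ring) h4 * W - Y * h2 - W * Y * h2 - Y * W * Y * h2 - h6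
  have h8 : Y * W + W * Y = 0 := by
    linear_combination (norm := noncomm_ring) h4 - h5 - h7
  refine ⟨h8, ?_⟩
  linear_combination (norm := noncomm_ring) -h8 - h1 - h2 + h1 * W - Y * h2 + h7 - h5 + h6 + h6

theorem xcls2_levi {H : Type} [Group H] (hE : ∀ x g : H, Commute x (g * x * g⁻¹)) (y w a : H) :
    ⁅y, ⁅w, a⁆⁆ ^ 3 = 1 := by
  have F : ∀ y w a : H, ⁅y, ⁅w, a⁆⁆ * ⁅w, ⁅y, a⁆⁆ = 1 ∧
      ⁅⁅y, w⁆, a⁆ = ⁅y, ⁅w, a⁆⁆ * ⁅y, ⁅w, a⁆⁆ := fun y w a => by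
    have : IsMulCommutative (Subgroup.normalClosure {a}) :=
      Subgroup.isMulCommutative_closure fun b hb c hc => by
        obtain ⟨_, rfl, h1⟩ := Group.mem_conjugatesOfSet_iff.1 hb
        obtain ⟨_, rfl, h2⟩ := Group.mem_conjugatesOfSet_iff.1 hc
        obtain ⟨g, rfl⟩ := isConj_iff.1 (h1.symm.trans h2)
        exact hE b g
    let : CommGroup (Subgroup.normalClosure {a}) := { mul_comm := mul_comm' }
    let ρ := (Representation.ofMulDistribMulAction (ConjAct H) (Subgroup.normalClosure {a})).comp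
      ConjAct.toConjAct.toMonoidHom
    have e : ∀ y c, (((ρ y - 1) c).toMul : H) = ⁅y, (c.toMul : H)⁆ := fun y c => by
      rw [commutatorElement_def, ← div_eq_mul_inv]
      rfl
    obtain ⟨h1, h2⟩ := xcls2_ring ρ (fun y => LinearMap.ext fun c => Subtype.ext (by
      refine (e y _).trans ?_
      rw [e]
      refine Commute.commutator_eq ?_
      simpa [mul_assoc, commutatorElement_def] using
        (Commute.refl y).mul_right (hE y (c.toMul : H)).inv_right)) y w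
    let c : Additive (Subgroup.normalClosure {a}) :=
      .ofMul ⟨a, Subgroup.subset_normalClosure rfl⟩
    have e2 : ∀ y w, ((((ρ y - 1) * (ρ w - 1)) c).toMul : H) = ⁅y, ⁅w, a⁆⁆ := fun y w =>
      (e y _).trans (by rw [e]; rfl)
    refine ⟨?_, ?_⟩
    · rw [← e2, ← e2]
      exact congrArg (fun T => ((T c).toMul : H)) h1
    · rw [← e2]
      exact (e _ c).symm.trans (congrArg (fun T => ((T c).toMul : H)) h2)
  have G : ∀ y w a : H, ⁅y, ⁅w, a⁆⁆ = ⁅y, ⁅a, w⁆⁆⁻¹ := fun y w a => by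
    rw [← commutatorElement_inv a w]
    generalize ⁅a, w⁆ = c
    simpa [mul_assoc, commutatorElement_def] using (hE c y).inv_right.eq.symm
  have h1 := (F y w a).2
  rw [← commutatorElement_inv, eq_inv_of_mul_eq_one_left (F a y w).1, G y a w, inv_inv] at h1
  rw [pow_succ, pow_two, ← h1, inv_mul_cancel]

theorem xcls2_comm {G : Type} [Group G] {x a : G} (h0 : a ^ 3 = 1) (h1 : (x * a) ^ 3 = 1)
    (h2 : (x⁻¹ * a) ^ 3 = 1) : Commute x (a * x * a⁻¹) ∧ x⁻¹ = a * x * a⁻¹ * (a⁻¹ * x * a) := by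
  have e : a⁻¹ = a * a := inv_eq_of_mul_eq_one_right (by rw [← h0, pow_three])
  have h3 : x * (a * x * a⁻¹) * (a⁻¹ * x * a) = 1 := by
    rw [← h1, show x * (a * x * a⁻¹) * (a⁻¹ * x * a) = x * a * x * (a * a)⁻¹ * x * a by group,
      ← e, inv_inv, pow_three]
    simp only [mul_assoc]
  have h4 : x⁻¹ * (a * x⁻¹ * a⁻¹) * (a⁻¹ * x⁻¹ * a) = 1 := by
    rw [← h2, show x⁻¹ * (a * x⁻¹ * a⁻¹) * (a⁻¹ * x⁻¹ * a) =
      x⁻¹ * a * x⁻¹ * (a * a)⁻¹ * x⁻¹ * a by group, ← e, inv_inv, pow_three]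
    simp only [mul_assoc]
  refine ⟨?_, inv_eq_of_mul_eq_one_right (by rw [← h3, mul_assoc x])⟩
  have h5 := eq_inv_of_mul_eq_one_left h3
  have h6 := congrArg (·⁻¹) (eq_inv_of_mul_eq_one_left h4)
  refine h5.trans ?_
  simpa [mul_assoc] using h6.symm

theorem class2 {G : Type} [Group G] [Finite G] (Q : Subgroup G) (hQ : Q.Normal) (hQp : IsPGroup 13 Q) (z : G)
    (hz : z ^ 3 = 1) (hf : ∀ x ∈ Q, x * z = z * x → x = 1) :
    ∀ x ∈ Q, ∀ y ∈ Q, ∀ w ∈ Q, ⁅x, y⁆ * w = w * ⁅x, y⁆ := by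
  have h1 := fun x hx => (fpf_norm Q hQ z hz hf x hx).1
  have h2 : ∀ x ∈ Q, ∀ g ∈ Q, Commute x (g * z * x * (g * z)⁻¹) := fun x hx g hg =>
    (xcls2_comm (h1 g hg) (mul_assoc x g z ▸ h1 _ (Q.mul_mem hx hg))
      (mul_assoc x⁻¹ g z ▸ h1 _ (Q.mul_mem (Q.inv_mem hx) hg))).1
  have h3 : ∀ x g : Q, Commute x (g * x * g⁻¹) := fun x g => by
    have a1 := hQ.conj_mem _ x.2 g
    have a2 := h2 _ a1 _ (hQ.conj_mem _ (Q.inv_mem g.2) z)
    have a3 := h2 _ (hQ.conj_mem _ x.2 z⁻¹) _ g.2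
    have a4 := (xcls2_comm hz (h1 _ x.2) (h1 _ (Q.inv_mem x.2))).2
    refine Subtype.ext (Commute.inv_left_iff.1 ?_ : Commute (x : G) (g * x * (g : G)⁻¹))
    rw [a4]
    refine Commute.mul_left (Commute.symm ?_) ?_
    · simpa [mul_assoc] using a2
    · simpa [mul_assoc] using a3
  intro x hx y hy w hw
  have h4 := xcls2_levi h3 ⟨w, hw⟩ ⟨x, hx⟩ ⟨y, hy⟩
  have h5 := orderOf_eq_one_iff.1 (Nat.eq_one_of_dvd_coprimes
    (hQp.orderOf_coprime (n := 3) (by norm_num) _) dvd_rfl (orderOf_dvd_of_pow_eq_one h4))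
  exact congrArg Subtype.val (commutatorElement_eq_one_iff_mul_comm.1 h5).symm

end Pool.Agent.N9181
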