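import Pool.Agent.MP_9181f8_al.N.Basic

namespace Pool.Agent.N9181

open scoped commutatorElement

theorem xcomp_fib {V : Type} [AddCommGroup V] [Module K V] {I : Type} [DecidableEq I]
    (W : I → Submodule K V) (hW : iSupIndep W) {J : Type} (T : Finset J) (φ : J → I) (x : J → V)
    (hx : ∀ j ∈ T, x j ∈ W (φ j)) (h0 : ∑ j ∈ T, x j = 0) (i : I) :
    ∑ j ∈ T.filter (fun j => φ j = i), x j = 0 := by
  by_cases hi : i ∈ T.image φ
  · have h := (iSupIndep_iff_finsetSum_eq_zero_imp_eq_zero W).1 hW (T.image φ)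
      (fun k => ∑ j ∈ T.filter (fun j => φ j = k), x j) ?_ ?_ i hi
    · exact h
    · intro k _
      refine Submodule.sum_mem _ fun j hj => ?_
      obtain ⟨h1, h2⟩ := Finset.mem_filter.1 hj
      rw [← h2]; exact hx j h1
    · rw [Finset.sum_fiberwise_of_maps_to (fun j hj => Finset.mem_image_of_mem φ hj)]
      exact h0
  · refine Finset.sum_eq_zero fun j hj => ?_
    obtain ⟨h1, h2⟩ := Finset.mem_filter.1 hj
    exact absurd (h2 ▸ Finset.mem_image_of_mem φ h1) hi

theorem xcomp_inv {V : Type} [AddCommGroup V] [Module K V]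
    {H : Type} [Group H] (ρ : Representation K H V) (h : H) (v : V) : ρ h⁻¹ (ρ h v) = v := by
  rw [← Module.End.mul_apply, ← map_mul, inv_mul_cancel, map_one, Module.End.one_apply]

theorem xcomp_ne {V : Type} [AddCommGroup V] [Module K V]
    {H : Type} [Group H] (ρ : Representation K H V) (h : H) (v : V) (hv : v ≠ 0) :
    ρ h v ≠ 0 := by
  intro h0
  apply hv
  rw [← xcomp_inv ρ h v, h0, map_zero]

theorem xcomp_93 : (9 : K) * 3 = 1 := by decide

theorem xcomp_9pow (n : ℕ) : (9 : K) ^ (3 ^ (n + 1)) = 1 := by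
  rw [pow_succ, mul_comm, pow_mul]
  have : (9 : K) ^ 3 = 1 := by decide
  rw [this, one_pow]

theorem xcomp_zinv {V : Type} [AddCommGroup V] [Module K V]
    {H : Type} [Group H] (ρ : Representation K H V) (U : Submodule K V) (z : H)
    (hz : ∀ w ∈ U, ρ z w = (3 : K) • w) (s : ℕ) :
    ∀ w ∈ U, ρ (z⁻¹ ^ s) w = (9 : K) ^ s • w := by
  have h1 : ∀ w ∈ U, ρ z⁻¹ w = (9 : K) • w := by
    intro w hw
    have h2 := xcomp_inv ρ z ((9 : K) • w)
    rw [hz _ (U.smul_mem _ hw), smul_smul, mul_comm, xcomp_93, one_smul] at h2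
    exact h2
  induction s with
  | zero => intro w _; simp
  | succ s ih =>
    intro w hw
    rw [pow_succ, map_mul, Module.End.mul_apply, h1 w hw, map_smul, ih w hw, smul_smul,
      pow_succ, mul_comm]

theorem xcomp_pow {V : Type} [AddCommGroup V] [Module K V]
    (U : Submodule K V) (f g : Module.End K V) (c : K) (hg : ∀ w ∈ U, g w ∈ U)
    (h : ∀ w ∈ U, f w = c • g w) (n : ℕ) : ∀ w ∈ U, (f ^ n) w = c ^ n • (g ^ n) w := by
  induction n with
  | zero => intro w _; simp
  | succ n ih =>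
    intro w hw
    rw [pow_succ, Module.End.mul_apply, h w hw, map_smul, ih _ (hg w hw), smul_smul, pow_succ g,
      Module.End.mul_apply, pow_succ c, mul_comm]

theorem xcomp_twist {V : Type} [AddCommGroup V] [Module K V]
    {H : Type} [Group H] (ρ : Representation K H V) (U : Submodule K V) (t z : H) (a s : ℕ)
    (ht : t ^ (3 ^ a) = 1) (hU : ∀ w ∈ U, ρ t w ∈ U)
    (hz : ∀ w ∈ U, ρ z w = (3 : K) • w) :
    (∀ w ∈ U, ρ (t * z⁻¹ ^ s) w = (9 : K) ^ s • ρ t w) ∧
      ∀ w ∈ U, (ρ (t * z⁻¹ ^ s) ^ (3 ^ (a + 1))) w = w := by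
  have h1 : ∀ w ∈ U, ρ (t * z⁻¹ ^ s) w = (9 : K) ^ s • ρ t w := by
    intro w hw
    rw [map_mul, Module.End.mul_apply, xcomp_zinv ρ U z hz s w hw, map_smul]
  refine ⟨h1, fun w hw => ?_⟩
  rw [xcomp_pow U _ (ρ t) _ hU h1 _ w hw, ← pow_mul, mul_comm s, pow_mul, xcomp_9pow, one_pow,
    one_smul, ← map_pow, pow_succ, pow_mul, ht, one_pow, map_one, Module.End.one_apply]

theorem xcomp_back {V : Type} [AddCommGroup V] [Module K V] (s : ℕ) (x w : V)
    (h : (9 : K) ^ s • x = w) : x = (3 : K) ^ s • w := by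
  rw [← h, smul_smul, ← mul_pow, mul_comm, xcomp_93, one_pow, one_smul]

theorem comp_eq {V : Type} [AddCommGroup V] [Module K V] [Module.Finite K V]
    {H : Type} [Group H] (ρ : Representation K H V) {I : Type} [MulAction H I]
    (W : I → Submodule K V) (hB : BD ρ I W) (S : Finset I) (r : I → V)
    (hr : ∀ i ∈ S, r i ∈ W i ∧ r i ≠ 0) (t : H) (ν : K)
    (h : ρ t (∑ i ∈ S, r i) = ν • ∑ i ∈ S, r i) :
    ∀ i ∈ S, t • i ∈ S ∧ ρ t (r i) = ν • r (t • i) := by
  classical
  intro i hi
  have key := xcomp_fib W hB.ind (S.disjSum S) (Sum.elim (fun j => t • j) id)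
    (Sum.elim (fun j => ρ t (r j)) (fun j => -(ν • r j))) ?_ ?_ (t • i)
  · rw [Finset.sum_filter, Finset.sum_disjSum] at key
    simp only [Sum.elim_inl, Sum.elim_inr, id, smul_left_cancel_iff] at key
    rw [Finset.sum_ite_eq' S i, Finset.sum_ite_eq' S (t • i), if_pos hi] at key
    by_cases hm : t • i ∈ S
    · rw [if_pos hm] at key
      exact ⟨hm, add_neg_eq_zero.1 key⟩
    · rw [if_neg hm, add_zero] at key
      exact absurd key (xcomp_ne ρ t _ (hr i hi).2)
  · rintro (j | j) hj
    · exact hB.map t j _ (hr j (by simpa using hj)).1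
    · exact Submodule.neg_mem _ (Submodule.smul_mem _ _ (hr j (by simpa using hj)).1)
  · rw [Finset.sum_disjSum]
    simp only [Sum.elim_inl, Sum.elim_inr]
    rw [← map_sum, Finset.sum_neg_distrib, ← Finset.smul_sum, h, add_neg_cancel]

theorem sum_not_mem {V : Type} [AddCommGroup V] [Module K V] [Module.Finite K V]
    {H : Type} [Group H] (ρ : Representation K H V) {I : Type} [MulAction H I]
    (W : I → Submodule K V) (hB : BD ρ I W) (S : Finset I) (r : I → V)
    (hr : ∀ i ∈ S, r i ∈ W i ∧ r i ≠ 0) (p : I → Prop) (i : I) (hi : i ∈ S) (hp : ¬ p i) :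
    (∑ i ∈ S, r i) ∉ (⨆ (j : I) (_ : p j), W j) := by
  classical
  intro hm
  have h1 : (⨆ (j : I) (_ : p j), W j) ≤ ⨆ (j : I) (_ : j ≠ i), W j := by
    refine iSup₂_le fun j hj => ?_
    exact le_iSup₂_of_le j (fun e => hp (e ▸ hj)) le_rfl
  have h2 : (∑ j ∈ S.erase i, r j) ∈ ⨆ (j : I) (_ : j ≠ i), W j := by
    refine Submodule.sum_mem _ fun j hj => ?_
    obtain ⟨hj1, hj2⟩ := Finset.mem_erase.1 hj
    exact (le_iSup₂_of_le (f := fun (j : I) (_ : j ≠ i) => W j) j hj1 le_rfl) (hr j hj2).1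
  have h3 : r i ∈ ⨆ (j : I) (_ : j ≠ i), W j := by
    have h4 := Submodule.sub_mem _ (h1 hm) h2
    rwa [← Finset.add_sum_erase S r hi, add_sub_cancel_right] at h4
  exact (hr i hi).2 ((Submodule.disjoint_def.1 (hB.ind i)) _ (hr i hi).1 h3)

theorem dim_eq {V : Type} [AddCommGroup V] [Module K V] [Module.Finite K V]
    {H : Type} [Group H] (ρ : Representation K H V) {I : Type} [MulAction H I]
    (W : I → Submodule K V) (hB : BD ρ I W) (h t : H) (i : I) (c : K) :
    Module.finrank K (W (h • i)) = Module.finrank K (W i) ∧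
      edOn (W (h • i)) (ρ (h * t * h⁻¹)) c = edOn (W i) (ρ t) c := by
  have hinj : Function.Injective (ρ h) := fun x y e => by
    rw [← xcomp_inv ρ h x, e, xcomp_inv]
  have hinv : ∀ v, ρ h (ρ h⁻¹ v) = v := fun v => by
    have := xcomp_inv ρ h⁻¹ v
    rwa [inv_inv] at this
  have hback : ∀ v ∈ W (h • i), ρ h⁻¹ v ∈ W i := fun v hv => by
    have := hB.map h⁻¹ _ v hv
    rwa [inv_smul_smul] at this
  have h1 : W (h • i) = (W i).map (ρ h) := by
    apply le_antisymm
    · intro v hv
      exact ⟨ρ h⁻¹ v, hback v hv, hinv v⟩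
    · rintro _ ⟨w, hw, rfl⟩
      exact hB.map h i w hw
  have h2 : (W (h • i) ⊓ Module.End.eigenspace (ρ (h * t * h⁻¹)) c : Submodule K V) =
      (W i ⊓ Module.End.eigenspace (ρ t) c : Submodule K V).map (ρ h) := by
    apply le_antisymm
    · rintro v ⟨hv, he⟩
      refine ⟨ρ h⁻¹ v, ⟨hback v hv, ?_⟩, hinv v⟩
      have he' := Module.End.mem_eigenspace_iff.1 he
      refine Module.End.mem_eigenspace_iff.2 (hinj ?_)
      rw [map_smul, hinv, ← he', map_mul, map_mul, Module.End.mul_apply, Module.End.mul_apply]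
    · rintro _ ⟨w, ⟨hw, he⟩, rfl⟩
      refine ⟨hB.map h i w hw, Module.End.mem_eigenspace_iff.2 ?_⟩
      have he' := Module.End.mem_eigenspace_iff.1 he
      rw [map_mul, map_mul, Module.End.mul_apply, Module.End.mul_apply, xcomp_inv, he', map_smul]
  refine ⟨?_, ?_⟩
  · rw [h1]
    exact (LinearEquiv.finrank_eq (Submodule.equivMapOfInjective _ hinj _)).symm
  · unfold edOn
    rw [h2]
    exact (LinearEquiv.finrank_eq (Submodule.equivMapOfInjective _ hinj _)).symm

theorem card_fix {H : Type} [Group H] {I : Type} [Fintype I] [DecidableEq I]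
    [MulAction H I] (t : H) (a : ℕ) (ht : t ^ (3 ^ a) = 1) :
    (Finset.univ.filter (fun i : I => t • i = i)).card ≡ Fintype.card I [MOD 3] := by
  have : Fact (Nat.Prime 3) := ⟨by norm_num⟩
  have hf : (MulAction.toEndHom (M := H) (α := I) t) ^ (3 ^ a) = 1 := by
    rw [← map_pow, ht, map_one]
  have h := Equiv.Perm.card_fixedPoints_modEq hf
  refine Nat.ModEq.symm (h.trans ?_)
  rw [Fintype.card_of_subtype (Finset.univ.filter (fun i : I => t • i = i))]
  intro x
  simp only [Finset.mem_filter, Finset.mem_univ, true_and]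
  rfl

theorem ext_blocks {V : Type} [AddCommGroup V] [Module K V] [Module.Finite K V]
    {H : Type} [Group H] (ρ : Representation K H V) {I : Type} [MulAction H I]
    (W : I → Submodule K V) (hB : BD ρ I W) (f g : Module.End K V)
    (h : ∀ i, ∀ w ∈ W i, f w = g w) : f = g := by
  have h1 : (⊤ : Submodule K V) ≤ LinearMap.eqLocus f g := by
    rw [← hB.top]
    exact iSup_le fun i w hw => h i w hw
  ext v
  exact h1 Submodule.mem_top

theorem rank_lt {V : Type} [AddCommGroup V] [Module K V] [Module.Finite K V]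
    {H : Type} [Group H] (ρ : Representation K H V) {I : Type} [Fintype I] [MulAction H I]
    (W : I → Submodule K V) (hB : BD ρ I W) (hI : 1 < Fintype.card I) (i : I) :
    Module.finrank K (W i) < Module.finrank K V := by
  refine Submodule.finrank_lt fun h => ?_
  obtain ⟨j, hj⟩ := Fintype.exists_ne_of_one_lt_card hI i
  have h1 : Disjoint (W i) (W j) := hB.ind.pairwiseDisjoint (Ne.symm hj)
  rw [h, top_disjoint] at h1
  exact hB.ne j h1

theorem block_scal {V : Type} [AddCommGroup V] [Module K V] [Module.Finite K V]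
    {H : Type} [Group H] (ρ : Representation K H V) {I : Type} [MulAction H I]
    (W : I → Submodule K V) (hB : BD ρ I W) (hS : BScal ρ W) (r : I → V) (hr : BReg ρ W r)
    (t : H) (a : ℕ) (ht : t ^ (3 ^ a) = 1) (i : I) (hi : t • i = i) (s : ℕ)
    (h : ρ t (r i) = (3 : K) ^ s • r i) : ∀ w ∈ W i, ρ t w = (3 : K) ^ s • w := by
  obtain ⟨z, hz1, hz2⟩ := hS i
  have hU : ∀ w ∈ W i, ρ t w ∈ W i := fun w hw => by
    have := hB.map t i w hw
    rwa [hi] at this
  obtain ⟨h1, h2⟩ := xcomp_twist ρ (W i) t z a s ht hU hz2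
  have hfix : (t * z⁻¹ ^ s) • i = i := by
    have : z⁻¹ ^ s ∈ MulAction.stabilizer H i :=
      Subgroup.pow_mem _ (Subgroup.inv_mem _ (show z ∈ MulAction.stabilizer H i from hz1)) _
    rw [mul_smul, MulAction.mem_stabilizer_iff.1 this, hi]
  have h3 := (hr i).2.2 _ (a + 1) hfix h2 (by
    rw [h1 _ (hr i).1, h, smul_smul, ← mul_pow, xcomp_93, one_pow, one_smul])
  intro w hw
  exact xcomp_back s _ _ ((h1 w hw).symm.trans (h3 w hw))

theorem step0 {V : Type} [AddCommGroup V] [Module K V] [Module.Finite K V]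
    {H : Type} [Group H] [Finite H] (ρ : Representation K H V) {I : Type} [Fintype I] [MulAction H I]
    (W : I → Submodule K V) (hB : BD ρ I W) (hF : HFP ρ) (hE : HEP ρ 3) (hS : BScal ρ W) :
    Scal ρ := by
  classical
  have hex : ∀ i, ∃ x, x ∈ W i ∧ x ≠ 0 := fun i => (Submodule.ne_bot_iff _).1 (hB.ne i)
  choose r hr using hex
  obtain ⟨t, a, ht, hv⟩ := ep3 ρ hE (∑ i, r i)
  have hc := comp_eq ρ W hB Finset.univ r (fun i _ => hr i) t 3 hv
  have hk : ∀ (i : I) (k : ℕ), ρ (t ^ k) (r i) = (3 : K) ^ k • r (t ^ k • i) := by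
    intro i k
    induction k with
    | zero => simp
    | succ k ih =>
      have e1 : t ^ (k + 1) • i = t • (t ^ k • i) := by rw [pow_succ', mul_smul]
      rw [e1, pow_succ' t, map_mul, Module.End.mul_apply, ih, map_smul,
        (hc (t ^ k • i) (Finset.mem_univ _)).2, smul_smul (M := K), ← pow_succ]
  have hfix : ∀ i : I, t • i = i := by
    intro i
    by_contra hne
    have hdvd : MulAction.period t i ∣ 3 ^ a :=
      MulAction.pow_smul_eq_iff_period_dvd.1 (by rw [ht, one_smul])
    have hpos : 0 < MulAction.period t i := Nat.pos_of_dvd_of_pos hdvd (by positivity)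
    have h3 : 3 ∣ MulAction.period t i := by
      obtain ⟨b, _, hb⟩ := (Nat.dvd_prime_pow (by norm_num : Nat.Prime 3)).1 hdvd
      rcases b with _ | b
      · exact absurd (MulAction.period_eq_one_iff.1 (by simpa using hb)) hne
      · rw [hb]; exact dvd_pow_self 3 (Nat.succ_ne_zero b)
    have hn : ρ (t ^ MulAction.period t i) (r i) = r i := by
      rw [hk, MulAction.pow_period_smul]
      obtain ⟨c, hc'⟩ := h3
      have : (3 : K) ^ 3 = 1 := by decide
      rw [hc', pow_mul, this, one_pow, one_smul]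
    have hu : ρ t (∑ k ∈ Finset.range (MulAction.period t i), ρ (t ^ k) (r i)) =
        ∑ k ∈ Finset.range (MulAction.period t i), ρ (t ^ k) (r i) := by
      have e1 := Finset.sum_range_succ (fun k => ρ (t ^ k) (r i)) (MulAction.period t i)
      have e2 := Finset.sum_range_succ' (fun k => ρ (t ^ k) (r i)) (MulAction.period t i)
      rw [e1, hn, pow_zero, map_one, Module.End.one_apply] at e2
      rw [map_sum, add_right_cancel e2]
      refine Finset.sum_congr rfl fun k _ => ?_
      rw [pow_succ', map_mul, Module.End.mul_apply]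
    have hu0 : (∑ k ∈ Finset.range (MulAction.period t i), ρ (t ^ k) (r i)) ≠ 0 := by
      intro h0
      have key := xcomp_fib W hB.ind _ (fun k => t ^ k • i) (fun k => ρ (t ^ k) (r i))
        (fun k _ => hB.map _ _ _ (hr i).1) h0 i
      have hf : (Finset.range (MulAction.period t i)).filter (fun k => t ^ k • i = i) = {0} := by
        ext k
        simp only [Finset.mem_filter, Finset.mem_range, Finset.mem_singleton]
        constructor
        · rintro ⟨k1, k2⟩
          exact Nat.eq_zero_of_dvd_of_lt (MulAction.pow_smul_eq_iff_period_dvd.1 k2) k1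
        · rintro rfl
          exact ⟨hpos, by simp⟩
      rw [hf, Finset.sum_singleton, pow_zero, map_one, Module.End.one_apply] at key
      exact (hr i).2 key
    have h1 : ρ t = 1 := hF t a _ ht hu0 hu
    have h2 := (hc i (Finset.mem_univ _)).2
    rw [h1, Module.End.one_apply] at h2
    have h4 : r i ∈ W (t • i) := by
      rw [h2]; exact Submodule.smul_mem _ _ (hr _).1
    have h5 : Disjoint (W i) (W (t • i)) := hB.ind.pairwiseDisjoint (Ne.symm hne)
    exact (hr i).2 (Submodule.disjoint_def.1 h5 _ (hr i).1 h4)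
  refine ⟨t, fun v => ?_⟩
  have hall : ∀ i, ∀ w ∈ W i, ρ t w = ((3 : K) • (1 : Module.End K V)) w := by
    intro i w hw
    obtain ⟨z, hz1, hz2⟩ := hS i
    have hst : ∀ h ∈ MulAction.stabilizer H i, ∀ w ∈ W i, ρ h w ∈ W i := fun h hh w hw => by
      have := hB.map h i w hw
      rwa [MulAction.mem_stabilizer_iff.1 hh] at this
    obtain ⟨σ, hσ⟩ := exists_res ρ (MulAction.stabilizer H i) (W i) hst
    obtain ⟨h1, h2⟩ := xcomp_twist ρ (W i) t z a 1 ht (hst t (hfix i)) hz2
    have hm : t * z⁻¹ ^ 1 ∈ MulAction.stabilizer H i :=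
      Subgroup.mul_mem _ (hfix i)
        (Subgroup.pow_mem _ (Subgroup.inv_mem _ (show z ∈ MulAction.stabilizer H i from hz1)) _)
    obtain ⟨e, a', he1, -, he2⟩ := p_part 3 (by norm_num) (⟨_, hm⟩ : MulAction.stabilizer H i)
    have hs1 : (σ ⟨_, hm⟩) ^ (3 ^ (a + 1)) = 1 := by
      ext x
      rw [← map_pow, hσ, Module.End.one_apply]
      have := h2 x x.2
      rw [← map_pow] at this
      exact this
    have hs2 := he2 _ σ (a + 1) hs1
    have hr1 : ρ (t * z⁻¹ ^ 1) (r i) = r i := by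
      rw [h1 _ (hr i).1, (hc i (Finset.mem_univ _)).2, hfix, smul_smul, pow_one, xcomp_93,
        one_smul]
    have hr2 : ∀ n : ℕ, ρ ((t * z⁻¹ ^ 1) ^ n) (r i) = r i := by
      intro n
      induction n with
      | zero => simp
      | succ n ih => rw [pow_succ, map_mul, Module.End.mul_apply, hr1, ih]
    have hg : ρ ((t * z⁻¹ ^ 1) ^ e) = 1 :=
      hF _ a' (r i) (by simpa using congrArg Subtype.val he1) (hr i).2 (hr2 e)
    have h6 : ρ (t * z⁻¹ ^ 1) w = w := by
      have e1 := hσ ⟨_, hm⟩ ⟨w, hw⟩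
      have e2 := hσ (⟨_, hm⟩ ^ e) ⟨w, hw⟩
      rw [hs2, e1] at e2
      rw [Subgroup.coe_pow, hg] at e2
      exact e2
    have h7 := xcomp_back 1 _ _ ((h1 w hw).symm.trans h6)
    simpa using h7
  have := ext_blocks ρ W hB _ _ hall
  rw [this]
  simp

end Pool.Agent.N9181
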