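import Pool.Agent.MP_9181f8_al.N.Cyc
import Pool.Agent.MP_9181f8_al.N.Comp

namespace Pool.Agent.N9181

open scoped commutatorElement

section Aux

variable {V : Type} [AddCommGroup V] [Module K V]

theorem xstepa_congr (W : Submodule K V) (a b : Module.End K V) (μ ν : K)
    (h : ∀ w ∈ W, a w = μ • w ↔ b w = ν • w) : edOn W a μ = edOn W b ν := by
  have : (W ⊓ a.eigenspace μ : Submodule K V) = W ⊓ b.eigenspace ν := by
    ext w
    simp only [Submodule.mem_inf, Module.End.mem_eigenspace_iff]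
    exact and_congr_right (h w)
  unfold edOn
  rw [this]

theorem xstepa_mul (W : Submodule K V) (a b : Module.End K V) (c ν : K) (hc : c ≠ 0)
    (h : ∀ w ∈ W, a w = c • b w) : edOn W a (c * ν) = edOn W b ν :=
  xstepa_congr W a b _ _ fun w hw => by
    rw [h w hw, mul_smul]
    exact (smul_right_injective V hc).eq_iff

theorem xstepa_full (W : Submodule K V) (a : Module.End K V) (c : K)
    (h : ∀ w ∈ W, a w = c • w) : edOn W a c = Module.finrank K W := by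
  have : (W ⊓ a.eigenspace c : Submodule K V) = W :=
    inf_eq_left.2 fun w hw => Module.End.mem_eigenspace_iff.2 (h w hw)
  unfold edOn
  rw [this]

theorem xstepa_pow (W : Submodule K V) (a : Module.End K V) (c : K)
    (h : ∀ w ∈ W, a w = c • w) (n : ℕ) : ∀ w ∈ W, (a ^ n) w = c ^ n • w := by
  intro w hw
  induction n with
  | zero => simp
  | succ n ih => rw [pow_succ', Module.End.mul_apply, ih, map_smul, h w hw, smul_smul, pow_succ]

variable [Module.Finite K V]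

theorem xstepa_zero (W : Submodule K V) (a : Module.End K V) (c ν : K)
    (h : ∀ w ∈ W, a w = c • w) (hne : c ≠ ν) : edOn W a ν = 0 := by
  by_contra h0
  obtain ⟨w, hw, hw0, e⟩ := (edOn_pos W a ν).1 (Nat.pos_of_ne_zero h0)
  rw [h w hw] at e
  exact hne (smul_left_injective K hw0 e)

theorem xstepa_of_full (W : Submodule K V) (a : Module.End K V) (c : K)
    (h : Module.finrank K W ≤ edOn W a c) : ∀ w ∈ W, a w = c • w := by
  have := Submodule.eq_of_le_of_finrank_le (inf_le_left : W ⊓ a.eigenspace c ≤ W) h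
  intro w hw
  rw [← this] at hw
  exact Module.End.mem_eigenspace_iff.1 hw.2

theorem xstepa_sum {I : Type} (F : Finset I) (f g : I → ℕ) (i1 i2 i3 : I) (h1 : i1 ∈ F)
    (h2 : i2 ∈ F) (h3 : i3 ∈ F) (h12 : i1 ≠ i2) (h13 : i1 ≠ i3) (h23 : i2 ≠ i3)
    (hg : ∀ i ∈ F, i ≠ i1 → i ≠ i2 → g i = 0) (h : ∑ i ∈ F, f i = ∑ i ∈ F, g i) :
    f i1 + f i2 + f i3 ≤ g i1 + g i2 := by
  classical
  rw [← Finset.sum_eq_add_of_mem i1 i2 h1 h2 h12 fun c hc hh => hg c hc hh.1 hh.2, ← h]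
  have hs : ({i1, i2, i3} : Finset I) ⊆ F := by
    intro x hx
    simp only [Finset.mem_insert, Finset.mem_singleton] at hx
    rcases hx with rfl | rfl | rfl <;> assumption
  have := Finset.sum_le_sum_of_subset (f := f) hs
  rw [Finset.sum_insert (by simp [h12, h13]), Finset.sum_insert (by simp [h23]),
    Finset.sum_singleton] at this
  omega

variable {H : Type} [Group H] [Finite H] (ρ : Representation K H V) {I : Type} [Fintype I]
  [MulAction H I] (W : I → Submodule K V)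

theorem xstepa_bal0 [DecidableEq I] (hB : BD ρ I W) (hbal : HBal ρ) (t : H) (a : ℕ)
    (ht : t ^ (3 ^ a) = 1) (hv : ∃ v, v ≠ 0 ∧ ρ t v = v) :
    ∑ i ∈ Finset.univ.filter (fun i : I => t • i = i), edOn (W i) (ρ t) 3 =
      ∑ i ∈ Finset.univ.filter (fun i : I => t • i = i), edOn (W i) (ρ t) 9 := by
  obtain ⟨c, hc, -⟩ := cyc ρ W hB t a ht
  obtain ⟨v, hv0, hv⟩ := hv
  have := hbal t v hv0 hv
  rw [hc 3 (by decide), hc 9 (by decide)] at this
  omega

theorem xstepa_mov (hB : BD ρ I W) (t : H) (a : ℕ) (ht : t ^ (3 ^ a) = 1) (v : V)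
    (h : ρ t v = (3 : K) • v) (hv : v ∉ (⨆ (i : I) (_ : t • i = i), W i)) :
    ∃ v, v ≠ 0 ∧ ρ t v = v := by
  classical
  obtain ⟨c, hc, hc2⟩ := cyc ρ W hB t a ht
  have h0 := hc2 3 v (by decide) h hv
  have h1 : 0 < edOn ⊤ (ρ t) 1 := by
    rw [edOn_top, hc 1 (by decide)]
    omega
  obtain ⟨w, -, hw0, hw⟩ := (edOn_pos _ _ _).1 h1
  exact ⟨w, hw0, by rw [hw, one_smul]⟩

theorem xstepa_bal (hB : BD ρ I W) (hbal : HBal ρ) (g : H) (b : ℕ)
    (hg : (ρ g) ^ (3 ^ b) = 1) (hf : ∀ i : I, g • i = i) (hv : ∃ v, v ≠ 0 ∧ ρ g v = v) :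
    ∑ i, edOn (W i) (ρ g) 3 = ∑ i, edOn (W i) (ρ g) 9 := by
  classical
  obtain ⟨e, a, h1, -, h2⟩ := p_part 3 Nat.prime_three g
  have h3 : ρ (g ^ e) = ρ g := h2 _ ρ b hg
  have h4 : ∀ i : I, (g ^ e) • i = i := fun i =>
    (MulAction.stabilizer H i).pow_mem (show g ∈ MulAction.stabilizer H i from hf i) e
  have := xstepa_bal0 ρ W hB hbal (g ^ e) a h1 (by rw [h3]; exact hv)
  rwa [Finset.filter_true_of_mem fun i _ => h4 i, h3] at this

theorem xstepa_pair (hB : BD ρ I W) (hbal : HBal ρ) (t x h : H) (a : ℕ) (i1 : I) (s : K)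
    (hs : s ≠ 0) (h12 : i1 ≠ h • i1) (ht : t ^ (3 ^ a) = 1) (hx : x ^ (3 ^ a) = 1)
    (ft : ∀ i : I, t • i = i) (fx : ∀ i : I, x • i = i)
    (st : ∀ i, i ≠ i1 → ∀ w ∈ W i, ρ t w = (3 : K) • w)
    (sx : ∀ i, i ≠ i1 → ∀ w ∈ W i, ρ x w = s • w) (hv : 0 < edOn (W i1) (ρ x) 9) :
    ∃ E : I → K → ℕ, ∑ i, E i 3 = ∑ i, E i 9 ∧ (∀ ν, E i1 (3 * ν) = edOn (W i1) (ρ x) ν) ∧
      (∀ ν, E (h • i1) (s * ν) = edOn (W i1) (ρ t) ν) ∧
      ∀ i, i ≠ i1 → i ≠ h • i1 →
        E i (3 * s) = Module.finrank K (W i) ∧ ∀ ν, 3 * s ≠ ν → E i ν = 0 := by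
  have f2 : ∀ i : I, (h * t * h⁻¹) • i = i := fun i => by
    rw [mul_smul, mul_smul, ft, smul_inv_smul]
  have s2 : ∀ i, i ≠ h • i1 → ∀ w ∈ W i, ρ (h * t * h⁻¹) w = (3 : K) • w := by
    intro i hi w hw
    have h1 : h⁻¹ • i ≠ i1 := fun e => hi (by rw [← e, smul_inv_smul])
    rw [map_mul, map_mul, Module.End.mul_apply, Module.End.mul_apply,
      st _ h1 _ (hB.map h⁻¹ i w hw), map_smul, ← Module.End.mul_apply, ← map_mul,
      mul_inv_cancel, map_one, Module.End.one_apply]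
  have o2 : (h * t * h⁻¹) ^ (3 ^ a) = 1 := by rw [conj_pow, ht, mul_one, mul_inv_cancel]
  have d2 := fun c => (dim_eq ρ W hB h t i1 c).2
  generalize h * t * h⁻¹ = u at f2 s2 o2 d2
  generalize h • i1 = i2 at h12 s2 d2
  have mx : ∀ i, ∀ w ∈ W i, ρ x w ∈ W i := fun i w hw => by
    have := hB.map x i w hw
    rwa [fx] at this
  have mu : ∀ i, ∀ w ∈ W i, ρ u w ∈ W i := fun i w hw => by
    have := hB.map u i w hw
    rwa [f2] at this
  have hc : Commute (ρ u) (ρ x) := by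
    refine ext_blocks ρ W hB _ _ fun i w hw => ?_
    rw [Module.End.mul_apply, Module.End.mul_apply]
    by_cases hi : i = i1
    · have hi2 : i ≠ i2 := hi ▸ h12
      rw [s2 i hi2 _ (mx i w hw), s2 i hi2 w hw, map_smul]
    · rw [sx i hi _ (mu i w hw), sx i hi w hw, map_smul]
  have ho : (ρ (u * x)) ^ (3 ^ a) = 1 := by
    rw [map_mul, hc.mul_pow, ← map_pow, ← map_pow, o2, hx, map_one, mul_one]
  have e1 : ∀ w ∈ W i1, ρ (u * x) w = (3 : K) • ρ x w := fun w hw => by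
    rw [map_mul, Module.End.mul_apply, s2 i1 h12 _ (mx i1 w hw)]
  have e2 : ∀ w ∈ W i2, ρ (u * x) w = s • ρ u w := fun w hw => by
    rw [map_mul, Module.End.mul_apply, sx i2 h12.symm w hw, map_smul]
  have e3 : ∀ i, i ≠ i1 → i ≠ i2 → ∀ w ∈ W i, ρ (u * x) w = (3 * s) • w := fun i a1 a2 w hw => by
    rw [map_mul, Module.End.mul_apply, sx i a1 w hw, map_smul, s2 i a2 w hw, smul_smul, mul_comm]
  refine ⟨fun i ν => edOn (W i) (ρ (u * x)) ν, ?_, fun ν => ?_, fun ν => ?_, fun i a1 a2 => ?_⟩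
  · refine xstepa_bal ρ W hB hbal _ a ho (fun i => by rw [mul_smul, fx, f2]) ?_
    obtain ⟨w, hw, hw0, e⟩ := (edOn_pos _ _ _).1 hv
    refine ⟨w, hw0, ?_⟩
    rw [e1 w hw, e, smul_smul, show (3 * 9 : K) = 1 by decide, one_smul]
  · exact xstepa_mul _ _ _ _ _ (by decide) e1
  · exact (xstepa_mul _ _ _ _ _ hs e2).trans (d2 ν)
  · exact ⟨xstepa_full _ _ _ (e3 i a1 a2), fun ν hν => xstepa_zero _ _ _ _ (e3 i a1 a2) hν⟩

omit [Finite H] [Fintype I] in
theorem xstepa_dim [MulAction.IsPretransitive H I] (hB : BD ρ I W) (i j : I) :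
    Module.finrank K (W i) = Module.finrank K (W j) ∧ 0 < Module.finrank K (W i) := by
  obtain ⟨h, rfl⟩ := MulAction.exists_smul_eq H j i
  refine ⟨(dim_eq ρ W hB h 1 j 0).1, Nat.pos_of_ne_zero fun e => hB.ne (h • j) ?_⟩
  exact Submodule.finrank_eq_zero.1 e

theorem xstepa_cube [MulAction.IsPretransitive H I] (hB : BD ρ I W) (hbal : HBal ρ)
    (hS : BScal ρ W) (hbb : BBal ρ W) (t : H) (a : ℕ) (i1 i2 i3 : I) (h12 : i1 ≠ i2)
    (h13 : i1 ≠ i3) (h23 : i2 ≠ i3) (ht : t ^ (3 ^ a) = 1) (ft : ∀ i : I, t • i = i)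
    (st : ∀ i, i ≠ i1 → ∀ w ∈ W i, ρ t w = (3 : K) • w) : (ρ t) ^ 3 = 1 := by
  by_contra hne
  obtain ⟨k, k1, k2⟩ : ∃ k, ρ (t ^ (3 ^ (k + 1))) ≠ 1 ∧ ρ (t ^ (3 ^ (k + 1 + 1))) = 1 := by
    by_contra hn
    have h1 : ∀ k, ρ (t ^ (3 ^ (k + 1))) ≠ 1 := by
      intro k
      induction k with
      | zero => rw [map_pow]; exact hne
      | succ k ih => exact fun e => hn ⟨k, ih, e⟩
    refine h1 a ?_
    rw [pow_succ, pow_mul, ht, one_pow, map_one]
  have oy : (t ^ (3 ^ (k + 1))) ^ (3 ^ a) = 1 := by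
    rw [← pow_mul, mul_comm, pow_mul, ht, one_pow]
  have fy : ∀ i : I, (t ^ (3 ^ (k + 1))) • i = i := fun i =>
    (MulAction.stabilizer H i).pow_mem (show t ∈ MulAction.stabilizer H i from ft i) _
  have sy : ∀ i, i ≠ i1 → ∀ w ∈ W i, ρ (t ^ (3 ^ (k + 1))) w = (1 : K) • w := by
    intro i hi w hw
    rw [map_pow, xstepa_pow _ _ _ (st i hi) _ w hw, pow_succ', pow_mul,
      show (3 : K) ^ 3 = 1 by decide, one_pow]
  rw [pow_succ _ (k + 1), pow_mul, map_pow] at k2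
  generalize t ^ (3 ^ (k + 1)) = y at k1 k2 oy fy sy
  have my : ∀ w ∈ W i1, ρ y w ∈ W i1 := fun w hw => by
    have := hB.map y i1 w hw
    rwa [fy] at this
  have b1 : ∑ i, edOn (W i) (ρ y) 3 = ∑ i, edOn (W i) (ρ y) 9 := by
    refine xstepa_bal ρ W hB hbal y a (by rw [← map_pow, oy, map_one]) fy ?_
    obtain ⟨w, hw, hw0⟩ := Submodule.exists_mem_ne_zero_of_ne_bot (hB.ne i2)
    exact ⟨w, hw0, by rw [sy i2 h12.symm w hw, one_smul]⟩
  rw [Finset.sum_eq_single i1 (fun i _ hi => xstepa_zero _ _ _ _ (sy i hi) (by decide))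
      (fun h => (h (Finset.mem_univ _)).elim),
    Finset.sum_eq_single i1 (fun i _ hi => xstepa_zero _ _ _ _ (sy i hi) (by decide))
      (fun h => (h (Finset.mem_univ _)).elim)] at b1
  have b2 := split3 (W i1) (ρ y) my fun w _ => by rw [k2, Module.End.one_apply]
  have b3 : 0 < edOn (W i1) (ρ y) 3 := by
    refine Nat.pos_of_ne_zero fun e => k1 (ext_blocks ρ W hB _ _ fun i w hw => ?_)
    rw [Module.End.one_apply]
    by_cases hi : i = i1
    · subst hi
      rw [xstepa_of_full (W i) (ρ y) 1 (by omega) w hw, one_smul]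
    · rw [sy i hi w hw, one_smul]
  obtain ⟨z, z1, z2⟩ := hS i1
  have e1 : ∀ w ∈ W i1, ρ (y * z * z) w = (9 : K) • ρ y w := fun w hw => by
    rw [map_mul, map_mul, Module.End.mul_apply, Module.End.mul_apply, z2 w hw, map_smul,
      z2 w hw, smul_smul, map_smul, show (3 * 3 : K) = 9 by decide]
  have b4 := hbb i1 (y * z * z) (by rw [mul_smul, mul_smul, z1, z1, fy]) (by
    obtain ⟨w, hw, hw0, e⟩ := (edOn_pos _ _ _).1 b3
    refine ⟨w, hw, hw0, ?_⟩
    rw [e1 w hw, e, smul_smul, show (9 * 3 : K) = 1 by decide, one_smul])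
  have b5 := xstepa_mul _ _ _ _ 9 (by decide) e1
  have b6 := xstepa_mul _ _ _ _ 1 (by decide) e1
  rw [show (9 * 9 : K) = 3 by decide] at b5
  rw [mul_one] at b6
  obtain ⟨h, rfl⟩ := MulAction.exists_smul_eq H i1 i2
  obtain ⟨E, c1, c2, c3, c4⟩ :=
    xstepa_pair ρ W hB hbal t y h a i1 1 one_ne_zero h12 ht oy ft fy st sy (by omega)
  have c5 := xstepa_sum Finset.univ (fun i => E i 3) (fun i => E i 9) i1 (h • i1) i3
    (Finset.mem_univ _) (Finset.mem_univ _) (Finset.mem_univ _) h12 h13 h23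
    (fun i _ a1 a2 => (c4 i a1 a2).2 9 (by decide)) c1
  have c6 := c2 1
  have c7 := c2 3
  have c8 := c3 9
  have c9 := (c4 i3 h13.symm h23.symm).1
  rw [mul_one] at c6 c9
  rw [show (3 * 3 : K) = 9 by decide] at c7
  rw [one_mul] at c8
  have c10 := (xstepa_dim ρ W hB i1 i3).1
  have c11 := xstepa_of_full (W i1) (ρ t) 9 (by omega)
  refine hne (ext_blocks ρ W hB _ _ fun i w hw => ?_)
  rw [Module.End.one_apply]
  by_cases hi : i = i1
  · subst hi
    rw [xstepa_pow _ _ _ c11 3 w hw, show (9 : K) ^ 3 = 1 by decide, one_smul]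
  · rw [xstepa_pow _ _ _ (st i hi) 3 w hw, show (3 : K) ^ 3 = 1 by decide, one_smul]

theorem xstepa_fin [MulAction.IsPretransitive H I] (hB : BD ρ I W) (hbal : HBal ρ)
    (hS : BScal ρ W) (hbb : BBal ρ W) (t : H) (a : ℕ) (i1 i2 i3 : I) (h12 : i1 ≠ i2)
    (h13 : i1 ≠ i3) (h23 : i2 ≠ i3) (ht : t ^ (3 ^ a) = 1) (ft : ∀ i : I, t • i = i)
    (st : ∀ i, i ≠ i1 → ∀ w ∈ W i, ρ t w = (3 : K) • w) : ∀ w ∈ W i1, ρ t w = (3 : K) • w := by
  have h3 := xstepa_cube ρ W hB hbal hS hbb t a i1 i2 i3 h12 h13 h23 ht ft st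
  have mt : ∀ w ∈ W i1, ρ t w ∈ W i1 := fun w hw => by
    have := hB.map t i1 w hw
    rwa [ft] at this
  have b2 := split3 (W i1) (ρ t) mt fun w _ => by rw [h3, Module.End.one_apply]
  obtain ⟨d2, d0⟩ := xstepa_dim ρ W hB i1 i2
  have d3 := (xstepa_dim ρ W hB i1 i3).1
  have p0 : edOn (W i1) (ρ t) 1 = 0 := by
    by_contra e
    obtain ⟨w, -, hw0, hw⟩ := (edOn_pos _ _ _).1 (Nat.pos_of_ne_zero e)
    have b1 := xstepa_bal ρ W hB hbal t a (by rw [← map_pow, ht, map_one]) ft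
      ⟨w, hw0, by rw [hw, one_smul]⟩
    have c5 := xstepa_sum Finset.univ _ _ i1 i2 i3
      (Finset.mem_univ _) (Finset.mem_univ _) (Finset.mem_univ _) h12 h13 h23
      (fun i _ a1 _ => xstepa_zero _ _ _ _ (st i a1) (by decide)) b1
    rw [xstepa_full _ _ _ (st i2 h12.symm), xstepa_full _ _ _ (st i3 h13.symm),
      xstepa_zero _ _ _ 9 (st i2 h12.symm) (by decide)] at c5
    omega
  have p2 : edOn (W i1) (ρ t) 9 = 0 := by
    by_contra e
    obtain ⟨h, rfl⟩ := MulAction.exists_smul_eq H i1 i2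
    obtain ⟨E, c1, c2, c3, c4⟩ := xstepa_pair ρ W hB hbal t t h a i1 3 (by decide) h12 ht ht
      ft ft st st (Nat.pos_of_ne_zero e)
    have c5 := xstepa_sum Finset.univ (fun i => E i 9) (fun i => E i 3) i1 (h • i1) i3
      (Finset.mem_univ _) (Finset.mem_univ _) (Finset.mem_univ _) h12 h13 h23
      (fun i _ a1 a2 => (c4 i a1 a2).2 3 (by decide)) c1.symm
    have c6 := c2 1
    have c8 := c3 1
    have c9 := (c4 i3 h13.symm h23.symm).1
    rw [mul_one] at c6 c8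
    rw [show (3 * 3 : K) = 9 by decide] at c9
    omega
  exact xstepa_of_full _ _ _ (by omega)

end Aux

theorem stepA {V : Type} [AddCommGroup V] [Module K V] [Module.Finite K V]
    {H : Type} [Group H] [Finite H] (ρ : Representation K H V) {I : Type} [Fintype I] [MulAction H I] [MulAction.IsPretransitive H I]
    (W : I → Submodule K V) (hB : BD ρ I W) (hbal : HBal ρ) (hE : HEP ρ 3) (hS : BScal ρ W)
    (r : I → V) (hr : BReg ρ W r) (hbb : BBal ρ W) : Scal ρ := by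
  classical
  have hr' : ∀ S : Finset I, ∀ i ∈ S, r i ∈ W i ∧ r i ≠ 0 := fun _ i _ => ⟨(hr i).1, (hr i).2.1⟩
  have key : ∀ (S : Finset I) (t : H) (a : ℕ), t ^ (3 ^ a) = 1 →
      ρ t (∑ i ∈ S, r i) = (3 : K) • ∑ i ∈ S, r i →
      (∀ i ∈ S, t • i ∈ S) ∧ (∀ i ∈ S, t • i = i → ∀ w ∈ W i, ρ t w = (3 : K) • w) ∧
      ∀ j ∈ S, t • j ≠ j →
        ∑ i ∈ Finset.univ.filter (fun i : I => t • i = i), edOn (W i) (ρ t) 3 =
          ∑ i ∈ Finset.univ.filter (fun i : I => t • i = i), edOn (W i) (ρ t) 9 := by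
    intro S t a ht h
    have h1 := comp_eq ρ W hB S r (hr' S) t 3 h
    refine ⟨fun i hi => (h1 i hi).1, fun i hi e w hw => ?_, fun j hj e => ?_⟩
    · have h2 := (h1 i hi).2
      rw [e] at h2
      have := block_scal ρ W hB hS r hr t a ht i e 1 (by rw [pow_one]; exact h2) w hw
      rwa [pow_one] at this
    · exact xstepa_bal0 ρ W hB hbal t a ht (xstepa_mov ρ W hB t a ht _ h
        (sum_not_mem ρ W hB S r (hr' S) (fun i => t • i = i) j hj e))
  have fin : ∀ t : H, (∀ i, ∀ w ∈ W i, ρ t w = (3 : K) • w) → Scal ρ := by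
    intro t h
    refine ⟨t, fun v => ?_⟩
    rw [ext_blocks ρ W hB (ρ t) ((3 : K) • LinearMap.id) h]
    rfl
  obtain ⟨t, a, ht, h⟩ := ep3 ρ hE (∑ i, r i)
  obtain ⟨-, k2, k3⟩ := key _ t a ht h
  by_cases hall : ∀ i : I, t • i = i
  · exact fin t fun i => k2 i (Finset.mem_univ _) (hall i)
  obtain ⟨i1, hi1⟩ := not_forall.1 hall
  have k4 := k3 i1 (Finset.mem_univ _) hi1
  rw [Finset.sum_eq_zero (f := fun i => edOn (W i) (ρ t) 9) fun i hi =>
    xstepa_zero _ _ _ _ (k2 i (Finset.mem_univ _) (Finset.mem_filter.1 hi).2) (by decide),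
    Finset.sum_eq_zero_iff] at k4
  have k5 : Finset.univ.filter (fun i : I => t • i = i) = ∅ := by
    refine Finset.eq_empty_of_forall_notMem fun i hi => ?_
    have h1 := k4 i hi
    rw [xstepa_full _ _ _ (k2 i (Finset.mem_univ _) (Finset.mem_filter.1 hi).2)] at h1
    exact (xstepa_dim ρ W hB i i).2.ne' h1
  have k6 := card_fix (I := I) t a ht
  rw [k5, Finset.card_empty] at k6
  clear k5 k4 k3 k2 hi1 hall h ht t a
  obtain ⟨t, a, ht, h⟩ := ep3 ρ hE (∑ i ∈ Finset.univ.erase i1, r i)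
  obtain ⟨k1, k2, k3⟩ := key _ t a ht h
  have f1 : t • i1 = i1 := by
    by_contra e
    have h1 : ∀ n : ℕ, (t ^ (n + 1)) • i1 ∈ Finset.univ.erase i1 := by
      intro n
      induction n with
      | zero => simpa using e
      | succ n ih => rw [pow_succ', mul_smul]; exact k1 _ ih
    have h2 := h1 (3 ^ a - 1)
    rw [Nat.sub_add_cancel (Nat.one_le_pow _ _ (by norm_num)), ht, one_smul] at h2
    simp at h2
  have m1 : i1 ∈ Finset.univ.filter (fun i : I => t • i = i) :=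
    Finset.mem_filter.2 ⟨Finset.mem_univ _, f1⟩
  have k7 : 1 < ((Finset.univ.filter (fun i : I => t • i = i)).erase i1).card := by
    have h1 := (card_fix (I := I) t a ht).trans k6.symm
    have h2 := Finset.card_pos.2 ⟨i1, m1⟩
    rw [Finset.card_erase_of_mem m1]
    unfold Nat.ModEq at h1
    omega
  obtain ⟨i2, m2, i3, m3, h23⟩ := Finset.one_lt_card.1 k7
  obtain ⟨h12, m2⟩ := Finset.mem_erase.1 m2
  obtain ⟨h13, m3⟩ := Finset.mem_erase.1 m3
  have st : ∀ i ∈ Finset.univ.filter (fun i : I => t • i = i), i ≠ i1 →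
      ∀ w ∈ W i, ρ t w = (3 : K) • w := fun i hi e =>
    k2 i (Finset.mem_erase.2 ⟨e, Finset.mem_univ _⟩) (Finset.mem_filter.1 hi).2
  have ft : ∀ i : I, t • i = i := by
    intro j
    by_contra e
    have hj : j ≠ i1 := fun e' => e (e' ▸ f1)
    have c5 := xstepa_sum _ _ _ i1 i2 i3 m1 m2 m3 h12.symm h13.symm h23
      (fun i hi a1 _ => xstepa_zero _ _ _ _ (st i hi a1) (by decide))
      (k3 j (Finset.mem_erase.2 ⟨hj, Finset.mem_univ _⟩) e)
    rw [xstepa_full _ _ _ (st i2 m2 h12), xstepa_full _ _ _ (st i3 m3 h13),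
      xstepa_zero _ _ _ 9 (st i2 m2 h12) (by decide)] at c5
    have d1 := edOn_le (W i1) (ρ t)
    obtain ⟨d2, d0⟩ := xstepa_dim ρ W hB i1 i2
    have d3 := (xstepa_dim ρ W hB i1 i3).1
    omega
  have st' : ∀ i, i ≠ i1 → ∀ w ∈ W i, ρ t w = (3 : K) • w := fun i =>
    st i (Finset.mem_filter.2 ⟨Finset.mem_univ _, ft i⟩)
  refine fin t fun i => ?_
  by_cases hi : i = i1
  · subst hi
    exact xstepa_fin ρ W hB hbal hS hbb t a i i2 i3 h12.symm h13.symm h23 ht ft st'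
  · exact st' i hi

end Pool.Agent.N9181
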