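import Pool.Agent.MP_9181f8_al.N.Cyc
import Pool.Agent.MP_9181f8_al.N.Comp

namespace Pool.Agent.N9181

open scoped commutatorElement

theorem xstepb_scale {V : Type} [AddCommGroup V] [Module K V]
    (a b : Module.End K V) (hb : ∀ v, b v = (9 : K) • a v) (c : K) :
    ed b (9 * c) = ed a c := by
  have h : b.eigenspace (9 * c) = a.eigenspace c := by
    ext v
    rw [Module.End.mem_eigenspace_iff, Module.End.mem_eigenspace_iff, hb]
    constructor
    · intro h
      have h3 : (3 : K) • (9 : K) • a v = (3 : K) • (9 * c) • v := by rw [h]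
      have e1 : (3 : K) * 9 = 1 := by decide
      rw [smul_smul, smul_smul, ← mul_assoc, e1, one_smul, one_mul] at h3
      exact h3
    · intro h
      rw [h, smul_smul]
  unfold ed
  rw [h]

theorem xstepb_tri {V : Type} [AddCommGroup V] [Module K V] [Module.Finite K V]
    {H : Type} [Group H] (ρ : Representation K H V) (hbal : HBal ρ) (hz : Scal ρ)
    (g : H) (v : V) (hv : v ≠ 0) (hg : ρ g v = v) (h3 : 0 < ed (ρ g) 3) :
    ed (ρ g) 1 = ed (ρ g) 9 := by
  obtain ⟨z, hz⟩ := hz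
  rw [← edOn_top, edOn_pos] at h3
  obtain ⟨w, -, hw0, hw⟩ := h3
  have e9 : (3 : K) * 3 = 9 := by decide
  have hb : ∀ u, ρ (g * z * z) u = (9 : K) • ρ g u := by
    intro u
    rw [map_mul, map_mul, Module.End.mul_apply, Module.End.mul_apply, hz, hz, smul_smul, e9,
      map_smul]
  have hw1 : ρ (g * z * z) w = w := by
    have e1 : (9 : K) * 3 = 1 := by decide
    rw [hb, hw, smul_smul, e1, one_smul]
  have h1 := hbal (g * z * z) w hw0 hw1
  have h2 := xstepb_scale (ρ g) (ρ (g * z * z)) hb 1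
  have h4 := xstepb_scale (ρ g) (ρ (g * z * z)) hb 9
  have e2 : (9 : K) * 1 = 9 := by decide
  have e3 : (9 : K) * 9 = 3 := by decide
  rw [e2] at h2
  rw [e3] at h4
  omega

theorem xstepb_zero {V : Type} [AddCommGroup V] [Module K V] [Module.Finite K V]
    (W : Submodule K V) (a : Module.End K V) (ha : ∀ w ∈ W, a w = w) (c : K) (hc : c ≠ 1) :
    edOn W a c = 0 := by
  by_contra h
  obtain ⟨w, hw, hw0, hwa⟩ := (edOn_pos W a c).1 (Nat.pos_of_ne_zero h)
  rw [ha w hw] at hwa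
  have h1 : (c - 1) • w = 0 := by rw [sub_smul, one_smul, ← hwa, sub_self]
  rcases smul_eq_zero.1 h1 with h2 | h2
  · exact hc (sub_eq_zero.1 h2)
  · exact hw0 h2

theorem xstepb_one {V : Type} [AddCommGroup V] [Module K V]
    (W : Submodule K V) (a : Module.End K V) (ha : ∀ w ∈ W, a w = w) :
    edOn W a 1 = Module.finrank K W := by
  have h : (W ⊓ a.eigenspace 1 : Submodule K V) = W := by
    refine inf_eq_left.2 fun w hw => ?_
    rw [Module.End.mem_eigenspace_iff, one_smul]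
    exact ha w hw
  unfold edOn
  rw [h]

theorem xstepb_ne {V : Type} [AddCommGroup V] [Module K V] [Module.Finite K V]
    {H : Type} [Group H] (ρ : Representation K H V) {I : Type} [MulAction H I]
    (W : I → Submodule K V) (hB : BD ρ I W) (S : Finset I) (r : I → V)
    (hr : ∀ i ∈ S, r i ∈ W i ∧ r i ≠ 0) (i : I) (hi : i ∈ S) : (∑ i ∈ S, r i) ≠ 0 := by
  intro h
  have h1 := sum_not_mem ρ W hB S r hr (fun _ => False) i hi (fun h => h)
  rw [h] at h1
  exact h1 (Submodule.zero_mem _)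

theorem xstepb_three {V : Type} [AddCommGroup V] [Module K V]
    {H : Type} [Group H] [Finite H] (ρ : Representation K H V) (h : H) (a : ℕ)
    (ha : (ρ h) ^ (3 ^ a) = 1) : ∃ (t : H) (b : ℕ), t ^ (3 ^ b) = 1 ∧ ρ t = ρ h := by
  obtain ⟨e, b, h1, -, h2⟩ := p_part 3 Nat.prime_three h
  exact ⟨h ^ e, b, h1, h2 (Module.End K V) ρ a ha⟩

theorem xstepb_pow {T : Type} [Monoid T] (x : T) (a : ℕ) (ha : x ^ (3 ^ a) = 1) (hx : x ≠ 1) :
    ∃ k : ℕ, x ^ (3 ^ k) ≠ 1 ∧ (x ^ (3 ^ k)) ^ 3 = 1 := by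
  induction a with
  | zero => exact absurd (by simpa using ha) hx
  | succ n ih =>
    by_cases h : x ^ (3 ^ n) = 1
    · exact ih h
    · exact ⟨n, h, by rw [← pow_mul, ← pow_succ, ha]⟩

theorem xstepb_caseA {V : Type} [AddCommGroup V] [Module K V] [Module.Finite K V]
    {H : Type} [Group H] [Finite H] (ρ : Representation K H V) {I : Type} [Fintype I]
    [MulAction H I] (W : I → Submodule K V) (hB : BD ρ I W) (hbal : HBal ρ) (hS : BScal ρ W)
    (r : I → V) (hr : BReg ρ W r) (hz : Scal ρ) (hm : ¬ 3 ∣ Fintype.card I)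
    (t : H) (a : ℕ) (ht : t ^ (3 ^ a) = 1) (hv : ρ t (∑ i, r i) = ∑ i, r i) : ρ t = 1 := by
  classical
  have hr' : ∀ i ∈ (Finset.univ : Finset I), r i ∈ W i ∧ r i ≠ 0 :=
    fun i _ => ⟨(hr i).1, (hr i).2.1⟩
  have hv1 : ρ t (∑ i, r i) = (1 : K) • ∑ i, r i := by rw [one_smul]; exact hv
  have hc := comp_eq ρ W hB Finset.univ r hr' t 1 hv1
  have hfix : ∀ i, t • i = i → ∀ w ∈ W i, ρ t w = w := by
    intro i hi w hw
    have h1 := (hc i (Finset.mem_univ i)).2
    rw [hi] at h1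
    have h2 := block_scal ρ W hB hS r hr t a ht i hi 0 (by rw [pow_zero]; exact h1) w hw
    rwa [pow_zero, one_smul] at h2
  by_cases hall : ∀ i : I, t • i = i
  · exact ext_blocks ρ W hB _ _ fun i w hw => hfix i (hall i) w hw
  exfalso
  obtain ⟨j, hj⟩ := not_forall.1 hall
  obtain ⟨c, hc1, hc2⟩ := cyc ρ W hB t a ht
  have hpos : 0 < c := hc2 1 _ (one_pow 3) hv1
    (sum_not_mem ρ W hB Finset.univ r hr' (fun i => t • i = i) j (Finset.mem_univ j) hj)
  have e3 := hc1 3 (by decide)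
  have e9 := hc1 9 (by decide)
  have e1 := hc1 1 (one_pow 3)
  have z9 : ∑ i ∈ Finset.univ.filter (fun i : I => t • i = i), edOn (W i) (ρ t) 9 = 0 :=
    Finset.sum_eq_zero fun i hi =>
      xstepb_zero _ _ (hfix i (Finset.mem_filter.1 hi).2) 9 (by decide)
  have hf := card_fix (I := I) t a ht
  have hne : (Finset.univ.filter (fun i : I => t • i = i)).Nonempty := by
    rw [← Finset.card_pos]
    refine Nat.pos_of_ne_zero fun h0 => hm ?_
    rw [h0] at hf
    exact (Nat.modEq_zero_iff_dvd).1 hf.symm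
  obtain ⟨i, hi⟩ := hne
  have p1 : 0 < edOn (W i) (ρ t) 1 := (edOn_pos _ _ _).2
    ⟨r i, (hr i).1, (hr i).2.1, by
      rw [one_smul]; exact hfix i (Finset.mem_filter.1 hi).2 _ (hr i).1⟩
  have p2 : edOn (W i) (ρ t) 1 ≤
      ∑ i ∈ Finset.univ.filter (fun i : I => t • i = i), edOn (W i) (ρ t) 1 :=
    Finset.single_le_sum (f := fun i => edOn (W i) (ρ t) 1) (fun _ _ => Nat.zero_le _) hi
  have h := xstepb_tri ρ hbal hz t _ (xstepb_ne ρ W hB Finset.univ r hr' j (Finset.mem_univ j))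
    hv (by omega)
  omega

theorem xstepb_caseB {V : Type} [AddCommGroup V] [Module K V] [Module.Finite K V]
    {H : Type} [Group H] [Finite H] (ρ : Representation K H V) {I : Type} [Fintype I]
    [DecidableEq I] [MulAction H I] [MulAction.IsPretransitive H I]
    (W : I → Submodule K V) (hB : BD ρ I W) (hbal : HBal ρ) (hS : BScal ρ W)
    (r : I → V) (hr : BReg ρ W r) (hz : Scal ρ) (hm : 3 ∣ Fintype.card I) (i1 : I)
    (hv0 : (∑ i ∈ Finset.univ.erase i1, r i) ≠ 0)
    (t : H) (a : ℕ) (ht : t ^ (3 ^ a) = 1) (h3 : (ρ t) ^ 3 = 1)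
    (hv : ρ t (∑ i ∈ Finset.univ.erase i1, r i) = ∑ i ∈ Finset.univ.erase i1, r i) :
    ρ t = 1 := by
  have hr' : ∀ i ∈ (Finset.univ.erase i1 : Finset I), r i ∈ W i ∧ r i ≠ 0 :=
    fun i _ => ⟨(hr i).1, (hr i).2.1⟩
  have hv1 : ρ t (∑ i ∈ Finset.univ.erase i1, r i) =
      (1 : K) • ∑ i ∈ Finset.univ.erase i1, r i := by rw [one_smul]; exact hv
  have hc := comp_eq ρ W hB _ r hr' t 1 hv1
  have hfix : ∀ i, i ≠ i1 → t • i = i → ∀ w ∈ W i, ρ t w = w := by
    intro i hi1 hi w hw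
    have h1 := (hc i (Finset.mem_erase.2 ⟨hi1, Finset.mem_univ i⟩)).2
    rw [hi] at h1
    have h2 := block_scal ρ W hB hS r hr t a ht i hi 0 (by rw [pow_zero]; exact h1) w hw
    rwa [pow_zero, one_smul] at h2
  have hi1 : t • i1 = i1 := by
    by_contra hne
    have h1 : t⁻¹ • i1 ≠ i1 := fun h => hne (by
      conv_lhs => rw [← h]
      exact smul_inv_smul t i1)
    have h2 := (hc _ (Finset.mem_erase.2 ⟨h1, Finset.mem_univ _⟩)).1
    rw [smul_inv_smul] at h2
    exact (Finset.mem_erase.1 h2).1 rfl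
  by_contra hne
  have hb := hbal t _ hv0 hv
  have p3 : 0 < ed (ρ t) 3 := by
    refine Nat.pos_of_ne_zero fun h0 => hne ?_
    have hs := split3 (⊤ : Submodule K V) (ρ t) (fun _ _ => Submodule.mem_top)
      (fun w _ => by rw [h3]; rfl)
    rw [edOn_top, edOn_top, edOn_top, ← hb, h0, finrank_top] at hs
    have ht1 : Module.End.eigenspace (ρ t) 1 = ⊤ :=
      Submodule.eq_top_of_finrank_eq (by unfold ed at hs; omega)
    ext w
    have hw : w ∈ Module.End.eigenspace (ρ t) 1 := by rw [ht1]; exact Submodule.mem_top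
    rw [Module.End.mem_eigenspace_iff, one_smul] at hw
    exact hw
  have htri := xstepb_tri ρ hbal hz t _ hv0 hv p3
  obtain ⟨c, hc1, -⟩ := cyc ρ W hB t a ht
  have e9 := hc1 9 (by decide)
  have e1 := hc1 1 (one_pow 3)
  have hf := card_fix (I := I) t a ht
  generalize hF : Finset.univ.filter (fun i : I => t • i = i) = F at e9 e1 hf
  have hmem : ∀ i, i ∈ F ↔ t • i = i := fun i => by rw [← hF]; simp
  have hF1 : i1 ∈ F := (hmem i1).2 hi1
  have hcard : 3 ≤ F.card :=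
    Nat.le_of_dvd (Finset.card_pos.2 ⟨i1, hF1⟩) ((hf.dvd_iff (dvd_refl 3)).2 hm)
  rw [← Finset.add_sum_erase F _ hF1] at e9 e1
  have z9 : ∑ i ∈ F.erase i1, edOn (W i) (ρ t) 9 = 0 :=
    Finset.sum_eq_zero fun i hi =>
      xstepb_zero _ _ (hfix i (Finset.mem_erase.1 hi).1 ((hmem i).1 (Finset.mem_erase.1 hi).2))
        9 (by decide)
  have z1 : ∑ i ∈ F.erase i1, edOn (W i) (ρ t) 1 =
      (F.card - 1) * Module.finrank K (W i1) := by
    rw [← Finset.card_erase_of_mem hF1, ← smul_eq_mul, ← Finset.sum_const]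
    refine Finset.sum_congr rfl fun i hi => ?_
    rw [xstepb_one _ _ (hfix i (Finset.mem_erase.1 hi).1 ((hmem i).1 (Finset.mem_erase.1 hi).2))]
    obtain ⟨g, hg⟩ := MulAction.exists_smul_eq H i1 i
    rw [← hg]
    exact (dim_eq ρ W hB g t i1 1).1
  have hle := edOn_le (W i1) (ρ t)
  have hd : 0 < Module.finrank K (W i1) :=
    Nat.pos_of_ne_zero fun h0 => hB.ne i1 (Submodule.finrank_eq_zero.1 h0)
  have h2 : 2 * Module.finrank K (W i1) ≤ (F.card - 1) * Module.finrank K (W i1) :=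
    Nat.mul_le_mul_right _ (by omega)
  omega

theorem stepB {V : Type} [AddCommGroup V] [Module K V] [Module.Finite K V]
    {H : Type} [Group H] [Finite H] (ρ : Representation K H V) {I : Type} [Fintype I] [Nonempty I] [MulAction H I]
    [MulAction.IsPretransitive H I]
    (W : I → Submodule K V) (hB : BD ρ I W) (hbal : HBal ρ) (hS : BScal ρ W)
    (r : I → V) (hr : BReg ρ W r) (hz : Scal ρ) : ∃ v, Reg ρ v := by
  classical
  obtain ⟨i1⟩ := ‹Nonempty I›
  by_cases hm : 3 ∣ Fintype.card I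
  · have hc : 1 < Fintype.card I :=
      lt_of_lt_of_le (by norm_num) (Nat.le_of_dvd Fintype.card_pos hm)
    obtain ⟨j, hj⟩ := Fintype.exists_ne_of_one_lt_card hc i1
    have hv0 : (∑ i ∈ Finset.univ.erase i1, r i) ≠ 0 :=
      xstepb_ne ρ W hB _ r (fun i _ => ⟨(hr i).1, (hr i).2.1⟩) j
        (Finset.mem_erase.2 ⟨hj, Finset.mem_univ j⟩)
    refine ⟨_, hv0, fun h a ha hv => ?_⟩
    obtain ⟨t, b, htb, ht⟩ := xstepb_three ρ h a ha
    by_contra hne
    obtain ⟨k, hk1, hk3⟩ := xstepb_pow (ρ h) a ha hne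
    have hy : ρ (t ^ (3 ^ k)) = (ρ h) ^ (3 ^ k) := by rw [map_pow, ht]
    refine hk1 ?_
    rw [← hy]
    refine xstepb_caseB ρ W hB hbal hS r hr hz hm i1 hv0 _ b ?_ (by rw [hy]; exact hk3) ?_
    · rw [← pow_mul, mul_comm, pow_mul, htb, one_pow]
    · rw [hy, Module.End.pow_apply]
      exact Function.iterate_fixed hv _
  · refine ⟨∑ i, r i, xstepb_ne ρ W hB _ r (fun i _ => ⟨(hr i).1, (hr i).2.1⟩) i1
      (Finset.mem_univ i1), fun h a ha hv => ?_⟩
    obtain ⟨t, b, htb, ht⟩ := xstepb_three ρ h a ha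
    rw [← ht] at hv ⊢
    exact xstepb_caseA ρ W hB hbal hS r hr hz hm t b htb hv

end Pool.Agent.N9181
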