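import Pool.Agent.MP_9181f8_al.N.Unbal
import Pool.Agent.MP_9181f8_al.N.BaseA1
import Pool.Agent.MP_9181f8_al.N.BaseA2
import Pool.Agent.MP_9181f8_al.N.BaseB
import Pool.Agent.MP_9181f8_al.N.StepA
import Pool.Agent.MP_9181f8_al.N.StepB
import Pool.Agent.MP_9181f8_al.N.Struct
import Pool.Agent.MP_9181f8_al.N.Blocks

namespace Pool.Agent.N9181

open scoped commutatorElement

/-- The statement in dimension `n`. -/
def xthmm_P (n : ℕ) : Prop :=
  ∀ (V : Type) [AddCommGroup V] [Module K V] [Module.Finite K V] (H : Type) [Group H] [Finite H]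
    [Group.IsSolvable H], Module.finrank K V = n → ¬ 13 ∣ Nat.card H →
    ∀ (ρ : Representation K H V), Irr ρ → ∀ N m : ℕ, NM H N m → HU ρ N m → HReal ρ → HEP ρ 3 →
      Scal ρ ∧ ∃ v, Reg ρ v

theorem xthmm_base {V : Type} [AddCommGroup V] [Module K V] [Module.Finite K V]
    {H : Type} [Group H] [Finite H] [Group.IsSolvable H] (h13 : ¬ 13 ∣ Nat.card H)
    (ρ : Representation K H V) (hinj : Function.Injective ρ) (hirr : Irr ρ) (N m : ℕ)
    (hNM : NM H N m) (hU : HU ρ N m) (hR : HReal ρ) (hE : HEP ρ 3)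
    (h : ∀ B : Subgroup H, B.Normal → (∀ a ∈ B, ∀ b ∈ B, a * b = b * a) → IsCyclic B) :
    Scal ρ ∧ ∃ v, Reg ρ v := by
  obtain ⟨A, F, hS⟩ := exists_sd h
  have hbal := hbal_of_hreal ρ (cop_of_card ρ h13) hR
  have hz : Scal ρ := by
    by_cases h3 : 3 ∣ A.relIndex F
    · exact baseA2 h13 ρ hinj hirr A F hS hbal N m hNM hU hE h3
    · obtain ⟨x, a, hx, hne⟩ := unbal h13 ρ hirr.1 hE
      exact baseA1 h13 ρ hinj hirr A F hS hbal h3 x a hx hne
  exact ⟨hz, baseB h13 ρ hinj hirr A F hS hbal N m hNM hU hz⟩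

theorem xthmm_step {V : Type} [AddCommGroup V] [Module K V] [Module.Finite K V]
    {H : Type} [Group H] [Finite H] [Group.IsSolvable H] (h13 : ¬ 13 ∣ Nat.card H)
    (ρ : Representation K H V) (hinj : Function.Injective ρ) (hirr : Irr ρ) (N m : ℕ)
    (hNM : NM H N m) (hU : HU ρ N m) (hR : HReal ρ) (hE : HEP ρ 3)
    (ih : ∀ k < Module.finrank K V, xthmm_P k) : Scal ρ ∧ ∃ v, Reg ρ v := by
  by_cases h : ∀ B : Subgroup H, B.Normal → (∀ a ∈ B, ∀ b ∈ B, a * b = b * a) → IsCyclic B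
  · exact xthmm_base h13 ρ hinj hirr N m hNM hU hR hE h
  push Not at h
  obtain ⟨B, hBn, hc, hn⟩ := h
  obtain ⟨I, _, _, W, J, htr, hI, hB, hJ, hle, hmin⟩ := blocks ρ hinj hirr B hBn hc hn
  have hbal := hbal_of_hreal ρ (cop_of_card ρ h13) hR
  have key : ∀ i, ∃ σ : Representation K (MulAction.stabilizer H i) (W i),
      (∀ h w, (σ h w : V) = ρ h w) ∧ HBal σ ∧ Scal σ ∧ ∃ v, Reg σ v := by
    intro i
    obtain ⟨σ, hσ⟩ := exists_res ρ (MulAction.stabilizer H i) (W i) fun h hh w hw => by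
      have := hB.map h i w hw
      rwa [MulAction.mem_stabilizer_iff.1 hh] at this
    have hd := Subgroup.card_subgroup_dvd_card (MulAction.stabilizer H i)
    have h13' : ¬ 13 ∣ Nat.card (MulAction.stabilizer H i) := fun e => h13 (e.trans hd)
    obtain ⟨i1, i2⟩ := inherit h13 ρ N m hNM (J i) _ (hle i) (W i) (hJ i) σ hσ
    refine ⟨σ, hσ, hbal_of_hreal σ (cop_of_card σ h13') (i1 hR),
      ih _ (rank_lt ρ W hB hI i) (W i) _ rfl h13' σ ⟨?_, fun W' hW' => ?_⟩ N m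
        ⟨hd.trans hNM.1, hNM.2⟩ (i2 hU) (i1 hR) fun w => ?_⟩
    · obtain ⟨v, hv, h0⟩ := Submodule.exists_mem_ne_zero_of_ne_bot (hB.ne i)
      exact ⟨⟨v, hv⟩, fun e => h0 (congrArg Subtype.val e)⟩
    · have := hmin i (W'.map (W i).subtype) (Submodule.map_subtype_le _ _) (by
        rintro h hh _ ⟨w, hw, rfl⟩
        exact ⟨σ ⟨h, hh⟩ w, hW' _ w hw, hσ ⟨h, hh⟩ w⟩)
      refine this.imp (fun e => ?_) fun e => ?_
      · exact Submodule.map_injective_of_injective (W i).injective_subtype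
          (by rw [e, Submodule.map_bot])
      · exact Submodule.map_injective_of_injective (W i).injective_subtype
          (by rw [e, Submodule.map_subtype_top])
    · by_cases h0 : w = 0
      · exact ⟨1, by rw [h0, map_zero, smul_zero]⟩
      obtain ⟨h, hh⟩ := hE w
      have hi : h • i = i := by
        by_contra hne
        have hd := hB.ind.pairwiseDisjoint hne
        have m1 : (3 : K) • (w : V) ∈ W (h • i) := hh ▸ hB.map h i w w.2
        have m2 : (3 : K) • (w : V) ∈ W i := (W i).smul_mem _ w.2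
        have e := Submodule.disjoint_def.1 hd _ m1 m2
        rcases smul_eq_zero.1 e with e | e
        · exact absurd e (by decide)
        · exact h0 (Subtype.ext e)
      exact ⟨⟨h, hi⟩, Subtype.ext ((hσ ⟨h, hi⟩ w).trans hh)⟩
  choose σ hσ k1 k2 r k3 using key
  have hS : BScal ρ W := fun i => by
    obtain ⟨z, hz⟩ := k2 i
    exact ⟨z, z.2, fun w hw => (hσ i z ⟨w, hw⟩).symm.trans (congrArg Subtype.val (hz ⟨w, hw⟩))⟩
  have hr : BReg ρ W fun i => (r i : V) := fun i => by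
    refine ⟨(r i).2, fun e => (k3 i).1 (Subtype.ext e), fun h a hi h1 h2 w hw => ?_⟩
    have e := (k3 i).2 ⟨h, hi⟩ a (by
      ext u
      rw [← map_pow, hσ, Subgroup.coe_pow, map_pow, h1 _ u.2]
      rfl) (Subtype.ext ((hσ i ⟨h, hi⟩ (r i)).trans h2))
    have := hσ i ⟨h, hi⟩ ⟨w, hw⟩
    rw [e] at this
    exact this.symm
  have hbb : BBal ρ W := by
    rintro i h hi ⟨w, hw, h0, e⟩
    rw [← ed_res (W i) (ρ h) (σ i ⟨h, hi⟩) (hσ i ⟨h, hi⟩),
      ← ed_res (W i) (ρ h) (σ i ⟨h, hi⟩) (hσ i ⟨h, hi⟩)]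
    exact k1 i ⟨h, hi⟩ ⟨w, hw⟩ (fun e0 => h0 (congrArg Subtype.val e0))
      (Subtype.ext ((hσ i ⟨h, hi⟩ ⟨w, hw⟩).trans e))
  have : Nonempty I := Fintype.card_pos_iff.1 (by omega)
  have hz := stepA ρ W hB hbal hE hS _ hr hbb
  exact ⟨hz, stepB ρ W hB hbal hS _ hr hz⟩

theorem xthmm_all (n : ℕ) : xthmm_P n := by
  induction n using Nat.strong_induction_on with
  | _ n ih =>
  intro V _ _ _ H _ _ _ hn h13 ρ hirr N m hNM hU hR hE
  obtain ⟨H', _, _, π, ρ', hs, hinj, e, hd, -⟩ := exists_faithful ρ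
  have : Group.IsSolvable H' := Group.isSolvable_of_surjective hs
  obtain ⟨⟨z, hz⟩, v, hv, hreg⟩ := xthmm_step (fun c => h13 (c.trans hd)) ρ' hinj
    ⟨hirr.1, fun W hW => hirr.2 W fun h v hv => e h ▸ hW (π h) v hv⟩ N m
    ⟨hd.trans hNM.1, hNM.2⟩
    (fun h j hj M => by
      obtain ⟨g, rfl⟩ := hs h
      simp only [← map_pow π, e]
      exact hU g j hj M)
    (fun h v h0 hv M => by
      obtain ⟨g, rfl⟩ := hs h
      rw [← map_inv π, e, e]
      exact hR g v h0 (e g ▸ hv) M)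
    (fun v => by
      obtain ⟨h, hh⟩ := hE v
      exact ⟨π h, e h ▸ hh⟩)
    (hn ▸ ih)
  obtain ⟨g, rfl⟩ := hs z
  refine ⟨⟨g, fun u => e g ▸ hz u⟩, v, hv, fun h a h1 h2 => ?_⟩
  rw [← e] at h1 h2 ⊢
  exact hreg (π h) a h1 h2

theorem thmM {V : Type} [AddCommGroup V] [Module K V] [Module.Finite K V]
    {H : Type} [Group H] [Finite H] [Group.IsSolvable H] (h13 : ¬ 13 ∣ Nat.card H) (ρ : Representation K H V) (hirr : Irr ρ) (N m : ℕ) (hNM : NM H N m) (hU : HU ρ N m)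
    (hR : HReal ρ) (hE : HEP ρ 3) : Scal ρ ∧ ∃ v, Reg ρ v :=
  xthmm_all _ V H rfl h13 ρ hirr N m hNM hU hR hE

end Pool.Agent.N9181
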