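import Pool.Agent.MP_9181f8_al.N.Rmod
import Pool.Agent.MP_9181f8_al.N.ThmM

namespace Pool.Agent.N9181

open scoped commutatorElement

theorem xcopm_pos {V : Type} [AddCommGroup V] [Module K V] [Module.Finite K V]
    (a : Module.End K V) (c : K) : 0 < ed a c ↔ ∃ w, w ≠ 0 ∧ a w = c • w := by
  rw [← edOn_top, edOn_pos]
  simp

theorem xcopm_part {V : Type} [AddCommGroup V] [Module K V] {G : Type} [Group G] [Finite G]
    (ρ : Representation K G V) (h13 : ∀ (g : G) (a : ℕ), g ^ (13 ^ a) = 1 → ρ g = 1) (h : G) :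
    ∃ c : G, ¬ 13 ∣ orderOf c ∧ ρ c = ρ h ∧ ρ c⁻¹ = ρ h⁻¹ := by
  obtain ⟨e, h1, -, -, u, ⟨a, ha⟩, h2, -⟩ := q_part 13 (by norm_num) h
  have h3 : ρ (h ^ e) = ρ h := by
    conv_rhs => rw [h2, map_mul, h13 u a ha, mul_one]
  refine ⟨h ^ e, h1, h3, ?_⟩
  calc ρ (h ^ e)⁻¹ = ρ (h ^ e)⁻¹ * (ρ h * ρ h⁻¹) := by rw [← map_mul, mul_inv_cancel, map_one, mul_one]
    _ = ρ h⁻¹ := by rw [← h3, ← mul_assoc, ← map_mul, inv_mul_cancel, map_one, one_mul]

theorem xcopm_eig {V : Type} [AddCommGroup V] [Module K V] [Module.Finite K V]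
    (a : Module.End K V) (v : V) (hv : v ≠ 0) (h : (a ^ 3) v = v) :
    ∃ w, w ≠ 0 ∧ (a w = w ∨ a w = (3 : K) • w ∨ a w = (9 : K) • w) := by
  let W : Submodule K V := LinearMap.ker (a ^ 3 - 1)
  have hW : ∀ w, w ∈ W ↔ (a ^ 3) w = w := fun w => by
    simp only [W, LinearMap.mem_ker, LinearMap.sub_apply, Module.End.one_apply, sub_eq_zero]
  have h1 := split3 W a (fun w hw => by
    rw [hW] at hw ⊢
    rw [← Module.End.mul_apply, ← pow_succ, pow_succ', Module.End.mul_apply, hw])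
    fun w hw => (hW w).1 hw
  have h2 : 0 < Module.finrank K W :=
    Module.finrank_pos_iff_exists_ne_zero.2 ⟨⟨v, (hW v).2 h⟩, fun e => hv (congrArg Subtype.val e)⟩
  have h3 : 0 < edOn W a 1 ∨ 0 < edOn W a 3 ∨ 0 < edOn W a 9 := by omega
  rcases h3 with h3 | h3 | h3 <;> obtain ⟨w, -, h4, h5⟩ := (edOn_pos W a _).1 h3
  · exact ⟨w, h4, Or.inl (by rwa [one_smul] at h5)⟩
  · exact ⟨w, h4, Or.inr (Or.inl h5)⟩
  · exact ⟨w, h4, Or.inr (Or.inr h5)⟩

theorem copM {V : Type} [AddCommGroup V] [Module K V] [Module.Finite K V]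
    {G : Type} [Group G] [Finite G] [Group.IsSolvable G] (ρ : Representation K G V) (ι : V → G) (hι : Emb ρ ι) (N m : ℕ) (hP : PP G N m) (hirr : Irr ρ)
    (h13 : ∀ (g : G) (a : ℕ), g ^ (13 ^ a) = 1 → ρ g = 1) :
    Cop ρ ∧ HReal ρ ∧ Scal ρ ∧ ∃ v, Reg ρ v := by
  have hR : HReal ρ := fun h v hv hh M => by
    obtain ⟨c, h1, h2, h3⟩ := xcopm_part ρ h13 h
    obtain ⟨k, rfl⟩ := Nat.exists_eq_add_one_of_ne_zero hP.1.2.1.ne'
    have h4 : c ^ k = c⁻¹ := by
      rw [eq_inv_iff_mul_eq_one, ← pow_succ]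
      exact orderOf_dvd_iff_pow_eq_one.1 ((orderOf_dvd_natCard c).trans hP.1.1)
    have h5 : IsConj c (c ^ k) := by
      by_contra hn
      exact hv (rmod ρ ι hι _ m hP c h1 k (by simp) hn (fun g a _ hg => h13 g a hg) v
        (by rw [h2, hh]))
    rw [← h2, ← h3, ← h4]
    exact bt_isConj ρ _ _ h5 M
  refine ⟨fun h => ?_, hR, ?_⟩
  · obtain ⟨c, h1, h2, -⟩ := xcopm_part ρ h13 h
    exact ⟨orderOf c, h1, by rw [← h2, ← map_pow, pow_orderOf_eq_one, map_one]⟩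
  obtain ⟨H, _, _, π, σ, hs, -, he, -, hc⟩ := exists_faithful ρ
  have : Group.IsSolvable H := Group.isSolvable_of_surjective hs
  have hP' := pp_surj π hs N m hP
  obtain ⟨⟨z, hz⟩, v, hv, hv'⟩ := thmM (hc h13) σ
    ⟨hirr.1, fun W hW => hirr.2 W fun h w hw => he h ▸ hW (π h) w hw⟩ N m hP'.1 (pp_U σ N m hP')
    (fun h v hv hh M => by
      obtain ⟨g, rfl⟩ := hs h
      rw [← map_inv, he, he]
      exact hR g v hv (he g ▸ hh) M)
    (fun v => by
      obtain ⟨g, hg⟩ := pp_ep ρ ι hι N m hP v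
      exact ⟨π g, by rw [he, hg]⟩)
  obtain ⟨g, rfl⟩ := hs z
  refine ⟨⟨g, fun w => by rw [← he, hz]⟩, v, hv, fun h a h1 h2 => ?_⟩
  rw [← he] at h1 h2 ⊢
  exact hv' _ a h1 h2

theorem sign3 {V : Type} [AddCommGroup V] [Module K V] [Module.Finite K V]
    {G : Type} [Group G] (ρ : Representation K G V) (hV : ∃ v : V, v ≠ 0) (hbal : HBal ρ) (hz : Scal ρ) (x : G)
    (a : ℕ) (hx : x ^ (3 ^ a) = 1)
    (hr : ∀ i : ℕ, 1 ≤ i → ed (ρ (x ^ (3 ^ i))) 3 = ed (ρ (x ^ (3 ^ i))) 9)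
    (hf : ∀ (s : ℕ) (v : V), ρ x v = (3 : K) ^ s • v → v = 0) : False := by
  obtain ⟨z, hz⟩ := hz
  have key : ∀ (i : ℕ) (v : V), ρ (x ^ (3 ^ i)) v = v → v = 0 := by
    intro i
    induction i with
    | zero => exact fun v h => hf 0 v (by simpa using h)
    | succ k ih =>
      intro v h
      by_contra hv
      rw [pow_succ, pow_mul, map_pow] at h
      obtain ⟨w, hw, h1 | h1⟩ := xcopm_eig _ v hv h
      · exact hw (ih w h1)
      rcases Nat.eq_zero_or_pos k with rfl | hk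
      · rw [pow_zero, pow_one] at h1
        rcases h1 with h1 | h1
        · exact hw (hf 1 w (by rw [h1, pow_one]))
        · exact hw (hf 2 w (by rw [h1]; rfl))
      have h2 := hr k hk
      generalize x ^ (3 ^ k) = s at ih h1 h2
      have h3 : 0 < ed (ρ s) 3 ∧ 0 < ed (ρ s) 9 := by
        rcases h1 with h1 | h1
        · have := (xcopm_pos (ρ s) 3).2 ⟨w, hw, h1⟩
          omega
        · have := (xcopm_pos (ρ s) 9).2 ⟨w, hw, h1⟩
          omega
      obtain ⟨u, hu, h4⟩ := (xcopm_pos _ _).1 h3.1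
      obtain ⟨u', hu', h5⟩ := (xcopm_pos _ _).1 h3.2
      have h6 : ∀ y, ρ (z * z * s) y = (9 : K) • ρ s y := fun y => by
        rw [map_mul, map_mul, Module.End.mul_apply, Module.End.mul_apply, hz, hz, smul_smul]
        rfl
      have h7 := hbal (z * z * s) u hu (by
        rw [h6, h4, smul_smul, show (9 * 3 : K) = 1 by decide, one_smul])
      have h8 := (xcopm_pos (ρ (z * z * s)) 3).2 ⟨u', hu', by
        rw [h6, h5, smul_smul, show (9 * 9 : K) = 3 by decide]⟩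
      obtain ⟨y, hy, h9⟩ := (xcopm_pos _ _).1 (h7 ▸ h8)
      rw [h6] at h9
      exact hy (ih y (smul_right_injective V (show (9 : K) ≠ 0 by decide) h9))
  obtain ⟨v, hv⟩ := hV
  exact hv (key a v (by rw [hx, map_one, Module.End.one_apply]))

end Pool.Agent.N9181
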