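import Pool.Agent.MP_9181f8_al.N.Basic

namespace Pool.Agent.N9181

open scoped commutatorElement

theorem xcyc_proj {V : Type} [AddCommGroup V] [Module K V] {I : Type} [Fintype I] [DecidableEq I]
    (W : I → Submodule K V) (h1 : iSupIndep W) (h2 : iSup W = ⊤) :
    ∃ P : I → V →ₗ[K] V, (∀ i v, P i v ∈ W i) ∧ (∀ v, ∑ i, P i v = v) ∧
      ∀ i j, ∀ w ∈ W i, P j w = if j = i then w else 0 := by
  have hI : DirectSum.IsInternal W :=
    (DirectSum.isInternal_submodule_iff_iSupIndep_and_iSup_eq_top W).2 ⟨h1, h2⟩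
  let e := LinearEquiv.ofBijective (DirectSum.coeLinearMap W) hI
  refine ⟨fun i => (W i).subtype ∘ₗ DirectSum.component K I (fun i => W i) i ∘ₗ e.symm.toLinearMap,
    fun i v => Submodule.coe_mem _, fun v => ?_, fun i j w hw => ?_⟩
  · obtain ⟨x, rfl⟩ := e.surjective v
    simp only [LinearMap.coe_comp, Function.comp_apply, LinearEquiv.coe_coe,
      LinearEquiv.symm_apply_apply, Submodule.coe_subtype]
    conv_rhs => rw [← DirectSum.sum_univ_of x, map_sum]
    refine Finset.sum_congr rfl fun i _ => ?_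
    exact (DirectSum.coeLinearMap_of W i _).symm
  · simp only [LinearMap.coe_comp, Function.comp_apply, LinearEquiv.coe_coe,
      Submodule.coe_subtype]
    split_ifs with h
    · subst h
      exact congrArg Subtype.val (hI.ofBijective_coeLinearMap_of_mem hw)
    · exact congrArg Subtype.val (hI.ofBijective_coeLinearMap_of_mem_ne (Ne.symm h) hw)

theorem xcyc_tau {H : Type} [Group H] [Finite H] {I : Type} [MulAction H I] (t : H) (a : ℕ)
    (ht : t ^ (3 ^ a) = 1) :
    ∃ k : I → ℕ, ∀ i, t • i ≠ i → k (t • i) ≡ k i + 1 [MOD 3] := by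
  let q : I → MulAction.orbitRel.Quotient (Subgroup.zpowers t) I := Quotient.mk _
  have hk : ∀ i, ∃ k : ℕ, t ^ k • (q i).out = i := by
    intro i
    have h : (MulAction.orbitRel (Subgroup.zpowers t) I) i (q i).out :=
      (MulAction.orbitRel (Subgroup.zpowers t) I).symm (Quotient.mk_out i)
    obtain ⟨⟨g, hg⟩, hg'⟩ := MulAction.orbitRel_apply.1 h
    obtain ⟨k, rfl⟩ := (Submonoid.mem_powers_iff _ _).1 (mem_powers_iff_mem_zpowers.2 hg)
    exact ⟨k, hg'⟩
  choose k hk using hk
  refine ⟨k, fun i hi => ?_⟩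
  have hq : q (t • i) = q i :=
    Quotient.sound (MulAction.orbitRel_apply.2 ⟨⟨t, Subgroup.mem_zpowers t⟩, rfl⟩)
  have h1 := hk (t • i)
  have h2 := hk i
  rw [hq] at h1
  generalize (q i).out = r at h1 h2
  have h3 : t ^ (k i + 1) • r = t ^ k (t • i) • r := by rw [h1, pow_succ', mul_smul, h2]
  have hd : MulAction.period t r ∣ 3 ^ a :=
    MulAction.pow_smul_eq_iff_period_dvd.1 (by rw [ht, one_smul])
  obtain ⟨s, _, hs⟩ := (Nat.dvd_prime_pow Nat.prime_three).1 hd
  have h4 : 3 ∣ MulAction.period t r := by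
    rcases Nat.eq_zero_or_pos s with h0 | h0
    · exfalso
      have hr : t • r = r := by
        have := (MulAction.pow_smul_eq_iff_period_dvd (n := 1) (m := t) (a := r)).2
          (by rw [hs, h0]; simp)
        rwa [pow_one] at this
      apply hi
      rw [← h2, ← mul_smul, ← pow_succ', pow_succ, mul_smul, hr]
    · rw [hs]; exact dvd_pow_self 3 h0.ne'
  have h5 : (MulAction.period t r : ℤ) ∣ ((k i + 1 : ℕ) : ℤ) - (k (t • i) : ℤ) := by
    refine MulAction.zpow_smul_eq_iff_period_dvd.1 ?_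
    rw [sub_eq_neg_add, zpow_add, mul_smul, zpow_natCast, h3, zpow_neg, zpow_natCast,
      inv_smul_smul]
  exact (Nat.modEq_iff_dvd).2 ((Int.natCast_dvd_natCast.2 h4).trans h5)

theorem cyc {V : Type} [AddCommGroup V] [Module K V] [Module.Finite K V]
    {H : Type} [Group H] [Finite H] (ρ : Representation K H V) {I : Type} [Fintype I] [DecidableEq I] [MulAction H I]
    (W : I → Submodule K V) (hB : BD ρ I W) (t : H) (a : ℕ) (ht : t ^ (3 ^ a) = 1) :
    ∃ c : ℕ, (∀ ν : K, ν ^ 3 = 1 → ed (ρ t) ν =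
        c + ∑ i ∈ Finset.univ.filter (fun i : I => t • i = i), edOn (W i) (ρ t) ν) ∧
      ∀ (ν : K) (v : V), ν ^ 3 = 1 → ρ t v = ν • v → v ∉ (⨆ (i : I) (_ : t • i = i), W i) →
        0 < c := by
  obtain ⟨P, hP1, hP2, hP3⟩ := xcyc_proj W hB.ind hB.top
  obtain ⟨k, hk⟩ := xcyc_tau (I := I) t a ht
  have hc : ∀ i v, P (t • i) (ρ t v) = ρ t (P i v) := by
    intro i v
    conv_lhs => rw [← hP2 v, map_sum, map_sum]
    rw [Finset.sum_eq_single i]
    · rw [hP3 _ _ _ (hB.map t i _ (hP1 i v)), if_pos rfl]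
    · intro j _ hj
      rw [hP3 _ _ _ (hB.map t j _ (hP1 j v)), if_neg]
      exact fun h => hj (MulAction.injective t h).symm
    · exact fun h => absurd (Finset.mem_univ i) h
  let Wm : Submodule K V := ⨅ (i : I) (_ : t • i = i), LinearMap.ker (P i)
  have hWm : ∀ v, v ∈ Wm ↔ ∀ i, t • i = i → P i v = 0 := by
    intro v
    simp only [Wm, Submodule.mem_iInf, LinearMap.mem_ker]
  have hfix : ∀ (ν : K) (v : V), ρ t v = ν • v → ∀ i, t • i = i → ρ t (P i v) = ν • P i v := by
    intro ν v hv i hi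
    rw [← hc, hi, hv, map_smul]
  have hle : ∀ ν κ : K, κ ^ 3 = 1 → edOn Wm (ρ t) ν ≤ edOn Wm (ρ t) (ν * κ) := by
    intro ν κ hκ
    have hκ0 : κ ≠ 0 := by
      rintro rfl
      simp at hκ
    let D : V →ₗ[K] V := ∑ i, (κ ^ (2 * k i)) • P i
    have hD : ∀ v, D v = ∑ i, (κ ^ (2 * k i)) • P i v := by
      intro v
      simp only [D, LinearMap.sum_apply, LinearMap.smul_apply]
    have hPD : ∀ j v, P j (D v) = (κ ^ (2 * k j)) • P j v := by
      intro j v
      rw [hD, map_sum, Finset.sum_eq_single j]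
      · rw [map_smul, hP3 _ _ _ (hP1 j v), if_pos rfl]
      · intro i _ hi
        rw [map_smul, hP3 _ _ _ (hP1 i v), if_neg (Ne.symm hi), smul_zero]
      · exact fun h => absurd (Finset.mem_univ j) h
    have hinj : Function.Injective D := by
      refine (injective_iff_map_eq_zero D).2 fun v hv => ?_
      rw [← hP2 v]
      refine Finset.sum_eq_zero fun j _ => ?_
      have := hPD j v
      rw [hv, map_zero] at this
      exact (smul_eq_zero.1 this.symm).resolve_left (pow_ne_zero _ hκ0)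
    have hmap : (Wm ⊓ Module.End.eigenspace (ρ t) ν).map D ≤ Wm ⊓ Module.End.eigenspace (ρ t) (ν * κ) := by
      rintro _ ⟨v, ⟨hv1, hv2⟩, rfl⟩
      have hv1 := (hWm v).1 hv1
      have hv2 : ρ t v = ν • v := Module.End.mem_eigenspace_iff.1 hv2
      refine ⟨(hWm _).2 fun i hi => by rw [hPD, hv1 i hi, smul_zero],
        Module.End.mem_eigenspace_iff.2 ?_⟩
      rw [hD, map_sum, Finset.smul_sum,
        ← Equiv.sum_comp (MulAction.toPerm t) (fun i => (ν * κ) • (κ ^ (2 * k i)) • P i v)]
      refine Finset.sum_congr rfl fun i _ => ?_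
      rw [MulAction.toPerm_apply, map_smul, ← hc, hv2, map_smul]
      by_cases hi : t • i = i
      · rw [hi, hv1 i hi]; simp
      · rw [smul_smul, smul_smul]
        congr 1
        have h1 : κ ^ (2 * k (t • i) + 1) = κ ^ (2 * k i) := by
          have := hk i hi
          rw [pow_eq_pow_mod _ hκ, pow_eq_pow_mod (2 * k i) hκ]
          congr 1
          unfold Nat.ModEq at this
          omega
        rw [← h1]; ring
    calc edOn Wm (ρ t) ν = Module.finrank K ((Wm ⊓ Module.End.eigenspace (ρ t) ν).map D) :=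
          (Submodule.equivMapOfInjective D hinj _).finrank_eq
      _ ≤ _ := Submodule.finrank_mono hmap
  have heq : ∀ ν : K, ν ^ 3 = 1 → edOn Wm (ρ t) ν = edOn Wm (ρ t) 1 := by
    intro ν hν
    refine le_antisymm ?_ ?_
    · have := hle ν (ν ^ 2) (by rw [← pow_mul, mul_comm, pow_mul, hν, one_pow])
      rwa [← pow_succ', hν] at this
    · have := hle 1 ν hν
      rwa [one_mul] at this
  refine ⟨edOn Wm (ρ t) 1, fun ν hν => ?_, fun ν v hν hv hn => ?_⟩
  · rw [← heq ν hν]
    let E := Module.End.eigenspace (ρ t) ν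
    let Φ : E →ₗ[K] ((i : {i : I // t • i = i}) → (W i.1 ⊓ E : Submodule K V)) :=
      LinearMap.pi fun i => LinearMap.codRestrict _ (P i.1 ∘ₗ E.subtype) fun v =>
        ⟨hP1 _ _, Module.End.mem_eigenspace_iff.2
          (hfix ν v (Module.End.mem_eigenspace_iff.1 v.2) i.1 i.2)⟩
    have hΦ : ∀ (v : E) (i : {i : I // t • i = i}), (Φ v i : V) = P i.1 v := fun _ _ => rfl
    have hs : LinearMap.range Φ = ⊤ := by
      refine LinearMap.range_eq_top.2 fun w => ?_
      refine ⟨⟨∑ i, (w i : V), E.sum_mem fun i _ => (w i).2.2⟩, funext fun j => Subtype.ext ?_⟩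
      rw [hΦ]
      change P j.1 (∑ i, (w i : V)) = _
      rw [map_sum, Finset.sum_eq_single j]
      · rw [hP3 _ _ _ (w j).2.1, if_pos rfl]
      · intro i _ hi
        rw [hP3 _ _ _ (w i).2.1, if_neg fun h => hi (Subtype.ext h).symm]
      · exact fun h => absurd (Finset.mem_univ j) h
    have hker : LinearMap.ker Φ = Wm.comap E.subtype := by
      ext v
      rw [LinearMap.mem_ker, Submodule.mem_comap, hWm]
      constructor
      · intro h i hi
        have := hΦ v ⟨i, hi⟩
        rw [h] at this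
        exact this.symm
      · intro h
        exact funext fun i => Subtype.ext ((hΦ v i).trans (h i.1 i.2))
    have h1 := LinearMap.finrank_range_add_finrank_ker Φ
    rw [hs, finrank_top, Module.finrank_pi_fintype, hker,
      ← Submodule.finrank_map_subtype_eq E, Submodule.map_comap_subtype, inf_comm] at h1
    rw [Finset.sum_subtype (p := fun i : I => t • i = i) _ (by simp), add_comm]
    exact h1.symm
  · rw [← heq ν hν, edOn_pos]
    refine ⟨v - ∑ i ∈ Finset.univ.filter (fun i : I => t • i = i), P i v,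
      (hWm _).2 fun j hj => ?_, fun h => hn ?_, ?_⟩
    · rw [map_sub, map_sum, Finset.sum_eq_single j]
      · rw [hP3 _ _ _ (hP1 j v), if_pos rfl, sub_self]
      · intro i _ hi
        rw [hP3 _ _ _ (hP1 i v), if_neg (Ne.symm hi)]
      · exact fun h => absurd (by simpa using hj) h
    · rw [sub_eq_zero.1 h]
      refine Submodule.sum_mem _ fun i hi => ?_
      exact Submodule.mem_iSup_of_mem i
        (Submodule.mem_iSup_of_mem (Finset.mem_filter.1 hi).2 (hP1 i v))
    · rw [map_sub, map_sum, smul_sub, Finset.smul_sum, hv]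
      congr 1
      exact Finset.sum_congr rfl fun i hi => hfix ν v hv i (Finset.mem_filter.1 hi).2

end Pool.Agent.N9181
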