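import Mathlib

/-! Definitions for the proof that Sylow 13-subgroups of finite solvable uniformly
semi-rational groups have exponent 13 and class at most two. -/

namespace Pool.Agent.N9181

open scoped commutatorElement

instance fact13 : Fact (Nat.Prime 13) := ⟨by norm_num⟩

abbrev K : Type := ZMod 13

abbrev RM (M : ℕ) : Type := ZMod (13 ^ (M + 1))

def red (M : ℕ) : RM M →+* K := ZMod.castHom (dvd_pow_self 13 (Nat.succ_ne_zero M)) K

section Lin

variable {V : Type} [AddCommGroup V] [Module K V]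

/-- dimension of an eigenspace -/
noncomputable def ed (a : Module.End K V) (c : K) : ℕ := Module.finrank K (a.eigenspace c)

/-- dimension of the part of an eigenspace inside `W` -/
noncomputable def edOn (W : Submodule K V) (a : Module.End K V) (c : K) : ℕ :=
  Module.finrank K (W ⊓ a.eigenspace c : Submodule K V)

/-- `x` is the trace of a lift of `a` modulo `13 ^ (M + 1)` whose order is prime to `13` -/
def IsBt (a : Module.End K V) (M : ℕ) (x : RM M) : Prop :=
  ∃ (n : ℕ) (b : Module.Basis (Fin n) K V) (A : Matrix (Fin n) (Fin n) (RM M)) (N : ℕ),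
    ¬ 13 ∣ N ∧ A ^ N = 1 ∧ A.map (red M) = LinearMap.toMatrix b b a ∧ A.trace = x

/-- the Brauer trace modulo `13 ^ (M + 1)` -/
noncomputable def bt (a : Module.End K V) (M : ℕ) : RM M := Classical.epsilon (IsBt a M)

variable {H : Type} [Group H]

def RealOp (ρ : Representation K H V) (h : H) : Prop := ∀ M, bt (ρ h) M = bt (ρ h⁻¹) M

def HReal (ρ : Representation K H V) : Prop := ∀ h v, v ≠ 0 → ρ h v = v → RealOp ρ h

def HU (ρ : Representation K H V) (N m : ℕ) : Prop :=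
  ∀ (h : H) (j : ℕ), j.Coprime N → ∀ M,
    bt (ρ (h ^ j)) M + bt (ρ (h ^ (j * m))) M = bt (ρ h) M + bt (ρ (h ^ m)) M

def HBal (ρ : Representation K H V) : Prop :=
  ∀ h v, v ≠ 0 → ρ h v = v → ed (ρ h) 3 = ed (ρ h) 9

def HEP (ρ : Representation K H V) (c : K) : Prop := ∀ v, ∃ h, ρ h v = c • v

def Cop (ρ : Representation K H V) : Prop := ∀ h, ∃ N, ¬ 13 ∣ N ∧ (ρ h) ^ N = 1

def Irr (ρ : Representation K H V) : Prop :=
  (∃ v : V, v ≠ 0) ∧ ∀ W : Submodule K V, (∀ h, ∀ v ∈ W, ρ h v ∈ W) → W = ⊥ ∨ W = ⊤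

def Scal (ρ : Representation K H V) : Prop := ∃ z, ∀ v, ρ z v = (3 : K) • v

def Reg (ρ : Representation K H V) (v : V) : Prop :=
  v ≠ 0 ∧ ∀ (h : H) (a : ℕ), (ρ h) ^ (3 ^ a) = 1 → ρ h v = v → ρ h = 1

def HFP (ρ : Representation K H V) : Prop :=
  ∀ (h : H) (a : ℕ) (v : V), h ^ (3 ^ a) = 1 → v ≠ 0 → ρ h v = v → ρ h = 1

def HFree (ρ : Representation K H V) : Prop := ∀ h v, v ≠ 0 → ρ h v = v → ρ h = 1

def FreeOn (ρ : Representation K H V) (A : Subgroup H) : Prop :=
  ∀ a ∈ A, ∀ v, v ≠ 0 → ρ a v = v → a = 1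

def IsFix (ρ : Representation K H V) (J : Subgroup H) (W : Submodule K V) : Prop :=
  ∀ v, v ∈ W ↔ ∀ y ∈ J, ρ y v = v

/-- a system of blocks permuted by `H` -/
structure BD (ρ : Representation K H V) (I : Type) [MulAction H I]
    (W : I → Submodule K V) : Prop where
  map : ∀ (h : H) (i : I), ∀ w ∈ W i, ρ h w ∈ W (h • i)
  ind : iSupIndep W
  top : iSup W = ⊤
  ne : ∀ i, W i ≠ ⊥

def BScal (ρ : Representation K H V) {I : Type} [MulAction H I] (W : I → Submodule K V) : Prop :=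
  ∀ i, ∃ z : H, z • i = i ∧ ∀ w ∈ W i, ρ z w = (3 : K) • w

def BReg (ρ : Representation K H V) {I : Type} [MulAction H I] (W : I → Submodule K V)
    (r : I → V) : Prop :=
  ∀ i, r i ∈ W i ∧ r i ≠ 0 ∧ ∀ (h : H) (a : ℕ), h • i = i →
    (∀ w ∈ W i, ((ρ h) ^ (3 ^ a)) w = w) → ρ h (r i) = r i → ∀ w ∈ W i, ρ h w = w

def BBal (ρ : Representation K H V) {I : Type} [MulAction H I] (W : I → Submodule K V) : Prop :=
  ∀ (i : I) (h : H), h • i = i → (∃ w ∈ W i, w ≠ 0 ∧ ρ h w = w) →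
    edOn (W i) (ρ h) 3 = edOn (W i) (ρ h) 9

/-- `V` is an elementary abelian normal subgroup of `H` with the conjugation action -/
structure Emb (ρ : Representation K H V) (ι : V → H) : Prop where
  inj : Function.Injective ι
  add : ∀ v w, ι (v + w) = ι v * ι w
  act : ∀ g v, ι (ρ g v) = g * ι v * g⁻¹

end Lin

section Grp

def NM (H : Type) (N m : ℕ) : Prop := Nat.card H ∣ N ∧ 0 < N ∧ m.Coprime N

/-- internal form of uniform semi-rationality -/
def PP (G : Type) [Group G] (N m : ℕ) : Prop :=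
  NM G N m ∧ ∀ (x : G) (j : ℕ), j.Coprime N → IsConj x (x ^ j) ∨ IsConj (x ^ m) (x ^ j)

variable {H : Type} [Group H]

/-- `A` cyclic, central in `F`, with nondegenerate commutator pairing on `F / A` -/
structure PD (A F : Subgroup H) : Prop where
  cyc : IsCyclic A
  le : A ≤ F
  cen : ∀ a ∈ A, ∀ x ∈ F, a * x = x * a
  comm : ∀ x ∈ F, ∀ y ∈ F, ⁅x, y⁆ ∈ A
  nd : ∀ x ∈ F, (∀ y ∈ F, x * y = y * x) → x ∈ A

structure SD (A F : Subgroup H) : Prop extends PD A F where
  nA : A.Normal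
  nF : F.Normal
  ff : ∀ c ∈ Subgroup.centralizer (A : Set H), (∀ y ∈ F, ⁅c, y⁆ ∈ A) → c ∈ F

/-- isometries of a pairing -/
def Iso {U Z : Type} [CommGroup U] [CommGroup Z] (B : U →* U →* Z) : Subgroup (MulAut U) where
  carrier := {s | ∀ x y, B (s x) (s y) = B x y}
  one_mem' := fun _ _ => rfl
  mul_mem' := fun {s t} hs ht x y => by
    show B (s (t x)) (s (t y)) = B x y
    rw [hs, ht]
  inv_mem' := fun {s} hs x y => by
    have := hs (s⁻¹ x) (s⁻¹ y)
    simpa using this.symm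

def perp {U Z : Type} [CommGroup U] [CommGroup Z] (B : U →* U →* Z) (S : Subgroup U) :
    Subgroup U where
  carrier := {y | ∀ x ∈ S, B x y = 1}
  one_mem' := fun x _ => map_one _
  mul_mem' := fun {a b} ha hb x hx => by
    rw [map_mul, ha x hx, hb x hx, one_mul]
  inv_mem' := fun {a} ha x hx => by
    rw [map_inv, ha x hx, inv_one]

/-- nondegenerate alternating pairing -/
def Symp {U Z : Type} [CommGroup U] [CommGroup Z] (B : U →* U →* Z) : Prop :=
  (∀ x, B x x = 1) ∧ ∀ x, (∀ y, B x y = 1) → x = 1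

def chF (p : ℕ) : ℕ → ℕ → ℕ
  | 0, _ => 1
  | f + 1, u => if u ≤ 1 then 1 else u * chF p f (u / p)

/-- the chain bound `u * (u / p) * (u / p ^ 2) * ⋯` -/
def ch (p u : ℕ) : ℕ := chF p u u

/-- bounds for the order of an isometry group of a pairing on a group of order `e ^ 2` -/
def IB (e I : ℕ) : Prop :=
  I ≤ ch 2 (e ^ 2) ∧
    I ≤ ch 3 ((3 ^ e.factorization 3) ^ 2) * ch 2 ((e / 3 ^ e.factorization 3) ^ 2)

/-- the data carried through the induction on the order, relative to a normal subgroup `B` -/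
structure GD (B R Q : Subgroup H) (z : H) : Prop where
  nR : R.Normal
  nQ : Q.Normal
  le1 : B ≤ R
  le2 : R ≤ Q
  cop : ¬ 13 ∣ B.relIndex R
  pw : ∀ k ∈ Q, ∃ a : ℕ, k ^ (13 ^ a) ∈ R
  idx : ¬ 13 ∣ Q.index
  zn : z ∉ Q
  z3 : z ^ 3 ∈ Q
  zc : ∀ g : H, ⁅g, z⁆ ∈ Q

def Good (G : Type) [Group G] : Prop := ∃ (R Q : Subgroup G) (z : G), GD ⊥ R Q z

end Grp

end Pool.Agent.N9181
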