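import Pool.Agent.MP_9181f8_al.N.SDPair

namespace Pool.Agent.N9181

open scoped commutatorElement

section

variable {L : Type} [Field L] {M : Type} [AddCommGroup M] [Module L M]

theorem xdimk_eig [IsAlgClosed L] [Module.Finite L M] {ι : Type} (a : ι → Module.End L M)
    (hc : ∀ i j, Commute (a i) (a j)) (W : Submodule L M) : W ≠ ⊥ → (∀ i, ∀ w ∈ W, a i w ∈ W) →
    ∃ v ∈ W, v ≠ 0 ∧ ∀ i, ∃ c : L, a i v = c • v := by
  induction W using WellFoundedLT.induction with
  | ind W ih =>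
    intro h0 hW
    by_cases h : ∀ i, ∃ c : L, ∀ w ∈ W, a i w = c • w
    · obtain ⟨v, hv, h1⟩ := (Submodule.ne_bot_iff W).1 h0
      exact ⟨v, hv, h1, fun i => (h i).imp fun c hc => hc v hv⟩
    · push Not at h
      obtain ⟨i, hi⟩ := h
      have : Nontrivial W := Submodule.nontrivial_iff_ne_bot.2 h0
      obtain ⟨c, h1⟩ := Module.End.exists_eigenvalue ((a i).restrict (hW i))
      obtain ⟨w, h2, h3⟩ := h1.exists_hasEigenvector
      obtain ⟨u, h4, h5⟩ := hi c
      obtain ⟨v, h6, h7⟩ := ih (W ⊓ (a i).eigenspace c)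
        (lt_of_le_of_ne inf_le_left fun e => h5 (Module.End.mem_eigenspace_iff.1 (e.ge h4).2))
        ((Submodule.ne_bot_iff _).2 ⟨w, ⟨w.2, Module.End.mem_eigenspace_iff.2
          (congrArg Subtype.val (Module.End.mem_eigenspace_iff.1 h2))⟩,
            fun e => h3 (Subtype.ext e)⟩)
        fun j x hx => ⟨hW j x hx.1, Module.End.mapsTo_genEigenspace_of_comm (hc i j) c 1 hx.2⟩
      exact ⟨v, h6.1, h7⟩

theorem xdimk_li {ι κ : Type} (a : ι → Module.End L M) (hc : ∀ i j, Commute (a i) (a j))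
    (y : κ → M) (χ : κ → ι → L) (hχ : Function.Injective χ) (h : ∀ k i, a i (y k) = χ k i • y k)
    (h0 : ∀ k, y k ≠ 0) : LinearIndependent L y :=
  ((Module.End.independent_iInf_maxGenEigenspace_of_forall_mapsTo a fun i j φ =>
    Module.End.mapsTo_maxGenEigenspace_of_comm (hc j i) φ).comp hχ).linearIndependent _
    (fun k => (Submodule.mem_iInf _).2 fun i => Module.End.eigenspace_le_maxGenEigenspace
      (Module.End.mem_eigenspace_iff.2 (h k i))) h0

variable {G : Type} [Group G] [Finite G] (σ : Representation L G M) (T : Subgroup G) [hT : T.Normal]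
  (hc : ∀ s t : T, Commute (σ s) (σ t))

include hT hc

theorem xdimk_span {v : M} (h0 : v ≠ 0) (hv : ∀ t : T, ∃ c : L, σ t v = c • v)
    (hs : ∀ f g : G, (∀ t ∈ T, σ (f⁻¹ * t * f) v = σ (g⁻¹ * t * g) v) → f⁻¹ * g ∈ T) :
    Module.finrank L (Submodule.span L (Set.range fun f => σ f v)) = T.index := by
  choose χ hχ using hv
  have hm : ∀ f g x, σ (f * g) x = σ f (σ g x) := fun f g x => by rw [map_mul]; rfl
  have h1 : LinearIndependent L fun q : G ⧸ T => σ q.out v := by
    refine xdimk_li (fun t : T => σ t) hc _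
      (fun q t => χ ⟨q.out⁻¹ * t * q.out, hT.conj_mem' _ t.2 _⟩) (fun q q' e => ?_)
      (fun q t => ?_) fun q e => h0 ?_
    · rw [← q.out_eq', ← q'.out_eq']
      refine QuotientGroup.eq.2 (hs _ _ fun t ht => ?_)
      exact (hχ ⟨_, hT.conj_mem' _ ht _⟩).trans ((congrArg (· • v) (congrFun e ⟨t, ht⟩)).trans
        (hχ ⟨_, hT.conj_mem' _ ht _⟩).symm)
    · rw [← map_smul, ← hχ, ← hm, ← hm, ← mul_assoc, mul_inv_cancel_left]
    · have h2 := congrArg (σ q.out⁻¹) e
      rwa [← hm, inv_mul_cancel, map_one, map_zero] at h2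
  have h2 : Submodule.span L (Set.range fun f => σ f v) =
      Submodule.span L (Set.range fun q : G ⧸ T => σ q.out v) := by
    refine le_antisymm (Submodule.span_le.2 ?_) (Submodule.span_mono ?_)
    · rintro _ ⟨f, rfl⟩
      obtain ⟨t, ht⟩ := QuotientGroup.mk_out_eq_mul T f
      have h3 : σ f v = χ t⁻¹ • σ (f : G ⧸ T).out v := by
        rw [← map_smul, ← hχ, ← hm, ht, Subgroup.coe_inv, mul_inv_cancel_right]
      change σ f v ∈ _
      rw [h3]
      exact Submodule.smul_mem _ _ (Submodule.subset_span ⟨_, rfl⟩)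
    · rintro _ ⟨q, rfl⟩
      exact ⟨_, rfl⟩
  have := Fintype.ofFinite (G ⧸ T)
  rw [h2, finrank_span_eq_card h1, Subgroup.index, Nat.card_eq_fintype_card]

theorem xdimk_main [IsAlgClosed L] [Module.Finite L M] (hG : (Nat.card G : L) ≠ 0)
    (hs : ∀ v : M, v ≠ 0 → ∀ f g : G, (∀ t ∈ T, σ (f⁻¹ * t * f) v = σ (g⁻¹ * t * g) v) →
      f⁻¹ * g ∈ T) (W : Submodule L M) : (∀ f, ∀ w ∈ W, σ f w ∈ W) →
    T.index ∣ Module.finrank L W := by
  induction W using WellFoundedLT.induction with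
  | ind W ih =>
    intro hW
    rcases eq_or_ne W ⊥ with rfl | h0
    · simp
    obtain ⟨v, h1, h2, h3⟩ := xdimk_eig (fun t : T => σ t) hc W h0 fun t => hW t
    have h4 := xdimk_span σ T hc h2 h3 (hs v h2)
    have h5 : Submodule.span L (Set.range fun f => σ f v) ≤ W := Submodule.span_le.2 (by
      rintro _ ⟨f, rfl⟩
      exact hW f v h1)
    have h6 : v ∈ Submodule.span L (Set.range fun f => σ f v) :=
      Submodule.subset_span ⟨1, by simp⟩
    obtain ⟨Y, h7, h8⟩ := exists_compl hG σ (Submodule.span L (Set.range fun f => σ f v))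
      fun g w hw => (Submodule.span_le (p := Submodule.comap (σ g)
          (Submodule.span L (Set.range fun f => σ f v)))).2 (by
        rintro _ ⟨f, rfl⟩
        exact Submodule.subset_span ⟨g * f, by simp⟩) hw
    generalize Submodule.span L (Set.range fun f => σ f v) = X at h4 h5 h6 h8
    have h9 := Submodule.finrank_sup_add_finrank_inf_eq X (Y ⊓ W)
    rw [← sup_inf_assoc_of_le _ h5, h8.sup_eq_top, top_inf_eq, ← inf_assoc, h8.inf_eq_bot,
      bot_inf_eq, finrank_bot, add_zero, h4] at h9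
    rw [h9]
    refine dvd_add dvd_rfl (ih _ (lt_of_le_of_ne inf_le_right fun e => h2 ?_)
      fun f w hw => ⟨h7 f w hw.1, hW f w hw.2⟩)
    exact (Submodule.disjoint_def.1 h8.disjoint) v h6 (e.ge h1).1

end

theorem dimK {L : Type} [Field L] [IsAlgClosed L] [CharP L 13] {M : Type} [AddCommGroup M] [Module L M]
    [Module.Finite L M] {H : Type} [Group H] [Finite H] (h13 : ¬ 13 ∣ Nat.card H)
    (ρ : Representation L H M) (A F : Subgroup H) (hP : PD A F)
    (hA : ∀ a ∈ A, ∀ v, v ≠ 0 → ρ a v = v → a = 1) (W : Submodule L M)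
    (hW : ∀ f ∈ F, ∀ w ∈ W, ρ f w ∈ W) (e : ℕ) (he : A.relIndex F = e ^ 2) :
    e ∣ Module.finrank L W := by
  obtain ⟨U, Z, _, _, _, _, _, π, ζ, B, h1, h2, h3, -, h5, h6, h7, -⟩ := pd_pair A F hP
  obtain ⟨S, hS⟩ := exists_lagr B h5
  have hi : (S.comap π).index = e := by
    have h8 := card_perp B h5 S
    have h9 := S.card_mul_index
    rw [hS, h7, he, sq] at h8
    rw [h7, he, sq, Nat.mul_self_inj.1 h8] at h9
    rw [Subgroup.index_comap_of_surjective _ h1]
    exact Nat.eq_of_mul_eq_mul_left (Nat.mul_self_inj.1 h8 ▸ Nat.card_pos) h9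
  rw [← hi]
  refine xdimk_main (ρ.comp F.subtype) (S.comap π) (fun s t => ?_) ?_ (fun v hv f g h => ?_) W
    fun f => hW f f.2
  · have h8 := h6 s t
    rw [(hS.ge t.2 : π t ∈ perp B S) _ s.2, map_one, eq_comm, commutatorElement_eq_one_iff_commute]
      at h8
    exact h8.map ρ
  · rw [Ne, CharP.cast_eq_zero_iff L 13]
    exact fun h => h13 (h.trans F.card_subgroup_dvd_card)
  · have h8 : π (g * f⁻¹) ∈ perp B S := by
      intro x hx
      obtain ⟨t, rfl⟩ := h1 x
      have h9 : (((g⁻¹ * t * g)⁻¹ * (f⁻¹ * t * f) : F) : H) = 1 := by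
        refine hA _ ((h2 _).1 (by simp)) v hv ?_
        change (ρ.comp F.subtype) ((g⁻¹ * t * g)⁻¹ * (f⁻¹ * t * f)) v = v
        rw [map_mul, Module.End.mul_apply, h t hx, ← Module.End.mul_apply, ← map_mul,
          inv_mul_cancel, map_one, Module.End.one_apply]
      have h10 : g⁻¹ * t * g = f⁻¹ * t * f := inv_mul_eq_one.1 (Subtype.ext h9)
      have h11 : t * (g * f⁻¹) = g * f⁻¹ * t := by
        calc t * (g * f⁻¹) = g * (g⁻¹ * t * g) * f⁻¹ := by group
          _ = g * f⁻¹ * t := by rw [h10]; group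
      refine h3 ?_
      rw [h6, map_one, commutatorElement_eq_one_iff_mul_comm]
      exact congrArg Subtype.val h11
    rw [hS, map_mul, mul_comm, ← map_mul] at h8
    exact h8

end Pool.Agent.N9181
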