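import Pool.Agent.MP_9181f8_al.N.PBasic

namespace Pool.Agent.N9181

open scoped commutatorElement

/-- the additive copy of a subgroup -/
structure XembbV {G : Type} [Group G] (B : Subgroup G)
    (hc : ∀ a ∈ B, ∀ b ∈ B, a * b = b * a) : Type where
  val : G
  mem : val ∈ B

theorem xembb_ext {G : Type} [Group G] {B : Subgroup G}
    {hc : ∀ a ∈ B, ∀ b ∈ B, a * b = b * a} {x y : XembbV B hc} (h : x.val = y.val) : x = y := by
  cases x
  cases y
  cases h
  rfl

instance xembbGrp {G : Type} [Group G] (B : Subgroup G)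
    (hc : ∀ a ∈ B, ∀ b ∈ B, a * b = b * a) : AddCommGroup (XembbV B hc) where
  add x y := ⟨x.val * y.val, B.mul_mem x.mem y.mem⟩
  zero := ⟨1, B.one_mem⟩
  neg x := ⟨x.val⁻¹, B.inv_mem x.mem⟩
  add_assoc x y z := xembb_ext (mul_assoc x.val y.val z.val)
  zero_add x := xembb_ext (one_mul x.val)
  add_zero x := xembb_ext (mul_one x.val)
  add_comm x y := xembb_ext (hc _ x.mem _ y.mem)
  neg_add_cancel x := xembb_ext (inv_mul_cancel x.val)
  nsmul n x := ⟨x.val ^ n, B.pow_mem x.mem n⟩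
  nsmul_zero x := xembb_ext (pow_zero x.val)
  nsmul_succ n x := xembb_ext (pow_succ x.val n)
  zsmul n x := ⟨x.val ^ n, B.zpow_mem x.mem n⟩
  zsmul_zero' x := xembb_ext (zpow_zero x.val)
  zsmul_succ' n x := xembb_ext (by
    show x.val ^ ((n.succ : ℕ) : ℤ) = x.val ^ (n : ℤ) * x.val
    rw [zpow_natCast, zpow_natCast, pow_succ])
  zsmul_neg' n x := xembb_ext (by
    show x.val ^ (Int.negSucc n) = (x.val ^ ((n.succ : ℕ) : ℤ))⁻¹
    rw [zpow_negSucc, zpow_natCast])

/-- conjugation as an additive map -/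
def xembbConj {G : Type} [Group G] (B : Subgroup G) (hB : B.Normal)
    (hc : ∀ a ∈ B, ∀ b ∈ B, a * b = b * a) (g : G) : XembbV B hc →+ XembbV B hc where
  toFun x := ⟨g * x.val * g⁻¹, hB.conj_mem _ x.mem g⟩
  map_zero' := xembb_ext (by
    show g * 1 * g⁻¹ = 1
    group)
  map_add' x y := xembb_ext (by
    show g * (x.val * y.val) * g⁻¹ = (g * x.val * g⁻¹) * (g * y.val * g⁻¹)
    group)

theorem exists_emb {G : Type} [Group G] [Finite G] (B : Subgroup G) (hB : B.Normal)
    (hc : ∀ a ∈ B, ∀ b ∈ B, a * b = b * a) (hp : ∀ a ∈ B, a ^ 13 = 1) :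
    ∃ (V : Type) (_ : AddCommGroup V) (_ : Module K V) (_ : Module.Finite K V)
      (ρ : Representation K G V) (ι : V → G), Emb ρ ι ∧ ∀ g, g ∈ B ↔ ∃ v, ι v = g := by
  have h13 : ∀ x : XembbV B hc, 13 • x = 0 := fun x => xembb_ext (hp x.val x.mem)
  letI : Module K (XembbV B hc) := AddCommGroup.zmodModule h13
  have hinj : Function.Injective (fun x : XembbV B hc => x.val) := fun x y h => xembb_ext h
  haveI : Finite (XembbV B hc) := Finite.of_injective _ hinj
  haveI : Module.Finite K (XembbV B hc) := Module.Finite.of_finite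
  let ρ : Representation K G (XembbV B hc) :=
    { toFun := fun g => (xembbConj B hB hc g).toZModLinearMap 13
      map_one' := by
        refine LinearMap.ext fun x => xembb_ext ?_
        show 1 * x.val * 1⁻¹ = x.val
        group
      map_mul' := fun g h => by
        refine LinearMap.ext fun x => xembb_ext ?_
        show g * h * x.val * (g * h)⁻¹ = g * (h * x.val * h⁻¹) * g⁻¹
        group }
  refine ⟨XembbV B hc, inferInstance, inferInstance, inferInstance, ρ, fun x => x.val,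
    ⟨hinj, fun _ _ => rfl, fun _ _ => rfl⟩, fun g => ⟨fun hg => ⟨⟨g, hg⟩, rfl⟩, ?_⟩⟩
  rintro ⟨v, rfl⟩
  exact v.mem

theorem xembb_zero {V : Type} [AddCommGroup V] [Module K V]
    {G : Type} [Group G] (ρ : Representation K G V) (ι : V → G) (hι : Emb ρ ι) : ι 0 = 1 := by
  have h := hι.add 0 0
  rw [add_zero] at h
  exact mul_left_cancel (a := ι 0) (by rw [← h, mul_one])

theorem xembb_neg {V : Type} [AddCommGroup V] [Module K V]
    {G : Type} [Group G] (ρ : Representation K G V) (ι : V → G) (hι : Emb ρ ι) (v : V) :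
    ι (-v) = (ι v)⁻¹ := by
  have h := hι.add (-v) v
  rw [neg_add_cancel, xembb_zero ρ ι hι] at h
  exact eq_inv_of_mul_eq_one_left h.symm

theorem emb_irr {V : Type} [AddCommGroup V] [Module K V] [Module.Finite K V]
    {G : Type} [Group G] [Finite G] (ρ : Representation K G V) (ι : V → G) (hι : Emb ρ ι) (B : Subgroup G) (hB : ∀ g, g ∈ B ↔ ∃ v, ι v = g) (hne : B ≠ ⊥)
    (hmin : ∀ B' : Subgroup G, B'.Normal → B' ≤ B → B' = ⊥ ∨ B' = B) : Irr ρ := by
  have h0 := xembb_zero ρ ι hι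
  refine ⟨?_, fun W hW => ?_⟩
  · by_contra hcon
    apply hne
    rw [eq_bot_iff]
    intro g hg
    obtain ⟨v, rfl⟩ := (hB g).1 hg
    have hv : v = 0 := by
      by_contra hv
      exact hcon ⟨v, hv⟩
    rw [hv, h0]
    exact Subgroup.one_mem _
  · let B' : Subgroup G :=
      { carrier := {g | ∃ w ∈ W, ι w = g}
        one_mem' := ⟨0, W.zero_mem, h0⟩
        mul_mem' := by
          rintro a b ⟨v, hv, rfl⟩ ⟨w, hw, rfl⟩
          exact ⟨v + w, W.add_mem hv hw, hι.add v w⟩
        inv_mem' := by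
          rintro a ⟨v, hv, rfl⟩
          exact ⟨-v, W.neg_mem hv, xembb_neg ρ ι hι v⟩ }
    have hn : B'.Normal := ⟨by
      rintro a ⟨v, hv, rfl⟩ g
      exact ⟨ρ g v, hW g v hv, hι.act g v⟩⟩
    have hle : B' ≤ B := by
      rintro a ⟨v, _, rfl⟩
      exact (hB _).2 ⟨v, rfl⟩
    rcases hmin B' hn hle with h | h
    · left
      rw [eq_bot_iff]
      intro w hw
      have hm : ι w ∈ B' := ⟨w, hw, rfl⟩
      rw [h, Subgroup.mem_bot, ← h0] at hm
      rw [hι.inj hm]
      exact Submodule.zero_mem _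
    · right
      rw [eq_top_iff]
      intro v _
      have hm : ι v ∈ B' := by
        rw [h]
        exact (hB _).2 ⟨v, rfl⟩
      obtain ⟨w, hw, hwv⟩ := hm
      rw [← hι.inj hwv]
      exact hw

theorem emb_basic {V : Type} [AddCommGroup V] [Module K V] [Module.Finite K V]
    {G : Type} [Group G] (ρ : Representation K G V) (ι : V → G) (hι : Emb ρ ι) :
    ι 0 = 1 ∧ (∀ (v : V) (j : ℕ), ι ((j : K) • v) = ι v ^ j) ∧ (∀ v, ι v ^ 13 = 1) ∧
      ∀ v, ρ (ι v) = 1 := by
  have h0 := xembb_zero ρ ι hι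
  have h1 : ∀ (v : V) (j : ℕ), ι ((j : K) • v) = ι v ^ j := by
    intro v j
    induction j with
    | zero => rw [Nat.cast_zero, zero_smul, h0, pow_zero]
    | succ j ih => rw [Nat.cast_succ, add_smul, one_smul, hι.add, ih, pow_succ]
  refine ⟨h0, h1, fun v => ?_, fun v => ?_⟩
  · have h13 : ((13 : ℕ) : K) = 0 := by decide
    rw [← h1 v 13, h13, zero_smul, h0]
  · refine LinearMap.ext fun w => hι.inj ?_
    rw [hι.act, ← hι.add, add_comm, hι.add, mul_inv_cancel_right]
    rfl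

theorem pp_ep {V : Type} [AddCommGroup V] [Module K V] [Module.Finite K V]
    {G : Type} [Group G] [Finite G] (ρ : Representation K G V) (ι : V → G) (hι : Emb ρ ι) (N m : ℕ) (hP : PP G N m) : HEP ρ 3 := by
  intro v
  obtain ⟨h0, h1, h2, _⟩ := emb_basic ρ ι hι
  by_cases hv : v = 0
  · exact ⟨1, by rw [hv, map_zero, smul_zero]⟩
  have hne : ι v ≠ 1 := fun h => hv (hι.inj (h.trans h0.symm))
  have hord : orderOf (ι v) = 13 := orderOf_eq_prime (h2 v) hne
  have hdiv : 13 ∣ N := by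
    have h := orderOf_dvd_natCard (ι v)
    rw [hord] at h
    exact h.trans hP.1.1
  obtain ⟨j, hj, hj4⟩ := exists_j 13 N 4 hdiv hP.1.2.1 (by norm_num)
  have hconj := pp_sq N m hP (ι v) j hj
  obtain ⟨c, hc⟩ := isConj_iff.1 hconj
  refine ⟨c, hι.inj ?_⟩
  have hj' : (j : K) = ((4 : ℕ) : K) := (ZMod.natCast_eq_natCast_iff j 4 13).2 hj4
  have h3 : ((j * j : ℕ) : K) = 3 := by
    rw [Nat.cast_mul, hj']
    decide
  rw [hι.act, hc, ← h1, h3]

end Pool.Agent.N9181
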