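import Pool.Agent.MP_9181f8_al.N.PBasic

namespace Pool.Agent.N9181

open scoped commutatorElement

theorem xfpf_mul {G : Type} [Group G] (y h k : G) (s t : ℕ) (hh : h * y * h⁻¹ = y ^ s)
    (hk : k * y * k⁻¹ = y ^ t) : (h * k) * y * (h * k)⁻¹ = y ^ (s * t) := by
  have h1 : (h * k) * y * (h * k)⁻¹ = h * (k * y * k⁻¹) * h⁻¹ := by group
  rw [h1, hk, ← conj_pow, hh, ← pow_mul]

theorem xfpf_pow {G : Type} [Group G] (y h : G) (s : ℕ) (hh : h * y * h⁻¹ = y ^ s) (e : ℕ) :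
    (h ^ e) * y * (h ^ e)⁻¹ = y ^ (s ^ e) := by
  induction e with
  | zero => simp
  | succ e ih =>
    rw [pow_succ, pow_succ]
    exact xfpf_mul y _ _ _ _ ih hh

theorem xfpf_mod {G : Type} [Group G] (y : G) (hy : y ^ 169 = 1) (a b : ℕ)
    (h : a ≡ b [MOD 169]) : y ^ a = y ^ b := by
  rw [pow_eq_pow_mod a hy, pow_eq_pow_mod b hy, h]

theorem xfpf_mem {G : Type} [Group G] [Finite G] (Q : Subgroup G) (hQ : Q.Normal)
    (hQi : ¬ 13 ∣ Q.index) (q : G) (a : ℕ) (hq : q ^ (13 ^ a) = 1) : q ∈ Q := by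
  have h1 : orderOf (QuotientGroup.mk' Q q) ∣ 13 ^ a := by
    apply orderOf_dvd_of_pow_eq_one
    rw [← map_pow, hq, map_one]
  have h2 : orderOf (QuotientGroup.mk' Q q) ∣ Q.index := by
    rw [Subgroup.index]
    exact orderOf_dvd_natCard _
  have h3 : Nat.Coprime (13 ^ a) Q.index :=
    Nat.Coprime.pow_left _ ((Nat.Prime.coprime_iff_not_dvd (by norm_num)).2 hQi)
  have h4 : orderOf (QuotientGroup.mk' Q q) = 1 :=
    Nat.eq_one_of_dvd_coprimes h3 h1 h2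
  rw [orderOf_eq_one_iff] at h4
  exact (QuotientGroup.eq_one_iff q).1 h4

theorem fpf_norm {G : Type} [Group G] [Finite G] (Q : Subgroup G) (hQ : Q.Normal) (z : G) (hz : z ^ 3 = 1)
    (hf : ∀ x ∈ Q, x * z = z * x → x = 1) : ∀ x ∈ Q, (x * z) ^ 3 = 1 ∧ IsConj z (x * z) := by
  let f : Q → Q := fun y => ⟨y.1 * (z * y.1⁻¹ * z⁻¹), Q.mul_mem y.2 (hQ.conj_mem _ (Q.inv_mem y.2) z)⟩
  have hinj : Function.Injective f := by
    intro y y' h
    have h1 : y.1 * (z * y.1⁻¹ * z⁻¹) = y'.1 * (z * y'.1⁻¹ * z⁻¹) := congrArg Subtype.val h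
    have h2 : y'.1⁻¹ * y.1 * z = z * (y'.1⁻¹ * y.1) := by
      have h3 : y'.1⁻¹ * y.1 * z = y'.1⁻¹ * (y.1 * (z * y.1⁻¹ * z⁻¹)) * z * y.1 := by group
      rw [h3, h1]; group
    have h4 := hf _ (Q.mul_mem (Q.inv_mem y'.2) y.2) h2
    apply Subtype.ext
    exact (inv_mul_eq_one.1 h4).symm
  have hsurj : Function.Surjective f := Finite.surjective_of_injective hinj
  intro x hx
  obtain ⟨y, hy⟩ := hsurj ⟨x, hx⟩
  have h1 : y.1 * (z * y.1⁻¹ * z⁻¹) = x := congrArg Subtype.val hy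
  have h2 : x * z = y.1 * z * y.1⁻¹ := by rw [← h1]; group
  refine ⟨?_, ?_⟩
  · rw [h2, conj_pow, hz]; group
  · rw [h2]; exact isConj_iff.2 ⟨y.1, rfl⟩

theorem xfpf_eig {G : Type} [Group G] [Finite G] (Q : Subgroup G) (hQ : Q.Normal) (z : G)
    (hz : z ^ 3 = 1) (hf : ∀ x ∈ Q, x * z = z * x → x = 1) (x : G) (hx : x ∈ Q)
    (h169 : x ^ 169 = 1) (h13 : x ^ 13 ≠ 1) :
    ∃ y ∈ Q, y ^ 169 = 1 ∧ y ^ 13 ≠ 1 ∧ ∃ a : ℕ, z * y * z⁻¹ = y ^ a := by
  set u := z * x * z⁻¹ with hu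
  have huQ : u ∈ Q := hQ.conj_mem x hx z
  have hz3 : z * z * z = 1 := by rw [← hz]; simp [pow_succ]
  have hzi : z⁻¹ = z * z := by
    rw [inv_eq_iff_mul_eq_one, ← mul_assoc, hz3]
  have e1 : x * u * (z * u * z⁻¹) = 1 := by
    have h := (fpf_norm Q hQ z hz hf x hx).1
    have h' : x * u * (z * u * z⁻¹) = (x * z) ^ 3 * (z ^ 3)⁻¹ := by
      rw [hu]; simp only [pow_succ, pow_zero]; group
    rw [h', h, hz]; simp
  have e2 : x⁻¹ * u⁻¹ * (z * u * z⁻¹)⁻¹ = 1 := by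
    have h := (fpf_norm Q hQ z hz hf x⁻¹ (Q.inv_mem hx)).1
    have h' : x⁻¹ * u⁻¹ * (z * u * z⁻¹)⁻¹ = (x⁻¹ * z) ^ 3 * (z ^ 3)⁻¹ := by
      rw [hu]; simp only [pow_succ, pow_zero]; group
    rw [h', h, hz]; simp
  have e3 : z * u * z⁻¹ = (x * u)⁻¹ := eq_inv_of_mul_eq_one_right e1
  have hc : Commute x u := by
    rw [e3, inv_inv] at e2
    have : x * u = u * x := by
      have h' : x * u = (u * x) * (x⁻¹ * u⁻¹ * (x * u)) := by group
      rw [h', e2, mul_one]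
    exact this
  have u169 : u ^ 169 = 1 := by rw [hu, conj_pow, h169]; group
  have xinv : x⁻¹ = x ^ 168 := by
    rw [inv_eq_iff_mul_eq_one, ← pow_succ', h169]
  have uinv : u⁻¹ = u ^ 168 := by
    rw [inv_eq_iff_mul_eq_one, ← pow_succ', u169]
  have key : ∀ c : ℕ, z * (u * x ^ c) * z⁻¹ = u ^ (168 + c) * x ^ 168 := by
    intro c
    have h' : z * (u * x ^ c) * z⁻¹ = (z * u * z⁻¹) * (z * x * z⁻¹) ^ c := by
      rw [conj_pow]; group
    rw [h', e3, ← hu, mul_inv_rev, xinv, uinv, pow_add, mul_assoc, mul_assoc,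
      (hc.pow_pow 168 c).eq]
  have pw : ∀ c n : ℕ, (u * x ^ c) ^ n = u ^ n * x ^ (c * n) := by
    intro c n
    rw [(hc.symm.pow_right c).mul_pow, ← pow_mul]
  have p169 : ∀ c : ℕ, (u * x ^ c) ^ 169 = 1 := by
    intro c
    rw [pw, u169, mul_comm c 169, pow_mul, h169]; simp
  by_cases h1 : (u * x ^ 23) ^ 13 = 1
  · by_cases h2 : (u * x ^ 147) ^ 13 = 1
    · exfalso
      apply h13
      rw [pw] at h1 h2
      have h3 : x ^ (23 * 13) = x ^ (147 * 13) := by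
        apply mul_left_cancel (a := u ^ 13)
        rw [h1, h2]
      have h4 : x ^ (23 * 13) * x ^ (124 * 13) = x ^ (23 * 13) * 1 := by
        rw [← pow_add, mul_one, h3]
      have h5 : x ^ (124 * 13) = 1 := mul_left_cancel h4
      have h6 : x ^ 13 = x ^ (124 * 13 * 2) := xfpf_mod x h169 _ _ (by decide)
      rw [h6, pow_mul, h5, one_pow]
    · refine ⟨u * x ^ 147, Q.mul_mem huQ (Q.pow_mem hx _), p169 _, h2, 146, ?_⟩
      rw [key, pw, xfpf_mod u u169 (168 + 147) 146 (by decide),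
        xfpf_mod x h169 168 (147 * 146) (by decide)]
  · refine ⟨u * x ^ 23, Q.mul_mem huQ (Q.pow_mem hx _), p169 _, h1, 22, ?_⟩
    rw [key, pw, xfpf_mod u u169 (168 + 23) 22 (by decide),
      xfpf_mod x h169 168 (23 * 22) (by decide)]

theorem exp13 {G : Type} [Group G] [Finite G] (N m : ℕ) (hP : PP G N m) (Q : Subgroup G) (hQ : Q.Normal)
    (hQp : IsPGroup 13 Q) (hQi : ¬ 13 ∣ Q.index) (z : G) (hz : z ^ 3 = 1)
    (hf : ∀ x ∈ Q, x * z = z * x → x = 1) : ∀ x ∈ Q, x ^ 13 = 1 := by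
  have main : ∀ x ∈ Q, x ^ 169 = 1 → x ^ 13 = 1 := by
    intro x hx h169
    by_contra h13
    obtain ⟨y, hy, y169, y13, a, ha⟩ := xfpf_eig Q hQ z hz hf x hx h169 h13
    have ho : orderOf y = 13 ^ 2 :=
      orderOf_eq_prime_pow (p := 13) (n := 1) (by simpa using y13) (by simpa using y169)
    have hG : 169 ∣ Nat.card G := by
      have := orderOf_dvd_natCard y
      rwa [ho] at this
    obtain ⟨j, hj, hj14⟩ := exists_j 169 N 14 (hG.trans hP.1.1) hP.1.2.1 (by decide)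
    obtain ⟨g, hg⟩ := isConj_iff.1 (pp_sq N m hP y j hj)
    have hg27 : g * y * g⁻¹ = y ^ 27 := by
      rw [hg]
      exact xfpf_mod y y169 _ _ ((hj14.mul hj14).trans (by decide))
    obtain ⟨e, b, hb, he, -⟩ := p_part 13 (by norm_num) g
    have he1 : e ≡ 1 [MOD 13] := by
      have := he 1 (by rw [pow_one]; exact Dvd.dvd.trans (by decide) hG)
      rwa [pow_one] at this
    have hqQ : g ^ e ∈ Q := xfpf_mem Q hQ hQi _ b hb
    have hq : g ^ e * y * (g ^ e)⁻¹ = y ^ 27 := by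
      rw [xfpf_pow y g 27 hg27 e]
      apply xfpf_mod y y169
      have h1 : e = 13 * (e / 13) + 1 := by
        have := Nat.div_add_mod e 13
        have h2 : e % 13 = 1 := he1
        omega
      rw [h1, pow_succ, pow_mul]
      have h3 : 27 ^ 13 ≡ 1 [MOD 169] := by decide
      have h4 := (h3.pow (e / 13)).mul_right 27
      simpa using h4
    have h3 := xfpf_pow y _ _ (xfpf_mul y _ _ _ _ hq ha) 3
    rw [(fpf_norm Q hQ z hz hf _ hqQ).1] at h3
    have h4 := xfpf_pow y _ _ ha 3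
    rw [hz] at h4
    simp only [one_mul, inv_one, mul_one] at h3 h4
    have h5 : y ^ ((27 * a) ^ 3) = y ^ 79 := by
      rw [mul_pow, mul_comm, pow_mul, ← h4]
      exact xfpf_mod y y169 _ _ (by decide)
    rw [h5] at h3
    have h6 : y ^ 78 = 1 := by
      have : y ^ 78 * y = 1 * y := by rw [← pow_succ, one_mul]; exact h3.symm
      exact mul_right_cancel this
    apply y13
    have h7 : y ^ 169 = y ^ 13 * (y ^ 78) ^ 2 := by rw [← pow_mul, ← pow_add]
    rw [h6, one_pow, mul_one, y169] at h7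
    exact h7.symm
  have ind : ∀ k : ℕ, ∀ x ∈ Q, x ^ (13 ^ k) = 1 → x ^ 13 = 1 := by
    intro k
    induction k with
    | zero =>
      intro x _ h
      rw [pow_zero, pow_one] at h
      rw [h, one_pow]
    | succ k ih =>
      intro x hx h
      apply main x hx
      have h1 := ih (x ^ 13) (Q.pow_mem hx _) (by rw [← pow_mul, ← pow_succ']; exact h)
      rw [← pow_mul] at h1
      exact h1
  intro x hx
  obtain ⟨k, hk⟩ := hQp ⟨x, hx⟩
  exact ind k x hx (congrArg Subtype.val hk)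

end Pool.Agent.N9181
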