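import Pool.Agent.MP_9181f8_al.N.EmbB

namespace Pool.Agent.N9181

open scoped commutatorElement

section
variable {V : Type} [AddCommGroup V] [Module K V]

theorem xmodb_geom (A : Module.End K V) (j : ℕ) :
    A ^ j - 1 = (A - 1) * ∑ i ∈ Finset.range j, A ^ i := (mul_geom_sum A j).symm

theorem xmodb_comm (A : Module.End K V) (j : ℕ) :
    Commute (A - 1) (∑ i ∈ Finset.range j, A ^ i) := by
  show _ = _
  rw [mul_geom_sum, geom_sum_mul]

theorem xmodb_sum (A : Module.End K V) (j : ℕ) (v : V) :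
    ∃ y, (∑ i ∈ Finset.range j, A ^ i) v = (j : K) • v + (A - 1) y := by
  induction j with
  | zero => exact ⟨0, by simp⟩
  | succ j ih =>
    obtain ⟨y, hy⟩ := ih
    refine ⟨y + (∑ i ∈ Finset.range j, A ^ i) v, ?_⟩
    have h1 : (A - 1) ((∑ i ∈ Finset.range j, A ^ i) v) = (A ^ j) v - v := by
      rw [← Module.End.mul_apply, ← xmodb_geom]; simp
    rw [Finset.sum_range_succ, LinearMap.add_apply, map_add, h1, Nat.cast_succ, add_smul, one_smul]
    rw [hy]
    abel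

theorem xmodb_conj (A B : Module.End K V) (j : ℕ) (h : B * A = A ^ j * B) (k : ℕ) :
    B * (A - 1) ^ k = (A - 1) ^ k * (∑ i ∈ Finset.range j, A ^ i) ^ k * B := by
  have h1 : B * (A - 1) = (A - 1) * (∑ i ∈ Finset.range j, A ^ i) * B := by
    rw [← xmodb_geom, mul_sub, sub_mul, h, mul_one, one_mul]
  rw [← (xmodb_comm A j).mul_pow]
  induction k with
  | zero => simp
  | succ k ih => rw [pow_succ, ← mul_assoc, ih, mul_assoc, h1, ← mul_assoc, ← pow_succ]

theorem xmodb_ex (n : Module.End K V) (c : ℕ) (hc : n ^ c = 0) (hne : n ^ 2 ≠ 0) :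
    ∃ v, ∀ y, (n ^ 2) v ≠ (n ^ 3) y := by
  by_contra hcon
  push Not at hcon
  have H : ∀ (k : ℕ) (v : V), ∃ y, (n ^ 2) v = (n ^ (k + 2)) y := by
    intro k
    induction k with
    | zero => exact fun v => ⟨v, rfl⟩
    | succ k ih =>
      intro v
      obtain ⟨y, hy⟩ := ih v
      obtain ⟨z, hz⟩ := hcon y
      refine ⟨z, ?_⟩
      rw [hy, pow_add, Module.End.mul_apply, hz, ← Module.End.mul_apply, ← pow_add]
  apply hne
  ext v
  obtain ⟨y, hy⟩ := H c v
  rw [hy, pow_add, hc, zero_mul]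
  rfl

theorem xmodb_fix [Module.Finite K V] (A B : Module.End K V) (j : ℕ) (hj : (j : K) = 3)
    (h : B * A = A ^ j * B) (v : V) 
    (hv : ∀ y, ((A - 1) ^ 2 : Module.End K V) v ≠ ((A - 1) ^ 3 : Module.End K V) y)
    (y0 : V) (hB : B v = (j : K) • v + (A - 1) y0) : ∃ w, w ≠ 0 ∧ B w = w := by
  by_contra hcon
  push Not at hcon
  set n := A - 1 with hn
  set S := ∑ i ∈ Finset.range j, A ^ i with hS
  have hcm : Commute n S := xmodb_comm A j
  have hinj : Function.Injective (B - 1 : Module.End K V) := by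
    rw [injective_iff_map_eq_zero]
    intro w hw
    by_contra hw0
    apply hcon w hw0
    simpa [sub_eq_zero] using hw
  have hmap : ∀ w ∈ LinearMap.range (n ^ 3), (B - 1) w ∈ LinearMap.range (n ^ 3) := by
    rintro _ ⟨y, rfl⟩
    refine ⟨(S ^ 3) (B y) - y, ?_⟩
    have := congrArg (fun f : Module.End K V => f y) (xmodb_conj A B j h 3)
    simp only [Module.End.mul_apply] at this
    rw [map_sub, LinearMap.sub_apply, this]
    rfl
  have hsurj : Function.Surjective ((B - 1).restrict hmap) := by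
    apply LinearMap.injective_iff_surjective.mp
    intro w1 w2 hw
    apply Subtype.ext
    apply hinj
    exact congrArg Subtype.val hw
  have hkey : (B - 1) ((n ^ 2) v) ∈ LinearMap.range (n ^ 3) := by
    obtain ⟨y1, hy1⟩ := xmodb_sum A j v
    obtain ⟨y2, hy2⟩ := xmodb_sum A j (S v)
    have e1 := congrArg (fun f : Module.End K V => f v) (xmodb_conj A B j h 2)
    simp only [Module.End.mul_apply] at e1
    rw [← hn, ← hS] at e1 hy1 hy2
    have e2 : (S ^ 2) v = ((j : K) * j) • v + n ((j : K) • y1 + y2) := by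
      rw [pow_two, Module.End.mul_apply, hy2, hy1, map_add, map_smul, smul_add, mul_smul]
      abel
    have e3 : (S ^ 2) (n y0) = n ((S ^ 2) y0) := by
      rw [← Module.End.mul_apply, ← Module.End.mul_apply, (hcm.pow_right 2).eq]
    have e4 : ∀ y, (n ^ 2) (n y) = (n ^ 3) y := fun y => by
      rw [← Module.End.mul_apply, ← pow_succ]
    have e5 : (j : K) * ((j : K) * j) = 1 := by rw [hj]; decide
    refine ⟨(j : K) • ((j : K) • y1 + y2) + (S ^ 2) y0, ?_⟩
    rw [LinearMap.sub_apply, e1, hB, map_add (S ^ 2), map_smul, e2, e3, smul_add (j : K) _ (n _),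
      ← mul_smul, e5, one_smul, map_add (n ^ 2), map_add (n ^ 2), map_smul, e4, e4,
      map_add (n ^ 3), map_smul, Module.End.one_apply]
    abel
  obtain ⟨⟨_, y, rfl⟩, hy⟩ := hsurj ⟨_, hkey⟩
  exact hv y (hinj (congrArg Subtype.val hy)).symm

theorem xmodb_powB (A B : Module.End K V) (j : ℕ) (h : B * A = A ^ j * B) (v y0 : V)
    (hB : B v = (j : K) • v + (A - 1) y0) (e : ℕ) :
    ∃ y, (B ^ e) v = ((j ^ e : ℕ) : K) • v + (A - 1) y := by
  induction e with
  | zero => exact ⟨0, by simp⟩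
  | succ e ih =>
    obtain ⟨y, hy⟩ := ih
    have e1 := congrArg (fun f : Module.End K V => f y) (xmodb_conj A B j h 1)
    simp only [Module.End.mul_apply, pow_one] at e1
    refine ⟨((j ^ e : ℕ) : K) • y0 + (∑ i ∈ Finset.range j, A ^ i) (B y), ?_⟩
    rw [pow_succ', Module.End.mul_apply, hy, map_add, map_smul, hB, e1, map_add, map_smul,
      smul_add, ← mul_smul, pow_succ, Nat.cast_mul]
    abel

end

theorem xmodb_powG {G : Type} [Group G] (h u : G) (j : ℕ) (hh : h * u * h⁻¹ = u ^ j) (e : ℕ) :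
    h ^ e * u * (h ^ e)⁻¹ = u ^ (j ^ e) := by
  induction e with
  | zero => simp
  | succ e ih =>
    have : h ^ (e + 1) * u * (h ^ (e + 1))⁻¹ = h * (h ^ e * u * (h ^ e)⁻¹) * h⁻¹ := by
      rw [pow_succ']; group
    rw [this, ih, ← conj_pow, hh, ← pow_mul, pow_succ']

theorem xmodb_xpow {V : Type} [AddCommGroup V] [Module K V] [Module.Finite K V]
    {G : Type} [Group G] (ρ : Representation K G V) (ι : V → G) (hι : Emb ρ ι) (u : G) (v : V)
    (j : ℕ) : (ι v * u) ^ j = ι ((∑ i ∈ Finset.range j, (ρ u) ^ i) v) * u ^ j := by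
  induction j with
  | zero => simp [(emb_basic ρ ι hι).1]
  | succ j ih =>
    rw [pow_succ, ih, Finset.sum_range_succ, LinearMap.add_apply, hι.add, ← map_pow, hι.act]
    group

theorem jordan {V : Type} [AddCommGroup V] [Module K V] [Module.Finite K V]
    {G : Type} [Group G] [Finite G] (ρ : Representation K G V) (ι : V → G) (hι : Emb ρ ι) (N m : ℕ) (hP : PP G N m) (Y : Subgroup G)
    (hY1 : ∀ v, ι v ∈ Y → v = 0) (hY2 : ∀ g : G, ∃ v, ∃ h ∈ Y, g = ι v * h) (u : G)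
    (huY : u ∈ Y) (a : ℕ) (hu : u ^ (13 ^ a) = 1) (hne : (ρ u - 1) ^ 2 ≠ 0) :
    ∃ (t : G) (b j : ℕ), t ^ (3 ^ b) = 1 ∧ j ≡ 3 [MOD 13] ∧ t * u * t⁻¹ = u ^ j ∧
      ∃ v, v ≠ 0 ∧ ρ t v = v := by
  have h0 : ι 0 = 1 := (emb_basic ρ ι hι).1
  have hneg : ∀ v, ι (-v) = (ι v)⁻¹ := fun v => by
    rw [eq_inv_iff_mul_eq_one, ← hι.add, neg_add_cancel, h0]
  have : Nontrivial (Module.End K V) := ⟨⟨_, _, hne⟩⟩
  have : CharP (Module.End K V) 13 :=
    charP_of_injective_algebraMap (algebraMap K (Module.End K V)).injective 13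
  have hnil : (ρ u - 1) ^ (13 ^ a) = 0 := by
    rw [sub_pow_char_pow_of_commute 13 a (Commute.one_right _), ← map_pow, hu, map_one, one_pow,
      sub_self]
  have hu1 : u ≠ 1 := by
    rintro rfl
    apply hne
    simp
  have h13 : 13 ∣ N := by
    have h1 : orderOf u ∣ 13 ^ a := orderOf_dvd_of_pow_eq_one hu
    obtain ⟨c, -, hc⟩ := (Nat.dvd_prime_pow fact13.out).mp h1
    have hc0 : c ≠ 0 := by
      rintro rfl
      exact hu1 (orderOf_eq_one_iff.mp (by simpa using hc))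
    exact ((hc ▸ dvd_pow_self 13 hc0 : 13 ∣ orderOf u).trans (orderOf_dvd_natCard u)).trans hP.1.1
  obtain ⟨v, hv⟩ := xmodb_ex (ρ u - 1) _ hnil hne
  obtain ⟨j0, hj0, hj4⟩ := exists_j 13 N 4 h13 hP.1.2.1 (by norm_num)
  have hj3 : j0 * j0 ≡ 3 [MOD 13] := (hj4.mul hj4).trans (by decide)
  obtain ⟨g, hg⟩ := isConj_iff.mp (pp_sq N m hP (ι v * u) j0 hj0)
  generalize j0 * j0 = j at hj3 hg
  obtain ⟨v1, h, hhY, rfl⟩ := hY2 g
  rw [xmodb_xpow ρ ι hι] at hg
  have hu' : h * u * h⁻¹ ∈ Y := Y.mul_mem (Y.mul_mem hhY huY) (Y.inv_mem hhY)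
  have e1 : ι (-((∑ i ∈ Finset.range j, (ρ u) ^ i) v) + (v1 + ρ h v + -(ρ (h * u * h⁻¹) v1)))
      = u ^ j * (h * u * h⁻¹)⁻¹ := by
    rw [hι.add, hι.add, hι.add, hneg, hneg, hι.act, hι.act, inv_mul_eq_iff_eq_mul,
      ← mul_assoc (ι ((∑ i ∈ Finset.range j, (ρ u) ^ i) v)), ← hg]
    group
  have e2 := hY1 _ (e1 ▸ Y.mul_mem (Y.pow_mem huY j) (Y.inv_mem hu'))
  rw [e2, h0, eq_comm, mul_inv_eq_one] at e1
  have hc : ∀ (t : G) (i : ℕ), t * u * t⁻¹ = u ^ i → ρ t * ρ u = ρ u ^ i * ρ t := by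
    intro t i ht
    rw [← map_pow, ← ht, ← map_mul, ← map_mul, inv_mul_cancel_right]
  obtain ⟨y1, hy1⟩ := xmodb_sum (ρ u) j v
  have hB : ρ h v = (j : K) • v + (ρ u - 1) (y1 + (∑ i ∈ Finset.range j, (ρ u) ^ i) v1) := by
    have e3 : (ρ u - 1) ((∑ i ∈ Finset.range j, (ρ u) ^ i) v1) = (ρ u ^ j) v1 - v1 := by
      rw [← Module.End.mul_apply, ← xmodb_geom]; simp
    rw [← e1, map_pow, hy1] at e2
    rw [map_add, e3, ← sub_eq_zero, ← e2]
    abel
  obtain ⟨b, r, hr, hbr⟩ := Nat.exists_eq_pow_mul_and_not_dvd (orderOf_pos h).ne' 3 (by norm_num)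
  obtain ⟨q, hq⟩ : ∃ q, r * r = 3 * q + 1 := by
    refine ⟨r * r / 3, ?_⟩
    have : r % 3 = 1 ∨ r % 3 = 2 := by omega
    have h2 : r * r % 3 = 1 := by
      rcases this with h | h <;> simp [Nat.mul_mod, h]
    omega
  have hje : j ^ (r * r) ≡ 3 [MOD 13] := by
    refine (hj3.pow _).trans ?_
    rw [hq, pow_succ, pow_mul]
    have : (3 ^ 3) ^ q ≡ 1 ^ q [MOD 13] := Nat.ModEq.pow q (by decide)
    simpa using this.mul_right 3
  have ht := xmodb_powG h u j e1.symm (r * r)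
  refine ⟨h ^ (r * r), b, j ^ (r * r), ?_, hje, ht, ?_⟩
  · rw [← pow_mul, ← orderOf_dvd_iff_pow_eq_one, hbr]
    exact ⟨r, by ring⟩
  · obtain ⟨y, hy⟩ := xmodb_powB (ρ u) (ρ h) j (hc h j e1.symm) v _ hB (r * r)
    rw [← map_pow] at hy
    refine xmodb_fix (ρ u) (ρ (h ^ (r * r))) (j ^ (r * r)) ?_ (hc _ _ ht) v hv y hy
    have := (ZMod.natCast_eq_natCast_iff _ _ _).mpr hje
    simpa using this

end Pool.Agent.N9181
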