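import Pool.Agent.MP_9181f8_al.N.EmbB

namespace Pool.Agent.N9181

open scoped commutatorElement

theorem xsplit_avg {G : Type} [Group G] [Finite G] (B R : Subgroup G) :
    ∃ (I : Type) (_ : Fintype I) (o : I → G), Fintype.card I = B.relIndex R ∧ (∀ i, o i ∈ R) ∧
      ∀ r ∈ R, ∃ σ : Equiv.Perm I, ∀ i, ∃ b ∈ B, o (σ i) = r * o i * b := by
  classical
  refine ⟨R ⧸ B.subgroupOf R, Fintype.ofFinite _, fun q => (q.out : R), ?_, fun q => q.out.2, ?_⟩
  · rw [← @Nat.card_eq_fintype_card _ (Fintype.ofFinite _)]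
    rfl
  · intro r hr
    refine ⟨MulAction.toPerm (⟨r, hr⟩ : R), fun q => ?_⟩
    have h1 : ((⟨r, hr⟩ : R) • q) = (((⟨r, hr⟩ : R) * q.out : R) : R ⧸ B.subgroupOf R) := by
      conv_lhs => rw [← QuotientGroup.out_eq' q]
      rfl
    obtain ⟨b, hb⟩ := QuotientGroup.mk_out_eq_mul (B.subgroupOf R) ((⟨r, hr⟩ : R) * q.out)
    refine ⟨(b : R), b.2, ?_⟩
    simp only [MulAction.toPerm_apply]
    rw [h1, hb]
    rfl

theorem xsplit_t {V : Type} [AddCommGroup V] [Module K V]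
    {G : Type} [Group G] (ρ : Representation K G V) (ι : V → G) (hι : Emb ρ ι) (B : Subgroup G)
    (hB : ∀ g, g ∈ B ↔ ∃ v, ι v = g) : ∃ t : G → V, ∀ v g, t (ι v * g) = v + t g := by
  classical
  have key : ∀ g : G, ∃ v, ι v =
      g * (Quotient.out (Quotient.mk (QuotientGroup.rightRel B) g))⁻¹ := by
    intro g
    apply (hB _).1
    have := Quotient.mk_out (s := QuotientGroup.rightRel B) g
    exact QuotientGroup.rightRel_apply.1 this
  choose t ht using key
  refine ⟨t, fun v g => hι.inj ?_⟩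
  have h1 : Quotient.mk (QuotientGroup.rightRel B) (ι v * g) =
      Quotient.mk (QuotientGroup.rightRel B) g := by
    symm
    apply Quotient.sound
    apply QuotientGroup.rightRel_apply.2
    rw [mul_inv_cancel_right]
    exact (hB _).2 ⟨v, rfl⟩
  rw [hι.add, ht, ht, h1, mul_assoc]

theorem split {V : Type} [AddCommGroup V] [Module K V] [Module.Finite K V]
    {G : Type} [Group G] [Finite G] (ρ : Representation K G V) (ι : V → G) (hι : Emb ρ ι) (B R : Subgroup G) (hB : ∀ g, g ∈ B ↔ ∃ v, ι v = g) (hR : R.Normal)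
    (hle : B ≤ R) (hc : ¬ 13 ∣ B.relIndex R) (hf : ∀ v, (∀ r ∈ R, ρ r v = v) → v = 0) :
    ∃ Y : Subgroup G, (∀ v, ι v ∈ Y → v = 0) ∧ ∀ g : G, ∃ v, ∃ h ∈ Y, g = ι v * h := by
  classical
  obtain ⟨I, _, o, hcard, hoR, hσ⟩ := xsplit_avg B R
  obtain ⟨t, ht⟩ := xsplit_t ρ ι hι B hB
  obtain ⟨h0, -, -, htriv⟩ := emb_basic ρ ι hι
  have hn : ((Fintype.card I : ℕ) : K) ≠ 0 := by
    rw [hcard]
    intro h
    exact hc ((ZMod.natCast_eq_zero_iff _ _).1 h)
  set n : K := ((Fintype.card I : ℕ) : K) with hndef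
  have hmul : ∀ (a b : G) (v : V), ρ (a * b) v = ρ a (ρ b v) := by
    intro a b v
    rw [map_mul]
    rfl
  have hsw : ∀ (g : G) (v : V), g * ι v = ι (ρ g v) * g := by
    intro g v
    rw [hι.act, inv_mul_cancel_right]
  have htr : ∀ (g : G) (v : V), t (g * ι v) = ρ g v + t g := by
    intro g v
    rw [hsw, ht]
  have hfix : ∀ v w, ρ (ι v) w = w := by
    intro v w
    rw [htriv]
    rfl
  have hsum : ∀ (F : G → V), (∀ s ∈ R, ∀ v, F (s * ι v) = F s) → ∀ r ∈ R,
      ∑ i, F (r * o i) = ∑ i, F (o i) := by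
    intro F hF r hr
    obtain ⟨σ, hσ'⟩ := hσ r hr
    rw [← Equiv.sum_comp σ (fun i => F (o i))]
    refine Finset.sum_congr rfl fun i _ => ?_
    obtain ⟨b, hb, e⟩ := hσ' i
    obtain ⟨v, rfl⟩ := (hB b).1 hb
    rw [e, hF _ (R.mul_mem hr (hoR i))]
  have hconst : ∀ v : V, n⁻¹ • ∑ _i : I, v = v := by
    intro v
    rw [Finset.sum_const, Finset.card_univ, ← Nat.cast_smul_eq_nsmul K, smul_smul,
      inv_mul_cancel₀ hn, one_smul]
  obtain ⟨φ, hφm, hφι⟩ : ∃ φ : G → V, (∀ r, ∀ s ∈ R, φ (r * s) = φ r + ρ r (φ s)) ∧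
      ∀ v, φ (ι v) = v := by
    refine ⟨fun r => n⁻¹ • ∑ i, (t (r * o i) - ρ r (t (o i))), ?_, ?_⟩
    · intro r s hs
      have h1 := hsum (fun x => t (r * x) - ρ r (t x)) (by
        intro x _ v
        rw [← mul_assoc, htr, htr, hmul, map_add]
        abel) s hs
      simp only []
      rw [← h1, map_smul, map_sum, ← smul_add, ← Finset.sum_add_distrib]
      congr 1
      refine Finset.sum_congr rfl fun i _ => ?_
      rw [map_sub, hmul, mul_assoc]
      abel
    · intro v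
      simp only []
      conv_rhs => rw [← hconst v]
      congr 1
      refine Finset.sum_congr rfl fun i _ => ?_
      rw [ht, hfix]
      abel
  have hιR : ∀ v, ι v ∈ R := fun v => hle ((hB _).2 ⟨v, rfl⟩)
  have hneg : ∀ v, (ι v)⁻¹ = ι (-v) := by
    intro v
    rw [inv_eq_iff_mul_eq_one, ← hι.add, add_neg_cancel, h0]
  have hconj : ∀ (u : V), ∀ r ∈ R, φ (ι u * r * (ι u)⁻¹) = φ r + (u - ρ r u) := by
    intro u r hr
    rw [hneg, hφm _ _ (hιR _), hφm _ _ hr, hφι, hφι, hmul, hfix, hfix, map_neg]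
    abel
  let Y : Subgroup G :=
    { carrier := {g | ∀ r ∈ R, φ (g * r * g⁻¹) = ρ g (φ r)}
      one_mem' := by
        intro r _
        simp
      mul_mem' := by
        intro a b ha hb r hr
        have h1 := ha _ (hR.conj_mem r hr b)
        rw [hb r hr] at h1
        rw [hmul, ← h1]
        congr 1
        group
      inv_mem' := by
        intro a ha r hr
        have h1 := ha _ (hR.conj_mem r hr a⁻¹)
        have h2 : a * (a⁻¹ * r * a⁻¹⁻¹) * a⁻¹ = r := by group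
        rw [h2] at h1
        rw [h1, ← hmul, inv_mul_cancel, map_one]
        rfl }
  refine ⟨Y, ?_, ?_⟩
  · intro v hv
    apply hf
    intro r hr
    have h1 : φ (ι v * r * (ι v)⁻¹) = ρ (ι v) (φ r) := hv r hr
    rw [hconj v r hr, hfix] at h1
    have h2 : v - ρ r v = 0 := by simpa using h1
    exact (sub_eq_zero.1 h2).symm
  · intro g
    let c : G → V := fun r => ρ g (φ (g⁻¹ * r * g)) - φ r
    have hcm : ∀ r, ∀ s ∈ R, c (r * s) = c r + ρ r (c s) := by
      intro r s hs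
      have e : g⁻¹ * (r * s) * g = (g⁻¹ * r * g) * (g⁻¹ * s * g⁻¹⁻¹) := by group
      have e2 : g * (g⁻¹ * r * g) = r * g := by group
      simp only [c]
      rw [e, hφm _ _ (hR.conj_mem s hs g⁻¹), hφm _ _ hs, map_add, map_sub, ← hmul, ← hmul, e2,
        inv_inv]
      abel
    have hc0 : ∀ v, c (ι v) = 0 := by
      intro v
      have e : g⁻¹ * ι v * g = ι (ρ g⁻¹ v) := by rw [hι.act, inv_inv]
      simp only [c]
      rw [e, hφι, hφι, ← hmul, mul_inv_cancel, map_one]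
      simp
    have hu : ∀ r ∈ R, c r = (n⁻¹ • ∑ i, c (o i)) - ρ r (n⁻¹ • ∑ i, c (o i)) := by
      intro r hr
      have h1 := hsum c (by
        intro s _ v
        rw [hcm _ _ (hιR v), hc0, map_zero, add_zero]) r hr
      conv_rhs => rw [map_smul, map_sum, ← smul_sub]
      conv_rhs => enter [2, 1]; rw [← h1]
      rw [← Finset.sum_sub_distrib]
      conv_lhs => rw [← hconst (c r)]
      congr 1
      refine Finset.sum_congr rfl fun i _ => ?_
      rw [hcm _ _ (hoR i)]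
      abel
    set u := n⁻¹ • ∑ i, c (o i) with hudef
    refine ⟨-u, ι u * g, ?_, ?_⟩
    · intro r hr
      have hr' := hR.conj_mem r hr g
      have h1 := hu _ hr'
      have e : ι u * g * r * (ι u * g)⁻¹ = ι u * (g * r * g⁻¹) * (ι u)⁻¹ := by group
      have e2 : g⁻¹ * (g * r * g⁻¹) * g = r := by group
      rw [e, hconj u _ hr', ← h1, hmul, hfix]
      simp only [c]
      rw [e2]
      abel
    · rw [← hneg, inv_mul_cancel_left]

open scoped IsMulCommutative in
theorem centralHall {G : Type} [Group G] [Finite G] (B D : Subgroup G) (hD : D.Normal) (hle : B ≤ D)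
    (hp : IsPGroup 13 B) (hcen : ∀ b ∈ B, ∀ d ∈ D, b * d = d * b) (hc : ¬ 13 ∣ B.relIndex D) :
    ∃ R : Subgroup G, R.Normal ∧ R ≤ D ∧ ¬ 13 ∣ Nat.card R ∧
      ∀ d ∈ D, ∃ a : ℕ, d ^ (13 ^ a) ∈ R := by
  classical
  have hz : B.subgroupOf D ≤ Subgroup.center D := by
    intro x hx
    rw [Subgroup.mem_center_iff]
    intro y
    exact Subtype.ext (hcen x hx y y.2).symm
  have hkey : ∀ (g : D) (k : ℕ) (g₀ : D), g₀⁻¹ * g ^ k * g₀ ∈ B.subgroupOf D →
      g₀⁻¹ * g ^ k * g₀ = g ^ k := by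
    intro g k g₀ hk
    have h1 := Subgroup.mem_center_iff.1 (hz hk) g₀
    have h2 : g₀ * (g₀⁻¹ * g ^ k * g₀) = g ^ k * g₀ := by group
    rw [h2] at h1
    exact (mul_right_cancel h1).symm
  have htr : ∀ g : D, ((MonoidHom.transfer (Subgroup.inclusion hz) g : Subgroup.center D) : D) =
      g ^ B.relIndex D := by
    intro g
    rw [MonoidHom.transfer_eq_pow _ g (hkey g)]
    rfl
  have hmul : ∀ a ∈ D, ∀ b ∈ D, (a * b) ^ B.relIndex D = a ^ B.relIndex D * b ^ B.relIndex D := by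
    intro a ha b hb
    have h1 := htr ((⟨a, ha⟩ : D) * ⟨b, hb⟩)
    rw [map_mul, Subgroup.coe_mul, htr, htr] at h1
    exact (congrArg Subtype.val h1).symm
  have hmem : ∀ a ∈ D, a ^ B.relIndex D ∈ B := by
    intro a ha
    exact MonoidHom.transfer_eq_pow_aux (⟨a, ha⟩ : D) (hkey _)
  let R : Subgroup G :=
    { carrier := {d | d ∈ D ∧ d ^ B.relIndex D = 1}
      one_mem' := ⟨D.one_mem, one_pow _⟩
      mul_mem' := by
        intro a b ha hb
        exact ⟨D.mul_mem ha.1 hb.1, by rw [hmul a ha.1 b hb.1, ha.2, hb.2, one_mul]⟩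
      inv_mem' := by
        intro a ha
        exact ⟨D.inv_mem ha.1, by rw [inv_pow, ha.2, inv_one]⟩ }
  refine ⟨R, ⟨?_⟩, fun d hd => hd.1, ?_, ?_⟩
  · intro d hd g
    exact ⟨hD.conj_mem d hd.1 g, by rw [conj_pow, hd.2, mul_one, mul_inv_cancel]⟩
  · intro h
    obtain ⟨x, hx⟩ := exists_prime_orderOf_dvd_card' 13 h
    apply hc
    rw [← hx]
    apply orderOf_dvd_of_pow_eq_one
    exact Subtype.ext x.2.2
  · intro d hd
    obtain ⟨a, ha⟩ := hp ⟨_, hmem d hd⟩
    refine ⟨a, D.pow_mem hd _, ?_⟩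
    rw [← pow_mul, mul_comm, pow_mul]
    exact congrArg Subtype.val ha

end Pool.Agent.N9181
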