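import Pool.Agent.MP_9181f8_al.N.ModA
import Pool.Agent.MP_9181f8_al.N.ModB
import Pool.Agent.MP_9181f8_al.N.Split
import Pool.Agent.MP_9181f8_al.N.CopM

namespace Pool.Agent.N9181

open scoped commutatorElement

theorem xmodc_mem {G : Type} [Group G] (Q : Subgroup G) (hQ : Q.Normal) (hi : ¬ 13 ∣ Q.index)
    (x : G) (a : ℕ) (hx : x ^ (13 ^ a) ∈ Q) : x ∈ Q := by
  have h1 : orderOf (QuotientGroup.mk' Q x) ∣ 13 ^ a := orderOf_dvd_of_pow_eq_one (by
    rw [← map_pow]; exact (QuotientGroup.eq_one_iff _).2 hx)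
  have h2 : orderOf (QuotientGroup.mk' Q x) ∣ Q.index := orderOf_dvd_of_pow_eq_one (by
    rw [← map_pow]; exact (QuotientGroup.eq_one_iff _).2 (Q.pow_index_mem x))
  have h3 : (13 ^ a).Coprime Q.index :=
    ((Nat.Prime.coprime_iff_not_dvd fact13.out).2 hi).pow_left a
  exact (QuotientGroup.eq_one_iff _).1
    (orderOf_eq_one_iff.1 (Nat.eq_one_of_dvd_coprimes h3 h1 h2))

theorem xmodc_map {G : Type} [Group G] {M Q : Subgroup G} [M.Normal] (h : M ≤ Q) {x : G}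
    (hx : QuotientGroup.mk' M x ∈ Q.map (QuotientGroup.mk' M)) : x ∈ Q := by
  have h1 : x ∈ (Q.map (QuotientGroup.mk' M)).comap (QuotientGroup.mk' M) := hx
  rwa [Subgroup.comap_map_eq_self (by rwa [QuotientGroup.ker_mk'])] at h1

theorem xmodc_ord {G : Type} [Group G] {t : G} {b : ℕ} (ht : t ^ (3 ^ b) = 1) :
    ¬ 13 ∣ orderOf t := fun h => by
  have h1 := fact13.out.dvd_of_dvd_pow (h.trans (orderOf_dvd_of_pow_eq_one ht))
  norm_num at h1

/-- The top chief factor as a module. -/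
theorem xmodc_top {G : Type} [Group G] [Finite G] [Group.IsSolvable G] (N m : ℕ) (hP : PP G N m)
    (M Q : Subgroup G) [M.Normal] (hQ : Q.Normal) (hMQ : M ≤ Q) (hne : M ≠ Q)
    (hmax : ∀ M' : Subgroup G, M'.Normal → M ≤ M' → M' ≤ Q → M' = M ∨ M' = Q)
    (hpw : ∀ k ∈ Q, ∃ a : ℕ, k ^ (13 ^ a) ∈ M) (hi : ¬ 13 ∣ Q.index) :
    ∃ (V : Type) (_ : AddCommGroup V) (_ : Module K V) (_ : Module.Finite K V)
      (ρ : Representation K (G ⧸ M) V) (ι : V → G ⧸ M), Emb ρ ι ∧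
      (∀ g, g ∈ Q.map (QuotientGroup.mk' M) ↔ ∃ v, ι v = g) ∧ Scal ρ ∧ ∃ v, Reg ρ v := by
  have hs := QuotientGroup.mk'_surjective M
  have h1 : Q.map (QuotientGroup.mk' M) ≠ ⊥ := fun h => hne (le_antisymm hMQ (by
    rwa [Subgroup.map_eq_bot_iff, QuotientGroup.ker_mk'] at h))
  obtain ⟨B, p, hB, hle, hB0, hp, hc, he, hmin⟩ := exists_min _ (hQ.map _ hs) h1
  have h2 : B = Q.map (QuotientGroup.mk' M) := by
    rcases hmax (B.comap (QuotientGroup.mk' M)) (hB.comap _)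
      (fun x hx => by
        rw [Subgroup.mem_comap, show QuotientGroup.mk' M x = 1 from
          (QuotientGroup.eq_one_iff x).2 hx]
        exact B.one_mem)
      (fun x hx => xmodc_map hMQ (hle hx)) with h | h
    · refine absurd ?_ hB0
      rw [← Subgroup.map_comap_eq_self_of_surjective hs B, h, Subgroup.map_eq_bot_iff,
        QuotientGroup.ker_mk']
    · rw [← h, Subgroup.map_comap_eq_self_of_surjective hs]
  obtain rfl : p = 13 := by
    obtain ⟨⟨b, hb⟩, hb1⟩ := Subgroup.ne_bot_iff_exists_ne_one.1 hB0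
    obtain ⟨q, hq, rfl⟩ := hle hb
    obtain ⟨a, ha⟩ := hpw q hq
    have : Fact p.Prime := ⟨hp⟩
    have h3 := orderOf_eq_prime (he _ hb) fun h => hb1 (Subtype.ext h)
    have h4 : orderOf (QuotientGroup.mk' M q) ∣ 13 ^ a := orderOf_dvd_of_pow_eq_one (by
      rw [← map_pow]; exact (QuotientGroup.eq_one_iff _).2 ha)
    exact (Nat.prime_dvd_prime_iff_eq hp fact13.out).1 (hp.dvd_of_dvd_pow (h3 ▸ h4))
  obtain ⟨V, _, _, _, ρ, ι, hι, hV⟩ := exists_emb B hB hc he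
  have h5 := copM ρ ι hι N m (pp_surj _ hs N m hP) (emb_irr ρ ι hι B hV hB0 hmin) fun g a hg => by
    obtain ⟨x, rfl⟩ := hs g
    rw [← map_pow] at hg
    have h6 : x ∈ Q := xmodc_mem Q hQ hi x a (hMQ ((QuotientGroup.eq_one_iff _).1 hg))
    obtain ⟨v, hv⟩ := (hV _).1 (h2 ▸ Subgroup.mem_map_of_mem (QuotientGroup.mk' M) h6)
    rw [← hv]
    exact (emb_basic ρ ι hι).2.2.2 v
  exact ⟨V, _, _, inferInstance, ρ, ι, hι, h2 ▸ hV, h5.2.2⟩

/-- A 3-element with the eigenvalue `3` on a regular vector is the scalar `3`. -/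
theorem xmodc_scal {V : Type} [AddCommGroup V] [Module K V] {G : Type} [Group G]
    (ρ : Representation K G V) (hz : Scal ρ) {w : V} (hw : Reg ρ w) {t : G} {b : ℕ}
    (ht : t ^ (3 ^ b) = 1) (h : ρ t w = (3 : K) • w) (v : V) : ρ t v = (3 : K) • v := by
  obtain ⟨z, hz⟩ := hz
  have e1 : (9 : K) * 3 = 1 := by decide
  have e2 : (9 : K) ^ 3 = 1 := by decide
  have h1 : ρ (t * z⁻¹) = (9 : K) • ρ t := by
    ext x
    have h2 : ρ z⁻¹ x = (9 : K) • x := by
      have h3 : ρ z⁻¹ (ρ z ((9 : K) • x)) = (9 : K) • x := by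
        rw [← Module.End.mul_apply, ← map_mul, inv_mul_cancel, map_one, Module.End.one_apply]
      rwa [hz, smul_smul, mul_comm, e1, one_smul] at h3
    rw [map_mul, Module.End.mul_apply, h2, map_smul, LinearMap.smul_apply]
  have h4 := hw.2 (t * z⁻¹) (b + 1) (by
    rw [h1, smul_pow, ← map_pow, pow_succ 3 b, pow_mul t, ht, one_pow, map_one, mul_comm,
      pow_mul, e2, one_pow, one_smul]) (by
    rw [h1, LinearMap.smul_apply, h, smul_smul, e1, one_smul])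
  rw [← hz, ← inv_mul_cancel_right t z, map_mul, h4, one_mul]

theorem modular {V : Type} [AddCommGroup V] [Module K V] [Module.Finite K V]
    {G : Type} [Group G] [Finite G] [Group.IsSolvable G] (ρ : Representation K G V) (ι : V → G) (hι : Emb ρ ι) (N m : ℕ) (hP : PP G N m) (hirr : Irr ρ)
    (B R Q : Subgroup G) (hB : ∀ g, g ∈ B ↔ ∃ v, ι v = g) (z : G) (hD : GD B R Q z) :
    ∀ (g : G) (a : ℕ), g ^ (13 ^ a) = 1 → ρ g = 1 := by
  intro g a hg
  by_contra hne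
  obtain ⟨hgQ, M, hM, hRM, hMQ, hMne, hker, hmax⟩ := exists_top ρ ι hι B R Q hB z hD g a hg hne
  obtain ⟨Y, hY1, hY2⟩ := split ρ ι hι B R hB hD.nR hD.le1 hD.cop
    (quad_ne ρ ι hι hirr B R Q hB z hD g hgQ a hg hne).2
  obtain ⟨V', _, _, _, σ, κ, hκ, hQ', hsc, w, hw⟩ := xmodc_top N m hP M Q hD.nQ hMQ hMne hmax
    (fun k hk => (hD.pw k hk).imp fun _ h => hRM h) hD.idx
  obtain ⟨k0, kp, k13, kt⟩ := emb_basic σ κ hκ
  obtain ⟨q, hq, hqw⟩ := (hQ' _).2 ⟨w, rfl⟩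
  obtain ⟨v, h, hY, rfl⟩ := hY2 q
  have hvM : ι v ∈ M := hRM (hD.le1 ((hB _).2 ⟨v, rfl⟩))
  have hh : QuotientGroup.mk' M h = κ w := by
    rwa [map_mul, show QuotientGroup.mk' M (ι v) = 1 from (QuotientGroup.eq_one_iff _).2 hvM,
      one_mul] at hqw
  obtain ⟨e, a', hu, -, hu'⟩ := p_part 13 fact13.out h
  have huw : QuotientGroup.mk' M (h ^ e) = κ w :=
    (hu' _ (QuotientGroup.mk' M) 1 (by rw [hh, pow_one, k13])).trans hh
  have huQ : h ^ e ∈ Q := Q.pow_mem ((Q.mul_mem_cancel_left (hMQ hvM)).1 hq) e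
  have huY : h ^ e ∈ Y := Y.pow_mem hY e
  generalize h ^ e = u at hu huw huQ huY
  have hu1 : ρ u ≠ 1 := fun h1 => hw.1 (hκ.inj (by
    rw [k0, ← huw]; exact (QuotientGroup.eq_one_iff _).2 (hker u huQ h1)))
  obtain ⟨t, b, j, ht, hj, htu, v0, hv0, htv⟩ := jordan ρ ι hι N m hP Y hY1 hY2 u huY a' hu
    (quad_ne ρ ι hι hirr B R Q hB z hD u huQ a' hu hu1).1
  have h3 : ∀ x, σ (QuotientGroup.mk' M t) x = (3 : K) • x := by
    refine xmodc_scal σ hsc hw (b := b) (by rw [← map_pow, ht, map_one]) (hκ.inj ?_)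
    have e3 : (3 : K) = (j : K) := ((ZMod.natCast_eq_natCast_iff j 3 13).2 hj).symm
    rw [hκ.act, e3, kp, ← huw, ← map_inv, ← map_mul, ← map_mul, htu, map_pow]
  have hN : 0 < N := hP.1.2.1
  have hco : (N - 1).Coprime N := by
    obtain ⟨n, rfl⟩ := Nat.exists_eq_succ_of_ne_zero hN.ne'
    simp
  have htN : t ^ (N - 1) = t⁻¹ := by
    rw [eq_inv_iff_mul_eq_one, ← pow_succ, Nat.sub_add_cancel hN]
    exact orderOf_dvd_iff_pow_eq_one.1 ((orderOf_dvd_natCard t).trans hP.1.1)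
  have hn : ∀ x : G, x * t * x⁻¹ * (t ^ (N - 1))⁻¹ ∉ Q := fun x hx => by
    obtain ⟨y, hy⟩ := (hQ' _).1 (Subgroup.mem_map_of_mem (QuotientGroup.mk' M) hx)
    have h1 : σ (κ y) w = w := by rw [kt, Module.End.one_apply]
    rw [hy, htN, inv_inv] at h1
    simp only [map_mul, Module.End.mul_apply, h3, map_smul] at h1
    rw [← Module.End.mul_apply, ← map_mul, ← map_mul, mul_inv_cancel, map_one, map_one,
      Module.End.one_apply, smul_smul] at h1
    have h2 : (3 * 3 - 1 : K) • w = 0 := by rw [sub_smul, h1, one_smul, sub_self]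
    exact hw.1 ((smul_eq_zero.1 h2).resolve_left (by decide))
  have := hD.nR
  have hs := QuotientGroup.mk'_surjective R
  have hr := rgrp N m (pp_surj _ hs N m hP) (Q.map (QuotientGroup.mk' R)) (hD.nQ.map _ hs)
    (by
      rintro ⟨_, k, hk, rfl⟩
      obtain ⟨c, hc⟩ := hD.pw k hk
      refine ⟨c, Subtype.ext ?_⟩
      rw [SubmonoidClass.coe_pow, ← map_pow]
      exact (QuotientGroup.eq_one_iff _).2 hc)
    (fun h1 => hD.idx (h1.trans (Q.index_map_dvd hs))) (QuotientGroup.mk' R t)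
    (xmodc_ord (b := b) (by rw [← map_pow, ht, map_one])) (N - 1) hco fun x hx => by
      obtain ⟨x, rfl⟩ := hs x
      exact hn x (xmodc_map hD.le2 (by simpa only [map_mul, map_inv, map_pow] using hx))
  have hBn : B.Normal := ⟨fun x hx y => by
    obtain ⟨c, rfl⟩ := (hB x).1 hx
    exact (hB _).2 ⟨_, hι.act y c⟩⟩
  refine hv0 (rmod ρ ι hι N m hP t (xmodc_ord ht) (N - 1) hco (fun h1 => ?_)
    (fun x c hx hc => ?_) v0 htv)
  · obtain ⟨x, hx⟩ := isConj_iff.1 h1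
    exact hn x (by rw [hx, mul_inv_cancel]; exact Q.one_mem)
  · have h1 : x ∈ Q := xmodc_mem Q hD.nQ hD.idx x c (hc ▸ Q.one_mem)
    have h2 : x ∈ R := (QuotientGroup.eq_one_iff x).1
      (hr (QuotientGroup.mk' R x) (Subgroup.mem_map_of_mem _ h1)
        (by rw [← map_mul, ← map_mul, hx]))
    have h4 : (⟨x, h2⟩ : R) ∈ B.subgroupOf R :=
      xmodc_mem _ (hBn.subgroupOf R) hD.cop _ c (by
        rw [Subgroup.mem_subgroupOf, SubmonoidClass.coe_pow, hc]; exact B.one_mem)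
    obtain ⟨y, hy⟩ := (hB x).1 h4
    rw [← hy]
    exact (emb_basic ρ ι hι).2.2.2 y

end Pool.Agent.N9181
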