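import Pool.Agent.MP_9181f8_al.N.Basic

namespace Pool.Agent.N9181

open scoped commutatorElement

section
open Polynomial Finset
variable {L : Type} [Field L] {M : Type} [AddCommGroup M] [Module L M]

theorem xhhsa_diag {ι : Type} [Fintype ι] [DecidableEq L] (β : Module.Basis ι L M)
    (f : Module.End L M) (d : ι → L) (h : ∀ i, f (β i) = d i • β i) (μ : L) :
    Module.finrank L (f.eigenspace μ) = (univ.filter fun i => d i = μ).card := by
  have h1 : ∀ x i, β.repr (f x) i = d i * β.repr x i := fun x i => by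
    classical
    conv_lhs => rw [← β.sum_repr x, map_sum, map_sum]
    simp [h, Finsupp.single_apply, mul_comm]
  have h2 : f.eigenspace μ = Submodule.span L (Set.range fun i : {i // d i = μ} => β i) := by
    ext x
    rw [show (Set.range fun i : {i // d i = μ} => β i) = β '' {i | d i = μ} from
      (Set.image_eq_range _ _).symm, β.mem_span_image, Module.End.mem_eigenspace_iff, β.ext_elem_iff]
    refine forall_congr' fun i => ?_
    simp [h1, or_comm, imp_iff_not_or]
  rw [h2, ← Fintype.card_subtype]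
  exact finrank_span_eq_card (β.linearIndependent.comp _ Subtype.val_injective)

theorem xhhsa_ker (a : Module.End L M) (s : Finset L) :
    LinearMap.ker (aeval a (∏ μ ∈ s, (X - C μ))) ≤ ⨆ μ ∈ s, a.eigenspace μ := by
  classical
  induction s using Finset.induction_on with
  | empty => simp [Module.End.one_eq_id]
  | insert μ s hμ ih =>
    rw [prod_insert hμ, ← sup_ker_aeval_eq_ker_aeval_mul_of_coprime _ (IsCoprime.prod_right
      fun ν hν => isCoprime_X_sub_C_of_isUnit_sub
        (sub_ne_zero.2 (ne_of_mem_of_not_mem hν hμ).symm).isUnit),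
      Finset.iSup_insert]
    refine sup_le_sup (fun x hx => ?_) ih
    simpa [sub_eq_zero] using hx

end

theorem hhs_comb {Γ : Type} [AddCommGroup Γ] [Fintype Γ] (m : Γ → ℕ) (h0 : m 0 = 0)
    (h : ∀ ξ : Γ, ξ ≠ 0 → ∑ ν, m ν * m ν = ∑ ν, m ν * m (ν + ξ) + 1)
    (h2 : 2 ≤ ∑ ν, m ν) : ∀ ν : Γ, ν ≠ 0 → m ν = 1 := by
  classical
  have h1 : ∀ ξ, m ξ ≤ 1 := fun ξ => by
    by_cases hξ : ξ = 0
    · rw [hξ, h0]
      exact Nat.zero_le _
    have a1 : ∑ ν, (m (ν + ξ) : ℤ) * m (ν + ξ) = ∑ ν, (m ν : ℤ) * m ν :=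
      Equiv.sum_comp (Equiv.addRight ξ) fun ν => (m ν : ℤ) * m ν
    have a2 : ∑ ν, (m ν : ℤ) * m ν = ∑ ν, (m ν : ℤ) * m (ν + ξ) + 1 := by exact_mod_cast h ξ hξ
    have a3 : ∑ ν, ((m ν : ℤ) - m (ν + ξ)) ^ 2 = 2 := by
      simp only [sub_sq, Finset.sum_add_distrib, Finset.sum_sub_distrib, mul_assoc,
        ← Finset.mul_sum]
      simp only [sq]
      linarith
    have a4 := Finset.single_le_sum (f := fun ν => ((m ν : ℤ) - m (ν + ξ)) ^ 2)
      (fun _ _ => sq_nonneg _) (Finset.mem_univ 0)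
    rw [a3, zero_add, h0] at a4
    by_contra a5
    have a6 : (2 : ℤ) ≤ m ξ := by omega
    push_cast at a4
    nlinarith
  have h3 : ∑ ν, m ν * m ν = ∑ ν, m ν := Finset.sum_congr rfl fun ν _ => by
    have := h1 ν
    interval_cases m ν <;> rfl
  have h4 : ∑ ξ, ∑ ν, m ν * m (ν + ξ) = (∑ ν, m ν) * ∑ ν, m ν := by
    rw [Finset.sum_comm, Finset.sum_mul]
    exact Finset.sum_congr rfl fun ν _ => (Finset.mul_sum ..).symm.trans
      (congrArg _ (Equiv.sum_comp (Equiv.addLeft ν) m))
  have h5 := Finset.sum_congr rfl fun ξ (hξ : ξ ∈ Finset.univ.erase 0) =>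
    h ξ (Finset.ne_of_mem_erase hξ)
  rw [← Finset.add_sum_erase _ _ (Finset.mem_univ 0)] at h4
  simp only [add_zero, h3, Finset.sum_add_distrib, Finset.sum_const, smul_eq_mul] at h4 h5
  have h6 : ∑ ν, m ν = (Finset.univ.erase (0 : Γ)).card := by
    obtain ⟨k, hk⟩ := Nat.exists_eq_add_of_le h2
    refine Nat.eq_of_mul_eq_mul_right (show 0 < k + 1 by omega) ?_
    rw [hk] at h4 h5 ⊢
    linarith
  rw [← Finset.add_sum_erase _ _ (Finset.mem_univ 0), h0, zero_add, Finset.card_eq_sum_ones] at h6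
  exact fun ν hν => (Finset.sum_eq_sum_iff_of_le fun ν _ => h1 ν).1 h6 ν (by simpa using hν)

theorem hhs_end {L : Type} [Field L] {M : Type} [AddCommGroup M] [Module L M]
    [Module.Finite L M] (q : ℕ) [NeZero q] (ζ : L) (hζ : IsPrimitiveRoot ζ q)
    (a b : Module.End L M) (hab : a * b = 1) (ha : a ^ q = 1) :
    (∑ ν : ZMod q, Module.finrank L (a.eigenspace (ζ ^ ν.val)) = Module.finrank L M) ∧
    ∀ ξ : ZMod q, Module.finrank L (Module.End.eigenspace
        (LinearMap.mulLeft L a ∘ₗ LinearMap.mulRight L b : Module.End L (Module.End L M))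
        (ζ ^ ξ.val)) =
      ∑ ν : ZMod q, Module.finrank L (a.eigenspace (ζ ^ ν.val)) *
        Module.finrank L (a.eigenspace (ζ ^ (ν + ξ).val)) := by
  classical
  have inj : Function.Injective fun ν : ZMod q => ζ ^ ν.val := fun x y h =>
    ZMod.val_injective q (hζ.pow_inj x.val_lt y.val_lt h)
  have add : ∀ x y : ZMod q, ζ ^ (x + y).val = ζ ^ x.val * ζ ^ y.val :=
    (AddChar.zmodChar q hζ.pow_eq_one).map_add_eq_mul
  have top : ⨆ ν : ZMod q, a.eigenspace (ζ ^ ν.val) = ⊤ := by
    have h := xhhsa_ker a (Polynomial.nthRootsFinset q 1)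
    rw [← Polynomial.X_pow_sub_one_eq_prod (NeZero.pos q) hζ, map_sub, map_pow, Polynomial.aeval_X,
      ha, map_one, sub_self, LinearMap.ker_zero] at h
    refine top_le_iff.1 (h.trans (iSup₂_le fun μ hμ => ?_))
    obtain ⟨i, hi, rfl⟩ := hζ.eq_pow_of_pow_eq_one
      ((Polynomial.mem_nthRootsFinset (NeZero.pos q) 1).1 hμ)
    exact le_iSup_of_le (i : ZMod q) (by rw [ZMod.val_cast_of_lt hi])
  obtain ⟨ι, _, β, c, hc⟩ : ∃ (ι : Type) (_ : Fintype ι) (β : Module.Basis ι L M) (c : ι → ZMod q),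
      ∀ i, a (β i) = ζ ^ (c i).val • β i := by
    have hI := DirectSum.isInternal_submodule_of_iSupIndep_of_iSup_eq_top
      (a.eigenspaces_iSupIndep.comp inj) top
    exact ⟨_, inferInstance, hI.collectedBasis fun _ => Module.finBasis L _, Sigma.fst, fun i =>
      Module.End.mem_eigenspace_iff.1 (hI.collectedBasis_mem _ i)⟩
  have hb : ∀ i, b (β i) = ζ ^ (-c i).val • β i := fun i => by
    have h := LinearMap.congr_fun (mul_eq_one_comm.1 hab) (ζ ^ (-c i).val • β i)
    rwa [Module.End.mul_apply, map_smul a, hc, smul_smul, ← add, neg_add_cancel, ZMod.val_zero,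
      pow_zero, one_smul] at h
  have h1 : ∀ ν : ZMod q, Module.finrank L (a.eigenspace (ζ ^ ν.val)) =
      (Finset.univ.filter fun i => c i = ν).card := fun ν => by
    rw [xhhsa_diag β a _ hc]
    exact congrArg _ (Finset.filter_congr fun i _ => inj.eq_iff)
  simp only [h1]
  refine ⟨by rw [Module.finrank_eq_card_basis β, ← Finset.card_univ,
    Finset.card_eq_sum_card_fiberwise (f := c) (t := Finset.univ) (by simp)], fun ξ => ?_⟩
  rw [xhhsa_diag β.end _ (fun p => ζ ^ (c p.1 + -c p.2).val) fun p => β.ext fun k => ?_,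
    Finset.card_eq_sum_card_fiberwise (f := fun p : ι × ι => c p.2) (t := Finset.univ) (by simp)]
  · refine Finset.sum_congr rfl fun ν _ => ?_
    rw [mul_comm, ← Finset.card_product]
    refine congrArg _ (Finset.ext fun p => ?_)
    simp only [Finset.mem_filter, Finset.mem_univ, true_and, Finset.mem_product]
    refine and_congr_left fun h => inj.eq_iff.trans ?_
    rw [h, add_neg_eq_iff_eq_add, add_comm]
  · simp only [LinearMap.comp_apply, LinearMap.mulLeft_apply, LinearMap.mulRight_apply,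
      Module.End.mul_apply, hb, map_smul, LinearMap.smul_apply, Module.Basis.end_apply_apply]
    split_ifs with h
    · rw [hc, smul_smul, add, h, mul_comm]
    · simp

end Pool.Agent.N9181
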