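import Mathlib

/-! Eigenspaces of an operator that permutes the isotypic parts of a pairing. -/

namespace Pool.Agent.N9181

open Finset Module
open scoped Classical

theorem xhhska_w {L X : Type} [Field L] [Finite X] (s : Equiv.Perm X) (μ : L) (q : ℕ) (hq : q ≠ 0)
    (hμ : μ ^ q = 1) (p : X → Prop) (hp : ∀ y k, p y → (s ^ k) y = y → q ∣ k) :
    ∃ w : X → L, (∀ y, w y ≠ 0) ∧ ∀ y, p (s y) → w (s y) = μ * w y := by
  have h0 : μ ≠ 0 := fun h => by simp [h, hq] at hμ
  let S := Equiv.Perm.SameCycle.setoid s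
  choose k hk using fun y : X =>
    Equiv.Perm.SameCycle.exists_nat_pow_eq (f := s) (Quotient.mk_out (s := S) y)
  have key : ∀ a b : ℕ, ∀ z, p ((s ^ a) z) → (s ^ a) z = (s ^ b) z → a ≤ b → μ ^ a = μ ^ b := by
    intro a b z h1 h2 h3
    obtain ⟨c, rfl⟩ := Nat.exists_eq_add_of_le h3
    obtain ⟨d, rfl⟩ := hp _ c h1 (by
      rw [← Equiv.Perm.mul_apply, ← pow_add, add_comm, ← h2])
    rw [pow_add, pow_mul, hμ, one_pow, mul_one]
  refine ⟨fun y => μ ^ k y, fun y => pow_ne_zero _ h0, fun y hy => ?_⟩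
  have h1 : Quotient.mk S (s y) = Quotient.mk S y :=
    Quotient.sound (Equiv.Perm.SameCycle.symm ⟨1, by simp⟩)
  have h2 := hk (s y)
  have h3 : (s ^ (k y + 1)) (Quotient.mk S y).out = s y := by
    rw [pow_succ', Equiv.Perm.mul_apply, hk y]
  rw [h1] at h2
  show μ ^ k (s y) = μ * μ ^ k y
  rw [← pow_succ']
  rcases le_total (k (s y)) (k y + 1) with h | h
  · exact key _ _ _ (by rwa [h2]) (h2.trans h3.symm) h
  · exact (key _ _ _ (by rwa [h3]) (h3.trans h2.symm) h).symm

/-- a pairing on a finite group with radical `A` -/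
structure xhhskaP {L G : Type} [Field L] [Group G] (A : Subgroup G) (B : G → G → L) : Prop where
  l : ∀ e e' y, B (e * e') y = B e y * B e' y
  r : ∀ e y y', B e (y * y') = B e y * B e y'
  al : ∀ a ∈ A, ∀ y, B a y = 1
  ar : ∀ a ∈ A, ∀ y, B y a = 1
  nl : ∀ y ∉ A, ∃ e, B y e ≠ 1
  nr : ∀ y ∉ A, ∃ e, B e y ≠ 1

namespace xhhskaP

variable {L G : Type} [Field L] [Group G] [Fintype G] {A : Subgroup G} {B : G → G → L}

theorem s1 (h : xhhskaP A B) (y : G) :
    ∑ e, B e y = if y ∈ A then (Fintype.card G : L) else 0 := by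
  split_ifs with hy
  · simp [h.ar y hy]
  · obtain ⟨e, he⟩ := h.nr y hy
    exact sum_hom_units_eq_zero (⟨⟨fun e => B e y, h.al 1 A.one_mem y⟩, fun a b => h.l a b y⟩ :
      G →* L) fun h1 => he (DFunLike.congr_fun h1 e)

theorem s2 (h : xhhskaP A B) (e : G) :
    ∑ y, B e y⁻¹ = if e ∈ A then (Fintype.card G : L) else 0 := by
  rw [show ∑ y, B e y⁻¹ = _ from Equiv.sum_comp (Equiv.inv G) (B e)]
  exact s1 (B := fun a b => B b a) ⟨fun a b c => h.r c a b, fun a b c => h.l b c a, h.ar, h.al,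
    h.nr, h.nl⟩ e

variable {V : Type} [AddCommGroup V] [Module L V]

/-- the isotypic projection up to a factor -/
noncomputable def Q (B : G → G → L) (C : G → End L V) (y : G) : End L V := ∑ e, B e y⁻¹ • C e

theorem q1 (h : xhhskaP A B) {C : G → End L V} (hC : ∀ a b, C (a * b) = C a * C b) (e y : G) :
    C e * Q B C y = B e y • Q B C y := by
  rw [Q, mul_sum, ← Equiv.sum_comp (Equiv.mulLeft e) fun e' => B e' y⁻¹ • C e', smul_sum]
  refine sum_congr rfl fun e' _ => ?_
  rw [Equiv.coe_mulLeft, h.l, hC, smul_smul, ← mul_assoc, ← h.r, mul_inv_cancel,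
    h.ar 1 A.one_mem, one_mul, mul_smul_comm]

theorem q2 (h : xhhskaP A B) {C : G → End L V} (hC : ∀ a b, C (a * b) = C a * C b) (z y : G) :
    Q B C z * Q B C y = (if z⁻¹ * y ∈ A then (Fintype.card G : L) else 0) • Q B C y := by
  rw [← h.s1, sum_smul, Q.eq_1 B C z, sum_mul]
  exact sum_congr rfl fun e _ => by rw [smul_mul_assoc, h.q1 hC, smul_smul, h.r]

/-- a combination of the projections -/
noncomputable def D (B : G → G → L) (C : G → End L V) (w : G → L) : End L V :=
  ∑ y, w y • Q B C y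

theorem d1 (h : xhhskaP A B) {C : G → End L V} (hC : ∀ a b, C (a * b) = C a * C b) {w : G → L}
    (hw : ∀ y, ∀ a ∈ A, w (y * a) = w y) (w' : G → L) :
    D B C w * D B C w' =
      (∑ t : G, if t ∈ A then (Fintype.card G : L) else 0) • D B C fun y => w y * w' y := by
  rw [D.eq_1 B C w', mul_sum, D.eq_1 B C fun y => w y * w' y, smul_sum]
  refine sum_congr rfl fun y _ => ?_
  rw [mul_smul_comm, D, sum_mul, ← Equiv.sum_comp (Equiv.mulLeft y), sum_smul, smul_sum]
  refine sum_congr rfl fun t _ => ?_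
  rw [Equiv.coe_mulLeft, smul_mul_assoc, h.q2 hC, mul_inv_rev, inv_mul_cancel_right, smul_smul,
    smul_smul, smul_smul]
  by_cases ht : t ∈ A
  · rw [if_pos ht, if_pos (A.inv_mem ht), hw y t ht]
    congr 1
    ring
  · rw [if_neg ht, if_neg fun h1 => ht (A.inv_mem_iff.1 h1)]
    simp

theorem d2 (h : xhhskaP A B) {C : G → End L V} (hA : ∀ a ∈ A, C a = 1) :
    (D B C fun y => if y ∈ A then 0 else 1) =
      (∑ t : G, if t ∈ A then (Fintype.card G : L) else 0) • 1 -
        (∑ t : G, if t ∈ A then (1 : L) else 0) • Q B C 1 := by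
  have h1 : ∑ y, Q B C y = (∑ t : G, if t ∈ A then (Fintype.card G : L) else 0) • 1 := by
    simp only [Q]
    rw [sum_comm, sum_smul]
    refine sum_congr rfl fun e _ => ?_
    rw [← sum_smul, h.s2]
    split_ifs with he
    · rw [hA e he]
    · rw [zero_smul, zero_smul]
  rw [← h1, sum_smul, ← sum_sub_distrib]
  refine sum_congr rfl fun y _ => ?_
  by_cases hy : y ∈ A
  · simp [Q, h.ar _ (A.inv_mem hy), h.ar _ A.one_mem, hy]
  · simp [hy]

theorem d3 {C : G → End L V} (s : G ≃* G) (hs : ∀ e y, B (s e) (s y) = B e y) {Φ : End L V}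
    (hΦ : ∀ e, Φ * C e = C (s e) * Φ) (y : G) : Φ * Q B C y = Q B C (s y) * Φ := by
  rw [Q, Q, mul_sum, ← s.toEquiv.sum_comp fun e => B e (s y)⁻¹ • C e, sum_mul]
  refine sum_congr rfl fun e _ => ?_
  rw [mul_smul_comm, smul_mul_assoc, hΦ, ← map_inv, ← hs]
  rfl

theorem d4 {C : G → End L V} (s : G ≃* G) (hs : ∀ e y, B (s e) (s y) = B e y) {Φ : End L V}
    (hΦ : ∀ e, Φ * C e = C (s e) * Φ) {w : G → L} {a b : L} (hw : ∀ y, a * w (s y) = b * w y) :
    a • (D B C w * Φ) = b • (Φ * D B C w) := by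
  rw [D, mul_sum, ← s.toEquiv.sum_comp fun y => w y • Q B C y, sum_mul, smul_sum, smul_sum]
  refine sum_congr rfl fun y _ => ?_
  rw [mul_smul_comm, d3 s hs hΦ, smul_mul_assoc, smul_smul, smul_smul, ← hw]
  rfl

theorem dim [Module.Finite L V] (h : xhhskaP A B) {C : G → End L V}
    (hC : ∀ a b, C (a * b) = C a * C b) (hA : ∀ a ∈ A, C a = 1)
    (hc : (∑ t : G, if t ∈ A then (Fintype.card G : L) else 0) ≠ 0) (s : G ≃* G)
    (hs : ∀ e y, B (s e) (s y) = B e y) (hsA : ∀ y, s y ∈ A ↔ y ∈ A) {Φ : End L V}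
    (hΦ : ∀ e, Φ * C e = C (s e) * Φ) {μ : L} (hμ : μ ≠ 0) {w : G → L} (hw0 : ∀ y, w y ≠ 0)
    (hw1 : ∀ y, ∀ a ∈ A, w (y * a) = w y) (hw2 : ∀ y ∉ A, w (s y) = μ * w y) {o : V} (ho : o ≠ 0)
    (hCo : ∀ e, C e o = o) (hΦo : Φ o = o)
    (H1 : ∀ T, (∀ e, C e T = T) → Φ T = T → ∃ c : L, T = c • o)
    (H2 : ∀ T, (∀ e, C e T = T) → Φ T = μ • T → T = 0) :
    finrank L (Φ.eigenspace 1) = finrank L (Φ.eigenspace μ) + 1 := by
  set c := ∑ t : G, if t ∈ A then (Fintype.card G : L) else 0 with hce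
  set n := ∑ t : G, if t ∈ A then (1 : L) else 0 with hne
  let w0 : G → L := fun y => if y ∈ A then 0 else w y
  let w1 : G → L := fun y => if y ∈ A then 0 else (w y)⁻¹
  have hm : ∀ y, ∀ a ∈ A, (y * a ∈ A ↔ y ∈ A) := fun y a ha => A.mul_mem_cancel_right ha
  have i0 : ∀ y, ∀ a ∈ A, w0 (y * a) = w0 y := fun y a ha => by simp only [w0, hm y a ha, hw1 y a ha]
  have i1 : ∀ y, ∀ a ∈ A, w1 (y * a) = w1 y := fun y a ha => by simp only [w1, hm y a ha, hw1 y a ha]
  have e01 : (fun y => w0 y * w1 y) = fun y => if y ∈ A then 0 else 1 := funext fun y => by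
    by_cases hy : y ∈ A <;> simp [w0, w1, hy, hw0 y]
  have e10 : (fun y => w1 y * w0 y) = fun y => if y ∈ A then 0 else 1 := by
    rw [← e01]
    exact funext fun y => mul_comm _ _
  have p01 := h.d1 hC i0 w1
  have p10 := h.d1 hC i1 w0
  rw [e01, h.d2 hA, ← hce, ← hne] at p01
  rw [e10, h.d2 hA, ← hce, ← hne] at p10
  have f0 : (1 : L) • (D B C w0 * Φ) = μ • (Φ * D B C w0) := d4 s hs hΦ fun y => by
    by_cases hy : y ∈ A <;> simp [w0, hsA, hy, hw2 y]
  have f1 : μ • (D B C w1 * Φ) = (1 : L) • (Φ * D B C w1) := d4 s hs hΦ fun y => by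
    by_cases hy : y ∈ A
    · simp [w1, hsA, hy]
    · simp only [w1, hsA, hy, if_false, hw2 y hy]
      field_simp
  have hP : ∀ T e, C e (Q B C 1 T) = Q B C 1 T := fun T e => by
    simpa [h.ar 1 A.one_mem] using LinearMap.congr_fun (h.q1 hC e 1) T
  have hP' : ∀ T, Φ (Q B C 1 T) = Q B C 1 (Φ T) := fun T => by
    simpa using LinearMap.congr_fun (d3 s hs hΦ 1) T
  let g := D B C w1 ∘ₗ (Φ.eigenspace 1).subtype
  have hr : LinearMap.range g = Φ.eigenspace μ := by
    refine le_antisymm ?_ fun T hT => ?_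
    · rintro _ ⟨⟨T, hT⟩, rfl⟩
      rw [End.mem_eigenspace_iff, one_smul] at hT
      rw [End.mem_eigenspace_iff]
      simpa [g, hT] using (LinearMap.congr_fun f1 T).symm
    · rw [End.mem_eigenspace_iff] at hT
      have h1 : Q B C 1 T = 0 := H2 _ (hP T) (by rw [hP', hT, map_smul])
      have h2 : Φ (D B C w0 T) = D B C w0 T := by
        have := LinearMap.congr_fun f0 T
        simp only [one_smul, End.mul_apply, hT, map_smul, LinearMap.smul_apply] at this
        exact (smul_right_injective V hμ this).symm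
      refine ⟨⟨(c * c)⁻¹ • D B C w0 T, End.mem_eigenspace_iff.2 (by simp [h2])⟩, ?_⟩
      have := LinearMap.congr_fun p10 T
      simp only [End.mul_apply, LinearMap.smul_apply, LinearMap.sub_apply, h1, smul_zero, sub_zero,
        End.one_apply, smul_smul] at this
      show D B C w1 ((c * c)⁻¹ • D B C w0 T) = T
      rw [map_smul, this, inv_smul_smul₀ (mul_ne_zero hc hc)]
  have hk : LinearMap.ker g =
      Submodule.span L {(⟨o, End.mem_eigenspace_iff.2 (by simp [hΦo])⟩ : Φ.eigenspace 1)} := by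
    refine le_antisymm ?_ ?_
    · rintro ⟨T, hT⟩ hT'
      have h0 : D B C w1 T = 0 := hT'
      have h3 := End.mem_eigenspace_iff.1 hT
      rw [one_smul] at h3
      obtain ⟨a, ha⟩ := H1 _ (hP T) (by rw [hP', h3])
      have := LinearMap.congr_fun p01 T
      simp only [End.mul_apply, LinearMap.smul_apply, LinearMap.sub_apply, h0, map_zero, ha,
        End.one_apply] at this
      have h4 := sub_eq_zero.1 ((smul_eq_zero.1 this.symm).resolve_left hc)
      refine Submodule.mem_span_singleton.2 ⟨c⁻¹ * (n * a), Subtype.ext ?_⟩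
      show (c⁻¹ * (n * a)) • o = T
      rw [mul_smul, mul_smul, ← h4, inv_smul_smul₀ hc]
    · rw [Submodule.span_singleton_le_iff_mem]
      show D B C w1 o = 0
      rw [D, LinearMap.sum_apply]
      refine sum_eq_zero fun y _ => ?_
      by_cases hy : y ∈ A
      · simp [w1, hy]
      · have : Q B C y o = 0 := by
          simp only [Q, LinearMap.sum_apply, LinearMap.smul_apply, hCo]
          rw [← sum_smul, h.s1, if_neg fun h1 => hy (A.inv_mem_iff.1 h1), zero_smul]
        rw [LinearMap.smul_apply, this, smul_zero]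
  rw [← LinearMap.finrank_range_add_finrank_ker g, hr, hk,
    finrank_span_singleton fun h1 => ho (congrArg Subtype.val h1)]

end xhhskaP

end Pool.Agent.N9181
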