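import Pool.Agent.MP_9181f8_al.N.HhsA
import Pool.Agent.MP_9181f8_al.N.HhsKa

namespace Pool.Agent.N9181

open scoped commutatorElement

section

open Finset Module
open scoped Classical

variable {L : Type} [Field L] {M : Type} [AddCommGroup M] [Module L M] {H : Type} [Group H]

theorem xhhsk_schur [IsAlgClosed L] [Module.Finite L M] [Nontrivial M] (ρ : Representation L H M)
    (hirr : ∀ W : Submodule L M, (∀ h, ∀ w ∈ W, ρ h w ∈ W) → W = ⊥ ∨ W = ⊤) {E : Subgroup H}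
    {x : H} (hgen : ∀ h : H, ∃ f ∈ E, ∃ k : ℕ, h = f * x ^ k) (T : End L M)
    (h1 : ∀ e ∈ E, Commute (ρ e) T) (h2 : Commute (ρ x) T) : ∃ c : L, T = c • 1 := by
  obtain ⟨c, hc⟩ := End.exists_eigenvalue T
  have h3 : ∀ h, Commute (ρ h) T := fun h => by
    obtain ⟨f, hf, k, rfl⟩ := hgen h
    rw [map_mul, map_pow]
    exact (h1 f hf).mul_left (h2.pow_left k)
  refine ⟨c, LinearMap.ext fun v => ?_⟩
  rcases hirr (T.eigenspace c) (fun h w hw => by
    rw [End.mem_eigenspace_iff] at hw ⊢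
    rw [← End.mul_apply, ← (h3 h).eq, End.mul_apply, hw, map_smul]) with h | h
  · exact absurd h hc
  · exact End.mem_eigenspace_iff.1 (h ▸ Submodule.mem_top : v ∈ T.eigenspace c)

theorem xhhsk_pair [Nontrivial M] (ρ : Representation L H M) {A E : Subgroup H} (hP : PD A E)
    (hA : ∀ a ∈ A, ∀ v, v ≠ 0 → ρ a v = v → a = 1) {lam : H → L}
    (hl : ∀ a ∈ A, ρ a = lam a • 1) :
    xhhskaP (A.subgroupOf E) fun e y : E => lam ⁅(e : H), (y : H)⁆ := by
  have inj : ∀ c d : L, c • (1 : End L M) = d • 1 → c = d := fun c d h =>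
    smul_left_injective L one_ne_zero h
  have l1 : lam 1 = 1 := inj _ _ (by rw [← hl 1 A.one_mem, map_one, one_smul])
  have lm : ∀ a ∈ A, ∀ b ∈ A, lam (a * b) = lam a * lam b := fun a ha b hb => inj _ _ (by
    rw [← hl _ (A.mul_mem ha hb), map_mul, hl a ha, hl b hb, smul_mul_smul_comm, mul_one])
  have hc : ∀ e y : E, ⁅(e : H), (y : H)⁆ ∈ A := fun e y => hP.comm _ e.2 _ y.2
  have nd : ∀ e y : E, lam ⁅(e : H), (y : H)⁆ = 1 → (e : H) * y = y * e := fun e y h => by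
    obtain ⟨v, hv⟩ := exists_ne (0 : M)
    exact commutatorElement_eq_one_iff_mul_comm.1
      (hA _ (hc e y) v hv (by rw [hl _ (hc e y), h, one_smul, End.one_apply]))
  refine ⟨fun e e' y => ?_, fun e y y' => ?_, fun a ha y => ?_, fun a ha y => ?_,
    fun y hy => ?_, fun y hy => ?_⟩
  · rw [mul_comm (lam _), ← lm _ (hc e' y) _ (hc e y)]
    congr 1
    have := hP.cen _ (hc e' y) _ e.2
    calc ⁅((e * e' : E) : H), (y : H)⁆ = e * ⁅(e' : H), (y : H)⁆ * (e : H)⁻¹ * ⁅(e : H), (y : H)⁆ := by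
          simp only [commutatorElement_def, Subgroup.coe_mul]
          group
      _ = _ := by rw [← this, mul_inv_cancel_right]
  · rw [← lm _ (hc e y) _ (hc e y')]
    congr 1
    have := hP.cen _ (hc e y') _ y.2
    calc ⁅(e : H), ((y * y' : E) : H)⁆ =
          ⁅(e : H), (y : H)⁆ * (y * ⁅(e : H), (y' : H)⁆ * (y : H)⁻¹) := by
          simp only [commutatorElement_def, Subgroup.coe_mul]
          group
      _ = _ := by rw [← this, mul_inv_cancel_right]
  · rw [commutatorElement_eq_one_iff_mul_comm.2 (hP.cen (a : H) ha _ y.2), l1]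
  · rw [commutatorElement_eq_one_iff_mul_comm.2 (hP.cen (a : H) ha _ y.2).symm, l1]
  · by_contra! h
    exact hy (hP.nd _ y.2 fun e he => nd y ⟨e, he⟩ (h _))
  · by_contra! h
    exact hy (hP.nd _ y.2 fun e he => (nd ⟨e, he⟩ y (h _)).symm)

theorem xhhsk_w [Finite H] {A E : Subgroup H} (hP : PD A E) {x : H} (s : E ≃* E)
    (hs : ∀ e, (s e : H) = x * e * x⁻¹) (hsA : ∀ y, s y ∈ A.subgroupOf E ↔ y ∈ A.subgroupOf E)
    {q : ℕ} (hq : q ≠ 0) (hfp : ∀ f ∈ E, ∀ k : ℕ, ¬ q ∣ k → ⁅x ^ k, f⁆ ∈ A → f ∈ A) {μ : L}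
    (hμ : μ ^ q = 1) : ∃ w : E → L, (∀ y, w y ≠ 0) ∧
      (∀ y, ∀ a ∈ A.subgroupOf E, w (y * a) = w y) ∧
      ∀ y ∉ A.subgroupOf E, w (s y) = μ * w y := by
  let t : Equiv.Perm (E ⧸ A.subgroupOf E) := Quotient.congr s.toEquiv fun a b => by
    show QuotientGroup.leftRel _ a b ↔ QuotientGroup.leftRel _ (s a) (s b)
    rw [QuotientGroup.leftRel_apply, QuotientGroup.leftRel_apply, ← map_inv, ← map_mul, hsA]
  have ht : ∀ (k : ℕ) (y : E), ∃ z : E, (z : H) = x ^ k * y * (x ^ k)⁻¹ ∧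
      (t ^ k) (y : E ⧸ A.subgroupOf E) = z := fun k y => by
    induction k with
    | zero => exact ⟨y, by simp, rfl⟩
    | succ k ih =>
      obtain ⟨z, h1, h2⟩ := ih
      refine ⟨s z, by rw [hs, h1]; group, ?_⟩
      rw [pow_succ', Equiv.Perm.mul_apply, h2]
      rfl
  obtain ⟨w, h1, h2⟩ := xhhska_w t μ q hq hμ (fun u => u ≠ ((1 : E) : E ⧸ A.subgroupOf E))
    fun u k hu hk => by
      obtain ⟨y, rfl⟩ := QuotientGroup.mk_surjective u
      obtain ⟨z, h1, h2⟩ := ht k y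
      have h3 : ((y⁻¹ * z : E) : H) ∈ A :=
        Subgroup.mem_subgroupOf.1 (QuotientGroup.eq.1 (hk.symm.trans h2))
      by_contra h4
      refine hu (QuotientGroup.eq.2 ?_).symm
      rw [inv_one, one_mul]
      refine hfp (y : H) y.2 k h4 ?_
      have h5 := hP.cen _ h3 _ y.2
      rw [show ⁅x ^ k, (y : H)⁆ = y * ((y⁻¹ * z : E) : H) * (y : H)⁻¹ by
        simp [h1, commutatorElement_def], ← h5, mul_inv_cancel_right]
      exact h3
  refine ⟨fun y => w y, fun y => h1 _, fun y a ha => ?_, fun y hy => h2 y fun h => hy ?_⟩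
  · exact congrArg w (QuotientGroup.eq.2 (by simpa using ha)).symm
  · have h3 : (1 : E)⁻¹ * s y ∈ A.subgroupOf E := QuotientGroup.eq.1 h.symm
    rwa [inv_one, one_mul, hsA] at h3

theorem xhhsk_dim [IsAlgClosed L] [CharP L 13] [Module.Finite L M] [Nontrivial M] [Finite H]
    (h13 : ¬ 13 ∣ Nat.card H) (ρ : Representation L H M)
    (hirr : ∀ W : Submodule L M, (∀ h, ∀ w ∈ W, ρ h w ∈ W) → W = ⊥ ∨ W = ⊤)
    {A E : Subgroup H} (hP : PD A E) {x : H}
    (hgen : ∀ h : H, ∃ f ∈ E, ∃ k : ℕ, h = f * x ^ k)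
    (hxA : x ∈ Subgroup.centralizer (A : Set H)) (hxE : x ∈ Subgroup.normalizer (E : Set H))
    (hA : ∀ a ∈ A, ∀ v, v ≠ 0 → ρ a v = v → a = 1) {q : ℕ} (hq : q ≠ 0) (hq1 : q ≠ 1)
    (hfp : ∀ f ∈ E, ∀ k : ℕ, ¬ q ∣ k → ⁅x ^ k, f⁆ ∈ A → f ∈ A) {μ : L} (hμ : μ ^ q = 1)
    (hμ1 : μ ≠ 1) :
    finrank L (End.eigenspace (LinearMap.mulLeft L (ρ x) ∘ₗ LinearMap.mulRight L (ρ x⁻¹) :
        End L (End L M)) 1) =
      finrank L (End.eigenspace (LinearMap.mulLeft L (ρ x) ∘ₗ LinearMap.mulRight L (ρ x⁻¹) :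
        End L (End L M)) μ) + 1 := by
  have := Fintype.ofFinite E
  have hx : ∀ a ∈ A, a * x = x * a := Subgroup.mem_centralizer_iff.1 hxA
  choose! lam hl using fun a (ha : a ∈ A) => xhhsk_schur ρ hirr hgen (ρ a)
    (fun e he => Commute.map (hP.cen a ha e he).symm ρ) (Commute.map (hx a ha).symm ρ)
  have hB := xhhsk_pair ρ hP hA hl
  let s : E ≃* E := E.normalizerMonoidHom ⟨x, hxE⟩
  have hs : ∀ e, (s e : H) = x * e * x⁻¹ := fun e => rfl
  have hsA : ∀ y, s y ∈ A.subgroupOf E ↔ y ∈ A.subgroupOf E := fun y => by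
    rw [Subgroup.mem_subgroupOf, Subgroup.mem_subgroupOf, hs]
    refine ⟨fun h => ?_, fun h => by rwa [← hx _ h, mul_inv_cancel_right]⟩
    have h1 := hx _ h
    rw [inv_mul_cancel_right, mul_right_inj] at h1
    rwa [h1]
  obtain ⟨w, w0, w1, w2⟩ := xhhsk_w hP s hs hsA hq hfp hμ
  let C : H → End L (End L M) := fun e => LinearMap.mulLeft L (ρ e) ∘ₗ LinearMap.mulRight L (ρ e⁻¹)
  have hCa : ∀ e T, C e T = ρ e * (T * ρ e⁻¹) := fun e T => rfl
  have hi : ∀ e, ρ e * ρ e⁻¹ = 1 := fun e => by rw [← map_mul, mul_inv_cancel, map_one]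
  have hi' : ∀ e, ρ e⁻¹ * ρ e = 1 := fun e => by rw [← map_mul, inv_mul_cancel, map_one]
  have hC : ∀ a b, C (a * b) = C a * C b := fun a b => LinearMap.ext fun T => by
    simp only [End.mul_apply, hCa, mul_inv_rev, map_mul, mul_assoc]
  have hCρ : ∀ e y, C e (ρ y) = ρ (e * y * e⁻¹) := fun e y => by
    rw [hCa, map_mul, map_mul, mul_assoc]
  have hcm : ∀ e T, C e T = T → Commute (ρ e) T := fun e T h => by
    have := congrArg (· * ρ e) h
    simp only [hCa, mul_assoc, hi', mul_one] at this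
    exact this
  have hcm' : ∀ e T, Commute (ρ e) T → C e T = T := fun e T h => by
    rw [hCa, ← mul_assoc, h.eq, mul_assoc, hi, mul_one]
  have h0 : ∀ K : Subgroup H, (Nat.card K : L) ≠ 0 := fun K h =>
    h13 (((CharP.cast_eq_zero_iff L 13 _).1 h).trans K.card_subgroup_dvd_card)
  have hc : (∑ t : E, if t ∈ A.subgroupOf E then (Fintype.card E : L) else 0) ≠ 0 := by
    rw [← sum_filter, sum_const, nsmul_eq_mul, ← Fintype.card_subtype, ← Nat.card_eq_fintype_card,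
      ← Nat.card_eq_fintype_card, Nat.card_congr (Subgroup.subgroupOfEquivOfLe hP.le).toEquiv]
    exact mul_ne_zero (h0 A) (h0 E)
  refine hB.dim (C := fun e : E => C e) (fun a b => hC a b) (fun a ha => LinearMap.ext fun T =>
    hcm' _ _ ?_) hc s (fun e y => ?_) hsA (Φ := C x) (fun e => ?_) (fun h => ?_) w0 w1 w2
    (o := 1) one_ne_zero (fun e => hcm' _ _ (Commute.one_right _))
    (hcm' _ _ (Commute.one_right _)) (fun T h1 h2 => xhhsk_schur ρ hirr hgen T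
      (fun e he => hcm _ _ (h1 ⟨e, he⟩)) (hcm _ _ h2)) fun T h1 h2 => ?_
  · rw [hl (a : H) ha]
    exact (Commute.one_left T).smul_left _
  · have h1 := hx _ (hP.comm _ e.2 _ y.2)
    rw [hs, hs, ← conjugate_commutatorElement, ← h1, mul_inv_cancel_right]
  · rw [← hC, ← hC, hs, inv_mul_cancel_right]
  · simp [h, hq] at hμ
  obtain ⟨g, hg⟩ := xhhsk_schur ρ hirr hgen (∑ f : E, ρ (f * x * (f : H)⁻¹))
    (fun e he => hcm _ _ (by
      rw [map_sum, ← Equiv.sum_comp (Equiv.mulLeft (⟨e, he⟩ : E)) fun f : E => ρ (f * x * (f : H)⁻¹)]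
      exact sum_congr rfl fun f _ => by rw [hCρ]; simp [mul_assoc]))
    (hcm _ _ (by
      rw [map_sum, ← Equiv.sum_comp s.toEquiv fun f : E => ρ (f * x * (f : H)⁻¹)]
      exact sum_congr rfl fun f _ => by
        rw [hCρ, show (s.toEquiv f : H) = x * f * x⁻¹ from rfl]
        congr 1
        group))
  have hg0 : g ≠ 0 := fun h => hc (by
    have hE : ∀ f : E, ⁅(f : H), x⁆ ∈ E := fun f => by
      have := E.mul_mem f.2 (s f⁻¹).2
      simpa [hs, commutatorElement_def, mul_assoc] using this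
    have h3 : ∑ f : E, ρ ⁅(f : H), x⁆ = 0 := by
      simp only [commutatorElement_def, map_mul _ _ x⁻¹]
      rw [← sum_mul, hg, h, zero_smul, zero_mul]
    have h4 : ∀ f : E, ∑ e : E, C e (ρ ⁅(f : H), x⁆) =
        (if f ∈ A.subgroupOf E then (Fintype.card E : L) else 0) • 1 := fun f => by
      have h5 : ∀ e : E, C e (ρ ⁅(f : H), x⁆) = lam ⁅(e : H), ⁅(f : H), x⁆⁆ • ρ ⁅(f : H), x⁆ :=
        fun e => by
        rw [hCρ, show (e : H) * ⁅(f : H), x⁆ * (e : H)⁻¹ = ⁅(e : H), ⁅(f : H), x⁆⁆ * ⁅(f : H), x⁆ by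
          rw [commutatorElement_def (e : H), inv_mul_cancel_right], map_mul,
          hl _ (hP.comm _ e.2 _ (hE f)), smul_one_mul]
      rw [sum_congr rfl fun e _ => h5 e, ← sum_smul, hB.s1 ⟨_, hE f⟩]
      by_cases hf : f ∈ A.subgroupOf E
      · have h6 := commutatorElement_eq_one_iff_mul_comm.2 (hx (f : H) hf)
        rw [if_pos hf, if_pos (Subgroup.mem_subgroupOf.2 (h6.symm ▸ A.one_mem : ⁅(f : H), x⁆ ∈ A)),
          h6, map_one]
      · rw [if_neg hf, if_neg fun h6 => hf (hfp (f : H) f.2 1 (by simpa using hq1) (by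
          rw [pow_one, ← commutatorElement_inv]
          exact A.inv_mem h6)), zero_smul, zero_smul]
    have h5 := sum_congr (s₁ := univ) rfl fun f _ => h4 f
    rw [sum_comm, ← sum_smul] at h5
    simp only [← map_sum, h3, map_zero, sum_const_zero] at h5
    exact (smul_eq_zero.1 h5.symm).resolve_right one_ne_zero)
  have h3 : ∀ f : E, ρ (f * x * (f : H)⁻¹) * T = μ • (T * ρ (f * x * (f : H)⁻¹)) := fun f => by
    have h4 : ρ x * T = μ • (T * ρ x) := by
      have := congrArg (· * ρ x) h2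
      simpa only [hCa, mul_assoc, hi', mul_one, smul_mul_assoc] using this
    have h5 := (hcm _ _ (h1 f)).eq
    have h6 : ρ (f : H)⁻¹ * T = T * ρ (f : H)⁻¹ := (hcm _ _ (h1 f⁻¹)).eq
    rw [map_mul, map_mul, mul_assoc, h6, ← mul_assoc, mul_assoc (ρ f), h4, mul_smul_comm,
      smul_mul_assoc, ← mul_assoc, h5, mul_assoc T, mul_assoc T]
  have h4 := sum_congr (s₁ := univ) rfl fun f _ => h3 f
  rw [← sum_mul, ← smul_sum, ← mul_sum, hg, smul_one_mul, mul_smul_one, smul_smul, ← sub_eq_zero,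
    ← sub_smul, smul_eq_zero] at h4
  refine h4.resolve_left fun h5 => hμ1 (mul_right_cancel₀ hg0 ?_)
  rw [one_mul, ← sub_eq_zero.1 h5]

end

theorem hhsK {L : Type} [Field L] [IsAlgClosed L] [CharP L 13] {M : Type} [AddCommGroup M] [Module L M]
    [Module.Finite L M] {H : Type} [Group H] [Finite H] (h13 : ¬ 13 ∣ Nat.card H)
    (ρ : Representation L H M) (hM : ∃ v : M, v ≠ 0)
    (hirr : ∀ W : Submodule L M, (∀ h, ∀ w ∈ W, ρ h w ∈ W) → W = ⊥ ∨ W = ⊤)
    (A E : Subgroup H) (hP : PD A E) (hne : A ≠ E) (x : H)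
    (hgen : ∀ h : H, ∃ f ∈ E, ∃ k : ℕ, h = f * x ^ k)
    (hxA : x ∈ Subgroup.centralizer (A : Set H)) (hxE : x ∈ Subgroup.normalizer (E : Set H))
    (hA : ∀ a ∈ A, ∀ v, v ≠ 0 → ρ a v = v → a = 1) (r : ℕ) (hq : (ρ x) ^ (3 ^ r) = 1)
    (hfp : ∀ f ∈ E, ∀ k : ℕ, ¬ 3 ^ r ∣ k → ⁅x ^ k, f⁆ ∈ A → f ∈ A)
    (hf : ∀ v, ρ x v = v → v = 0) (ω : L) (hω : ω ^ 3 = 1) :
    Module.finrank L (Module.End.eigenspace (ρ x) ω) =
      Module.finrank L (Module.End.eigenspace (ρ x) (ω ^ 2)) := by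
  obtain ⟨v, hv⟩ := hM
  have : Nontrivial M := ⟨v, 0, hv⟩
  have hr : r ≠ 0 := by
    rintro rfl
    exact hv (hf v (by rw [pow_zero, pow_one] at hq; rw [hq, Module.End.one_apply]))
  have hq1 : 3 ^ r ≠ 1 := (Nat.one_lt_pow hr (by norm_num)).ne'
  have : NeZero (3 ^ r) := ⟨by positivity⟩
  have : NeZero ((3 ^ r : ℕ) : L) := ⟨fun h => by
    have := (Nat.Prime.dvd_of_dvd_pow (by norm_num) ((CharP.cast_eq_zero_iff L 13 _).1 h))
    omega⟩
  obtain ⟨ζ, hζ⟩ := HasEnoughRootsOfUnity.exists_primitiveRoot L (3 ^ r)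
  obtain ⟨h1, h2⟩ := hhs_end (3 ^ r) ζ hζ (ρ x) (ρ x⁻¹)
    (by rw [← map_mul, mul_inv_cancel, map_one]) hq
  have h3 := hhs_comb (fun ν : ZMod (3 ^ r) =>
    Module.finrank L (Module.End.eigenspace (ρ x) (ζ ^ ν.val))) ?_ (fun ξ hξ => ?_) ?_
  · have h4 : ∀ c : L, c ^ 3 = 1 → c ≠ 1 →
        Module.finrank L (Module.End.eigenspace (ρ x) c) = 1 := fun c hc hc1 => by
      obtain ⟨i, hi, rfl⟩ := hζ.eq_pow_of_pow_eq_one (ξ := c) (by
        obtain ⟨d, hd⟩ := dvd_pow_self 3 hr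
        rw [hd, pow_mul, hc, one_pow])
      have h5 := h3 i fun h => hc1 (by rw [← ZMod.val_cast_of_lt hi, h, ZMod.val_zero, pow_zero])
      rwa [ZMod.val_cast_of_lt hi] at h5
    by_cases h5 : ω = 1
    · rw [h5, one_pow]
    · rw [h4 ω hω h5, h4 (ω ^ 2) (by rw [← pow_mul, mul_comm, pow_mul, hω, one_pow]) fun h =>
        h5 (by rwa [pow_succ, h, one_mul] at hω)]
  · rw [ZMod.val_zero, pow_zero, Submodule.finrank_eq_zero, eq_bot_iff]
    exact fun w hw => hf w (by simpa using Module.End.mem_eigenspace_iff.1 hw)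
  · have h4 := h2 0
    rw [Finset.sum_congr rfl fun ν _ => by rw [add_zero ν]] at h4
    rw [← h4, ← h2 ξ, ZMod.val_zero, pow_zero]
    exact xhhsk_dim h13 ρ hirr hP hgen hxA hxE hA (NeZero.ne _) hq1 hfp
      (by rw [← pow_mul, mul_comm, pow_mul, hζ.pow_eq_one, one_pow])
      (hζ.pow_ne_one_of_pos_of_lt ((ZMod.val_ne_zero ξ).2 hξ) (ZMod.val_lt ξ))
  · rw [h1]
    by_contra h4
    have h5 : Module.finrank L M = 1 := by
      have := Module.finrank_pos (R := L) (M := M)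
      omega
    refine hne (le_antisymm hP.le fun f hf' => hP.nd f hf' fun y hy =>
      commutatorElement_eq_one_iff_mul_comm.1 (hA _ (hP.comm f hf' y hy) v hv ?_))
    obtain ⟨a, ha, -⟩ := LinearMap.existsUnique_eq_smul_id_of_finrank_eq_one h5 (ρ f)
    have h6 : Commute (ρ f) (ρ y) := by
      rw [ha]
      exact (Commute.one_left _).smul_left a
    rw [commutatorElement_def, map_mul, map_mul, map_mul, h6.eq, ← map_mul, ← map_mul, ← map_mul,
      mul_inv_cancel_right, mul_inv_cancel, map_one, Module.End.one_apply]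

end Pool.Agent.N9181
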