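import Pool.Agent.MP_9181f8_al.N.Pair

namespace Pool.Agent.N9181

open scoped commutatorElement

theorem xisoa_ind {U Z : Type} [CommGroup U] [Finite U] [CommGroup Z] [Finite Z] [IsCyclic Z]
    (B : U →* U →* Z) (hB : Symp B) (p : ℕ) (hp : 2 ≤ p)
    (hq : ∀ q : ℕ, q.Prime → q ∣ Nat.card U → p ≤ q) (n : ℕ) : ∀ S : Subgroup U, S.index = n →
    ∀ G ≤ Iso B, (∀ s ∈ G, ∀ y ∈ S, s y = y) → Nat.card G ≤ ch p n := by
  induction n using Nat.strong_induction_on with
  | _ n ih =>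
  rintro S rfl G hG hS
  by_cases ht : S = ⊤
  · have : G = ⊥ := (Subgroup.eq_bot_iff_forall G).2 fun s hs =>
      MulEquiv.ext fun y => hS s hs y (ht ▸ Subgroup.mem_top y)
    rw [this, ht, ch_eq p hp]
    simp
  obtain ⟨x, hx⟩ : ∃ x, x ∉ S := not_forall.1 fun h => ht ((Subgroup.eq_top_iff' S).2 h)
  have h1 := Subgroup.relIndex_mul_index (le_sup_left : S ≤ S ⊔ Subgroup.zpowers x)
  have h2 : S.relIndex (S ⊔ Subgroup.zpowers x) ≠ 1 := fun h =>
    hx (Subgroup.relIndex_eq_one.1 h (Subgroup.mem_sup_right (Subgroup.mem_zpowers x)))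
  have h3 : S.index ≠ 0 := Subgroup.index_ne_zero_of_finite
  have h4 : (S ⊔ Subgroup.zpowers x).index ≠ 0 := Subgroup.index_ne_zero_of_finite
  have h5 := (hq _ (Nat.minFac_prime h2) ((Nat.minFac_dvd _).trans
    ((Dvd.intro _ h1).trans S.index_dvd_card))).trans
    (Nat.minFac_le (Nat.pos_of_ne_zero (left_ne_zero_of_mul (h1 ▸ h3))))
  have h6 : (S ⊔ Subgroup.zpowers x).index * p ≤ S.index := by
    rw [← h1, mul_comm]
    exact Nat.mul_le_mul_right _ h5
  have h7 : (S ⊔ Subgroup.zpowers x).index * 2 ≤ S.index := (Nat.mul_le_mul_left _ hp).trans h6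
  have h8 := ih _ (by omega) (S ⊔ Subgroup.zpowers x) rfl ((MulAction.stabilizer G x).map G.subtype)
    ((Subgroup.map_subtype_le _).trans hG) (by
      rintro _ ⟨s, hs, rfl⟩
      exact (sup_le (fun y hy => hS s s.2 y hy) (Subgroup.zpowers_le_of_mem hs) :
        S ⊔ Subgroup.zpowers x ≤ MonoidHom.eqLocus s.1.toMonoidHom (MonoidHom.id U)))
  rw [Subgroup.card_map_of_injective G.subtype_injective] at h8
  have h9 : Nat.card (perp B S) = S.index :=
    Nat.eq_of_mul_eq_mul_left Nat.card_pos ((card_perp B hB S).trans S.card_mul_index.symm)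
  have h10 : (MulAction.stabilizer G x).index ≤ S.index := by
    rw [MulAction.index_stabilizer, ← h9]
    refine Set.ncard_le_ncard_of_injOn (t := (perp B S : Set U)) (fun y => x⁻¹ * y) ?_
      (fun a _ b _ h => mul_left_cancel h) (Set.toFinite _)
    rintro _ ⟨s, rfl⟩ y hy
    have := hG s.2 y x
    rw [hS s s.2 y hy] at this
    rw [map_mul, map_inv, inv_mul_eq_one]
    exact this.symm
  rw [ch_eq p hp, if_neg (by omega), ← (MulAction.stabilizer G x).index_mul_card]
  exact Nat.mul_le_mul h10 (h8.trans (ch_mono p hp _ _ ((Nat.le_div_iff_mul_le (by omega)).2 h6)))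

theorem iso_chain {U Z : Type} [CommGroup U] [Finite U] [CommGroup Z] [Finite Z] [IsCyclic Z]
    (B : U →* U →* Z) (hB : Symp B) (p : ℕ) (hp : 2 ≤ p)
    (hq : ∀ q : ℕ, q.Prime → q ∣ Nat.card U → p ≤ q) :
    Nat.card (Iso B) ≤ ch p (Nat.card U) := by
  exact xisoa_ind B hB p hp hq _ ⊥ Subgroup.index_bot _ le_rfl fun s _ y hy => by
    rw [Subgroup.mem_bot.1 hy, map_one]

end Pool.Agent.N9181
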