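import Pool.Agent.MP_9181f8_al.N.M0base
import Pool.Agent.MP_9181f8_al.N.Comp
import Pool.Agent.MP_9181f8_al.N.Blocks
import Pool.Agent.MP_9181f8_al.N.Struct

namespace Pool.Agent.N9181

open scoped commutatorElement

/-- the statement in dimension `n` -/
def xm0St (n : ℕ) : Prop :=
  ∀ (V : Type) [AddCommGroup V] [Module K V] [Module.Finite K V]
    (H : Type) [Group H] [Finite H] [Group.IsSolvable H], Module.finrank K V = n →
    ¬ 13 ∣ Nat.card H → ∀ ρ : Representation K H V, (∃ v : V, v ≠ 0) → HFP ρ → HEP ρ 3 → Scal ρ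

theorem xm0_three : (3 : K) ≠ 0 := by decide

theorem xm0_block {V : Type} [AddCommGroup V] [Module K V] [Module.Finite K V]
    {H : Type} [Group H] [Finite H] [Group.IsSolvable H] (h13 : ¬ 13 ∣ Nat.card H)
    (ρ : Representation K H V) (hF : HFP ρ) (hE : HEP ρ 3)
    (ih : ∀ m < Module.finrank K V, xm0St m) {I : Type} [Fintype I] [MulAction H I]
    (W : I → Submodule K V) (hB : BD ρ I W) (hI : 1 < Fintype.card I) : Scal ρ := by
  refine step0 ρ W hB hF hE fun i => ?_
  obtain ⟨σ, hσ⟩ := exists_res ρ (MulAction.stabilizer H i) (W i) fun h hh w hw => by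
    have := hB.map h i w hw
    rwa [MulAction.mem_stabilizer_iff.1 hh] at this
  have h1 : ¬ 13 ∣ Nat.card (MulAction.stabilizer H i) := fun h =>
    h13 (h.trans (Subgroup.card_subgroup_dvd_card _))
  have h2 : ∃ v : W i, v ≠ 0 := by
    obtain ⟨v, hv, hv0⟩ := (Submodule.ne_bot_iff _).1 (hB.ne i)
    exact ⟨⟨v, hv⟩, fun h => hv0 (congrArg Subtype.val h)⟩
  have h3 : HFP σ := by
    intro h a v ha hv hfix
    have e : ρ h = 1 := hF h a v (by exact_mod_cast congrArg Subtype.val ha)
      (fun h0 => hv (Subtype.ext h0)) (by rw [← hσ, hfix])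
    refine LinearMap.ext fun w => Subtype.ext ?_
    rw [hσ, e]
    rfl
  have h4 : HEP σ 3 := by
    intro w
    by_cases hw : w = 0
    · exact ⟨1, by rw [hw, map_zero, smul_zero]⟩
    obtain ⟨h, hh⟩ := hE w
    have hi : h • i = i := by
      by_contra hne
      have d : Disjoint (W (h • i)) (W i) := hB.ind.pairwiseDisjoint hne
      have m1 : ρ h w ∈ W (h • i) := hB.map h i w w.2
      have m2 : ρ h w ∈ W i := hh ▸ (W i).smul_mem _ w.2
      have z : ρ h w = 0 := (Submodule.disjoint_def.1 d) _ m1 m2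
      rw [hh, smul_eq_zero] at z
      rcases z with z | z
      · exact xm0_three z
      · exact hw (Subtype.ext z)
    exact ⟨⟨h, MulAction.mem_stabilizer_iff.2 hi⟩, Subtype.ext (by rw [hσ]; exact hh)⟩
  obtain ⟨z, hz⟩ := ih _ (rank_lt ρ W hB hI i) (W i) (MulAction.stabilizer H i) rfl h1 σ h2 h3 h4
  refine ⟨z, MulAction.mem_stabilizer_iff.1 z.2, fun w hw => ?_⟩
  have := congrArg Subtype.val (hz ⟨w, hw⟩)
  rwa [hσ] at this

/-- the trivial action on two points -/
@[reducible] def xm0Triv (H : Type) [Group H] : MulAction H Bool where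
  smul _ b := b
  one_smul _ := rfl
  mul_smul _ _ _ := rfl

theorem xm0_faithful {V : Type} [AddCommGroup V] [Module K V] [Module.Finite K V]
    {H : Type} [Group H] [Finite H] [Group.IsSolvable H] (h13 : ¬ 13 ∣ Nat.card H)
    (ρ : Representation K H V) (hinj : Function.Injective ρ) (hV : ∃ v : V, v ≠ 0) (hF : HFP ρ)
    (hE : HEP ρ 3) (ih : ∀ m < Module.finrank K V, xm0St m) : Scal ρ := by
  by_cases hirr : Irr ρ
  · by_cases hc : ∀ B : Subgroup H, B.Normal → (∀ a ∈ B, ∀ b ∈ B, a * b = b * a) → IsCyclic B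
    · obtain ⟨A, F, hS⟩ := exists_sd hc
      exact m0base h13 ρ hinj hirr A F hS hF hE
    · push Not at hc
      obtain ⟨B, hB, hcomm, hn⟩ := hc
      obtain ⟨I, _, _, W, J, -, hI, hBD, -⟩ := blocks ρ hinj hirr B hB hcomm hn
      exact xm0_block h13 ρ hF hE ih W hBD hI
  · have hex : ∃ W : Submodule K V, (∀ h, ∀ v ∈ W, ρ h v ∈ W) ∧ W ≠ ⊥ ∧ W ≠ ⊤ := by
      by_contra hne
      refine hirr ⟨hV, fun W hW => ?_⟩
      by_contra h2
      push Not at h2
      exact hne ⟨W, hW, h2.1, h2.2⟩
    obtain ⟨W, hW, hb, ht⟩ := hex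
    have hc : (Nat.card H : K) ≠ 0 := fun h => h13 ((ZMod.natCast_eq_zero_iff _ _).1 h)
    obtain ⟨W', hW', hcompl⟩ := exists_compl hc ρ W hW
    let _ := xm0Triv H
    refine xm0_block h13 ρ hF hE ih (I := Bool) (fun b => cond b W W') ⟨?_, ?_, ?_, ?_⟩
      (by decide)
    · intro h i w hw
      cases i
      · exact hW' h w hw
      · exact hW h w hw
    · intro i
      cases i
      · refine hcompl.disjoint.symm.mono_right (iSup₂_le fun j hj => ?_)
        cases j
        · exact absurd rfl hj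
        · exact le_rfl
      · refine hcompl.disjoint.mono_right (iSup₂_le fun j hj => ?_)
        cases j
        · exact le_rfl
        · exact absurd rfl hj
    · rw [iSup_bool_eq]
      exact hcompl.sup_eq_top
    · intro i
      cases i
      · intro h
        have h' : W' = ⊥ := h
        have := hcompl.sup_eq_top
        rw [h', sup_bot_eq] at this
        exact ht this
      · exact hb

theorem xm0_all (n : ℕ) : xm0St n := by
  induction n using Nat.strong_induction_on with
  | _ n ih =>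
    intro V _ _ _ H _ _ _ hn h13 ρ hV hF hE
    obtain ⟨H', _, _, π, ρ', hs, hinj, hπ, hcard, -⟩ := exists_faithful ρ
    have : Group.IsSolvable H' := Group.isSolvable_of_surjective hs
    have hF' : HFP ρ' := by
      intro h a v ha hv hfix
      obtain ⟨g, rfl⟩ := hs h
      obtain ⟨e, b, h1, -, h2⟩ := p_part 3 Nat.prime_three g
      have h3 : π (g ^ e) = π g := h2 H' π a ha
      rw [← h3, hπ] at hfix ⊢
      exact hF _ b v h1 hv hfix
    have hE' : HEP ρ' 3 := fun v => by
      obtain ⟨h, hh⟩ := hE v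
      exact ⟨π h, by rw [hπ]; exact hh⟩
    obtain ⟨z, hz⟩ := xm0_faithful (fun h => h13 (h.trans hcard)) ρ' hinj hV hF' hE'
      (fun m hm => ih m (hn ▸ hm))
    obtain ⟨g, rfl⟩ := hs z
    exact ⟨g, fun v => by rw [← hπ]; exact hz v⟩

theorem m0 {V : Type} [AddCommGroup V] [Module K V] [Module.Finite K V]
    {H : Type} [Group H] [Finite H] [Group.IsSolvable H] (h13 : ¬ 13 ∣ Nat.card H) (ρ : Representation K H V) (hV : ∃ v : V, v ≠ 0) (hF : HFP ρ)
    (hE : HEP ρ 3) : Scal ρ :=
  xm0_all _ V H rfl h13 ρ hV hF hE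

end Pool.Agent.N9181
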