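import Pool.Agent.MP_9181f8_al.N.Pair

namespace Pool.Agent.N9181

open scoped commutatorElement

theorem xsdpair_lift {F U T : Type} [Group F] [Group U] [Group T] (π : F →* U)
    (hπ : Function.Surjective π) (f : F →* T) (h : ∀ x, π x = 1 → f x = 1) :
    ∃ g : U →* T, ∀ x, g (π x) = f x :=
  ⟨π.liftOfRightInverse _ (Function.rightInverse_surjInv hπ) ⟨f, h⟩,
    π.liftOfRightInverse_comp_apply _ _ ⟨f, h⟩⟩

theorem xsdpair_lift2 {F U Z : Type} [Group F] [Group U] [CommGroup Z] (π : F →* U)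
    (hπ : Function.Surjective π) (β : F →* F →* Z)
    (h : ∀ x, π x = 1 → ∀ y, β x y = 1 ∧ β y x = 1) :
    ∃ B : U →* U →* Z, ∀ x y, B (π x) (π y) = β x y := by
  obtain ⟨g, hg⟩ := xsdpair_lift π hπ β fun x hx => MonoidHom.ext fun y => (h x hx y).1
  obtain ⟨g', hg'⟩ := xsdpair_lift π hπ g.flip fun x hx => MonoidHom.ext fun u => by
    obtain ⟨y, rfl⟩ := hπ u
    rw [MonoidHom.flip_apply, hg]
    exact (h x hx y).2
  exact ⟨g'.flip, fun x y => by rw [MonoidHom.flip_apply, hg', MonoidHom.flip_apply, hg]⟩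

theorem pd_pair {H : Type} [Group H] [Finite H] (A F : Subgroup H) (hP : PD A F) :
    ∃ (U Z : Type) (_ : CommGroup U) (_ : Finite U) (_ : CommGroup Z) (_ : Finite Z)
      (_ : IsCyclic Z) (π : F →* U) (ζ : Z →* H) (B : U →* U →* Z),
      Function.Surjective π ∧ (∀ x : F, π x = 1 ↔ (x : H) ∈ A) ∧ Function.Injective ζ ∧
      (∀ a, a ∈ A ↔ ∃ z, ζ z = a) ∧ Symp B ∧
      (∀ x y : F, ζ (B (π x) (π y)) = ⁅(x : H), (y : H)⁆) ∧
      Nat.card U = A.relIndex F ∧ Nat.card Z = Nat.card A := by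
  have : (A.subgroupOf F).Normal := ⟨fun a ha g => by
    have h : g * a * g⁻¹ = a := by
      rw [mul_inv_eq_iff_eq_mul]
      exact Subtype.ext (hP.cen a ha g g.2).symm
    rwa [h]⟩
  have hπ := QuotientGroup.mk'_surjective (A.subgroupOf F)
  have hk : ∀ x : F, QuotientGroup.mk' (A.subgroupOf F) x = 1 ↔ (x : H) ∈ A := fun x =>
    QuotientGroup.eq_one_iff x
  let iU : CommGroup (F ⧸ A.subgroupOf F) :=
    { (inferInstance : Group (F ⧸ A.subgroupOf F)) with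
      mul_comm := fun u v => by
        obtain ⟨x, rfl⟩ := hπ u
        obtain ⟨y, rfl⟩ := hπ v
        rw [← commutatorElement_eq_one_iff_mul_comm, ← map_commutatorElement, hk]
        exact hP.comm x x.2 y y.2 }
  let iZ : CommGroup A :=
    { (inferInstance : Group A) with
      mul_comm := fun a b => Subtype.ext (hP.cen a a.2 b (hP.le b.2)) }
  have hc : ∀ x y w : F, (w : H) * ⁅(x : H), (y : H)⁆ * (w : H)⁻¹ = ⁅(x : H), (y : H)⁆ :=
    fun x y w => by rw [← hP.cen _ (hP.comm x x.2 y y.2) w w.2, mul_inv_cancel_right]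
  let β : F →* F →* A := MonoidHom.mk' (fun x => MonoidHom.mk'
    (fun y => ⟨⁅(x : H), (y : H)⁆, hP.comm x x.2 y y.2⟩) fun y w => Subtype.ext (by
      change ⁅(x : H), (y : H) * w⁆ = ⁅(x : H), (y : H)⁆ * ⁅(x : H), (w : H)⁆
      rw [← hc x w y]
      group)) fun x y => MonoidHom.ext fun w => (Subtype.ext (by
      change ⁅(x : H) * y, (w : H)⁆ = ⁅(y : H), (w : H)⁆ * ⁅(x : H), (w : H)⁆
      rw [← hc y w x]
      group)).trans (mul_comm _ _)
  obtain ⟨B, hB⟩ := xsdpair_lift2 _ hπ β fun x hx y =>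
    ⟨Subtype.ext (commutatorElement_eq_one_iff_mul_comm.2 (hP.cen x ((hk x).1 hx) y y.2)),
      Subtype.ext (commutatorElement_eq_one_iff_mul_comm.2 (hP.cen x ((hk x).1 hx) y y.2).symm)⟩
  refine ⟨_, _, iU, inferInstance, iZ, inferInstance, hP.cyc, _, A.subtype, B, hπ, hk,
    Subtype.val_injective, fun a => ⟨fun h => ⟨⟨a, h⟩, rfl⟩, fun ⟨z, h⟩ => h ▸ z.2⟩,
    ⟨fun u => ?_, fun u h => ?_⟩, fun x y => congrArg Subtype.val (hB x y), rfl, rfl⟩
  · obtain ⟨x, rfl⟩ := hπ u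
    exact (hB x x).trans (Subtype.ext (commutatorElement_self _))
  · obtain ⟨x, rfl⟩ := hπ u
    exact (hk x).2 (hP.nd x x.2 fun y hy => commutatorElement_eq_one_iff_mul_comm.1
      (congrArg Subtype.val ((hB x ⟨y, hy⟩).symm.trans (h _))))

theorem sd_pair {H : Type} [Group H] [Finite H] (A F : Subgroup H) (hS : SD A F) :
    ∃ (U Z : Type) (_ : CommGroup U) (_ : Finite U) (_ : CommGroup Z) (_ : Finite Z)
      (_ : IsCyclic Z) (π : F →* U) (ζ : Z →* H) (B : U →* U →* Z)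
      (κ : Subgroup.centralizer (A : Set H) →* Iso B),
      Function.Surjective π ∧ (∀ x : F, π x = 1 ↔ (x : H) ∈ A) ∧ Function.Injective ζ ∧
      (∀ a, a ∈ A ↔ ∃ z, ζ z = a) ∧ Symp B ∧
      (∀ x y : F, ζ (B (π x) (π y)) = ⁅(x : H), (y : H)⁆) ∧
      Nat.card U = A.relIndex F ∧ Nat.card Z = Nat.card A ∧
      (∀ (c : Subgroup.centralizer (A : Set H)) (x y : F), (y : H) = c * x * (c : H)⁻¹ →
        (κ c : MulAut U) (π x) = π y) ∧ ∀ c, κ c = 1 ↔ (c : H) ∈ F := by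
  obtain ⟨U, Z, _, _, _, _, _, π, ζ, B, h1, h2, h3, h4, h5, h6, h7, h8⟩ := pd_pair A F hS.toPD
  have := hS.nF
  choose g hg using fun c : H => xsdpair_lift π h1
    (π.comp (MulAut.conjNormal c : MulAut F).toMonoidHom)
    fun x hx => (h2 (MulAut.conjNormal c x)).2 (hS.nA.conj_mem _ ((h2 x).1 hx) c)
  replace hg : ∀ c x, g c (π x) = π (MulAut.conjNormal c x) := hg
  have hm : ∀ c d u, g (c * d) u = g c (g d u) := fun c d u => by
    obtain ⟨x, rfl⟩ := h1 u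
    rw [hg, hg, hg, map_mul, MulAut.mul_apply]
  have h0 : ∀ u, g 1 u = u := fun u => by
    obtain ⟨x, rfl⟩ := h1 u
    rw [hg, map_one, MulAut.one_apply]
  let κ : H →* MulAut U := MonoidHom.mk' (fun c => MonoidHom.toMulEquiv (g c) (g c⁻¹)
    (MonoidHom.ext fun u => (hm _ _ u).symm.trans (by rw [inv_mul_cancel, h0]; rfl))
    (MonoidHom.ext fun u => (hm _ _ u).symm.trans (by rw [mul_inv_cancel, h0]; rfl)))
    fun c d => MulEquiv.ext (hm c d)
  refine ⟨U, Z, _, ‹_›, _, ‹_›, ‹_›, π, ζ, B, (κ.comp (Subgroup.subtype _)).codRestrict _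
    fun c u v => ?_, h1, h2, h3, h4, h5, h6, h7, h8,
    fun c x y e => (hg c x).trans (congrArg π (Subtype.ext e.symm)), fun c => ?_⟩
  · obtain ⟨x, rfl⟩ := h1 u
    obtain ⟨y, rfl⟩ := h1 v
    refine h3 ?_
    change ζ (B (g c (π x)) (g c (π y))) = _
    rw [hg, hg, h6, h6, MulAut.conjNormal_apply, MulAut.conjNormal_apply,
      ← conjugate_commutatorElement, ← c.2 _ (hS.comm x x.2 y y.2), mul_inv_cancel_right]
  · have key : ∀ x : F, g c (π x) = π x ↔ ⁅(c : H), (x : H)⁆ ∈ A := fun x => by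
      rw [hg, ← mul_inv_eq_one, ← map_inv, ← map_mul, h2]
      rfl
    refine ⟨fun e => hS.ff c c.2 fun y hy => (key ⟨y, hy⟩).1
      (DFunLike.congr_fun (congrArg Subtype.val e) _), fun e => Subtype.ext (MulEquiv.ext
        (h1.forall.2 fun x => (key x).2 (hS.comm c e x x.2)))⟩

theorem pd_sq {H : Type} [Group H] [Finite H] (A F : Subgroup H) (hP : PD A F) :
    ∃ e : ℕ, 0 < e ∧ A.relIndex F = e ^ 2 ∧ ∀ p : ℕ, p.Prime → p ∣ e → p ∣ Nat.card A := by
  obtain ⟨U, Z, _, _, _, _, _, π, ζ, B, -, -, -, -, h5, -, h7, h8⟩ := pd_pair A F hP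
  obtain ⟨S, hS⟩ := exists_lagr B h5
  have h := card_perp B h5 S
  rw [hS] at h
  exact ⟨Nat.card S, Nat.card_pos, by rw [← h7, ← h, sq], fun p hp e =>
    h8 ▸ prime_dvd_symp B h5 p hp (h ▸ e.mul_right _)⟩

end Pool.Agent.N9181
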