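import Pool.Agent.MP_9181f8_al.N.M0basea
import Pool.Agent.MP_9181f8_al.N.SDPair

namespace Pool.Agent.N9181

open Finset
open scoped commutatorElement

variable {H : Type} [Group H]

lemma xm0base_six {t f w : H} (ht : t ^ 3 = 1) (hw : w = t * f * t⁻¹ * f⁻¹)
    (hc : t * (w * w) * t⁻¹ = w * w) (h : Commute (t * w * t⁻¹) w) : (w * w) ^ 3 = 1 := by
  have e : t * (t * w * t⁻¹) * t⁻¹ * (t * w * t⁻¹ * w) = 1 := by
    have : t * (t * w * t⁻¹) * t⁻¹ * (t * w * t⁻¹ * w) = t ^ 3 * f * (t ^ 3)⁻¹ * f⁻¹ := by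
      rw [hw, pow_three]
      group
    rw [this, ht]
    group
  have c2 : Commute (t * (t * w * t⁻¹) * t⁻¹) (t * w * t⁻¹ * w) := by
    rw [eq_inv_of_mul_eq_one_left e]
    exact (Commute.refl _).inv_left
  have e1 : (t * w * t⁻¹) ^ 2 = w * w := by rw [conj_pow, pow_two, hc]
  have e2 : (t * (t * w * t⁻¹) * t⁻¹) ^ 2 = w * w := by rw [conj_pow, e1, hc]
  have e3 := c2.mul_pow 2
  rw [e, one_pow, h.mul_pow, e1, e2, pow_two] at e3
  rw [pow_three]
  exact e3.symm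

lemma xm0base_one [Finite H] {A : Subgroup H} (h3 : ¬ 3 ∣ Nat.card A) {a : H} (ha : a ∈ A)
    (h : a ^ 3 = 1) : a = 1 := by
  rcases (Nat.dvd_prime Nat.prime_three).1 (orderOf_dvd_of_pow_eq_one h) with k | k
  · exact orderOf_eq_one_iff.1 k
  · exact absurd (k ▸ A.orderOf_dvd_natCard ha) h3

lemma xm0base_count [Finite H] (A F : Subgroup H) (hS : SD A F) (h3A : ¬ 3 ∣ Nat.card A)
    (h3 : ¬ 3 ∣ A.relIndex F) (X : Finset (Subgroup.centralizer (A : Set H)))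
    (hX : ∀ t ∈ X, (t : H) ^ 3 = 1 ∧ (t : H) ∉ F ∧ ∀ f ∈ F, ⁅(t : H), f⁆ ∉ A →
      ⁅(t : H), f⁆ * ⁅(t : H), f⁆ ∈ A ∧ (⁅(t : H), f⁆ * ⁅(t : H), f⁆) ^ 3 ≠ 1) :
    3 * X.card ≤ 2 * (A.relIndex F * (A.relIndex F - 1)) := by
  classical
  obtain ⟨U, Z, _, _, _, _, _, π, ζ, B, κ, hπ, hk, hζ, -, hB, hBc, hU, -, hκ, hκ1⟩ :=
    sd_pair A F hS
  have := Fintype.ofFinite U
  let cj : Subgroup.centralizer (A : Set H) → F → F := fun t f =>
    ⟨t * f * (t : H)⁻¹, hS.nF.conj_mem _ f.2 _⟩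
  have hcj : ∀ t f, (κ t : MulAut U) (π f) = π (cj t f) := fun t f => hκ t f _ rfl
  have hP : ∀ t ∈ X, xm0base_P B (κ t) := by
    intro t ht
    obtain ⟨t3, -, tq⟩ := hX t ht
    refine ⟨(κ t).2, fun x => ?_, fun x hx => ?_⟩
    · have h1 : t ^ 3 = 1 := Subtype.ext t3
      have h2 : (κ t : MulAut U) ^ 3 = 1 := by
        rw [← Subgroup.coe_pow, ← map_pow, h1, map_one, Subgroup.coe_one]
      rw [pow_three] at h2
      exact DFunLike.congr_fun h2 x
    · obtain ⟨f, rfl⟩ := hπ x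
      rw [hcj, ← map_div] at hx ⊢
      have hw : ((cj t f / f : F) : H) = ⁅(t : H), (f : H)⁆ := by
        rw [div_eq_mul_inv]
        rfl
      obtain ⟨q1, q2⟩ := tq f f.2 fun h => hx ((hk _).2 (hw ▸ h))
      rw [← hw] at q1 q2
      refine ⟨by rw [pow_two, ← map_mul]; exact (hk _).2 q1, fun h0 => q2 ?_⟩
      have h1 := hBc (cj t f / f) (cj t (cj t f / f))
      rw [← hcj, h0, map_one] at h1
      refine xm0base_six t3 hw ?_ (commutatorElement_eq_one_iff_commute.1 h1.symm).symm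
      rw [← t.2 _ q1, mul_inv_cancel_right]
  have hpairs := xm0base_pairs B
  rw [← Nat.card_eq_fintype_card, hU] at hpairs
  have main := card_mul_le_card_mul (s := X)
    (t := univ.filter fun p : U × U => p.1 ≠ 1 ∧ p.1 ^ 2 = 1 ∧ B p.1 p.2 ≠ 1)
    (fun t p => p.1 ∈ xm0base_S (κ t) ∧ p.2 = (κ t : MulAut U) p.1) (m := 3) (n := 4) ?_ ?_
  · omega
  · intro t ht
    have h := hP t ht
    obtain ⟨c, hc, h1⟩ : ∃ c ∈ xm0base_S (κ t : MulAut U), c ≠ 1 := by
      by_contra h0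
      refine (hX t ht).2.1 ((hκ1 t).1 (Subtype.ext (MulEquiv.ext fun x => ?_)))
      by_contra h2
      exact h0 ⟨_, ⟨x, rfl⟩, fun h4 => h2 (div_eq_one.1 h4)⟩
    obtain ⟨s, hs⟩ : ∃ s, (κ t : MulAut U) = s := ⟨_, rfl⟩
    rw [hs] at h hc
    have n1 : c ≠ s c := fun e => xm0base_q h hc h1 (e ▸ hB.1 c)
    have n2 : c ≠ s (s c) := fun e => n1 ((congrArg s e).trans (h.cube c)).symm
    have n3 : s c ≠ s (s c) := fun e => n1 (s.injective e)
    rw [← card_eq_three.2 ⟨c, s c, s (s c), n1, n2, n3, rfl⟩]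
    refine card_le_card_of_injOn (fun d => (d, s d)) (fun d hd => ?_)
      fun d _ d' _ e => congrArg Prod.fst e
    have h2 : d ∈ xm0base_S s ∧ d ≠ 1 := by
      simp only [coe_insert, coe_singleton, Set.mem_insert_iff, Set.mem_singleton_iff] at hd
      rcases hd with rfl | rfl | rfl
      · exact ⟨hc, h1⟩
      · exact ⟨xm0base_map hc, by simpa using h1⟩
      · exact ⟨xm0base_map (xm0base_map hc), by simpa using h1⟩
    exact mem_coe.2 ((mem_bipartiteAbove _).2 ⟨mem_filter.2 ⟨mem_univ _, h2.2,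
      xm0base_sq h h2.1, xm0base_q h h2.1 h2.2⟩, hs ▸ h2.1, hs ▸ rfl⟩)
  · rintro ⟨c, d⟩ hp
    have h1 : c ≠ 1 := (mem_filter.1 hp).2.1
    set T := X.bipartiteBelow
      (fun t (p : U × U) => p.1 ∈ xm0base_S (κ t) ∧ p.2 = (κ t : MulAut U) p.1) (c, d) with hT
    rcases T.eq_empty_or_nonempty with h0 | ⟨t0, h0⟩
    · simp [h0]
    obtain ⟨a1, a2, a3⟩ := (mem_bipartiteBelow _).1 h0
    have hF : ∀ t ∈ T, (t0 : H)⁻¹ * t ∈ F := by
      intro t ht
      obtain ⟨b1, b2, b3⟩ := (mem_bipartiteBelow _).1 ht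
      have e := xm0base_uniq hB (hP _ a1) (hP _ b1) a2 b2 h1 (a3.symm.trans b3)
      exact (hκ1 (t0⁻¹ * t)).1 (by rw [map_mul, map_inv, Subtype.ext e, inv_mul_cancel])
    refine le_trans (card_le_card_of_injOn
      (t := {1, c, (κ t0 : MulAut U) c, c * (κ t0 : MulAut U) c})
      (fun t => if h : (t0 : H)⁻¹ * t ∈ F then π ⟨_, h⟩ else 1) (fun t ht => ?_)
      fun t ht t' ht' e => ?_) card_le_four
    · have ht := mem_coe.1 ht
      simp only [dif_pos (hF t ht), coe_insert, coe_singleton, Set.mem_insert_iff,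
        Set.mem_singleton_iff]
      refine xm0base_four hB (hP _ a1) a2 h1 (xm0base_norm (hU ▸ h3) ?_)
      rw [hcj, hcj, ← map_mul, ← map_mul, ← map_one π]
      congr 1
      apply Subtype.ext
      have b1 := (hX t ((mem_bipartiteBelow _).1 ht).1).1
      have b2 := (hX t0 a1).1
      change (t0 : H) * ((t0 : H)⁻¹ * t) * (t0 : H)⁻¹ *
        (t0 * (t0 * ((t0 : H)⁻¹ * t) * (t0 : H)⁻¹) * (t0 : H)⁻¹) * ((t0 : H)⁻¹ * t) = 1
      calc _ = (t : H) * t * ((t0 : H) ^ 3)⁻¹ * t := by group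
        _ = 1 := by rw [b2, inv_one, mul_one, ← pow_three', b1]
    · have ht := mem_coe.1 ht
      have ht' := mem_coe.1 ht'
      simp only [dif_pos (hF t ht), dif_pos (hF t' ht')] at e
      have b0 : (t : H)⁻¹ * t' ∈ A := by
        have := (hk (⟨_, hF t ht⟩⁻¹ * ⟨_, hF t' ht'⟩)).1
          (by rw [map_mul, map_inv, e, inv_mul_cancel])
        simpa [mul_assoc] using this
      have b1 := (hX t ((mem_bipartiteBelow _).1 ht).1).1
      have b2 := (hX t' ((mem_bipartiteBelow _).1 ht').1).1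
      have b3 : Commute (t : H) ((t : H)⁻¹ * t') := (t.2 _ b0).symm
      have b4 := b3.mul_pow 3
      rw [mul_inv_cancel_left, b1, b2, one_mul] at b4
      exact Subtype.ext (inv_mul_eq_one.1 (xm0base_one h3A b0 b4.symm))

end Pool.Agent.N9181
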