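import Pool.Agent.MP_9181f8_al.N.Basic

namespace Pool.Agent.N9181

open scoped commutatorElement

theorem xscal3_roots {H : Type} [Group H] [Finite H] (A : Subgroup H) (hc : IsCyclic A)
    (a : H) (ha : a ∈ A) (ha1 : a ≠ 1) (ha3 : a ^ 3 = 1) (x : H) (hx : x ∈ A) (hx1 : x ≠ 1)
    (hx3 : x ^ 3 = 1) : x = a ∨ x = a ^ 2 := by
  classical
  haveI : Fintype A := Fintype.ofFinite A
  by_contra hne
  push Not at hne
  obtain ⟨h1, h2⟩ := hne
  have hle := IsCyclic.card_pow_eq_one_le (α := A) (n := 3) (by norm_num)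
  have ha2 : a ^ 2 ≠ 1 := by
    intro h
    apply ha1
    have : a ^ 3 = a ^ 2 * a := pow_succ a 2
    rw [ha3, h, one_mul] at this
    exact this.symm
  have haa : a ≠ a ^ 2 := by
    intro h
    apply ha1
    have : a * 1 = a * a := by rw [mul_one, ← pow_two]; exact h
    exact (mul_left_cancel this).symm
  let s : Finset A := {1, ⟨a, ha⟩, ⟨a ^ 2, A.pow_mem ha 2⟩, ⟨x, hx⟩}
  have hs : s.card = 4 := by
    rw [Finset.card_eq_four]
    refine ⟨1, ⟨a, ha⟩, ⟨a ^ 2, A.pow_mem ha 2⟩, ⟨x, hx⟩, ?_, ?_, ?_, ?_, ?_, ?_, rfl⟩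
    · intro h; exact ha1 (congrArg Subtype.val h).symm
    · intro h; exact ha2 (congrArg Subtype.val h).symm
    · intro h; exact hx1 (congrArg Subtype.val h).symm
    · intro h; exact haa (congrArg Subtype.val h)
    · intro h; exact h1 (congrArg Subtype.val h).symm
    · intro h; exact h2 (congrArg Subtype.val h).symm
  have hsub : s ⊆ Finset.univ.filter (fun y : A => y ^ 3 = 1) := by
    intro y hy
    simp only [s, Finset.mem_insert, Finset.mem_singleton] at hy
    rw [Finset.mem_filter]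
    refine ⟨Finset.mem_univ _, ?_⟩
    rcases hy with rfl | rfl | rfl | rfl
    · exact one_pow 3
    · exact Subtype.ext ha3
    · apply Subtype.ext
      show (a ^ 2) ^ 3 = 1
      rw [← pow_mul, mul_comm, pow_mul, ha3, one_pow]
    · exact Subtype.ext hx3
  have := Finset.card_le_card hsub
  omega

theorem xscal3_conj {H : Type} [Group H] [Finite H] (A : Subgroup H) (hA : A.Normal)
    (hc : IsCyclic A) (a : H) (ha : a ∈ A) (ha1 : a ≠ 1) (ha3 : a ^ 3 = 1) (h : H) :
    h * a * h⁻¹ = a ∨ h * a * h⁻¹ = a ^ 2 := by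
  apply xscal3_roots A hc a ha ha1 ha3 _ (hA.conj_mem a ha h)
  · intro e
    apply ha1
    have : a = h⁻¹ * (h * a * h⁻¹) * h := by group
    rw [this, e]; group
  · rw [conj_pow, ha3]; group

theorem xscal3_le {V : Type} [AddCommGroup V] [Module K V] [Module.Finite K V]
    {H : Type} [Group H] (ρ : Representation K H V) (a h : H) (ha3 : a ^ 3 = 1)
    (hh : h * a * h⁻¹ = a ^ 2) (c d : K) (hcd : c * c = d) : ed (ρ a) c ≤ ed (ρ a) d := by
  have hmap : ∀ v ∈ Module.End.eigenspace (ρ a) c, ρ h v ∈ Module.End.eigenspace (ρ a) d := by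
    intro v hv
    rw [Module.End.mem_eigenspace_iff] at hv ⊢
    have e1 : a * h = h * (a * a) := by
      have e2 : h * (a * a) * h⁻¹ = (h * a * h⁻¹) * (h * a * h⁻¹) := by group
      have e3 : a ^ 2 * a ^ 2 = a ^ 3 * a := by group
      rw [hh, e3, ha3, one_mul] at e2
      have e4 : h * (a * a) * h⁻¹ * h = h * (a * a) := by group
      rw [← e4, e2]
    have : ρ a (ρ h v) = ρ (a * h) v := by rw [map_mul]; rfl
    rw [this, e1, map_mul, map_mul]
    show ρ h (ρ a (ρ a v)) = _
    rw [hv, map_smul, hv, smul_smul, map_smul, hcd]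
  have hinj : Function.Injective ((ρ h).restrict hmap) := by
    intro x y hxy
    apply Subtype.ext
    have e : ρ h x = ρ h y := congrArg Subtype.val hxy
    have k : ∀ v : V, ρ h⁻¹ (ρ h v) = v := by
      intro v
      have : ρ h⁻¹ (ρ h v) = ρ (h⁻¹ * h) v := by rw [map_mul]; rfl
      rw [this, inv_mul_cancel, map_one]; rfl
    rw [← k x, ← k y, e]
  exact LinearMap.finrank_le_finrank_of_injective hinj

theorem scal_of_three {V : Type} [AddCommGroup V] [Module K V] [Module.Finite K V]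
    {H : Type} [Group H] [Finite H] (ρ : Representation K H V) (hinj : Function.Injective ρ) (hirr : Irr ρ) (A : Subgroup H) (hA : A.Normal)
    (hc : IsCyclic A) (a : H) (ha : a ∈ A) (ha1 : a ≠ 1) (ha3 : a ^ 3 = 1) :
    Scal ρ ∨ (ed (ρ a) 3 = ed (ρ a) 9 ∧ 0 < ed (ρ a) 3 ∧
      Module.finrank K V = 2 * ed (ρ a) 3 ∧ ed (ρ a) 1 = 0 ∧
      ∀ (t : H) (b : ℕ), t ^ (3 ^ b) = 1 → t * a = a * t) := by
  have hfree := freeOn_of_irr ρ hinj hirr A hA hc
  have h1 : ed (ρ a) 1 = 0 := by
    by_contra hne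
    have hpos : 0 < edOn ⊤ (ρ a) 1 := by rw [edOn_top]; exact Nat.pos_of_ne_zero hne
    obtain ⟨w, -, hw0, hw⟩ := (edOn_pos _ _ _).1 hpos
    rw [one_smul] at hw
    exact ha1 (hfree a ha w hw0 hw)
  have hsp : Module.finrank K V = ed (ρ a) 3 + ed (ρ a) 9 := by
    have := split3 (⊤ : Submodule K V) (ρ a) (fun _ _ => Submodule.mem_top) (fun w _ => by
      rw [← map_pow, ha3, map_one]; rfl)
    rw [edOn_top, edOn_top, edOn_top, h1, finrank_top] at this
    omega
  by_cases hall : ∀ h : H, h * a * h⁻¹ = a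
  · left
    have hinv : ∀ h, ∀ v ∈ Module.End.eigenspace (ρ a) 3,
        ρ h v ∈ Module.End.eigenspace (ρ a) 3 := by
      intro h v hv
      rw [Module.End.mem_eigenspace_iff] at hv ⊢
      have e1 : a * h = h * a := by
        have := hall h
        nth_rewrite 1 [← this]
        group
      have : ρ a (ρ h v) = ρ (a * h) v := by rw [map_mul]; rfl
      rw [this, e1, map_mul]
      show ρ h (ρ a v) = _
      rw [hv, map_smul]
    rcases hirr.2 _ hinv with hb | ht
    · have e0 : ed (ρ a) 3 = 0 := by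
        unfold ed
        rw [hb, finrank_bot]
      have e9 : Module.End.eigenspace (ρ a) 9 = ⊤ := by
        apply Submodule.eq_top_of_finrank_eq
        rw [hsp, e0, zero_add]; rfl
      refine ⟨a * a, fun v => ?_⟩
      have k : ∀ v : V, ρ a v = (9 : K) • v := fun v =>
        Module.End.mem_eigenspace_iff.1 (by rw [e9]; exact Submodule.mem_top)
      rw [map_mul]
      show ρ a (ρ a v) = _
      rw [k, k, smul_smul]
      congr 1
    · refine ⟨a, fun v => ?_⟩
      exact Module.End.mem_eigenspace_iff.1 (by rw [ht]; exact Submodule.mem_top)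
  · right
    push Not at hall
    obtain ⟨h, hh⟩ := hall
    have hh2 : h * a * h⁻¹ = a ^ 2 := (xscal3_conj A hA hc a ha ha1 ha3 h).resolve_left hh
    have l1 := xscal3_le ρ a h ha3 hh2 3 9 (by decide)
    have l2 := xscal3_le ρ a h ha3 hh2 9 3 (by decide)
    have hpos : 0 < Module.finrank K V := by
      obtain ⟨v, hv⟩ := hirr.1
      haveI : Nontrivial V := ⟨⟨v, 0, hv⟩⟩
      exact Module.finrank_pos
    refine ⟨by omega, by omega, by omega, h1, fun t b ht => ?_⟩
    have hc2 : Commute (t * t) a := by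
      have e : t * t * a * (t * t)⁻¹ = a := by
        have e1 : t * t * a * (t * t)⁻¹ = t * (t * a * t⁻¹) * t⁻¹ := by group
        rcases xscal3_conj A hA hc a ha ha1 ha3 t with e2 | e2
        · rw [e1, e2, e2]
        · have e3 : t * a ^ 2 * t⁻¹ = (t * a * t⁻¹) * (t * a * t⁻¹) := by
            rw [pow_two]; group
          have e4 : a ^ 2 * a ^ 2 = a ^ 3 * a := by group
          rw [e1, e2, e3, e2, e4, ha3, one_mul]
      show t * t * a = a * (t * t)
      nth_rewrite 2 [← e]
      group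
    obtain ⟨k, hk⟩ : Odd (3 ^ b) := Odd.pow (by decide)
    have e5 : t = ((t * t) ^ k)⁻¹ := by
      rw [eq_inv_iff_mul_eq_one, ← pow_two, ← pow_mul, ← pow_succ', ← hk, ht]
    have hc3 : Commute (((t * t) ^ k)⁻¹) a := (hc2.pow_left k).inv_left
    rw [← e5] at hc3
    exact hc3

end Pool.Agent.N9181
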