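import Pool.Agent.MP_9181f8_al.N.Quad
import Pool.Agent.MP_9181f8_al.N.Scal3
import Pool.Agent.MP_9181f8_al.N.Dim
import Pool.Agent.MP_9181f8_al.N.NumA
import Pool.Agent.MP_9181f8_al.N.M0baseb

namespace Pool.Agent.N9181

open scoped commutatorElement

section

variable {V : Type} [AddCommGroup V] [Module K V]

lemma xm0base_zero {c : K} (hc : c ≠ 0) {v : V} (h : c • v = 0) : v = 0 :=
  (smul_eq_zero.1 h).resolve_left hc

lemma xm0base_neg {v : V} (h : -v = v) : v = 0 :=
  xm0base_zero (c := 2) (by decide) (by rw [two_smul]; exact neg_eq_iff_add_eq_zero.1 h)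

variable [Module.Finite K V] {H : Type} [Group H]

omit [Module.Finite K V] in
lemma xm0base_free (ρ : Representation K H V) (hinj : Function.Injective ρ) (hF : HFP ρ)
    {t : H} (h3 : t ^ 3 = 1) {v : V} (hv : v ≠ 0) (h : ρ t v = v) : t = 1 :=
  hinj ((hF t 1 v (by simpa using h3) hv h).trans (map_one ρ).symm)

lemma xm0base_ep [Finite H] (ρ : Representation K H V) (hinj : Function.Injective ρ) (hF : HFP ρ)
    (hE : HEP ρ 3) {v : V} (hv : v ≠ 0) : ∃ t : H, t ^ 3 = 1 ∧ t ≠ 1 ∧ ρ t v = (3 : K) • v := by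
  obtain ⟨t, a, h1, h2⟩ := ep3 ρ hE v
  refine ⟨t, hinj ((hF (t ^ 3) a v (by rw [← pow_mul, mul_comm, pow_mul, h1, one_pow]) hv
    ?_).trans (map_one ρ).symm), ?_, h2⟩
  · simp only [pow_three, map_mul, Module.End.mul_apply, h2, map_smul, smul_smul]
    rw [show (3 * 3 * 3 : K) = 1 by decide, one_smul]
  · rintro rfl
    rw [map_one, Module.End.one_apply] at h2
    refine hv (xm0base_zero (c := 2) (by decide) ?_)
    rw [show (2 : K) = 3 - 1 by decide, sub_smul, ← h2, one_smul, sub_self]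

lemma xm0base_pos {a : Module.End K V} {c : K} (h : 0 < ed a c) : ∃ w, w ≠ 0 ∧ a w = c • w := by
  rw [← edOn_top, edOn_pos] at h
  obtain ⟨w, -, h⟩ := h
  exact ⟨w, h⟩

lemma xm0base_half (ρ : Representation K H V) (t f w : H) (hw : t * w = f * t * f⁻¹)
    (h : ρ (w * w) = -1) : 2 * ed (ρ t) 3 ≤ Module.finrank K V := by
  have hinj : ∀ g, Function.Injective (ρ g) := fun g x y e => by
    simpa [← Module.End.mul_apply, ← map_mul] using congrArg (ρ g⁻¹) e
  have h1 := Submodule.finrank_sup_add_finrank_inf_eq (Module.End.eigenspace (ρ t) 3)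
    ((Module.End.eigenspace (ρ t) 3).map (ρ f))
  have h2 : Module.End.eigenspace (ρ t) 3 ⊓ (Module.End.eigenspace (ρ t) 3).map (ρ f) = ⊥ := by
    rw [eq_bot_iff]
    rintro _ ⟨a1, x, a2, rfl⟩
    rw [SetLike.mem_coe, Module.End.mem_eigenspace_iff] at a1 a2
    have e : ρ w (ρ f x) = ρ f x := by
      apply hinj t
      rw [a1, ← map_smul, ← a2]
      simp only [← Module.End.mul_apply, ← map_mul]
      rw [← mul_assoc, hw, inv_mul_cancel_right]
    have e2 : ρ (w * w) (ρ f x) = ρ f x := by rw [map_mul, Module.End.mul_apply, e, e]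
    rw [h] at e2
    exact xm0base_neg e2
  have h3 := (Submodule.equivMapOfInjective _ (hinj f) (Module.End.eigenspace (ρ t) 3)).finrank_eq
  have h4 := Submodule.finrank_le (Module.End.eigenspace (ρ t) 3 ⊔ (Module.End.eigenspace (ρ t) 3).map (ρ f))
  rw [h2, finrank_bot] at h1
  unfold ed
  omega

end

theorem m0base {V : Type} [AddCommGroup V] [Module K V] [Module.Finite K V]
    {H : Type} [Group H] [Finite H] (h13 : ¬ 13 ∣ Nat.card H) (ρ : Representation K H V) (hinj : Function.Injective ρ) (hirr : Irr ρ) (A F : Subgroup H) (hS : SD A F)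
    (hF : HFP ρ) (hE : HEP ρ 3) : Scal ρ := by
  classical
  have hA := freeOn_of_irr ρ hinj hirr A hS.nA hS.cyc
  by_cases h3A : 3 ∣ Nat.card A
  · obtain ⟨a, ha⟩ := exists_prime_orderOf_dvd_card' 3 h3A
    have a1 : (a : H) ≠ 1 := fun h => by
      rw [show a = 1 from Subtype.ext h, orderOf_one] at ha
      omega
    have a3 : (a : H) ^ 3 = 1 := by
      rw [← Subgroup.coe_pow, ← ha, pow_orderOf_eq_one, Subgroup.coe_one]
    rcases scal_of_three ρ hinj hirr A hS.nA hS.cyc a a.2 a1 a3 with h | ⟨e, p3, -, -, hc⟩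
    · exact h
    exfalso
    obtain ⟨x, x0, hx⟩ := xm0base_pos p3
    obtain ⟨y, y0, hy⟩ := xm0base_pos (e ▸ p3)
    have key : ∀ x y : V, ρ a x = (3 : K) • x → ρ a y = (9 : K) • y → x + y = 0 → y = 0 := by
      intro x y hx hy h
      have h1 := congrArg (ρ a) h
      rw [map_add, hx, hy, map_zero, eq_neg_of_add_eq_zero_left h] at h1
      refine xm0base_zero (c := 6) (by decide) ?_
      rw [← h1, smul_neg, show (6 : K) = 9 - 3 by decide, sub_smul]
      abel
    obtain ⟨t, t3, -, ht⟩ := xm0base_ep ρ hinj hF hE fun h => y0 (key x y hx hy h)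
    have c : Commute t a := hc t 1 (by simpa using t3)
    have cm : ∀ (v : V) (k : K), ρ a v = k • v →
        ρ a (ρ t v - (3 : K) • v) = k • (ρ t v - (3 : K) • v) := by
      intro v k hv
      rw [map_sub, map_smul, ← Module.End.mul_apply, ← map_mul, ← c.eq, map_mul,
        Module.End.mul_apply, hv, map_smul, smul_sub, smul_comm k]
    have s0 : (ρ t x - (3 : K) • x) + (ρ t y - (3 : K) • y) = 0 := by
      rw [map_add, smul_add] at ht
      rw [sub_add_sub_comm, ht, sub_self]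
    have s1 := key _ _ (cm x _ hx) (cm y _ hy) s0
    rw [s1, add_zero] at s0
    rw [sub_eq_zero] at s0 s1
    have u1 : t * a = 1 := xm0base_free ρ hinj hF (by rw [c.mul_pow, t3, a3, one_mul]) y0 (by
      rw [map_mul, Module.End.mul_apply, hy, map_smul, s1, smul_smul,
        show (9 * 3 : K) = 1 by decide, one_smul])
    have u2 := congrArg (fun g => ρ g x) u1
    simp only [map_mul, Module.End.mul_apply, hx, map_smul, s0, smul_smul, map_one,
      Module.End.one_apply] at u2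
    refine x0 (xm0base_zero (c := 8) (by decide) ?_)
    rw [show (8 : K) = 3 * 3 - 1 by decide, sub_smul, u2, one_smul, sub_self]
  exfalso
  obtain ⟨e, e0, he, hp⟩ := pd_sq A F hS.toPD
  have h3 : ¬ 3 ∣ A.relIndex F := fun h =>
    h3A (hp 3 Nat.prime_three (Nat.prime_three.dvd_of_dvd_pow (he ▸ h)))
  have hd := dim1 h13 ρ A F hS.toPD hA ⊤ (fun _ _ _ _ => trivial) e he
  rw [finrank_top] at hd
  obtain ⟨v0, hv0⟩ := hirr.1
  have hn : 0 < Module.finrank K V := Module.finrank_pos_iff_exists_ne_zero.2 ⟨v0, hv0⟩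
  have hu : A.relIndex F ≤ Module.finrank K V ^ 2 := by
    rw [he]
    exact Nat.pow_le_pow_left (Nat.le_of_dvd hn hd) 2
  have fr : ∀ t : H, t ^ 3 = 1 → t ≠ 1 → ∀ v, ρ t v = v → v = 0 := fun t t3 t1 v hv => by
    by_contra h0
    exact t1 (xm0base_free ρ hinj hF t3 h0 hv)
  have hN : ∀ (B : Subgroup H), B.Normal → ∀ t : H, t ∈ Subgroup.normalizer (B : Set H) :=
    fun B hB t => by
      rw [Subgroup.normalizer_eq_top]
      trivial
  have hC : ∀ t : H, t ^ 3 = 1 → t ≠ 1 → t ∈ Subgroup.centralizer (A : Set H) := by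
    intro t t3 t1
    by_contra h
    exact hv0 (mov ρ A hS.cyc hA t 1 (by simpa using t3) (hN A hS.nA t) h (fr t t3 t1) v0
      (by rw [t3, map_one, Module.End.one_apply]))
  have h3F : ¬ 3 ∣ Nat.card F := by
    rw [← Subgroup.card_mul_index (A.subgroupOf F),
      Nat.card_congr (Subgroup.subgroupOfEquivOfLe hS.le).toEquiv, Nat.prime_three.dvd_mul]
    exact not_or.2 ⟨h3A, h3⟩
  have hnF : ∀ t : H, t ^ 3 = 1 → t ≠ 1 → t ∉ F := fun t t3 t1 h => t1 (xm0base_one h3F h t3)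
  have hq : ∀ t : H, t ^ 3 = 1 → t ≠ 1 → ∀ f ∈ F, ⁅t⁻¹, f⁆ ∉ A →
      ⁅t⁻¹, f⁆ * ⁅t⁻¹, f⁆ ∈ A ∧ ρ (⁅t⁻¹, f⁆ * ⁅t⁻¹, f⁆) = -1 := fun t t3 t1 =>
    quad ρ hirr.1 A F hS.toPD hA t t3 (hC t t3 t1) (hN F hS.nF t) h3 (fr t t3 t1)
  have := Fintype.ofFinite (Subgroup.centralizer (A : Set H))
  let X : Finset (Subgroup.centralizer (A : Set H)) :=
    Finset.univ.filter fun t => (t : H) ^ 3 = 1 ∧ (t : H) ≠ 1
  have hX := xm0base_count A F hS h3A h3 X fun t ht => by
    obtain ⟨t3, t1⟩ := (Finset.mem_filter.1 ht).2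
    refine ⟨t3, hnF _ t3 t1, fun f hf hw => ?_⟩
    have h := hq (t : H)⁻¹ (by rw [inv_pow, t3, inv_one]) (inv_ne_one.2 t1) f hf
    rw [inv_inv] at h
    refine ⟨(h hw).1, fun h0 => hv0 (xm0base_neg ?_)⟩
    have h1 := congrArg (fun g => ρ g v0) h0
    simp only [map_pow, (h hw).2] at h1
    simpa [pow_three] using h1
  have hlt := num5 _ _ _ hn hu hX
  have := (card_sub (⊤ : Submodule K V)).1
  have := Fintype.ofFinite V
  have hV : Fintype.card V = 13 ^ Module.finrank K V := by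
    rw [Module.card_eq_pow_finrank (K := K), ZMod.card]
  have hcov : Finset.univ.erase (0 : V) ⊆ X.biUnion fun t =>
      (Finset.univ.filter fun v => v ∈ Module.End.eigenspace (ρ t) 3).erase 0 := by
    intro v hv
    have v0 := (Finset.mem_erase.1 hv).1
    obtain ⟨t, t3, t1, ht⟩ := xm0base_ep ρ hinj hF hE v0
    refine Finset.mem_biUnion.2 ⟨⟨t, hC t t3 t1⟩, Finset.mem_filter.2 ⟨Finset.mem_univ _, t3, t1⟩,
      Finset.mem_erase.2 ⟨v0, Finset.mem_filter.2 ⟨Finset.mem_univ _, ?_⟩⟩⟩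
    exact Module.End.mem_eigenspace_iff.2 ht
  have hle := (Finset.card_le_card hcov).trans (Finset.card_biUnion_le_card_mul _ _
    (13 ^ (Module.finrank K V / 2) - 1) fun t ht => ?_)
  · rw [Finset.card_erase_of_mem (Finset.mem_univ _), Finset.card_univ, hV] at hle
    omega
  obtain ⟨t3, t1⟩ := (Finset.mem_filter.1 ht).2
  obtain ⟨f, hf, hw⟩ : ∃ f ∈ F, ⁅(t : H)⁻¹, f⁆ ∉ A := by
    by_contra h
    refine hnF _ t3 t1 (inv_mem_iff.1 (hS.ff _ (inv_mem t.2) fun y hy => ?_))
    by_contra h0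
    exact h ⟨y, hy, h0⟩
  have h2 := xm0base_half ρ t f _ (by rw [commutatorElement_def]; group) (hq _ t3 t1 f hf hw).2
  rw [Finset.card_erase_of_mem (by simp), ← Fintype.card_subtype, ← Nat.card_eq_fintype_card,
    (card_sub _).2]
  exact Nat.sub_le_sub_right (Nat.pow_le_pow_right (by norm_num) (by unfold ed at h2; omega)) 1

end Pool.Agent.N9181
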