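import Pool.Agent.MP_9181f8_al.N.Defs

namespace Pool.Agent.N9181

open Finset

variable {U Z : Type} [CommGroup U] [CommGroup Z]

lemma xm0base_two [Finite Z] [IsCyclic Z] {z z' : Z} (h : z ^ 2 = 1) (h' : z' ^ 2 = 1)
    (hz : z ≠ 1) (hz' : z' ≠ 1) : z * z' = 1 := by
  classical
  have := Fintype.ofFinite Z
  have e : z = z' := by
    by_contra hne
    have h1 := IsCyclic.card_pow_eq_one_le (α := Z) (n := 2) (by norm_num)
    have h2 : ({1, z, z'} : Finset Z) ⊆ univ.filter (fun a => a ^ 2 = 1) := by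
      intro a ha
      simp only [mem_insert, mem_singleton] at ha
      rcases ha with rfl | rfl | rfl <;> simp [h, h']
    have h3 := card_le_card h2
    rw [card_eq_three.2 ⟨1, z, z', hz.symm, hz'.symm, hne, rfl⟩] at h3
    omega
  rw [← e, ← pow_two, h]

/-- isometries of order three whose moved part is anisotropic -/
structure xm0base_P (B : U →* U →* Z) (s : MulAut U) : Prop where
  iso : ∀ x y, B (s x) (s y) = B x y
  cube : ∀ x, s (s (s x)) = x
  sq : ∀ x, s x / x ≠ 1 → (s x / x) ^ 2 = 1 ∧ B (s x / x) (s (s x / x)) ≠ 1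

/-- the moved part -/
def xm0base_S (s : MulAut U) : Subgroup U where
  carrier := {c | ∃ x, s x / x = c}
  one_mem' := ⟨1, by simp⟩
  mul_mem' := by
    rintro _ _ ⟨x, rfl⟩ ⟨y, rfl⟩
    exact ⟨x * y, by rw [map_mul, mul_div_mul_comm]⟩
  inv_mem' := by
    rintro _ ⟨x, rfl⟩
    exact ⟨x⁻¹, by rw [map_inv, inv_div_inv, inv_div]⟩

lemma xm0base_map {s : MulAut U} {c : U} (hc : c ∈ xm0base_S s) : s c ∈ xm0base_S s := by
  obtain ⟨x, rfl⟩ := hc
  exact ⟨s x, by rw [map_div]⟩

variable {B : U →* U →* Z} {s s' : MulAut U}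

lemma xm0base_sq (h : xm0base_P B s) {c : U} (hc : c ∈ xm0base_S s) : c ^ 2 = 1 := by
  obtain ⟨x, rfl⟩ := hc
  by_cases h1 : s x / x = 1
  · rw [h1, one_pow]
  · exact (h.sq x h1).1

lemma xm0base_q (h : xm0base_P B s) {c : U} (hc : c ∈ xm0base_S s) (h1 : c ≠ 1) :
    B c (s c) ≠ 1 := by
  obtain ⟨x, rfl⟩ := hc
  exact (h.sq x h1).2

lemma xm0base_bsq {c : U} (hc : c ^ 2 = 1) (y : U) : B c y ^ 2 = 1 := by
  rw [← MonoidHom.pow_apply, ← map_pow, hc, map_one, MonoidHom.one_apply]

lemma xm0base_ss (h : xm0base_P B s) {c : U} (hc : c ∈ xm0base_S s) : s (s c) = c * s c := by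
  have h1 := xm0base_sq h (mul_mem hc (xm0base_map hc))
  have h2 : s (s c) * (c * s c) = 1 := by
    obtain ⟨x, rfl⟩ := hc
    simp only [map_div, h.cube]
    rw [mul_comm (s x / x), div_mul_div_cancel, div_mul_div_cancel, div_self']
  rw [pow_two] at h1
  exact mul_right_cancel (h2.trans h1.symm)

variable [Finite Z] [IsCyclic Z]

lemma xm0base_beta (h : xm0base_P B s) {c d : U} (hc : c ∈ xm0base_S s) (hd : d ∈ xm0base_S s)
    (h1 : c ≠ 1) (h2 : d ≠ 1) (h3 : c * d ≠ 1) : B c (s d) * B d (s c) ≠ 1 := by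
  have e := xm0base_two (xm0base_bsq (xm0base_sq h hc) _) (xm0base_bsq (xm0base_sq h hd) _)
    (xm0base_q h hc h1) (xm0base_q h hd h2)
  have q := xm0base_q h (mul_mem hc hd) h3
  intro hb
  apply q
  simp only [map_mul, MonoidHom.mul_apply]
  calc _ = (B c (s c) * B d (s d)) * (B c (s d) * B d (s c)) := by ac_rfl
    _ = 1 := by rw [e, hb, one_mul]

lemma xm0base_four (hB : Symp B) (h : xm0base_P B s) {c : U} (hc : c ∈ xm0base_S s) (h1 : c ≠ 1)
    {e : U} (he : e ∈ xm0base_S s) : e = 1 ∨ e = c ∨ e = s c ∨ e = c * s c := by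
  by_contra hne
  simp only [not_or] at hne
  obtain ⟨n1, n2, n3, n4⟩ := hne
  have hd := xm0base_map hc
  have key : ∀ x ∈ xm0base_S s, e ≠ x → x * e ≠ 1 := fun x hx hne h0 => by
    have h2 := xm0base_sq h hx
    rw [pow_two] at h2
    exact hne (mul_left_cancel (h0.trans h2.symm))
  have d1 : s c ≠ 1 := fun h0 => h1 (by simpa using h0)
  have d2 : c * s c ≠ 1 := fun h0 => by
    have h2 := xm0base_sq h hc
    rw [pow_two] at h2
    have h3 := xm0base_q h hc h1
    rw [mul_left_cancel (h0.trans h2.symm)] at h3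
    exact h3 (hB.1 c)
  have b1 := xm0base_beta h hc hd h1 d1 d2
  have b2 := xm0base_beta h hc he h1 n1 (key c hc n2)
  have b3 := xm0base_beta h hc (mul_mem hd he) h1 (key _ hd n3)
    (by rw [← mul_assoc]; exact key _ (mul_mem hc hd) n4)
  have sq : ∀ x ∈ xm0base_S s, (B c (s x) * B x (s c)) ^ 2 = 1 := fun x hx => by
    rw [mul_pow, xm0base_bsq (xm0base_sq h hc), xm0base_bsq (xm0base_sq h hx), one_mul]
  apply b3
  rw [← xm0base_two (sq _ hd) (sq _ he) b1 b2]
  simp only [map_mul, MonoidHom.mul_apply]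
  exact mul_mul_mul_comm _ _ _ _

omit [Finite Z] [IsCyclic Z] in
lemma xm0base_skew (hB : Symp B) (x y : U) : B x y * B y x = 1 := by
  have := hB.1 (x * y)
  simp only [map_mul, MonoidHom.mul_apply, hB.1, one_mul, mul_one] at this
  rw [mul_comm]
  exact this

lemma xm0base_uniq (hB : Symp B) (h : xm0base_P B s) (h' : xm0base_P B s') {c : U}
    (hc : c ∈ xm0base_S s) (hc' : c ∈ xm0base_S s') (h1 : c ≠ 1) (e : s c = s' c) : s = s' := by
  have e2 : s (s c) = s' (s c) := by rw [xm0base_ss h hc, e, xm0base_ss h' hc']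
  have e3 : s (s (s c)) = s' (s (s c)) := by rw [h.cube, e2, e, h'.cube]
  have q := xm0base_q h hc h1
  have q' : B (s c) c ≠ 1 := fun h0 => q (by simpa [h0] using xm0base_skew hB c (s c))
  ext x
  have hy : s x / s' x ∈ xm0base_S s := by
    have a1 : s x / x ∈ xm0base_S s := ⟨x, rfl⟩
    have a2 : s' x / x ∈ xm0base_S s := by
      rcases xm0base_four hB h' hc' h1 (e := s' x / x) ⟨x, rfl⟩ with k | k | k | k <;> rw [k]
      · exact one_mem _
      · exact hc
      · rw [← e]
        exact xm0base_map hc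
      · rw [← e]
        exact mul_mem hc (xm0base_map hc)
    simpa using div_mem a1 a2
  have b1 : B (s x / s' x) (s c) = 1 := by
    rw [map_div, MonoidHom.div_apply, h.iso, e, h'.iso, div_self']
  have b2 : B (s x / s' x) c = 1 := by
    rw [← h.cube c, map_div, MonoidHom.div_apply, h.iso, e3, h'.iso, div_self']
  rcases xm0base_four hB h hc h1 hy with k | k | k | k
  · exact div_eq_one.1 k
  · rw [k] at b1
    exact absurd b1 q
  · rw [k] at b2
    exact absurd b2 q'
  · rw [k, map_mul, MonoidHom.mul_apply, hB.1, one_mul] at b2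
    exact absurd b2 q'

lemma xm0base_pairs [Fintype U] [DecidableEq U] [DecidableEq Z] (B : U →* U →* Z) :
    2 * (univ.filter fun p : U × U => p.1 ≠ 1 ∧ p.1 ^ 2 = 1 ∧ B p.1 p.2 ≠ 1).card ≤
      Fintype.card U * (Fintype.card U - 1) := by
  have h1 : ∀ c : U, c ^ 2 = 1 → 2 * (univ.filter fun d => B c d ≠ 1).card ≤ Fintype.card U := by
    intro c hc
    rcases (univ.filter fun d => B c d ≠ 1).eq_empty_or_nonempty with h0 | ⟨d0, h0⟩
    · simp [h0]
    have h2 : (univ.filter fun d => B c d ≠ 1).card ≤ (univ.filter fun d => ¬ B c d ≠ 1).card := by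
      refine card_le_card_of_injOn (fun d => d * d0) (fun d hd => ?_)
        fun d _ d' _ e => mul_right_cancel e
      simp only [coe_filter, mem_univ, true_and, Set.mem_ofPred_eq, not_not, mem_filter] at hd h0 ⊢
      rw [map_mul]
      exact xm0base_two (xm0base_bsq hc _) (xm0base_bsq hc _) hd h0
    have h3 := card_filter_add_card_filter_not (s := (univ : Finset U)) fun d => B c d ≠ 1
    rw [card_univ] at h3
    omega
  rw [card_eq_sum_card_fiberwise (f := Prod.fst) (t := univ.erase 1)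
    (fun p hp => by simpa using (mem_filter.1 (mem_coe.1 hp)).2.1), mul_sum, mul_comm,
    ← card_univ, ← card_erase_of_mem (mem_univ (1 : U)), card_univ, ← smul_eq_mul]
  refine sum_le_card_nsmul _ _ _ fun c _ => ?_
  by_cases hc : c ^ 2 = 1
  · refine le_trans (Nat.mul_le_mul_left 2 ?_) (h1 c hc)
    refine card_le_card_of_injOn Prod.snd (fun p hp => ?_) fun p hp p' hp' e => ?_
    · simp only [coe_filter, mem_filter, mem_univ, true_and, Set.mem_ofPred_eq] at hp ⊢
      rw [← hp.2]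
      exact hp.1.2.2
    · exact Prod.ext ((mem_filter.1 (mem_coe.1 hp)).2.trans
        (mem_filter.1 (mem_coe.1 hp')).2.symm) e
  · rw [card_eq_zero.2]
    · simp
    · refine filter_eq_empty_iff.2 fun p hp e => hc ?_
      rw [← e]
      exact (mem_filter.1 hp).2.2.1

omit [Finite Z] [IsCyclic Z] in
lemma xm0base_norm [Finite U] (h3 : ¬ 3 ∣ Nat.card U) {x : U} (hx : s x * s (s x) * x = 1) :
    x ∈ xm0base_S s := by
  have a1 : s x / x ∈ xm0base_S s := ⟨x, rfl⟩
  have a2 : s (s x) / s x ∈ xm0base_S s := ⟨s x, rfl⟩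
  have a3 : x ^ 3 ∈ xm0base_S s := by
    have e : x ^ 3 * ((s x / x) * (s (s x) / s x * (s x / x))) = s x * s (s x) * x := by
      rw [div_mul_div_cancel, div_eq_mul_inv, div_eq_mul_inv, pow_three']
      calc _ = (s x * s (s x) * x) * ((x * x⁻¹) * (x * x⁻¹)) := by ac_rfl
        _ = _ := by simp
    rw [eq_inv_of_mul_eq_one_left (e.trans hx)]
    exact inv_mem (mul_mem a1 (mul_mem a2 a1))
  have hc : (Nat.card U).Coprime 3 :=
    ((Nat.Prime.coprime_iff_not_dvd Nat.prime_three).2 h3).symm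
  obtain ⟨k, hk⟩ := exists_pow_eq_self_of_coprime (x := x)
    (Nat.Coprime.coprime_dvd_right (orderOf_dvd_natCard x) hc.symm)
  rw [← hk]
  exact pow_mem a3 k

end Pool.Agent.N9181
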