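import Pool.Agent.MP_9181f8_al.N.PS
import Pool.Agent.MP_9181f8_al.N.EmbB

namespace Pool.Agent.N9181

open scoped commutatorElement

theorem xmoda_one {M : Type} [Monoid M] (x : M) (a n : ℕ) (hn : ¬ 13 ∣ n)
    (h1 : x ^ (13 ^ a) = 1) (h2 : x ^ n = 1) : x = 1 := by
  have hc : (13 ^ a).Coprime n :=
    Nat.Coprime.pow_left a ((Nat.Prime.coprime_iff_not_dvd (by norm_num)).mpr hn)
  have h : x ^ (13 ^ a).gcd n = 1 := pow_gcd_eq_one.mpr ⟨h1, h2⟩
  rwa [hc.gcd_eq_one, pow_one] at h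

theorem xmoda_pel {D : Type} [Group D] [Finite D]
    (h : ∀ d : D, ∃ k : ℕ, d ^ (13 ^ k) ∈ Subgroup.center D) (x y : D)
    (hx : ∃ a : ℕ, x ^ (13 ^ a) = 1) (hy : ∃ a : ℕ, y ^ (13 ^ a) = 1) :
    ∃ a : ℕ, (x * y) ^ (13 ^ a) = 1 := by
  have hp : IsPGroup 13 (D ⧸ Subgroup.center D) := by
    intro q
    obtain ⟨d, rfl⟩ := QuotientGroup.mk_surjective q
    obtain ⟨k, hk⟩ := h d
    exact ⟨k, by rw [← QuotientGroup.mk_pow, QuotientGroup.eq_one_iff]; exact hk⟩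
  obtain ⟨k, hk⟩ := IsPGroup.iff_card.mp hp
  have hi : (Subgroup.center D).index = 13 ^ k := hk
  obtain ⟨a, ha⟩ := hx
  obtain ⟨b, hb⟩ := hy
  set f := MonoidHom.transferCenterPow D with hf
  have h1 : (f x) ^ (13 ^ (a + b)) = 1 := by
    rw [← map_pow, pow_add, pow_mul, ha, one_pow, map_one]
  have h2 : (f y) ^ (13 ^ (a + b)) = 1 := by
    rw [← map_pow, add_comm, pow_add, pow_mul, hb, one_pow, map_one]
  have hcomm : Commute (f x) (f y) :=
    Subtype.ext (Subgroup.mem_center_iff.mp (f y).2 (f x))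
  have h3 : (f (x * y)) ^ (13 ^ (a + b)) = 1 := by
    rw [map_mul, hcomm.mul_pow, h1, h2, one_mul]
  refine ⟨k + (a + b), ?_⟩
  have h4 := congrArg Subtype.val h3
  rw [Subgroup.coe_pow, hf, MonoidHom.transferCenterPow_apply, hi, ← pow_mul, ← pow_add] at h4
  exact h4

theorem xmoda_fix {V : Type} [AddCommGroup V] [Module K V] {H : Type} [Group H]
    (ρ : Representation K H V) (hirr : Irr ρ) (N : Subgroup H) (hN : N.Normal) (v : V)
    (hv : v ≠ 0) (hfix : ∀ s ∈ N, ρ s v = v) : ∀ s ∈ N, ρ s = 1 := by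
  let W : Submodule K V :=
    { carrier := {w | ∀ s ∈ N, ρ s w = w}
      add_mem' := fun {x y} hx hy s hs => by rw [map_add, hx s hs, hy s hs]
      zero_mem' := fun s _ => map_zero _
      smul_mem' := fun c x hx s hs => by rw [map_smul, hx s hs] }
  have hW : ∀ h, ∀ w ∈ W, ρ h w ∈ W := by
    intro h w hw s hs
    have h1 := hw _ (hN.conj_mem' s hs h)
    calc ρ s (ρ h w) = ρ h (ρ (h⁻¹ * s * h) w) := by
          rw [← Module.End.mul_apply, ← Module.End.mul_apply, ← map_mul, ← map_mul]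
          congr 2
          group
      _ = ρ h w := by rw [h1]
  rcases hirr.2 W hW with h | h
  · have : v ∈ W := hfix
    rw [h] at this
    exact absurd ((Submodule.mem_bot K).mp this) hv
  · intro s hs
    ext w
    have : w ∈ W := by rw [h]; exact Submodule.mem_top
    exact this s hs

theorem xmoda_claim {V : Type} [AddCommGroup V] [Module K V] [Module.Finite K V]
    {H : Type} [Group H] [Finite H] (ρ : Representation K H V) (hirr : Irr ρ)
    (R Q : Subgroup H) (hR : R.Normal) (hQ : Q.Normal)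
    (hpw : ∀ k ∈ Q, ∃ a : ℕ, k ^ (13 ^ a) ∈ R) (u : H) (huQ : u ∈ Q) (a : ℕ)
    (hu : u ^ (13 ^ a) = 1) (hcomm : ∀ r ∈ R, u * r = r * u) : ρ u = 1 := by
  set D : Subgroup H := Q ⊓ Subgroup.centralizer (R : Set H) with hD
  have hDn : D.Normal := inferInstance
  have hcen : ∀ d : D, ∃ k : ℕ, d ^ (13 ^ k) ∈ Subgroup.center D := by
    intro d
    obtain ⟨k, hk⟩ := hpw d d.2.1
    refine ⟨k, Subgroup.mem_center_iff.mpr fun e => Subtype.ext ?_⟩
    have := (Subgroup.mem_centralizer_iff.mp e.2.2) _ hk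
    simpa using this.symm
  let O : Subgroup H :=
    { carrier := {d | d ∈ D ∧ ∃ b : ℕ, d ^ (13 ^ b) = 1}
      one_mem' := ⟨D.one_mem, 0, one_pow _⟩
      mul_mem' := fun {x y} hx hy => by
        refine ⟨D.mul_mem hx.1 hy.1, ?_⟩
        obtain ⟨b, hb⟩ := xmoda_pel hcen ⟨x, hx.1⟩ ⟨y, hy.1⟩
          (hx.2.imp fun b hb => Subtype.ext hb) (hy.2.imp fun b hb => Subtype.ext hb)
        exact ⟨b, congrArg Subtype.val hb⟩
      inv_mem' := fun {x} hx => ⟨D.inv_mem hx.1, hx.2.imp fun b hb => by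
        rw [inv_pow, hb, inv_one]⟩ }
  have hOn : O.Normal := ⟨fun x hx g => ⟨hDn.conj_mem x hx.1 g, hx.2.imp fun b hb => by
    rw [conj_pow, hb, mul_one, mul_inv_cancel]⟩⟩
  have hOp : IsPGroup 13 O := fun x => x.2.2.imp fun b hb => Subtype.ext hb
  obtain ⟨v, hv, hfix⟩ := fix_of_pgroup ρ O hOp hirr.1
  refine xmoda_fix ρ hirr O hOn v hv hfix u ⟨⟨huQ, ?_⟩, a, hu⟩
  exact Subgroup.mem_centralizer_iff.mpr fun r hr => (hcomm r hr).symm

theorem quad_ne {V : Type} [AddCommGroup V] [Module K V] [Module.Finite K V]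
    {G : Type} [Group G] [Finite G] (ρ : Representation K G V) (ι : V → G) (hι : Emb ρ ι) (hirr : Irr ρ) (B R Q : Subgroup G) (hB : ∀ g, g ∈ B ↔ ∃ v, ι v = g)
    (z : G) (hD : GD B R Q z) (u : G) (huQ : u ∈ Q) (a : ℕ) (hu : u ^ (13 ^ a) = 1)
    (hne : ρ u ≠ 1) : (ρ u - 1) ^ 2 ≠ 0 ∧ ∀ v, (∀ r ∈ R, ρ r v = v) → v = 0 := by
  obtain ⟨H', _, _, π, ρ', hsurj, hinj, hρ, -, -⟩ := exists_faithful ρ
  have hirr' : Irr ρ' := ⟨hirr.1, fun W hW => hirr.2 W fun h v hv => by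
    rw [← hρ]; exact hW _ v hv⟩
  have hRn : (R.map π).Normal := hD.nR.map π hsurj
  have hQn : (Q.map π).Normal := hD.nQ.map π hsurj
  have hker : ∀ g, ρ g = 1 → π g = 1 := fun g hg => hinj (by rw [hρ, hg, map_one])
  have hBk : B ≤ π.ker := by
    intro g hg
    obtain ⟨v, rfl⟩ := (hB g).mp hg
    exact hker _ ((emb_basic ρ ι hι).2.2.2 v)
  have hcard : ¬ 13 ∣ Nat.card (R.map π) := by
    rw [← Subgroup.relIndex_ker]
    exact fun h => hD.cop (h.trans (Subgroup.relIndex_dvd_of_le_left R hBk))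
  have hclaim : ¬ ∀ r ∈ R.map π, π u * r = r * π u := by
    intro hcomm
    apply hne
    rw [← hρ]
    refine xmoda_claim ρ' hirr' (R.map π) (Q.map π) hRn hQn ?_ (π u) ⟨u, huQ, rfl⟩ a
      (by rw [← map_pow, hu, map_one]) hcomm
    rintro _ ⟨k, hk, rfl⟩
    obtain ⟨b, hb⟩ := hD.pw k hk
    exact ⟨b, k ^ (13 ^ b), hb, map_pow π k _⟩
  refine ⟨fun h => hclaim (pstab ρ' hinj _ hRn hcard (π u) (by rw [hρ]; exact h)), ?_⟩
  intro v hv
  by_contra hv0
  apply hclaim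
  rintro _ ⟨r, hr, rfl⟩
  rw [hker r (xmoda_fix ρ hirr R hD.nR v hv0 hv r hr), mul_one, one_mul]

theorem exists_top {V : Type} [AddCommGroup V] [Module K V] [Module.Finite K V]
    {G : Type} [Group G] [Finite G] (ρ : Representation K G V) (ι : V → G) (hι : Emb ρ ι) (B R Q : Subgroup G) (hB : ∀ g, g ∈ B ↔ ∃ v, ι v = g)
    (z : G) (hD : GD B R Q z) (u : G) (a : ℕ) (hu : u ^ (13 ^ a) = 1) (hne : ρ u ≠ 1) :
    u ∈ Q ∧ ∃ M : Subgroup G, M.Normal ∧ R ≤ M ∧ M ≤ Q ∧ M ≠ Q ∧ (∀ q ∈ Q, ρ q = 1 → q ∈ M) ∧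
      ∀ M' : Subgroup G, M'.Normal → M ≤ M' → M' ≤ Q → M' = M ∨ M' = Q := by
  have hQn := hD.nQ
  have hRn := hD.nR
  have huQ : u ∈ Q := by
    rw [← QuotientGroup.eq_one_iff]
    refine xmoda_one _ a Q.index hD.idx ?_ ?_
    · rw [← QuotientGroup.mk_pow, hu, QuotientGroup.mk_one]
    · rw [← QuotientGroup.mk_pow, QuotientGroup.eq_one_iff]
      exact Q.pow_index_mem u
  refine ⟨huQ, ?_⟩
  let f : G →* Module.End K V := ρ
  have hBk : B ≤ f.ker := by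
    intro g hg
    obtain ⟨v, rfl⟩ := (hB g).mp hg
    exact (emb_basic ρ ι hι).2.2.2 v
  have hcop : ¬ 13 ∣ f.ker.relIndex R :=
    fun h => hD.cop (h.trans (Subgroup.relIndex_dvd_of_le_left R hBk))
  set M0 : Subgroup G := (Q ⊓ f.ker) ⊔ R with hM0
  have hM0n : M0.Normal := inferInstance
  have hM0Q : M0 ≤ Q := sup_le inf_le_left hD.le2
  have huM : u ∉ M0 := by
    intro h
    obtain ⟨k, hk, r, hr, rfl⟩ := Subgroup.mem_sup_of_normal_right.mp h
    have hk1 : f k = 1 := hk.2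
    apply hne
    have e : ρ (k * r) = f r := by
      show f (k * r) = f r
      rw [map_mul, hk1, one_mul]
    refine xmoda_one _ a _ hcop (by rw [← map_pow, hu, map_one]) ?_
    rw [e, ← map_pow]
    exact f.ker.pow_relIndex_mem hr
  obtain ⟨M, hle, hM, hmax⟩ :=
    (Set.toFinite {M : Subgroup G | M.Normal ∧ M ≤ Q ∧ M ≠ Q}).exists_le_maximal
      (a := M0) ⟨hM0n, hM0Q, fun h => huM (h ▸ huQ)⟩
  refine ⟨M, hM.1, le_sup_right.trans hle, hM.2.1, hM.2.2, ?_, ?_⟩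
  · intro q hq h1
    exact hle (Subgroup.mem_sup_left ⟨hq, h1⟩)
  · intro M' hn h1 h2
    by_cases h : M' = Q
    · exact Or.inr h
    · exact Or.inl (le_antisymm (hmax ⟨hn, h2, h⟩ h1) h1)

end Pool.Agent.N9181
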