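import Pool.Agent.MP_9181f8_al.N.BtBasic
import Pool.Agent.MP_9181f8_al.Defs

namespace Pool.Agent.N9181

open scoped commutatorElement

theorem xpbasic_order {G : Type} [Group G] {a b : G} (h : IsConj a b) : orderOf a = orderOf b := by
  obtain ⟨c, hc⟩ := h
  exact SemiconjBy.orderOf_eq (c : G) hc

theorem xpbasic_mm {G : Type} [Group G] [Finite G] (N m : ℕ) (hP : PP G N m) (x : G) :
    IsConj x (x ^ (m * m)) := by
  obtain ⟨⟨hc, -, hm⟩, h⟩ := hP
  rcases h x (m * m) (Nat.Coprime.mul_left hm hm) with a | a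
  · exact a
  · obtain ⟨k, hk⟩ := exists_pow_eq_self_of_coprime (x := x)
      (hm.coprime_dvd_right ((orderOf_dvd_natCard x).trans hc))
    have b := a.pow k
    have e : (x ^ (m * m)) ^ k = x ^ m := by
      rw [pow_mul, ← pow_mul _ m k, mul_comm m k, pow_mul _ k m, hk]
    rw [hk, e] at b
    exact b.trans a

theorem pp_of_usr {G : Type} [Group G] [Finite G] (h : Pool.Agent.MP_9181f8_al.IsUSR G) :
    ∃ m : ℕ, PP G (Nat.card G) m := by
  obtain ⟨m, hm⟩ := h
  have hN : 0 < Nat.card G := Nat.card_pos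
  obtain ⟨m0, hm0⟩ : ∃ m0 : ℕ, ∀ x : G, x ^ m = x ^ m0 := by
    refine ⟨(m % Nat.card G).toNat, fun x => ?_⟩
    rw [← zpow_natCast, Int.toNat_of_nonneg (Int.emod_nonneg _ (by exact_mod_cast hN.ne')),
      zpow_mod_natCard]
  let s := (Nat.card G).divisors.filter fun d => m0.Coprime d
  have hr : s.lcm id ∣ Nat.card G :=
    Finset.lcm_dvd fun d hd => Nat.dvd_of_mem_divisors (Finset.mem_filter.1 hd).1
  have hc : m0.Coprime (s.lcm id) :=
    (Nat.Coprime.prod_right fun d hd => (Finset.mem_filter.1 hd).2).coprime_dvd_right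
      (Finset.lcm_dvd_prod s id)
  obtain ⟨k, hk, hkm⟩ := exists_j _ _ m0 hr hN hc
  refine ⟨k, ⟨dvd_rfl, hN, hk⟩, fun x j hj => ?_⟩
  have hjx : j.Coprime (orderOf x) := hj.coprime_dvd_right (orderOf_dvd_natCard x)
  rcases hm x j (by simpa using hjx) with a | a
  · left
    rw [zpow_natCast] at a
    exact a.symm
  · right
    rw [zpow_natCast, hm0] at a
    have b := xpbasic_order a
    rw [hjx.symm.orderOf_pow, orderOf_pow, eq_comm, Nat.div_eq_self] at b
    have hx : m0.Coprime (orderOf x) := Nat.Coprime.symm (b.resolve_left (orderOf_pos x).ne')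
    have hd : orderOf x ∣ s.lcm id := Finset.dvd_lcm (f := id) (Finset.mem_filter.2
      ⟨Nat.mem_divisors.2 ⟨orderOf_dvd_natCard x, hN.ne'⟩, hx⟩)
    rw [pow_eq_pow_iff_modEq.2 (hkm.of_dvd hd)]
    exact a.symm

theorem pp_surj {G : Type} [Group G] [Finite G] {G' : Type} [Group G'] (f : G →* G')
    (hf : Function.Surjective f) (N m : ℕ) (hP : PP G N m) : PP G' N m := by
  obtain ⟨⟨hc, hN, hm⟩, h⟩ := hP
  refine ⟨⟨(Subgroup.card_dvd_of_surjective f hf).trans hc, hN, hm⟩, fun y j hj => ?_⟩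
  obtain ⟨x, rfl⟩ := hf y
  rw [← map_pow, ← map_pow]
  exact (h x j hj).imp f.map_isConj f.map_isConj

theorem pp_sq {G : Type} [Group G] [Finite G] (N m : ℕ) (hP : PP G N m) (x : G) (j : ℕ) (hj : j.Coprime N) :
    IsConj x (x ^ (j * j)) := by
  rcases hP.2 x j hj with a | a
  · have b := a.pow j
    rw [← pow_mul] at b
    exact a.trans b
  · have b := a.pow j
    have c := a.pow m
    rw [← pow_mul, ← pow_mul] at b c
    rw [mul_comm j m] at c
    exact (xpbasic_mm N m hP x).trans (c.trans b)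

theorem pp_U {V : Type} [AddCommGroup V] [Module K V] [Module.Finite K V]
    {G : Type} [Group G] [Finite G] (ρ : Representation K G V) (N m : ℕ) (hP : PP G N m) : HU ρ N m := by
  intro h j hj M
  rcases hP.2 h j hj with a | a
  · have b := a.pow m
    rw [← pow_mul] at b
    rw [← bt_isConj ρ _ _ a, ← bt_isConj ρ _ _ b]
  · have b := a.pow m
    rw [← pow_mul, ← pow_mul] at b
    rw [← bt_isConj ρ _ _ a, ← bt_isConj ρ _ _ ((xpbasic_mm N m hP h).trans b), add_comm]

theorem pp_rat {G : Type} [Group G] [Finite G] (N m : ℕ) (hP : PP G N m) (x : G) (h : IsConj x (x ^ m)) (j : ℕ)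
    (hj : j.Coprime N) : IsConj x (x ^ j) :=
  (hP.2 x j hj).elim id h.trans

end Pool.Agent.N9181
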