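import Pool.Agent.MP_9181f8_al.N.BaseCh

namespace Pool.Agent.N9181

open scoped commutatorElement

section ring

open Polynomial

variable {L S : Type} [Field L] [Ring S] [Algebra L S]

theorem xps_sq {x : S} {P Q : L[X]} (hP : P.Separable) (h : aeval x P = 0)
    (hQ : IsNilpotent (aeval x Q)) : aeval x Q = 0 := by
  obtain ⟨k, hk⟩ := hQ
  have h1 := (hP.squarefree.squarefree_of_dvd (minpoly.dvd L x h)).isRadical k Q
    (minpoly.dvd L x (by rw [map_pow, hk]))
  exact aeval_eq_zero_of_dvd_aeval_eq_zero h1 (minpoly.aeval L x)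

theorem xps_pw {a : S} (h : a ^ 2 = 0) (n : ℕ) : (1 + a) ^ n = 1 + n • a := by
  induction n with
  | zero => simp
  | succ n ih =>
    rw [pow_succ, ih, succ_nsmul, mul_add, mul_one, add_mul, one_mul, smul_mul_assoc, ← sq, h,
      smul_zero, add_zero, add_assoc]

theorem xps_inv {a b : S} (ha : a ^ 2 = 0) (hb : b ^ 2 = 0) :
    ((1 + a) * (1 + b)) ^ 2 - (1 + a) * (1 + b) * (2 + (a * b + b * a)) + 1 = 0 := by
  have h1 : (1 + a) * (1 + b) * ((1 - b) * (1 - a)) = 1 := by
    have h2 : (1 + a) * (1 + b) * ((1 - b) * (1 - a)) =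
      1 - a ^ 2 - (1 + a) * b ^ 2 * (1 - a) := by noncomm_ring
    rw [h2, ha, hb, mul_zero, zero_mul, sub_zero, sub_zero]
  have h2 : 2 + (a * b + b * a) = (1 + a) * (1 + b) + (1 - b) * (1 - a) := by
    rw [← one_add_one_eq_two]
    noncomm_ring
  rw [h2, mul_add ((1 + a) * (1 + b)), h1, sq]
  abel

theorem xps_quad [CharP L 13] {a b : S} {μ : L} (ha : a ^ 2 = 0) (hb : b ^ 2 = 0)
    (hc : a * b + b * a = algebraMap L S μ) (h0 : μ ≠ 0) (h4 : μ + 4 ≠ 0) {N : ℕ} (hN : N ≠ 0)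
    (h1 : ((1 + a) * (1 + b)) ^ N = 1) : ∃ n, ¬ 13 ∣ n ∧ ((1 + a) * (1 + b)) ^ n = 1 := by
  obtain ⟨e, n, hn, rfl⟩ := Nat.exists_eq_pow_mul_and_not_dvd hN 13 (by norm_num)
  refine ⟨n, hn, sub_eq_zero.1 ?_⟩
  have h2 := xps_inv ha hb
  rw [hc] at h2
  generalize (1 + a) * (1 + b) = x at h1 h2 ⊢
  have hP : (X ^ 2 - X * C (2 + μ) + 1 : L[X]).Separable := by
    refine ⟨C (μ * (μ + 4))⁻¹ * (-4), C (μ * (μ + 4))⁻¹ * (2 * X - C (2 + μ)), ?_⟩
    have h3 : C (μ * (μ + 4))⁻¹ * C (μ * (μ + 4)) = (1 : L[X]) := by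
      rw [← C_mul, inv_mul_cancel₀ (mul_ne_zero h0 h4), C_1]
    simp only [derivative_sub, derivative_mul, derivative_X_pow, derivative_X, derivative_ofNat,
      derivative_C, derivative_one, map_add, map_mul, map_ofNat, Nat.cast_ofNat] at h3 ⊢
    linear_combination h3
  have h3 := xps_sq (x := x) (Q := X ^ n - 1) hP (by simpa [map_ofNat] using h2) ⟨13 ^ e, by
    rw [← map_pow, sub_pow_char_pow, ← pow_mul, mul_comm n, one_pow, map_sub, map_pow, aeval_X,
      h1, map_one, sub_self]⟩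
  simpa using h3

theorem xps_grp {G : Type} [Group G] (f : G →* S) {u g : G} {k m : ℕ} (hk : ¬ 13 ∣ k)
    (hm : ¬ 13 ∣ m) (h : ((u ^ k)⁻¹ * g) ^ m = 1) (hg : f g = 1) (hu : f u ^ 13 = 1) :
    f u = 1 := by
  have h1 := congrArg f h
  rw [map_pow, map_mul, hg, mul_one, ← map_pow, inv_pow, ← pow_mul, map_one] at h1
  have h2 : f u ^ (k * m) = 1 := by
    have h3 := map_mul f (u ^ (k * m)) (u ^ (k * m))⁻¹
    rw [h1, mul_inv_cancel, map_one, mul_one, map_pow] at h3
    exact h3.symm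
  have h3 := pow_gcd_eq_one.2 ⟨hu, h2⟩
  rwa [(fact13.out.coprime_iff_not_dvd.2 (fact13.out.not_dvd_mul hk hm)).gcd_eq_one,
    pow_one] at h3

theorem xps_core [CharP L 13] {G : Type} [Group G] [Finite G] (f : G →* S) {u u' : G} {m : ℕ}
    (hm : ¬ 13 ∣ m) (hR : ∀ i n : ℕ, ((u ^ ((i + 1) * n))⁻¹ * (u ^ i * u') ^ n) ^ m = 1)
    {a b : S} (hu : f u = 1 + a) (hu' : f u' = 1 + b) (ha : a ^ 2 = 0) (hb : b ^ 2 = 0) {μ : L}
    (hc : a * b + b * a = algebraMap L S μ) (h0 : μ ≠ 0) : a = 0 := by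
  have h13 : f u ^ 13 = 1 := by
    rw [hu, xps_pw ha, ← Nat.cast_smul_eq_nsmul L, CharP.cast_eq_zero, zero_smul, add_zero]
  have key : ∀ i : ℕ, ¬ 13 ∣ i + 1 → i • μ ≠ 0 → i • μ + 4 ≠ 0 → a = 0 := by
    intro i h1 h2 h3
    have e : f (u ^ i * u') = (1 + i • a) * (1 + b) := by rw [map_mul, map_pow, hu, hu', xps_pw ha]
    obtain ⟨n, hn, h4⟩ := xps_quad (a := i • a) (by rw [_root_.smul_pow, ha, smul_zero]) hb
      (by rw [smul_mul_assoc, mul_smul_comm, ← smul_add, hc, map_nsmul]) h2 h3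
      (Nat.card_pos (α := G)).ne' (by rw [← e, ← map_pow, pow_card_eq_one', map_one])
    have h5 := xps_grp f (fact13.out.not_dvd_mul h1 hn) hm (hR i n) (by rw [map_pow, e, h4]) h13
    rwa [hu, add_eq_left] at h5
  have h2 : (2 : L) ≠ 0 := fun h => by
    have := (CharP.cast_eq_zero_iff L 13 2).1 h
    omega
  by_cases h4 : μ + 4 = 0
  · refine key 2 (by norm_num) (by simpa using ⟨h2, h0⟩) fun h => mul_ne_zero h2 h2 ?_
    rw [nsmul_eq_mul, Nat.cast_ofNat] at h
    linear_combination 2 * h4 - h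
  · exact key 1 (by norm_num) (by rwa [one_nsmul]) (by rwa [one_nsmul])

end ring

theorem xps_nil {L M : Type} [Field L] [IsAlgClosed L] [AddCommGroup M] [Module L M]
    [Module.Finite L M] {c : Module.End L M} (h : ∀ μ, c.HasEigenvalue μ → μ = 0) :
    IsNilpotent c := by
  have h1 := (IsAlgClosed.splits (minpoly L c)).eq_prod_roots_of_monic
    (minpoly.monic (Algebra.IsIntegral.isIntegral c))
  rw [Multiset.eq_replicate_card.2 fun μ hμ =>
    h μ (Module.End.hasEigenvalue_of_isRoot (Polynomial.isRoot_of_mem_roots hμ))] at h1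
  have h2 := minpoly.aeval L c
  rw [h1] at h2
  exact ⟨_, by simpa using h2⟩

theorem xps_main {L M : Type} [Field L] [IsAlgClosed L] [CharP L 13] [AddCommGroup M] [Module L M]
    [Module.Finite L M] {H : Type} [Group H] [Finite H] (τ : H →* Module.End L M)
    (hinj : Function.Injective τ) (R : Subgroup H) (hR : R.Normal) (hc : ¬ 13 ∣ Nat.card R) (u : H)
    (hu : (τ u - 1) ^ 2 = 0) : ∀ r ∈ R, u * r = r * u := by
  intro r hr
  have hcard : ∀ x ∈ R, x ^ Nat.card R = 1 := fun x hx =>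
    congrArg Subtype.val (pow_card_eq_one' (x := (⟨x, hx⟩ : R)))
  obtain ⟨a, ha⟩ : ∃ a, τ u = 1 + a := ⟨τ u - 1, by abel⟩
  rw [ha, add_sub_cancel_left] at hu
  obtain ⟨u', hu'⟩ : ∃ u', u' = r * u * r⁻¹ := ⟨_, rfl⟩
  have e1 : τ r * τ r⁻¹ = 1 := by rw [← map_mul, mul_inv_cancel, map_one]
  have e2 : τ r⁻¹ * τ r = 1 := by rw [← map_mul, inv_mul_cancel, map_one]
  obtain ⟨b, hb, hb2⟩ : ∃ b, τ u' = 1 + b ∧ b ^ 2 = 0 := by
    refine ⟨τ r * a * τ r⁻¹, by rw [hu', map_mul, map_mul, ha, mul_add, add_mul, mul_one, e1], ?_⟩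
    have : (τ r * a * τ r⁻¹) ^ 2 = τ r * (a * (τ r⁻¹ * τ r) * a) * τ r⁻¹ := by noncomm_ring
    rw [this, e2, mul_one, ← sq, hu, mul_zero, zero_mul]
  have hq : (QuotientGroup.mk' R) u' = QuotientGroup.mk' R u := by
    have : QuotientGroup.mk' R r = 1 := (QuotientGroup.eq_one_iff r).2 hr
    rw [hu', map_mul, map_mul, map_inv, this, one_mul, inv_one, mul_one]
  have ca : ∀ a b : Module.End L M, a ^ 2 = 0 → Commute (a * b + b * a) a := fun a b h => by
    have : (a * b + b * a) * a - a * (a * b + b * a) = b * a ^ 2 - a ^ 2 * b := by noncomm_ring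
    rw [h, mul_zero, zero_mul, sub_zero] at this
    exact sub_eq_zero.1 this
  have c1 := ca a b hu
  have c2 := ca b a hb2
  rw [add_comm] at c2
  have hn : IsNilpotent (a * b + b * a) := by
    refine xps_nil fun μ hμ => by_contra fun h0 => ?_
    generalize hcc : a * b + b * a = c at c1 c2 hμ
    let N : Subgroup H :=
      { carrier := {h | Commute c (τ h)}
        one_mem' := by simp
        mul_mem' := fun {x y} hx hy => by simpa using Commute.mul_right hx hy
        inv_mem' := fun {x} hx => Commute.units_inv_right (u := τ.toHomUnits x) hx }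
    obtain ⟨ψ, hψ⟩ : ∃ ψ : ∀ e, Commute c e → Module.End L (c.eigenspace μ),
        ∀ e he v, (ψ e he v : M) = e v :=
      ⟨fun e he => e.restrict (Module.End.mapsTo_genEigenspace_of_comm he μ 1), fun _ _ _ => rfl⟩
    let f : N →* Module.End L (c.eigenspace μ) :=
      { toFun := fun h => ψ _ h.2
        map_one' := by ext v; simp [hψ]
        map_mul' := fun x y => by ext v; simp [hψ] }
    have m1 : u ∈ N := show Commute c (τ u) from ha ▸ (Commute.one_right c).add_right c1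
    have m2 : u' ∈ N := show Commute c (τ u') from hb ▸ (Commute.one_right c).add_right c2
    have h1 : ψ a c1 * ψ b c2 + ψ b c2 * ψ a c1 = algebraMap L _ μ := by
      ext v
      simpa [hψ] using (LinearMap.congr_fun hcc v).trans (Module.End.mem_eigenspace_iff.1 v.2)
    have h2 := xps_core f (u := ⟨u, m1⟩) (u' := ⟨u', m2⟩) hc (fun i n => Subtype.ext (hcard _ ?_))
      (a := ψ a c1) (b := ψ b c2) (by ext v; simp [f, hψ, ha]) (by ext v; simp [f, hψ, hb])
      (by ext v; simpa [hψ, sq] using LinearMap.congr_fun hu v)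
      (by ext v; simpa [hψ, sq] using LinearMap.congr_fun hb2 v) h1 h0
    · obtain ⟨v, hv, hv0⟩ := hμ.exists_hasEigenvector
      rw [h2, mul_zero, zero_mul, add_zero] at h1
      have h3 : (0 : M) = μ • v := congrArg Subtype.val (LinearMap.congr_fun h1 ⟨v, hv⟩)
      exact smul_ne_zero h0 hv0 h3.symm
    · refine QuotientGroup.eq.1 (?_ : QuotientGroup.mk' R (u ^ ((i + 1) * n)) =
        QuotientGroup.mk' R ((u ^ i * u') ^ n))
      rw [map_pow, map_pow, map_mul, map_pow, hq, pow_mul, pow_succ]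
  have e3 : τ u'⁻¹ = 1 + -b := by
    have : (1 + b) * (1 + -b) = 1 - b ^ 2 := by noncomm_ring
    rw [hb2, sub_zero, ← hb] at this
    have h3 := congrArg (τ u'⁻¹ * ·) this
    simp only [← mul_assoc, ← map_mul, inv_mul_cancel, map_one, one_mul, mul_one] at h3
    exact h3.symm
  have e4 : τ (u * u'⁻¹) = (1 + a) * (1 + -b) := by rw [map_mul, ha, e3]
  have e5 := xps_inv hu (show (-b) ^ 2 = 0 by rw [neg_sq, hb2])
  have c3 : Commute (τ (u * u'⁻¹)) (a * b + b * a) := e4 ▸
    (((Commute.one_right _).add_right c1).mul_right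
      ((Commute.one_right _).add_right c2.neg_right)).symm
  rw [← e4] at e5
  have e6 : (τ (u * u'⁻¹) - 1) ^ 2 = -(τ (u * u'⁻¹) * (a * b + b * a)) := by
    rw [← sub_eq_zero, ← e5]
    noncomm_ring
  have h1 : u * u'⁻¹ ∈ R := by
    refine (QuotientGroup.eq_one_iff _).1 (?_ : QuotientGroup.mk' R _ = 1)
    rw [map_mul, map_inv, hq, mul_inv_cancel]
  have h2 := xps_sq (L := L) (x := τ (u * u'⁻¹)) (Q := Polynomial.X - 1)
    (Polynomial.X_pow_sub_one_separable_iff.2 fun h => hc ((CharP.cast_eq_zero_iff L 13 _).1 h))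
    (by rw [map_sub, map_pow, Polynomial.aeval_X, ← map_pow, hcard _ h1, map_one, map_one, sub_self])
    (by
      rw [map_sub, Polynomial.aeval_X, map_one]
      exact IsNilpotent.of_pow (m := 2) (e6 ▸ (c3.isNilpotent_mul_left hn).neg))
  rw [map_sub, Polynomial.aeval_X, map_one, sub_eq_zero, ← map_one τ] at h2
  have h3 := mul_inv_eq_one.1 (hinj h2)
  rw [hu'] at h3
  exact eq_mul_inv_iff_mul_eq.1 h3

theorem pstab {V : Type} [AddCommGroup V] [Module K V] [Module.Finite K V]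
    {H : Type} [Group H] [Finite H] (ρ : Representation K H V) (hinj : Function.Injective ρ) (R : Subgroup H) (hR : R.Normal)
    (hc : ¬ 13 ∣ Nat.card R) (u : H) (hu : (ρ u - 1) ^ 2 = 0) : ∀ r ∈ R, u * r = r * u := by
  let B := Module.Free.chooseBasis K V
  let L := AlgebraicClosure K
  let Φ : Module.End K V →+* Module.End L (Module.Free.ChooseBasisIndex K V → L) :=
    (Matrix.toLinAlgEquiv'.toRingEquiv.toRingHom.comp (algebraMap K L).mapMatrix).comp
      (LinearMap.toMatrixAlgEquiv B).toRingEquiv.toRingHom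
  have hΦ : Function.Injective Φ := (Matrix.toLinAlgEquiv'.injective.comp
    (Matrix.map_injective (algebraMap K L).injective)).comp (LinearMap.toMatrixAlgEquiv B).injective
  refine xps_main (Φ.toMonoidHom.comp ρ) (hΦ.comp hinj) R hR hc u ?_
  have h := congrArg Φ hu
  rwa [map_pow, map_sub, map_one, map_zero] at h

end Pool.Agent.N9181
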