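import Pool.Agent.MP_9181f8_al.N.Basic

namespace Pool.Agent.N9181

open scoped commutatorElement

theorem xpair_emb (Z : Type) [CommGroup Z] [Finite Z] [IsCyclic Z] :
    ∃ ι : Z →* ℂˣ, Function.Injective ι := by
  haveI : NeZero (Nat.card Z) := ⟨Nat.card_pos.ne'⟩
  have h := HasEnoughRootsOfUnity.natCard_rootsOfUnity ℂ (Nat.card Z)
  let e : Z ≃* rootsOfUnity (Nat.card Z) ℂ := mulEquivOfCyclicCardEq h.symm
  exact ⟨(rootsOfUnity (Nat.card Z) ℂ).subtype.comp e.toMonoidHom,
    (Subgroup.subtype_injective _).comp e.injective⟩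

theorem xpair_fin (S Z : Type) [CommGroup S] [Finite S] [CommGroup Z] [Finite Z] :
    Finite (S →* Z) :=
  Finite.of_injective (fun f : S →* Z => (f : S → Z)) DFunLike.coe_injective

theorem xpair_card (S Z : Type) [CommGroup S] [Finite S] [CommGroup Z] [Finite Z] [IsCyclic Z] :
    Nat.card (S →* Z) ≤ Nat.card S := by
  obtain ⟨ι, hι⟩ := xpair_emb Z
  have h := CommGroup.card_monoidHom_of_hasEnoughRootsOfUnity S ℂ
  haveI : Finite (S →* ℂˣ) := Nat.finite_of_card_ne_zero (by rw [h]; exact Nat.card_pos.ne')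
  rw [← h]
  refine Nat.card_le_card_of_injective (fun f : S →* Z => ι.comp f) fun f g hfg => ?_
  ext x
  exact hι (DFunLike.congr_fun hfg x)

theorem xpair_inj {U Z : Type} [CommGroup U] [CommGroup Z] (B : U →* U →* Z) (hB : Symp B) :
    Function.Injective B :=
  (injective_iff_map_eq_one B).2 fun x hx => hB.2 x fun y => by rw [hx]; rfl

theorem xpair_skew {U Z : Type} [CommGroup U] [CommGroup Z] (B : U →* U →* Z) (hB : Symp B)
    (x y : U) : B y x = (B x y)⁻¹ := by
  have h := hB.1 (x * y)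
  rw [map_mul, map_mul, MonoidHom.mul_apply, MonoidHom.mul_apply, hB.1 x, hB.1 y, one_mul,
    mul_one] at h
  exact eq_inv_of_mul_eq_one_left h

theorem symp_hom {U Z : Type} [CommGroup U] [Finite U] [CommGroup Z] [Finite Z] [IsCyclic Z]
    (B : U →* U →* Z) (hB : Symp B) (f : U →* Z) :
    ∃ x, ∀ y, f y = B x y := by
  haveI := xpair_fin U Z
  obtain ⟨x, hx⟩ := ((xpair_inj B hB).bijective_of_nat_card_le (xpair_card U Z)).2 f
  exact ⟨x, fun y => by rw [hx]⟩

theorem card_perp {U Z : Type} [CommGroup U] [Finite U] [CommGroup Z] [Finite Z] [IsCyclic Z]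
    (B : U →* U →* Z) (hB : Symp B) (S : Subgroup U) :
    Nat.card S * Nat.card (perp B S) = Nat.card U := by
  haveI := xpair_fin S Z
  haveI := xpair_fin (U ⧸ perp B S) Z
  let r : U →* S →* Z := (B.comp S.subtype).flip
  have hr : r.ker = perp B S := by
    ext y
    rw [MonoidHom.mem_ker]
    constructor
    · intro h x hx
      exact DFunLike.congr_fun h ⟨x, hx⟩
    · intro h
      ext x
      exact h x x.2
  have h1 : Nat.card (U ⧸ perp B S) ≤ Nat.card S := by
    rw [← hr]
    exact (Nat.card_le_card_of_injective _ (QuotientGroup.kerLift_injective r)).trans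
      (xpair_card S Z)
  have h2 : Nat.card S ≤ Nat.card (U ⧸ perp B S) := by
    refine (Nat.card_le_card_of_injective (fun x : S => QuotientGroup.lift (perp B S) (B x)
      fun y hy => hy x x.2) fun x x' h => ?_).trans (xpair_card _ Z)
    refine Subtype.ext (xpair_inj B hB ?_)
    ext y
    exact DFunLike.congr_fun h (y : U ⧸ perp B S)
  rw [le_antisymm h2 h1, ← Subgroup.card_eq_card_quotient_mul_card_subgroup]

theorem exists_lagr {U Z : Type} [CommGroup U] [Finite U] [CommGroup Z] [Finite Z] [IsCyclic Z]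
    (B : U →* U →* Z) (hB : Symp B) :
    ∃ S : Subgroup U, perp B S = S := by
  have h0 : (⊥ : Subgroup U) ≤ perp B ⊥ := bot_le
  obtain ⟨S, -, hS⟩ := Finite.exists_le_maximal (p := fun S : Subgroup U => S ≤ perp B S) h0
  refine ⟨S, le_antisymm (fun y hy => ?_) hS.1⟩
  have h1 : S ⊔ Subgroup.zpowers y ≤ perp B (S ⊔ Subgroup.zpowers y) := by
    intro a ha b hb
    obtain ⟨s, hs, _, ⟨k, rfl⟩, rfl⟩ := Subgroup.mem_sup.1 ha
    obtain ⟨t, ht, _, ⟨l, rfl⟩, rfl⟩ := Subgroup.mem_sup.1 hb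
    have e1 : B t s = 1 := hS.1 hs t ht
    have e2 : B t y = 1 := hy t ht
    have e3 : B y s = 1 := by rw [xpair_skew B hB, hy s hs, inv_one]
    simp only [map_mul, map_zpow, MonoidHom.mul_apply, MonoidHom.zpow_apply, e1, e2, e3, hB.1 y,
      one_zpow, one_mul]
  exact hS.2 h1 le_sup_left (Subgroup.mem_sup_right (Subgroup.mem_zpowers y))

theorem prime_dvd_symp {U Z : Type} [CommGroup U] [Finite U] [CommGroup Z] [Finite Z] [IsCyclic Z]
    (B : U →* U →* Z) (hB : Symp B) (p : ℕ) (hp : p.Prime)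
    (h : p ∣ Nat.card U) : p ∣ Nat.card Z := by
  haveI : Fact p.Prime := ⟨hp⟩
  obtain ⟨x, hx⟩ := exists_prime_orderOf_dvd_card' p h
  have h1 : x ≠ 1 := by
    rintro rfl
    rw [orderOf_one] at hx
    exact hp.one_lt.ne hx
  have h2 : ∃ y, B x y ≠ 1 := by
    by_contra hc
    push Not at hc
    exact h1 (hB.2 x hc)
  obtain ⟨y, hy⟩ := h2
  have h3 : B x y ^ p = 1 := by
    rw [← MonoidHom.pow_apply, ← map_pow, ← hx, pow_orderOf_eq_one, map_one]
    rfl
  rw [← orderOf_eq_prime h3 hy]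
  exact orderOf_dvd_natCard _

theorem symp_skew {U Z : Type} [CommGroup U] [Finite U] [CommGroup Z] [Finite Z] [IsCyclic Z]
    (B : U →* U →* Z) (hB : Symp B) (x y : U) :
    B y x = (B x y)⁻¹ := by
  exact xpair_skew B hB x y

end Pool.Agent.N9181
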