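import Pool.Agent.MP_9181f8_al.N.Ind

namespace Pool.Agent.N9181

open scoped commutatorElement

theorem xquad_poly {V : Type} [AddCommGroup V] [Module K V] (x : Module.End K V)
    (h3 : x * x * x = 1) (hf : ∀ v, x v = v → v = 0) : x * x + x + 1 = 0 := by
  ext v
  apply hf
  have h := congrArg (fun y : Module.End K V => y v) h3
  simp only [Module.End.mul_apply, Module.End.one_apply] at h
  simp only [LinearMap.add_apply, Module.End.mul_apply, Module.End.one_apply, map_add, h]
  abel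

theorem xquad_ring {R : Type} [Ring R] (x y : R) (hx : x * x + x + 1 = 0)
    (hy : y * y + y + 1 = 0) :
    x * (x * x * y + y * y * x) = (x * x * y + y * y * x) * x := by
  have e1 : x * x = -x - 1 := by rw [← sub_eq_zero, ← hx]; noncomm_ring
  have e2 : y * y = -y - 1 := by rw [← sub_eq_zero, ← hy]; noncomm_ring
  rw [e1, e2]
  have e3 : x * ((-x - 1) * y + (-y - 1) * x) = -(x * x) * y - x * y - x * y * x - x * x := by
    noncomm_ring
  have e4 : ((-x - 1) * y + (-y - 1) * x) * x = -(x * y * x) - y * x - y * (x * x) - x * x := by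
    noncomm_ring
  rw [e3, e4, e1]
  noncomm_ring

theorem xquad_sep {H : Type} [Group H] {A F : Subgroup H} (hP : PD A F) {g g' : H} (hg : g ∈ F)
    (hg' : g' ∈ F) (h : g'⁻¹ * g ∉ A) : ∃ y ∈ F, ⁅y, g⁆ ≠ ⁅y, g'⁆ := by
  by_contra hc
  apply h
  apply hP.nd _ (F.mul_mem (F.inv_mem hg') hg)
  intro y hy
  have e : ⁅y⁻¹, g⁆ = ⁅y⁻¹, g'⁆ := by
    by_contra hne
    exact hc ⟨y⁻¹, F.inv_mem hy, hne⟩
  simp only [commutatorElement_def, inv_inv] at e
  calc g'⁻¹ * g * y = g'⁻¹ * y * (y⁻¹ * g * y * g⁻¹) * g := by group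
    _ = y * (g'⁻¹ * g) := by rw [e]; group

theorem xquad_cube {H : Type} [Group H] {A F : Subgroup H} (hP : PD A F)
    (h3 : ¬ 3 ∣ A.relIndex F) {w : H} (hw : w ∈ F) (h : w ^ 3 ∈ A) : w ∈ A := by
  have : (A.subgroupOf F).Normal := ⟨fun a ha y => by
    rw [Subgroup.mem_subgroupOf] at ha ⊢
    have e := hP.cen _ ha y y.2
    have : ((y * a * y⁻¹ : F) : H) = a := by
      simp only [Subgroup.coe_mul, Subgroup.coe_inv]
      rw [← e]; group
    rwa [this]⟩
  have hn : w ^ (A.relIndex F) ∈ A := by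
    have := (A.subgroupOf F).pow_index_mem (⟨w, hw⟩ : F)
    rw [Subgroup.mem_subgroupOf] at this
    exact this
  have e : w ^ (A.relIndex F % 3) ∈ A := by
    have e1 : w ^ (A.relIndex F) = (w ^ 3) ^ (A.relIndex F / 3) * w ^ (A.relIndex F % 3) := by
      rw [← pow_mul, ← pow_add, Nat.div_add_mod]
    rw [e1] at hn
    exact (A.mul_mem_cancel_left (A.pow_mem h _)).mp hn
  have hc : A.relIndex F % 3 = 1 ∨ A.relIndex F % 3 = 2 := by omega
  rcases hc with hc | hc
  · rwa [hc, pow_one] at e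
  · rw [hc] at e
    have e2 : w ^ 3 = w ^ 2 * w := by group
    rw [e2] at h
    exact (A.mul_mem_cancel_left e).mp h

theorem quad {V : Type} [AddCommGroup V] [Module K V] [Module.Finite K V]
    {H : Type} [Group H] [Finite H] (ρ : Representation K H V) (hV : ∃ v : V, v ≠ 0) (A F : Subgroup H) (hP : PD A F) (hA : FreeOn ρ A)
    (t : H) (ht : t ^ 3 = 1) (htA : t ∈ Subgroup.centralizer (A : Set H))
    (htF : t ∈ Subgroup.normalizer (F : Set H)) (h3 : ¬ 3 ∣ A.relIndex F)
    (hf : ∀ v, ρ t v = v → v = 0) (f : H) (hfF : f ∈ F) (hw : ⁅t⁻¹, f⁆ ∉ A) :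
    ⁅t⁻¹, f⁆ * ⁅t⁻¹, f⁆ ∈ A ∧ ρ (⁅t⁻¹, f⁆ * ⁅t⁻¹, f⁆) = -1 := by
  obtain ⟨w, hwd⟩ : ∃ w, w = ⁅t⁻¹, f⁆ := ⟨_, rfl⟩
  rw [← hwd] at hw ⊢
  have hts : t * w = f * t * f⁻¹ := by
    rw [hwd, commutatorElement_def]; group
  have ht3 : t * t * t = 1 := by rw [← ht, pow_three']
  have hs3 : (t * w) * (t * w) * (t * w) = 1 := by
    rw [hts]
    calc f * t * f⁻¹ * (f * t * f⁻¹) * (f * t * f⁻¹) = f * (t * t * t) * f⁻¹ := by group
      _ = 1 := by rw [ht3]; group
  have hcon : ∀ y, y ∈ F ↔ t * y * t⁻¹ ∈ F := Subgroup.mem_normalizer_iff.mp htF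
  have hwF : w ∈ F := by
    have e : w = (t⁻¹ * f * t) * f⁻¹ := by rw [hwd, commutatorElement_def]; group
    rw [e]
    refine F.mul_mem ?_ (F.inv_mem hfF)
    rw [hcon]
    have : t * (t⁻¹ * f * t) * t⁻¹ = f := by group
    rwa [this]
  have hta : ∀ a ∈ A, a * t = t * a := fun a ha => htA a ha
  obtain ⟨u, hu⟩ : ∃ u, u = t * w * t⁻¹ := ⟨_, rfl⟩
  have huF : u ∈ F := by rw [hu]; exact (hcon w).mp hwF
  have hx : ρ t * ρ t + ρ t + 1 = 0 :=
    xquad_poly _ (by rw [← map_mul, ← map_mul, ht3, map_one]) hf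
  have hy : ρ (t * w) * ρ (t * w) + ρ (t * w) + 1 = 0 := by
    refine xquad_poly _ (by rw [← map_mul, ← map_mul, hs3, map_one]) ?_
    intro v hv
    have e1 : ρ t (ρ f⁻¹ v) = ρ f⁻¹ v := by
      have e2 : t * f⁻¹ = f⁻¹ * (t * w) := by rw [hts]; group
      rw [← Module.End.mul_apply, ← map_mul, e2, map_mul, Module.End.mul_apply, hv]
    have e3 := hf _ e1
    have e4 : v = ρ f (ρ f⁻¹ v) := by
      rw [← Module.End.mul_apply, ← map_mul, mul_inv_cancel, map_one, Module.End.one_apply]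
    rw [e4, e3, map_zero]
  have hkey : ρ w + ρ w⁻¹ = ρ u + ρ u⁻¹ := by
    have e0 := xquad_ring _ _ hx hy
    have e1 : t * t * (t * w) = w := by
      calc t * t * (t * w) = (t * t * t) * w := by group
        _ = w := by rw [ht3, one_mul]
    have e2 : t * w * (t * w) * t = w⁻¹ := by
      calc t * w * (t * w) * t = ((t * w) * (t * w) * (t * w)) * w⁻¹ := by group
        _ = w⁻¹ := by rw [hs3, one_mul]
    simp only [← map_mul] at e0
    rw [e1, e2] at e0
    have e3 : ρ t * (ρ w + ρ w⁻¹) * ρ t⁻¹ = ρ w + ρ w⁻¹ := by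
      rw [e0, mul_assoc, ← map_mul, mul_inv_cancel, map_one, mul_one]
    have e4 : u⁻¹ = t * w⁻¹ * t⁻¹ := by rw [hu]; group
    rw [← e3, e4, hu, mul_add, add_mul]
    simp only [map_mul]
  have hrel : u * (t * u * t⁻¹) * w = 1 := by
    rw [hu]
    calc t * w * t⁻¹ * (t * (t * w * t⁻¹) * t⁻¹) * w
        = (t * w) * (t * w) * ((t * t * t)⁻¹ * t) * w := by group
      _ = (t * w) * (t * w) * (t * w) := by rw [ht3]; group
      _ = 1 := hs3
  have n1 : w⁻¹ * u ∉ A := by
    intro ha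
    obtain ⟨a, had⟩ : ∃ a, a = w⁻¹ * u := ⟨_, rfl⟩
    rw [← had] at ha
    have e1 : u = w * a := by rw [had]; group
    have c1 := hP.cen a ha w hwF
    have c2 := hta a ha
    have e2 : t * u * t⁻¹ = w * a * a := by
      calc t * u * t⁻¹ = t * w * t⁻¹ * (t * a) * t⁻¹ := by rw [e1]; group
        _ = u * a := by rw [← c2, ← hu]; group
        _ = w * a * a := by rw [e1]
    rw [e2, e1] at hrel
    have e3 : w ^ 3 * (a * a * a) = 1 := by
      calc w ^ 3 * (a * a * a) = w * (w * (w * a) * a) * a := by rw [pow_three']; group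
        _ = w * (w * (a * w) * a) * a := by rw [c1]
        _ = w * (w * a) * (w * a) * a := by group
        _ = w * (a * w) * (a * w) * a := by rw [c1]
        _ = w * a * w * a * (w * a) := by group
        _ = w * a * w * a * (a * w) := by rw [c1]
        _ = 1 := by rw [← hrel]; group
    apply hw
    apply xquad_cube hP h3 hwF
    rw [eq_inv_of_mul_eq_one_left e3]
    exact A.inv_mem (A.mul_mem (A.mul_mem ha ha) ha)
  have n2 : w * u ∉ A := by
    intro ha
    obtain ⟨a, had⟩ : ∃ a, a = w * u := ⟨_, rfl⟩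
    rw [← had] at ha
    have e1 : u = w⁻¹ * a := by rw [had]; group
    have c1 := hP.cen a ha w hwF
    have c2 := hta a ha
    have e2 : t * u * t⁻¹ = w := by
      calc t * u * t⁻¹ = (t * w * t⁻¹)⁻¹ * (t * a) * t⁻¹ := by rw [e1]; group
        _ = u⁻¹ * a := by rw [← c2, ← hu]; group
        _ = a⁻¹ * (w * a) := by rw [e1]; group
        _ = w := by rw [← c1]; group
    rw [e2, e1] at hrel
    have e3 : w * a = 1 := by
      calc w * a = a * w := c1.symm
        _ = w⁻¹ * (w * a) * w := by group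
        _ = w⁻¹ * (a * w) * w := by rw [c1]
        _ = 1 := by rw [← hrel]; group
    apply hw
    rw [eq_inv_of_mul_eq_one_left e3]
    exact A.inv_mem ha
  have hAc : ∀ a ∈ A, ∀ b ∈ A, a * b = b * a := fun a ha b hb => hP.cen a ha b (hP.le hb)
  have hY : ∀ y ∈ F, ∀ a ∈ A, y * a = a * y := fun y hy a ha => (hP.cen a ha y hy).symm
  have swap : ∀ p ∈ F, ∀ q, p * q ∈ A → q * p ∈ A := by
    intro p hp q ha
    have e : q * p = p * q := by
      calc q * p = p⁻¹ * (p * q * p) := by group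
        _ = p * q := by rw [hP.cen _ ha p hp]; group
    rwa [e]
  have symm : ∀ g g' : H, (∃ y ∈ F, ⁅y, g⁆ ≠ ⁅y, g'⁆) → ∃ y ∈ F, ⁅y, g'⁆ ≠ ⁅y, g⁆ :=
    fun g g' ⟨y, hy, hne⟩ => ⟨y, hy, hne.symm⟩
  have d02 := xquad_sep hP huF hwF n1
  by_cases hw2 : w * w ∈ A
  · refine ⟨hw2, ?_⟩
    have hi := A.inv_mem hw2
    have eu : u * u = w * w := by
      calc u * u = t * (w * w) * t⁻¹ := by rw [hu]; group
        _ = w * w := by rw [← hta _ hw2]; group
    have e1 : w⁻¹ = (w * w)⁻¹ * w := by group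
    have e2 : u⁻¹ = (w * w)⁻¹ * u := by rw [← eu]; group
    have hc : ∀ y ∈ F, (1 + ρ (w * w)⁻¹) * ρ y = ρ y * (1 + ρ (w * w)⁻¹) := by
      intro y hy
      rw [add_mul, mul_add, one_mul, mul_one, ← map_mul, ← map_mul, hP.cen _ hi y hy]
    have hc' : ∀ i : Fin 2, ∀ y ∈ F,
        ![1 + ρ (w * w)⁻¹, -(1 + ρ (w * w)⁻¹)] i * ρ y =
          ρ y * ![1 + ρ (w * w)⁻¹, -(1 + ρ (w * w)⁻¹)] i := by
      intro i y hy
      fin_cases i
      · exact hc y hy
      · show -(1 + ρ (w * w)⁻¹) * ρ y = ρ y * -(1 + ρ (w * w)⁻¹)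
        rw [neg_mul, mul_neg, hc y hy]
    have key := ind ρ A F hA hAc hY ⊤ (fun _ _ _ _ => trivial) (fun _ _ _ _ => trivial)
      (Finset.univ : Finset (Fin 2)) ![w, u] (fun _ _ _ _ => trivial)
      (fun i _ y hy => hP.comm y hy _ (by fin_cases i; exacts [hwF, huF]))
      (fun i _ j _ hij => by
        fin_cases i <;> fin_cases j
        · exact absurd rfl hij
        · exact symm _ _ d02
        · exact d02
        · exact absurd rfl hij)
      ![1 + ρ (w * w)⁻¹, -(1 + ρ (w * w)⁻¹)] (fun i _ y hy => hc' i y hy)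
      (fun i _ a ha => hc' i a (hP.le ha))
      (fun v _ => by
        have e := congrArg (fun z : Module.End K V => z v) hkey
        rw [e1, e2] at e
        simp only [map_mul ρ (w * w)⁻¹, LinearMap.add_apply, Module.End.mul_apply] at e
        simp only [Fin.sum_univ_two, Matrix.cons_val_zero, Matrix.cons_val_one,
          LinearMap.neg_apply, LinearMap.add_apply, Module.End.one_apply]
        rw [e, add_neg_cancel])
    ext v
    have k1 : (1 + ρ (w * w)⁻¹) (ρ (w * w) v) = 0 := key 0 (Finset.mem_univ _) _ trivial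
    rw [LinearMap.add_apply, Module.End.one_apply, ← Module.End.mul_apply, ← map_mul,
      inv_mul_cancel, map_one, Module.End.one_apply] at k1
    rw [LinearMap.neg_apply, Module.End.one_apply]
    exact eq_neg_of_add_eq_zero_left k1
  · exfalso
    have hu2 : u * u ∉ A := by
      intro ha
      apply hw2
      have e : w * w = u * u := by
        calc w * w = t⁻¹ * (u * u * t) := by rw [hu]; group
          _ = u * u := by rw [hta _ ha]; group
      rwa [e]
    have hwi := F.inv_mem hwF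
    have hui := F.inv_mem huF
    have d01 := xquad_sep hP hwF hwi (by rwa [inv_inv])
    have d03 := xquad_sep hP hwF hui (by rw [inv_inv]; exact fun h => n2 (swap _ huF _ h))
    have d12 := xquad_sep hP huF hwi (by rwa [inv_inv])
    have d13 := xquad_sep hP hwi hui (by rw [inv_inv]; exact fun h => n1 (swap _ huF _ h))
    have d23 := xquad_sep hP huF hui (by rwa [inv_inv])
    have hc' : ∀ i : Fin 4, ∀ z : Module.End K V,
        (![1, 1, -1, -1] : Fin 4 → Module.End K V) i * z =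
          z * (![1, 1, -1, -1] : Fin 4 → Module.End K V) i := by
      intro i z
      fin_cases i <;> simp
    have key := ind ρ A F hA hAc hY ⊤ (fun _ _ _ _ => trivial) (fun _ _ _ _ => trivial)
      (Finset.univ : Finset (Fin 4)) ![w, w⁻¹, u, u⁻¹] (fun _ _ _ _ => trivial)
      (fun i _ y hy => hP.comm y hy _ (by fin_cases i; exacts [hwF, hwi, huF, hui]))
      (fun i _ j _ hij => by
        fin_cases i <;> fin_cases j
        exacts [absurd rfl hij, d01, symm _ _ d02, d03, symm _ _ d01, absurd rfl hij,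
          symm _ _ d12, d13, d02, d12, absurd rfl hij, d23, symm _ _ d03, symm _ _ d13,
          symm _ _ d23, absurd rfl hij])
      ![1, 1, -1, -1] (fun i _ y _ => hc' i _) (fun i _ a _ => hc' i _)
      (fun v _ => by
        have e := congrArg (fun z : Module.End K V => z v) hkey
        simp only [LinearMap.add_apply] at e
        simp only [Fin.sum_univ_four, Matrix.cons_val_zero, Matrix.cons_val_one,
          Matrix.cons_val, LinearMap.neg_apply, Module.End.one_apply]
        rw [e]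
        abel)
    obtain ⟨v, hv⟩ := hV
    exact hv (key 0 (Finset.mem_univ _) v trivial)

end Pool.Agent.N9181
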