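import Pool.Agent.MP_9181f8_al.N.EmbB
import Pool.Agent.MP_9181f8_al.N.Atom

namespace Pool.Agent.N9181

open scoped commutatorElement

theorem xrmod_parts {G : Type} [Group G] (u c g : G) (huc : Commute u c) (hu : u ^ 13 = 1)
    (hc : ¬ 13 ∣ orderOf c) (a b : ℕ) (h : g * (u * c) ^ a * g⁻¹ = (u * c) ^ b) :
    g * u ^ a * g⁻¹ = u ^ b ∧ g * c ^ a * g⁻¹ = c ^ b := by
  have cop : Nat.Coprime 13 (orderOf c) := (Nat.Prime.coprime_iff_not_dvd (by norm_num)).2 hc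
  obtain ⟨e1, h11, h12⟩ := Nat.chineseRemainder cop 1 0
  obtain ⟨e2, h21, h22⟩ := Nat.chineseRemainder cop 0 1
  have hco : c ^ orderOf c = 1 := pow_orderOf_eq_one c
  have k1 : (u * c) ^ e1 = u := by
    rw [huc.mul_pow, pow_eq_pow_of_modEq h11 hu, pow_eq_pow_of_modEq h12 hco]
    simp
  have k2 : (u * c) ^ e2 = c := by
    rw [huc.mul_pow, pow_eq_pow_of_modEq h21 hu, pow_eq_pow_of_modEq h22 hco]
    simp
  have key : ∀ e : ℕ, g * ((u * c) ^ e) ^ a * g⁻¹ = ((u * c) ^ e) ^ b := by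
    intro e
    rw [← pow_mul, ← pow_mul, mul_comm e a, mul_comm e b, pow_mul, pow_mul, ← h, conj_pow]
  exact ⟨by simpa only [k1] using key e1, by simpa only [k2] using key e2⟩

theorem xrmod_eig {V : Type} [AddCommGroup V] [Module K V] [Module.Finite K V]
    {G : Type} [Group G] [Finite G] (ρ : Representation K G V) (ι : V → G) (hι : Emb ρ ι)
    (N m : ℕ) (hP : PP G N m) (c : G) (hc : ¬ 13 ∣ orderOf c) (j0 : ℕ) (hj0 : j0.Coprime N)
    (hn : ¬ IsConj c (c ^ j0)) (v : V) (hv : ρ c v = v) (l : K) (hl : l ≠ 0) :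
    ∃ g : G, g * c = c * g ∧ ρ g v = l • v := by
  by_cases hv0 : v = 0
  · exact ⟨1, by simp, by simp [hv0]⟩
  obtain ⟨h0, hsm, h13, -⟩ := emb_basic ρ ι hι
  have cop : Nat.Coprime 13 (orderOf c) := (Nat.Prime.coprime_iff_not_dvd (by norm_num)).2 hc
  have hne : ι v ≠ 1 := fun h => hv0 (hι.inj (h.trans h0.symm))
  have ho : orderOf (ι v) = 13 := orderOf_eq_prime (h13 v) hne
  have hd1 : 13 ∣ N := (ho ▸ orderOf_dvd_natCard (ι v)).trans hP.1.1
  have hd2 : orderOf c ∣ N := (orderOf_dvd_natCard c).trans hP.1.1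
  have hd : 13 * orderOf c ∣ N := cop.mul_dvd_of_dvd_of_dvd hd1 hd2
  obtain ⟨j1, h11, h12⟩ := Nat.chineseRemainder cop l.val 1
  have hc1 : j1.Coprime 13 := by
    rw [Nat.Coprime, h11.gcd_eq]
    have hlt : l.val < 13 := ZMod.val_lt l
    have hpos : l.val ≠ 0 := fun h => hl ((ZMod.val_eq_zero l).1 h)
    exact (Nat.coprime_of_lt_prime hpos hlt (by norm_num)).symm
  have hc2 : j1.Coprime (orderOf c) := by
    rw [Nat.Coprime, h12.gcd_eq]
    simp
  obtain ⟨j, hjN, hj⟩ := exists_j (13 * orderOf c) N j1 hd hP.1.2.1 (hc1.mul_right hc2)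
  have hj1 : j ≡ l.val [MOD 13] := (hj.of_mul_right _).trans h11
  have hj2 : j ≡ 1 [MOD orderOf c] := (hj.of_mul_left _).trans h12
  have hcj : c ^ j = c := by
    rw [pow_eq_pow_of_modEq hj2 (pow_orderOf_eq_one c), pow_one]
  have hjl : (j : K) = l := by
    rw [(ZMod.natCast_eq_natCast_iff j l.val 13).2 hj1, ZMod.natCast_zmod_val]
  have huc : Commute (ι v) c := by
    have h := hι.act c v
    rw [hv] at h
    show ι v * c = c * ι v
    calc ι v * c = (c * ι v * c⁻¹) * c := by rw [← h]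
      _ = c * ι v := by group
  rcases hP.2 (ι v * c) j hjN with h | h
  · obtain ⟨g, hg⟩ := isConj_iff.1 h
    obtain ⟨k1, k2⟩ := xrmod_parts (ι v) c g huc (h13 v) hc 1 j (by rw [pow_one]; exact hg)
    rw [pow_one] at k1 k2
    refine ⟨g, ?_, hι.inj ?_⟩
    · rw [hcj] at k2
      calc g * c = (g * c * g⁻¹) * g := by group
        _ = c * g := by rw [k2]
    · rw [hι.act, k1, ← hjl, hsm]
  · obtain ⟨g, hg⟩ := isConj_iff.1 h
    obtain ⟨-, k2⟩ := xrmod_parts (ι v) c g huc (h13 v) hc m j hg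
    rw [hcj] at k2
    exact absurd (pp_rat N m hP c (isConj_iff.2 ⟨g, k2⟩).symm j0 hj0) hn

theorem rmod {V : Type} [AddCommGroup V] [Module K V] [Module.Finite K V]
    {G : Type} [Group G] [Finite G] [Group.IsSolvable G] (ρ : Representation K G V) (ι : V → G) (hι : Emb ρ ι) (N m : ℕ) (hP : PP G N m) (c : G)
    (hc : ¬ 13 ∣ orderOf c) (j0 : ℕ) (hj0 : j0.Coprime N) (hn : ¬ IsConj c (c ^ j0))
    (h13 : ∀ (g : G) (a : ℕ), g * c = c * g → g ^ (13 ^ a) = 1 → ρ g = 1) :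
    ∀ v, ρ c v = v → v = 0 := by
  let C : Subgroup G := Subgroup.centralizer {c}
  have hC : ∀ g : G, g ∈ C ↔ g * c = c * g := fun g => by
    simp only [C, Subgroup.mem_centralizer_iff, Set.mem_singleton_iff, forall_eq]
    exact eq_comm
  let σ : Representation K C V := ρ.comp C.subtype
  have hσ : ∀ h : C, σ h = ρ (h : G) := fun _ => rfl
  obtain ⟨H', _, _, π, ρ', hπ, -, hρ', hcard, h13'⟩ := exists_faithful σ
  have : Group.IsSolvable H' := Group.isSolvable_of_surjective hπ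
  have hH : ¬ 13 ∣ Nat.card H' := h13' fun h a ha => by
    rw [hσ]
    exact h13 h a ((hC h).1 h.2) (by simpa using congrArg Subtype.val ha)
  have hNM : NM H' N m :=
    ⟨(hcard.trans (Subgroup.card_subgroup_dvd_card C)).trans hP.1.1, hP.1.2.1, hP.1.2.2⟩
  have hU : HU ρ' N m := by
    intro h' j hj M
    obtain ⟨h, rfl⟩ := hπ h'
    rw [← map_pow, ← map_pow, ← map_pow, hρ', hρ', hρ', hρ', hσ, hσ, hσ, hσ]
    exact pp_U ρ N m hP h j hj M
  let c0 : C := ⟨c, (hC c).2 rfl⟩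
  have hcc : ρ' (π c0) = ρ c := hρ' c0
  have key := atom12 hH ρ' N m hNM hU (π c0) (fun g => by
    obtain ⟨h, rfl⟩ := hπ g
    rw [← map_mul, ← map_mul]
    congr 1
    exact Subtype.ext ((hC h).1 h.2)) (fun v hv l hl => by
    rw [hcc] at hv
    obtain ⟨g, hg, hgv⟩ := xrmod_eig ρ ι hι N m hP c hc j0 hj0 hn v hv l hl
    exact ⟨π ⟨g, (hC g).2 hg⟩, by rw [hρ']; exact hgv⟩)
  intro v hv
  exact key v (by rw [hcc]; exact hv)

theorem xrmod_mem {G : Type} [Group G] (Q : Subgroup G) (hQ : Q.Normal)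
    (hQi : ¬ 13 ∣ Q.index) (g : G) (a : ℕ) (hg : g ^ (13 ^ a) = 1) : g ∈ Q := by
  have cop : Nat.Coprime 13 Q.index := (Nat.Prime.coprime_iff_not_dvd (by norm_num)).2 hQi
  have h1 : Nat.Coprime Q.index (orderOf g) :=
    (cop.symm.pow_right a).coprime_dvd_right (orderOf_dvd_of_pow_eq_one hg)
  obtain ⟨e, he⟩ := exists_pow_eq_self_of_coprime h1
  rw [← he]
  exact Q.pow_mem (Subgroup.pow_index_mem Q g) e

theorem xrmod_triv {V : Type} [AddCommGroup V] [Module K V] [Module.Finite K V]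
    {G : Type} [Group G] [Finite G] (ρ : Representation K G V) (hirr : Irr ρ) (Q : Subgroup G)
    (hQ : Q.Normal) (hQp : IsPGroup 13 Q) : ∀ s ∈ Q, ρ s = 1 := by
  let W : Submodule K V :=
    { carrier := {v | ∀ s ∈ Q, ρ s v = v}
      add_mem' := fun {a b} ha hb s hs => by rw [map_add, ha s hs, hb s hs]
      zero_mem' := fun s _ => map_zero _
      smul_mem' := fun r a ha s hs => by rw [map_smul, ha s hs] }
  have hW : ∀ v, v ∈ W ↔ ∀ s ∈ Q, ρ s v = v := fun _ => Iff.rfl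
  obtain ⟨v, hv0, hv⟩ := fix_of_pgroup ρ Q hQp hirr.1
  rcases hirr.2 W (fun h w hw => by
    rw [hW] at hw ⊢
    intro s hs
    have h1 : ρ (h⁻¹ * s * h) w = w := hw _ (by simpa using hQ.conj_mem s hs h⁻¹)
    have h2 : s * h = h * (h⁻¹ * s * h) := by group
    rw [← Module.End.mul_apply, ← map_mul, h2, map_mul, Module.End.mul_apply, h1]) with h | h
  · have : v ∈ W := (hW v).2 hv
    rw [h] at this
    exact absurd ((Submodule.mem_bot K).1 this) hv0
  · intro s hs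
    ext w
    exact (hW w).1 (h ▸ Submodule.mem_top) s hs

theorem xrmod_ind (n : ℕ) : ∀ (G : Type) [Group G] [Finite G] [Group.IsSolvable G],
    Nat.card G = n → ∀ (N m : ℕ), PP G N m → ∀ (Q : Subgroup G), Q.Normal → IsPGroup 13 Q →
    ¬ 13 ∣ Q.index → ∀ c : G, ¬ 13 ∣ orderOf c → ∀ j0 : ℕ, j0.Coprime N →
    (∀ g : G, g * c * g⁻¹ * (c ^ j0)⁻¹ ∉ Q) → ∀ x ∈ Q, x * c = c * x → x = 1 := by
  induction n using Nat.strong_induction_on with
  | _ n ih =>
  intro G _ _ _ hn N m hP Q hQ hQp hQi c hc j0 hj0 hnc x hx hxc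
  by_cases hQb : Q = ⊥
  · rw [hQb] at hx
    exact Subgroup.mem_bot.1 hx
  obtain ⟨B, p, hBn, hBQ, hBne, hp, hBc, hBp, hBmin⟩ := exists_min Q hQ hQb
  have hp13 : p = 13 := by
    obtain ⟨b, hb1⟩ := Subgroup.ne_bot_iff_exists_ne_one.1 hBne
    have hb1' : (b : G) ≠ 1 := fun h => hb1 (Subtype.ext h)
    have : Fact p.Prime := ⟨hp⟩
    have ho : orderOf (b : G) = p := orderOf_eq_prime (hBp b b.2) hb1'
    obtain ⟨k, hk⟩ := hQp ⟨b, hBQ b.2⟩
    have hk' : (b : G) ^ (13 ^ k) = 1 := by simpa using congrArg Subtype.val hk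
    have hd : p ∣ 13 ^ k := ho ▸ orderOf_dvd_of_pow_eq_one hk'
    exact (Nat.prime_dvd_prime_iff_eq hp (by norm_num)).1 (hp.dvd_of_dvd_pow hd)
  subst hp13
  obtain ⟨V, _, _, _, ρ, ι, hι, hB⟩ := exists_emb B hBn hBc hBp
  have hirr := emb_irr ρ ι hι B hB hBne hBmin
  have htriv := xrmod_triv ρ hirr Q hQ hQp
  let f : G →* G ⧸ B := QuotientGroup.mk' B
  have hf : Function.Surjective f := QuotientGroup.mk'_surjective B
  have hker : f.ker = B := QuotientGroup.ker_mk' B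
  have hlt : Nat.card (G ⧸ B) < n := by
    rw [← hn, Subgroup.card_eq_card_quotient_mul_card_subgroup B]
    exact lt_mul_of_one_lt_right Nat.card_pos ((Subgroup.one_lt_card_iff_ne_bot B).2 hBne)
  have hcm : (Q.map f).comap f = Q := Subgroup.comap_map_eq_self (hker.le.trans hBQ)
  have hxB : f x = 1 := by
    refine ih _ hlt (G ⧸ B) rfl N m (pp_surj f hf N m hP) (Q.map f) (hQ.map f hf) (hQp.map f)
      (fun h => hQi (h.trans (Subgroup.index_map_dvd Q hf))) (f c)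
      (fun h => hc (h.trans (orderOf_map_dvd f c))) j0 hj0 (fun g' hg' => ?_) (f x)
      (Subgroup.mem_map_of_mem f hx) (by rw [← map_mul, hxc, map_mul])
    obtain ⟨g, rfl⟩ := hf g'
    apply hnc g
    rw [← hcm, Subgroup.mem_comap]
    simpa only [map_mul, map_inv, map_pow] using hg'
  obtain ⟨v, rfl⟩ := (hB x).1 (hker.le ((MonoidHom.mem_ker).2 hxB))
  have hv : ρ c v = v := hι.inj (by
    rw [hι.act, ← hxc]
    group)
  have hv0 := rmod ρ ι hι N m hP c hc j0 hj0 (fun h => by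
    obtain ⟨g, hg⟩ := isConj_iff.1 h
    apply hnc g
    rw [hg, mul_inv_cancel]
    exact Q.one_mem) (fun g a _ hg => htriv g (xrmod_mem Q hQ hQi g a hg)) v hv
  rw [hv0]
  exact (emb_basic ρ ι hι).1

theorem rgrp {G : Type} [Group G] [Finite G] [Group.IsSolvable G] (N m : ℕ) (hP : PP G N m) (Q : Subgroup G) (hQ : Q.Normal)
    (hQp : IsPGroup 13 Q) (hQi : ¬ 13 ∣ Q.index) (c : G) (hc : ¬ 13 ∣ orderOf c) (j0 : ℕ)
    (hj0 : j0.Coprime N) (hn : ∀ g : G, g * c * g⁻¹ * (c ^ j0)⁻¹ ∉ Q) :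
    ∀ x ∈ Q, x * c = c * x → x = 1 :=
  xrmod_ind _ G rfl N m hP Q hQ hQp hQi c hc j0 hj0 hn

end Pool.Agent.N9181
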