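import Pool.Agent.MP_9181f8_al.N.M0
import Pool.Agent.MP_9181f8_al.N.BtUse

namespace Pool.Agent.N9181

open scoped commutatorElement

theorem xunbal_conj {H : Type} [Group H] [Finite H] (S T T' : Subgroup H) (hT : IsPGroup 3 T)
    (hT' : IsPGroup 3 T') (h1 : T ≤ S) (h2 : T' ≤ S)
    (hmax : ∀ U : Subgroup H, IsPGroup 3 U → U ≤ S → T ≤ U → U ≤ T) :
    ∃ c ∈ S, ∀ y ∈ T', c⁻¹ * y * c ∈ T := by
  have : Fact (Nat.Prime 3) := ⟨Nat.prime_three⟩
  obtain ⟨P, hP⟩ := (hT.comap_subtype (K := S)).exists_le_sylow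
  obtain ⟨P', hP'⟩ := (hT'.comap_subtype (K := S)).exists_le_sylow
  obtain ⟨c, hc⟩ := MulAction.exists_smul_eq S P' P
  have h3 : (P : Subgroup S).map S.subtype ≤ T :=
    hmax _ (P.isPGroup'.map _) (Subgroup.map_subtype_le _)
      fun y hy => ⟨⟨y, h1 hy⟩, hP hy, rfl⟩
  refine ⟨((c⁻¹ : S) : H), (c⁻¹).2, fun y hy => h3 ⟨c * ⟨y, h2 hy⟩ * c⁻¹, ?_, by simp⟩⟩
  have h4 : (⟨y, h2 hy⟩ : S) ∈ (P' : Subgroup S) := hP' hy
  rw [← hc]
  exact Subgroup.smul_mem_pointwise_smul _ (MulAut.conj c) _ h4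

/-- the stabiliser of a vector -/
def xunbalSt {V : Type} [AddCommGroup V] [Module K V] {H : Type} [Group H]
    (ρ : Representation K H V) (w : V) : Subgroup H where
  carrier := {h | ρ h w = w}
  one_mem' := by simp
  mul_mem' := fun {a b} ha hb => by
    have ha' : ρ a w = w := ha
    have hb' : ρ b w = w := hb
    show ρ (a * b) w = w
    rw [map_mul, Module.End.mul_apply, hb', ha']
  inv_mem' := fun {a} ha => by
    have ha' : ρ a w = w := ha
    show ρ a⁻¹ w = w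
    conv_lhs => rw [← ha']
    rw [← Module.End.mul_apply, ← map_mul, inv_mul_cancel, map_one, Module.End.one_apply]

/-- the fixed space of a subgroup -/
def xunbalFix {V : Type} [AddCommGroup V] [Module K V] {H : Type} [Group H]
    (ρ : Representation K H V) (T : Subgroup H) : Submodule K V where
  carrier := {v | ∀ y ∈ T, ρ y v = v}
  zero_mem' := fun y _ => map_zero _
  add_mem' := fun {a b} ha hb y hy => by rw [map_add, ha y hy, hb y hy]
  smul_mem' := fun c v hv y hy => by rw [map_smul, hv y hy]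

theorem xunbal_zp {H : Type} [Group H] (h : H) (a : ℕ) (ha : h ^ (3 ^ a) = 1) :
    IsPGroup 3 (Subgroup.zpowers h) := by
  rintro ⟨g, n, rfl⟩
  refine ⟨a, Subtype.ext ?_⟩
  show (h ^ n) ^ (3 ^ a) = 1
  rw [← zpow_natCast, ← zpow_mul, mul_comm, zpow_mul, zpow_natCast, ha, one_zpow]

theorem unbal {V : Type} [AddCommGroup V] [Module K V] [Module.Finite K V]
    {H : Type} [Group H] [Finite H] [Group.IsSolvable H] (h13 : ¬ 13 ∣ Nat.card H) (ρ : Representation K H V) (hV : ∃ v : V, v ≠ 0) (hE : HEP ρ 3) :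
    ∃ (x : H) (a : ℕ), x ^ (3 ^ a) = 1 ∧ ed (ρ x) 3 ≠ ed (ρ x) 9 := by
  obtain ⟨T, hTm⟩ := exists_maximal_of_wellFoundedGT
    (fun T : Subgroup H => IsPGroup 3 T ∧ ∃ v : V, v ≠ 0 ∧ T ≤ xunbalSt ρ v)
    ⟨⊥, IsPGroup.of_bot, by obtain ⟨v, hv⟩ := hV; exact ⟨v, hv, bot_le⟩⟩
  obtain ⟨⟨hT, w0, hw0, hw0T⟩, hmax⟩ := hTm
  have hW : IsFix ρ T (xunbalFix ρ T) := fun v => Iff.rfl
  generalize xunbalFix ρ T = W at hW
  have hw0W : w0 ∈ W := (hW w0).2 fun y hy => hw0T hy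
  have hinv : ∀ h ∈ Subgroup.normalizer (T : Set H), ∀ w ∈ W, ρ h w ∈ W := fun h hh w hw => by
    refine (hW _).2 fun y hy => ?_
    have h1 : h⁻¹ * y * h ∈ T := by
      rw [Subgroup.mem_normalizer_iff.1 hh]
      simpa [mul_assoc] using hy
    have h2 := (hW w).1 hw _ h1
    rw [← Module.End.mul_apply, ← map_mul, show y * h = h * (h⁻¹ * y * h) by group, map_mul,
      Module.End.mul_apply, h2]
  have key : ∀ h ∈ Subgroup.normalizer (T : Set H), ∀ a : ℕ, h ^ (3 ^ a) = 1 → ∀ w ∈ W, w ≠ 0 →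
      ρ h w = w → h ∈ T := fun h hh a ha w hw hw1 hw2 => by
    have h1 : IsPGroup 3 (T ⊔ Subgroup.zpowers h : Subgroup H) :=
      hT.to_sup_of_normal_left' (xunbal_zp h a ha) (Subgroup.zpowers_le.2 hh)
    have h2 : T ⊔ Subgroup.zpowers h ≤ xunbalSt ρ w :=
      sup_le (fun y hy => (hW w).1 hw y hy) (Subgroup.zpowers_le.2 hw2)
    exact hmax ⟨h1, w, hw1, h2⟩ le_sup_left
      (Subgroup.mem_sup_right (Subgroup.mem_zpowers h))
  obtain ⟨σ, hσ⟩ := exists_res ρ (Subgroup.normalizer (T : Set H)) W hinv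
  have hF : HFP σ := fun h a v ha hv hv2 => by
    have h1 : (h : H) ∈ T := key h h.2 a (by rw [← Subgroup.coe_pow, ha]; rfl) v v.2
      (fun h0 => hv (Subtype.ext h0)) (by rw [← hσ, hv2])
    ext w
    rw [hσ, (hW w).1 w.2 _ h1]
    rfl
  have h3 : (3 : K) ≠ 0 := by decide
  have hEσ : HEP σ 3 := fun w => by
    by_cases hw : w = 0
    · exact ⟨1, by simp [hw]⟩
    obtain ⟨t, ht⟩ := hE w
    have hw' : (w : V) ≠ 0 := fun h0 => hw (Subtype.ext h0)
    have h1 : T ≤ xunbalSt ρ (w : V) := fun y hy => (hW w).1 w.2 y hy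
    have ht' : (3 : K) • ρ t⁻¹ w = w := by
      rw [← map_smul, ← ht, ← Module.End.mul_apply, ← map_mul, inv_mul_cancel, map_one,
        Module.End.one_apply]
    have h2 : T.map (MulAut.conj t).toMonoidHom ≤ xunbalSt ρ (w : V) := by
      rintro _ ⟨y, hy, rfl⟩
      have h4 : ρ y w = w := h1 hy
      show ρ (t * y * t⁻¹) w = w
      apply smul_right_injective V h3
      show (3 : K) • ρ (t * y * t⁻¹) w = (3 : K) • (w : V)
      rw [map_mul, map_mul, Module.End.mul_apply, Module.End.mul_apply, ← map_smul, ← map_smul,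
        ht', h4, ht]
    obtain ⟨c, hc, hc2⟩ := xunbal_conj _ T _ hT (hT.map _) h1 h2
      fun U hU hU1 hU2 => hmax ⟨hU, w, hw', hU1⟩ hU2
    have h5 : c⁻¹ * t ∈ Subgroup.normalizer (T : Set H) :=
      Subgroup.mem_normalizer_fintype fun y hy => by
        have := hc2 (t * y * t⁻¹) ⟨y, hy, rfl⟩
        simpa [mul_assoc] using this
    refine ⟨⟨_, h5⟩, Subtype.ext ?_⟩
    have h6 : ρ c⁻¹ w = w := (xunbalSt ρ (w : V)).inv_mem hc
    rw [hσ]
    show ρ (c⁻¹ * t) w = (3 : K) • (w : V)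
    rw [map_mul, Module.End.mul_apply, ht, map_smul, h6]
  obtain ⟨z, hz⟩ := m0 (fun h => h13 (h.trans (Subgroup.card_subgroup_dvd_card _))) σ
    ⟨⟨w0, hw0W⟩, fun h0 => hw0 (congrArg Subtype.val h0)⟩ hF hEσ
  have h27 : (3 : K) * (3 * 3) = 1 := by decide
  obtain ⟨e, a, hea, -, he⟩ := p_part 3 Nat.prime_three z
  have hz3 : σ (z ^ e) = σ z := he _ σ 1 (by
    refine LinearMap.ext fun w => ?_
    rw [pow_one, pow_three, Module.End.mul_apply, Module.End.mul_apply, hz, hz, hz, smul_smul,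
      smul_smul, mul_assoc, h27, one_smul, Module.End.one_apply])
  have hb : ∀ w ∈ W, ρ ((z ^ e : Subgroup.normalizer (T : Set H)) : H) w = (3 : K) • w :=
    fun w hw => by
      have := hσ (z ^ e) ⟨w, hw⟩
      rw [hz3, hz] at this
      exact this.symm
  have hea' : ((z ^ e : Subgroup.normalizer (T : Set H)) : H) ^ (3 ^ a) = 1 := by
    rw [← Subgroup.coe_pow, hea]; rfl
  have hbN := (z ^ e).2
  generalize ((z ^ e : Subgroup.normalizer (T : Set H)) : H) = b at hb hea' hbN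
  have hb3 : b ^ 3 ∈ T := by
    refine key _ (Subgroup.pow_mem _ hbN 3) a (by rw [← pow_mul, mul_comm, pow_mul, hea', one_pow])
      w0 hw0W hw0 ?_
    rw [pow_three, map_mul, map_mul, Module.End.mul_apply, Module.End.mul_apply, hb w0 hw0W,
      map_smul, hb w0 hw0W, map_smul, map_smul, hb w0 hw0W, smul_smul, smul_smul, mul_assoc, h27,
      one_smul]
  have hne : edOn W (ρ b) 3 ≠ edOn W (ρ b) 9 := fun h => by
    have h1 := (edOn_pos W (ρ b) 3).2 ⟨w0, hw0W, hw0, hb w0 hw0W⟩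
    rw [h] at h1
    obtain ⟨w, hw, hw1, hw2⟩ := (edOn_pos W (ρ b) 9).1 h1
    rw [hb w hw] at hw2
    have h2 : (3 : K) ≠ 9 := by decide
    exact h2 (smul_left_injective K hw1 hw2)
  obtain ⟨y, -, ⟨a', ha'⟩, hy⟩ := exists_unbal h13 ρ T hT b hbN hb3 W hW hne
  exact ⟨b * y, a', ha', hy⟩

end Pool.Agent.N9181
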